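import Pool.Agent.HAE.Defs

/-!
# HAE-ABEL: partial summation with a monotone weight

PROOF.  `L y = ∑_{q ≤ y} lam q = z y + e y`, `e 0 = 0`, `‖e y‖ ≤ E`.  `∑_{q=1}^n w q (L q - L (q-1)) = z ∑_{q=1}^n w q + w n e n + ∑_{q=1}^{n-1} (w q - w (q+1)) e q`, the last two
together `≤ E w 1 ≤ E`.  `|∑_{q=1}^n w q - ∫_0^n w| ≤ w 0 ≤ 1` for antitone `w ≥ 0`.
-/

set_option autoImplicit false

open Finset Filter Topology
open Pool.Agent.HAV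
open Pool.Agent.helper66.VK (ee)

namespace Pool.Agent.HAE

/-- the sum of an antitone function against its integral -/
private theorem abel_int (n : ℕ) (w : ℝ → ℝ) (hw : AntitoneOn w (Set.Icc 0 n))
    (h0 : ∀ u ∈ Set.Icc (0 : ℝ) n, 0 ≤ w u) (h1 : ∀ u ∈ Set.Icc (0 : ℝ) n, w u ≤ 1) :
    |∑ q ∈ Icc 1 n, w q - ∫ u in (0 : ℝ)..n, w u| ≤ 1 := by
  have hw' : AntitoneOn w (Set.Icc 0 (0 + n)) := by rwa [zero_add]
  have a1 := hw'.integral_le_sum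
  have a2 := hw'.sum_le_integral
  simp only [zero_add] at a1 a2
  have e1 : ∀ k : ℕ, ∑ q ∈ Icc 1 k, w q = ∑ i ∈ range k, w ((i + 1 : ℕ) : ℝ) := by
    intro k
    induction k with
    | zero => simp
    | succ k ih => rw [Finset.sum_Icc_succ_top (by omega), Finset.sum_range_succ, ih]
  have e2 : ∑ i ∈ range n, w ((i + 1 : ℕ) : ℝ) + w ((0 : ℕ) : ℝ) = ∑ i ∈ range n, w (i : ℝ) + w (n : ℝ) := by
    rw [← Finset.sum_range_succ' (fun i : ℕ => w i) n, Finset.sum_range_succ]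
  have m0 : ((0 : ℕ) : ℝ) ∈ Set.Icc (0 : ℝ) n := ⟨by simp, by simp⟩
  have mn : (n : ℝ) ∈ Set.Icc (0 : ℝ) n := ⟨by positivity, le_rfl⟩
  have b0 := h1 _ m0
  have bn := h0 _ mn
  rw [abs_le, e1]
  constructor <;> linarith

theorem abel (n : ℕ) (lam : ℕ → ℂ) (w : ℝ → ℝ) (hw : AntitoneOn w (Set.Icc 0 n))
    (h0 : ∀ u ∈ Set.Icc (0 : ℝ) n, 0 ≤ w u) (h1 : ∀ u ∈ Set.Icc (0 : ℝ) n, w u ≤ 1) (z : ℂ) (E : ℝ)
    (hE : ∀ y ≤ n, ‖∑ q ∈ Icc 1 y, lam q - z * (y : ℂ)‖ ≤ E) :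
    ‖∑ q ∈ Icc 1 n, ((w q : ℝ) : ℂ) * lam q - z * ((∫ u in (0 : ℝ)..n, w u : ℝ) : ℂ)‖ ≤ E + ‖z‖ := by
  obtain ⟨e, he⟩ : ∃ e : ℕ → ℂ, ∀ y, e y = ∑ q ∈ Icc 1 y, lam q - z * (y : ℂ) := ⟨_, fun _ => rfl⟩
  have hE' : ∀ y ≤ n, ‖e y‖ ≤ E := fun y hy => by rw [he]; exact hE y hy
  have hE0 : 0 ≤ E := (norm_nonneg _).trans (hE' 0 (Nat.zero_le n))
  have he0 : e 0 = 0 := by rw [he]; simp
  have hstep : ∀ m, e (m + 1) = e m + (lam (m + 1) - z) := by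
    intro m
    rw [he, he, Finset.sum_Icc_succ_top (by omega)]
    push_cast
    ring
  have hmem : ∀ m ≤ n, ((m : ℕ) : ℝ) ∈ Set.Icc (0 : ℝ) n := fun m hm =>
    ⟨Nat.cast_nonneg m, Nat.cast_le.2 hm⟩
  have hP : ∀ m ≤ n, ‖∑ q ∈ Icc 1 m, ((w q : ℝ) : ℂ) * (lam q - z) - ((w m : ℝ) : ℂ) * e m‖ ≤
      E * (1 - w m) := by
    intro m
    induction m with
    | zero =>
      intro hm
      have h2 : 0 ≤ E * (1 - w ((0 : ℕ) : ℝ)) := mul_nonneg hE0 (sub_nonneg.2 (h1 _ (hmem 0 hm)))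
      rw [he0]
      simpa using h2
    | succ m ih =>
      intro hm
      have hm' : m ≤ n := by omega
      have h2 := ih hm'
      have h3 : w ((m + 1 : ℕ) : ℝ) ≤ w (m : ℝ) := hw (hmem m hm') (hmem (m + 1) hm) (by push_cast; linarith)
      have h4 : ∑ q ∈ Icc 1 (m + 1), ((w q : ℝ) : ℂ) * (lam q - z) - ((w (m + 1 : ℕ) : ℝ) : ℂ) * e (m + 1) =
          (∑ q ∈ Icc 1 m, ((w q : ℝ) : ℂ) * (lam q - z) - ((w m : ℝ) : ℂ) * e m) +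
            (((w m - w (m + 1 : ℕ)) : ℝ) : ℂ) * e m := by
        rw [Finset.sum_Icc_succ_top (by omega), hstep m]
        push_cast
        ring
      rw [h4]
      refine (norm_add_le _ _).trans ?_
      have h5 : ‖(((w m - w (m + 1 : ℕ)) : ℝ) : ℂ) * e m‖ ≤ (w m - w (m + 1 : ℕ)) * E := by
        rw [norm_mul, Complex.norm_real, Real.norm_of_nonneg (by linarith)]
        exact mul_le_mul_of_nonneg_left (hE' m hm') (by linarith)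
      linarith
  have hS : ‖∑ q ∈ Icc 1 n, ((w q : ℝ) : ℂ) * (lam q - z)‖ ≤ E := by
    have h2 := hP n le_rfl
    have h3 : ‖((w n : ℝ) : ℂ) * e n‖ ≤ w n * E := by
      rw [norm_mul, Complex.norm_real, Real.norm_of_nonneg (h0 _ (hmem n le_rfl))]
      exact mul_le_mul_of_nonneg_left (hE' n le_rfl) (h0 _ (hmem n le_rfl))
    have h4 : ∑ q ∈ Icc 1 n, ((w q : ℝ) : ℂ) * (lam q - z) =
        (∑ q ∈ Icc 1 n, ((w q : ℝ) : ℂ) * (lam q - z) - ((w n : ℝ) : ℂ) * e n) + ((w n : ℝ) : ℂ) * e n := by ring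
    rw [h4]
    refine (norm_add_le _ _).trans ?_
    linarith
  have hI := abel_int n w hw h0 h1
  have h6 : ∑ q ∈ Icc 1 n, ((w q : ℝ) : ℂ) * lam q - z * ((∫ u in (0 : ℝ)..n, w u : ℝ) : ℂ) =
      ∑ q ∈ Icc 1 n, ((w q : ℝ) : ℂ) * (lam q - z) +
        z * ((∑ q ∈ Icc 1 n, w q - ∫ u in (0 : ℝ)..n, w u : ℝ) : ℂ) := by
    push_cast
    rw [mul_sub, Finset.mul_sum]
    have h7 : ∀ q ∈ Icc 1 n, ((w q : ℝ) : ℂ) * lam q = ((w q : ℝ) : ℂ) * (lam q - z) + z * ((w q : ℝ) : ℂ) :=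
      fun q _ => by ring
    rw [Finset.sum_congr rfl h7, Finset.sum_add_distrib]
    ring
  rw [h6]
  refine (norm_add_le _ _).trans (add_le_add hS ?_)
  rw [norm_mul, Complex.norm_real, Real.norm_eq_abs]
  calc ‖z‖ * |∑ q ∈ Icc 1 n, w q - ∫ u in (0 : ℝ)..n, w u| ≤ ‖z‖ * 1 :=
        mul_le_mul_of_nonneg_left hI (norm_nonneg z)
    _ = ‖z‖ := mul_one _

end Pool.Agent.HAE
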