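import Pool.Agent.HAE.GS1

/-!
# HAE-CB: the bound for the Fourier coefficients

PROOF.  `c N d h = 0` if no multiple `a` of `d` is `≤ QQ N`.  Otherwise `d ≤ QQ N = 2 √N + 2`.  For fixed `a` (a multiple of `d`) and `q` the inner sum is
`ee (- h q²/d) ∑_{k ∈ Reg N a q} ee (h k²/d)`; `Reg N a q = {k : 2|k| ≤ a, k² ≥ a² + q² - N}` is a union of at most two disjoint intervals `Ico u v`
with `v - u ≤ a + 1`, so by `gs1` it is `≤ 2 C ((a+1)/d + 1) √d (1 + log d) ≤ 6 C (a/d) √d (1 + log d)`.  Sum over the primes `q ≤ √N` with the weight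
`log q` (trivially `≤ √N log N`), over `a` with the weight `1/a` (there are `≤ QQ N/d` values of `a`): `‖c‖ ≤ C' √N log N (√N/d) (1/√d) log N`.
-/

set_option autoImplicit false

open Finset Filter Topology
open Pool.Agent.HAV
open Pool.Agent.helper66.VK (ee)

namespace Pool.Agent.HAE

private lemma CB_mem (N a q : ℕ) : ∃ m : ℕ, ∀ k : ℤ, k ∈ Reg N a q ↔ 2 * |k| ≤ (a : ℤ) ∧ (m : ℤ) ≤ |k| := by
  classical
  have hex : ∃ m : ℕ, a ^ 2 + q ^ 2 - N ≤ m ^ 2 := by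
    refine ⟨a ^ 2 + q ^ 2 - N, ?_⟩
    nlinarith [Nat.zero_le (a ^ 2 + q ^ 2 - N), sq_nonneg (a ^ 2 + q ^ 2 - N), Nat.le_self_pow (n := 2) (by norm_num) (a ^ 2 + q ^ 2 - N)]
  refine ⟨Nat.find hex, fun k => ?_⟩
  have h1 : (Nat.find hex : ℤ) ≤ |k| ↔ a ^ 2 + q ^ 2 - N ≤ k.natAbs ^ 2 := by
    rw [Int.abs_eq_natAbs]
    constructor
    · intro h
      have h2 : Nat.find hex ≤ k.natAbs := by exact_mod_cast h
      exact le_trans (Nat.find_spec hex) (Nat.pow_le_pow_left h2 2)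
    · intro h
      have h2 : Nat.find hex ≤ k.natAbs := Nat.find_le h
      exact_mod_cast h2
  have h3 : a ^ 2 + q ^ 2 - N ≤ k.natAbs ^ 2 ↔ (a : ℤ) ^ 2 + (q : ℤ) ^ 2 - k ^ 2 ≤ N := by
    rw [tsub_le_iff_left]
    have h4 : ((k.natAbs : ℤ)) ^ 2 = k ^ 2 := Int.natAbs_sq k
    constructor
    · intro h
      have : ((a ^ 2 + q ^ 2 : ℕ) : ℤ) ≤ ((N + k.natAbs ^ 2 : ℕ) : ℤ) := by exact_mod_cast h
      push_cast at this
      rw [sq_abs] at this
      linarith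
    · intro h
      have : ((a ^ 2 + q ^ 2 : ℕ) : ℤ) ≤ ((N + k.natAbs ^ 2 : ℕ) : ℤ) := by
        push_cast
        rw [sq_abs]
        linarith
      exact_mod_cast this
  unfold Reg ks
  simp only [mem_filter, mem_Icc]
  rw [h1, h3]
  constructor
  · rintro ⟨⟨_, h⟩, h'⟩
    exact ⟨h, h'⟩
  · rintro ⟨h, h'⟩
    have := abs_nonneg k
    refine ⟨⟨?_, h⟩, h'⟩
    rw [← abs_le]
    linarith

private lemma CB_gs (C0 : ℝ) (d h : ℕ) (hC0 : 0 ≤ C0) (hd : 1 ≤ d)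
    (hg : ∀ u v : ℤ, u ≤ v → ‖∑ k ∈ Ico u v, ee ((h : ℝ) * (k : ℝ) ^ 2 / d)‖ ≤
      C0 * (((v - u : ℤ) : ℝ) / d + 1) * Real.sqrt d * (1 + Real.log d)) (L : ℝ) (u v : ℤ) (huv : u ≤ v)
    (hL : ((v - u : ℤ) : ℝ) ≤ L) :
    ‖∑ k ∈ Ico u v, ee ((h : ℝ) * (k : ℝ) ^ 2 / d)‖ ≤ C0 * (L / d + 1) * Real.sqrt d * (1 + Real.log d) := by
  refine (hg u v huv).trans ?_
  have hd' : (1 : ℝ) ≤ d := by exact_mod_cast hd
  have hlog : 0 ≤ Real.log d := Real.log_nonneg hd'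
  have hd0 : (0 : ℝ) < d := by linarith
  gcongr

private lemma CB_sum (C0 : ℝ) (d h : ℕ) (hC0 : 0 ≤ C0) (hd : 1 ≤ d)
    (hg : ∀ u v : ℤ, u ≤ v → ‖∑ k ∈ Ico u v, ee ((h : ℝ) * (k : ℝ) ^ 2 / d)‖ ≤
      C0 * (((v - u : ℤ) : ℝ) / d + 1) * Real.sqrt d * (1 + Real.log d)) (N a q : ℕ) :
    ‖∑ k ∈ Reg N a q, ee ((h : ℝ) * (k : ℝ) ^ 2 / d)‖ ≤
      2 * (C0 * (((a : ℝ) + 1) / d + 1) * Real.sqrt d * (1 + Real.log d)) := by
  classical
  obtain ⟨m, hm⟩ := CB_mem N a q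
  have hd' : (1 : ℝ) ≤ d := by exact_mod_cast hd
  have hlog : 0 ≤ Real.log d := Real.log_nonneg hd'
  have hd0 : (0 : ℝ) < d := by linarith
  set B : ℝ := C0 * (((a : ℝ) + 1) / d + 1) * Real.sqrt d * (1 + Real.log d) with hB
  have hB0 : 0 ≤ B := by positivity
  have hM2 : 2 * (a / 2) ≤ a := Nat.mul_div_le a 2
  rcases Nat.eq_zero_or_pos m with h0 | h0
  · have he : Reg N a q = Ico (-((a / 2 : ℕ) : ℤ)) (((a / 2 : ℕ) : ℤ) + 1) := by
      ext k
      rw [hm k, mem_Ico, h0]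
      have := abs_nonneg k
      constructor
      · rintro ⟨h1, _⟩
        rcases abs_cases k with ⟨h3, h4⟩ | ⟨h3, h4⟩ <;> rw [h3] at h1 <;> constructor <;> omega
      · rintro ⟨h1, h2⟩
        refine ⟨?_, by simpa using this⟩
        rcases abs_cases k with ⟨h3, h4⟩ | ⟨h3, h4⟩ <;> rw [h3] <;> omega
    rw [he]
    have := CB_gs C0 d h hC0 hd hg ((a : ℝ) + 1) (-((a / 2 : ℕ) : ℤ)) (((a / 2 : ℕ) : ℤ) + 1) (by omega) (by
      have : ((((a / 2 : ℕ) : ℤ) + 1 - -((a / 2 : ℕ) : ℤ) : ℤ)) ≤ (a : ℤ) + 1 := by omega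
      exact_mod_cast this)
    linarith
  · rcases Nat.lt_or_ge (a / 2) m with h1 | h1
    · have he : Reg N a q = ∅ := by
        ext k
        rw [hm k]
        simp only [notMem_empty, iff_false, not_and, not_le]
        intro h2
        omega
      rw [he]
      simp only [sum_empty, norm_zero]
      positivity
    · have he : Reg N a q = Ico (m : ℤ) (((a / 2 : ℕ) : ℤ) + 1) ∪ Ico (-((a / 2 : ℕ) : ℤ)) (-(m : ℤ) + 1) := by
        ext k
        rw [hm k, mem_union, mem_Ico, mem_Ico]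
        constructor
        · rintro ⟨h1, h2⟩
          rcases abs_cases k with ⟨h3, h4⟩ | ⟨h3, h4⟩
          · left
            rw [h3] at h1 h2
            constructor <;> omega
          · right
            rw [h3] at h1 h2
            constructor <;> omega
        · rintro (⟨h2, h3⟩ | ⟨h2, h3⟩)
          · rcases abs_cases k with ⟨h5, h4⟩ | ⟨h5, h4⟩ <;> rw [h5] <;> constructor <;> omega
          · rcases abs_cases k with ⟨h5, h4⟩ | ⟨h5, h4⟩ <;> rw [h5] <;> constructor <;> omega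
      have hdis : Disjoint (Ico (m : ℤ) (((a / 2 : ℕ) : ℤ) + 1)) (Ico (-((a / 2 : ℕ) : ℤ)) (-(m : ℤ) + 1)) := by
        rw [Finset.disjoint_left]
        intro k hk hk'
        rw [mem_Ico] at hk hk'
        omega
      rw [he, sum_union hdis]
      refine (norm_add_le _ _).trans ?_
      have e1 := CB_gs C0 d h hC0 hd hg ((a : ℝ) + 1) (m : ℤ) (((a / 2 : ℕ) : ℤ) + 1) (by omega) (by
        have : ((((a / 2 : ℕ) : ℤ) + 1 - (m : ℤ) : ℤ)) ≤ (a : ℤ) + 1 := by omega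
        exact_mod_cast this)
      have e2 := CB_gs C0 d h hC0 hd hg ((a : ℝ) + 1) (-((a / 2 : ℕ) : ℤ)) (-(m : ℤ) + 1) (by omega) (by
        have : ((-(m : ℤ) + 1 - -((a / 2 : ℕ) : ℤ) : ℤ)) ≤ (a : ℤ) + 1 := by omega
        exact_mod_cast this)
      linarith

private lemma CB_inner (N d h a q : ℕ) :
    ‖∑ k ∈ Reg N a q, ee (-((h : ℝ) * ((q : ℝ) ^ 2 - (k : ℝ) ^ 2) / d))‖ =
      ‖∑ k ∈ Reg N a q, ee ((h : ℝ) * (k : ℝ) ^ 2 / d)‖ := by
  have : ∑ k ∈ Reg N a q, ee (-((h : ℝ) * ((q : ℝ) ^ 2 - (k : ℝ) ^ 2) / d)) =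
      ee (-((h : ℝ) * (q : ℝ) ^ 2 / d)) * ∑ k ∈ Reg N a q, ee ((h : ℝ) * (k : ℝ) ^ 2 / d) := by
    rw [mul_sum]
    refine sum_congr rfl fun k _ => ?_
    rw [← Pool.Agent.helper66.VK.ee_add]
    congr 1
    ring
  rw [this, norm_mul, Pool.Agent.helper66.VK.norm_ee, one_mul]

theorem cb : ∃ C : ℝ, 0 ≤ C ∧ ∀ N d h : ℕ, 2 ≤ N → 1 ≤ d → Nat.Coprime d h →
    ‖c N d h‖ ^ 2 ≤ C * (N : ℝ) ^ 2 * Real.log N ^ 4 / (d : ℝ) ^ 3 := by
  classical
  obtain ⟨C0, hC0, hgs⟩ := gs1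
  refine ⟨(120 * C0) ^ 2, by positivity, fun N d h hN hd hco => ?_⟩
  have hg := hgs d h hd hco
  have hd' : (1 : ℝ) ≤ d := by exact_mod_cast hd
  have hd0 : (0 : ℝ) < d := by linarith
  have hN' : (2 : ℝ) ≤ N := by exact_mod_cast hN
  have hlogN : Real.log 2 ≤ Real.log N := Real.log_le_log (by norm_num) hN'
  have hl2 : (0.6931471803 : ℝ) < Real.log 2 := Real.log_two_gt_d9
  have hlogN0 : 0 < Real.log N := by linarith
  have hlogd : 0 ≤ Real.log d := Real.log_nonneg hd'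
  -- sqrt
  have hs1 : 1 ≤ Nat.sqrt N := by
    rw [Nat.le_sqrt]; omega
  have hsR : ((Nat.sqrt N : ℕ) : ℝ) ≤ Real.sqrt N := Real.nat_sqrt_le_real_sqrt
  have hsN : Nat.sqrt N ≤ N := Nat.sqrt_le_self N
  have hQ : ((QQ N : ℕ) : ℝ) ≤ 4 * Real.sqrt N := by
    have h1 : QQ N ≤ 4 * Nat.sqrt N := by unfold QQ; omega
    have h2 : ((QQ N : ℕ) : ℝ) ≤ 4 * ((Nat.sqrt N : ℕ) : ℝ) := by exact_mod_cast h1
    linarith
  set As : Finset ℕ := (Icc 1 (QQ N)).filter (fun a => d ∣ a) with hAs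
  by_cases hdQ : QQ N < d
  · have hemp : As = ∅ := by
      rw [hAs, filter_eq_empty_iff]
      intro a ha hda
      rw [mem_Icc] at ha
      have := Nat.le_of_dvd (by omega) hda
      omega
    have : c N d h = 0 := by
      unfold c
      rw [← hAs, hemp, sum_empty]
    rw [this]
    simp only [norm_zero, ne_eq, OfNat.ofNat_ne_zero, not_false_eq_true, zero_pow]
    positivity
  push Not at hdQ
  have hld : 1 + Real.log d ≤ 5 * Real.log N := by
    have h1 : (d : ℝ) ≤ 4 * N := by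
      have h2 : d ≤ 4 * N := by
        have : QQ N ≤ 4 * Nat.sqrt N := by unfold QQ; omega
        omega
      exact_mod_cast h2
    have h2 : Real.log d ≤ Real.log (4 * N) := Real.log_le_log hd0 h1
    have h3 : Real.log (4 * N) = 2 * Real.log 2 + Real.log N := by
      rw [Real.log_mul (by norm_num) (by linarith), show (4 : ℝ) = 2 ^ 2 by norm_num, Real.log_pow]
      push_cast
      ring
    rw [h3] at h2
    linarith
  have hcardA : ((As.card : ℕ) : ℝ) ≤ 4 * Real.sqrt N / d := by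
    have h1 : As.card = QQ N / d := by
      rw [hAs, ← Nat.Ioc_filter_dvd_card_eq_div (QQ N) d]
      congr 1
    rw [h1]
    have h2 : ((QQ N / d : ℕ) : ℝ) ≤ ((QQ N : ℕ) : ℝ) / d := Nat.cast_div_le
    refine h2.trans ?_
    gcongr
  have hlogq : ∀ q ∈ pr (Nat.sqrt N), 0 ≤ Real.log q ∧ Real.log q ≤ Real.log N := by
    intro q hq
    unfold pr at hq
    rw [mem_filter, mem_Icc] at hq
    have h1 : (1 : ℝ) ≤ q := by exact_mod_cast hq.1.1
    have h2 : (q : ℝ) ≤ N := by exact_mod_cast hq.1.2.trans hsN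
    exact ⟨Real.log_nonneg h1, Real.log_le_log (by linarith) h2⟩
  have hcardq : (((pr (Nat.sqrt N)).card : ℕ) : ℝ) ≤ Real.sqrt N := by
    have h1 : (pr (Nat.sqrt N)).card ≤ Nat.sqrt N := by
      unfold pr
      refine (card_filter_le _ _).trans ?_
      simp
    have h2 : (((pr (Nat.sqrt N)).card : ℕ) : ℝ) ≤ ((Nat.sqrt N : ℕ) : ℝ) := by exact_mod_cast h1
    linarith
  have hsq0 : 0 ≤ Real.sqrt N := Real.sqrt_nonneg _
  -- term bound
  have hterm : ∀ a ∈ As, ‖(1 / (a : ℂ)) * ∑ q ∈ pr (Nat.sqrt N), ((Real.log q : ℝ) : ℂ) *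
      ∑ k ∈ Reg N a q, ee (-((h : ℝ) * ((q : ℝ) ^ 2 - (k : ℝ) ^ 2) / d))‖ ≤
      30 * C0 * Real.sqrt d / d * Real.sqrt N * Real.log N ^ 2 := by
    intro a ha
    rw [hAs, mem_filter, mem_Icc] at ha
    have had : d ≤ a := Nat.le_of_dvd (by omega) ha.2
    have ha1 : (1 : ℝ) ≤ a := by exact_mod_cast ha.1.1
    have ha0 : (0 : ℝ) < a := by linarith
    have hadR : (d : ℝ) ≤ a := by exact_mod_cast had
    have hin : ∀ q ∈ pr (Nat.sqrt N), ‖((Real.log q : ℝ) : ℂ) *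
        ∑ k ∈ Reg N a q, ee (-((h : ℝ) * ((q : ℝ) ^ 2 - (k : ℝ) ^ 2) / d))‖ ≤
        Real.log N * (6 * C0 * ((a : ℝ) / d) * Real.sqrt d * (5 * Real.log N)) := by
      intro q hq
      obtain ⟨hq0, hq1⟩ := hlogq q hq
      rw [norm_mul, Complex.norm_real, Real.norm_of_nonneg hq0, CB_inner]
      have h1 := CB_sum C0 d h hC0 hd hg N a q
      have h2 : 2 * (C0 * (((a : ℝ) + 1) / d + 1) * Real.sqrt d * (1 + Real.log d)) ≤
          6 * C0 * ((a : ℝ) / d) * Real.sqrt d * (5 * Real.log N) := by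
        have h3 : ((a : ℝ) + 1) / d + 1 ≤ 3 * ((a : ℝ) / d) := by
          rw [div_add_one hd0.ne', ← mul_div_assoc]
          gcongr
          linarith
        have h4 : 2 * (C0 * (((a : ℝ) + 1) / d + 1) * Real.sqrt d * (1 + Real.log d)) ≤
            2 * (C0 * (3 * ((a : ℝ) / d)) * Real.sqrt d * (5 * Real.log N)) := by
          gcongr
        refine h4.trans (le_of_eq ?_)
        ring
      exact mul_le_mul hq1 (h1.trans h2) (norm_nonneg _) hlogN0.le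
    rw [norm_mul]
    have h5 : ‖(1 / (a : ℂ))‖ = 1 / (a : ℝ) := by
      rw [norm_div, norm_one, Complex.norm_natCast]
    rw [h5]
    have h6 : ‖∑ q ∈ pr (Nat.sqrt N), ((Real.log q : ℝ) : ℂ) *
        ∑ k ∈ Reg N a q, ee (-((h : ℝ) * ((q : ℝ) ^ 2 - (k : ℝ) ^ 2) / d))‖ ≤
        Real.sqrt N * (Real.log N * (6 * C0 * ((a : ℝ) / d) * Real.sqrt d * (5 * Real.log N))) := by
      refine (norm_sum_le _ _).trans ?_
      refine (sum_le_card_nsmul _ _ _ hin).trans ?_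
      rw [nsmul_eq_mul]
      gcongr
    calc 1 / (a : ℝ) * ‖∑ q ∈ pr (Nat.sqrt N), ((Real.log q : ℝ) : ℂ) *
        ∑ k ∈ Reg N a q, ee (-((h : ℝ) * ((q : ℝ) ^ 2 - (k : ℝ) ^ 2) / d))‖
        ≤ 1 / (a : ℝ) * (Real.sqrt N * (Real.log N * (6 * C0 * ((a : ℝ) / d) * Real.sqrt d * (5 * Real.log N)))) := by
          gcongr
      _ = 30 * C0 * Real.sqrt d / d * Real.sqrt N * Real.log N ^ 2 := by
          field_simp
          ring
  have hnorm : ‖c N d h‖ ≤ 120 * C0 * N * Real.log N ^ 2 * Real.sqrt d / d ^ 2 := by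
    unfold c
    rw [← hAs]
    refine (norm_sum_le _ _).trans ?_
    refine (sum_le_card_nsmul _ _ _ hterm).trans ?_
    rw [nsmul_eq_mul]
    have h1 : (0 : ℝ) ≤ 30 * C0 * Real.sqrt d / d * Real.sqrt N * Real.log N ^ 2 := by positivity
    refine (mul_le_mul_of_nonneg_right hcardA h1).trans (le_of_eq ?_)
    have h2 : Real.sqrt N * Real.sqrt N = N := Real.mul_self_sqrt (by linarith)
    calc 4 * Real.sqrt N / d * (30 * C0 * Real.sqrt d / d * Real.sqrt N * Real.log N ^ 2)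
        = 120 * C0 * (Real.sqrt N * Real.sqrt N) * Real.log N ^ 2 * Real.sqrt d / d ^ 2 := by
          field_simp
          ring
      _ = _ := by rw [h2]
  calc ‖c N d h‖ ^ 2 ≤ (120 * C0 * N * Real.log N ^ 2 * Real.sqrt d / d ^ 2) ^ 2 := by
        gcongr
    _ = (120 * C0) ^ 2 * (N : ℝ) ^ 2 * Real.log N ^ 4 * (Real.sqrt d * Real.sqrt d) / (d : ℝ) ^ 4 := by
        ring
    _ = (120 * C0) ^ 2 * (N : ℝ) ^ 2 * Real.log N ^ 4 / (d : ℝ) ^ 3 := by
        rw [Real.mul_self_sqrt hd0.le]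
        field_simp

end Pool.Agent.HAE
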