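import Pool.Agent.HAV.Defs
import Pool.Agent.helper66.VK.Defs

/-!
# Project HAE (MP_9fc08c_nt): almost all primes

For all primes `p ≤ X` with `O(X/(log X)^A)` exceptions `∑_{q prime, q² < p} H(4p - 4q²) ∼ (π²/6) SS(p) p/log p`.
-/

open Finset
open Pool.Agent.HAV
open Pool.Agent.helper66.VK (ee)

namespace Pool.Agent.HAE

/-- `F(n) = ∑_{q prime, q² < n} log q · N0(n - q²)`. -/
noncomputable def F (n : ℕ) : ℝ := ∑ q ∈ qr n, Real.log q * N0 (n - q ^ 2)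

open Classical in
/-- The `k` with `2 |k| ≤ a` and `a² + q² - k² ≤ N`. -/
noncomputable def Reg (N a q : ℕ) : Finset ℤ := (ks a).filter (fun k => (a : ℤ) ^ 2 + (q : ℤ) ^ 2 - k ^ 2 ≤ N)

open Classical in
/-- The function `F` with the region fixed at the scale `N`. -/
noncomputable def FN (N n : ℕ) : ℝ :=
  ∑ q ∈ pr (Nat.sqrt N), Real.log q * ∑ a ∈ Icc 1 (QQ N),
    (((Reg N a q).filter (fun k => (a : ℤ) ∣ (n : ℤ) - (q : ℤ) ^ 2 + k ^ 2)).card : ℝ)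

/-- `S_d(h) = ∑_{r mod d, (r,d) = 1} e(- h r²/d)`. -/
noncomputable def S (d h : ℕ) : ℂ := ∑ r ∈ (range d).filter (Nat.Coprime d), ee (-((h : ℝ) * (r : ℝ) ^ 2 / d))

/-- `G_d(h) = ∑_{k mod d} e(h k²/d)`. -/
noncomputable def GG (d h : ℕ) : ℂ := ∑ k ∈ range d, ee ((h : ℝ) * (k : ℝ) ^ 2 / d)

/-- The Fourier coefficient of `FN N` at the fraction `h/d`. -/
noncomputable def c (N d h : ℕ) : ℂ :=
  ∑ a ∈ (Icc 1 (QQ N)).filter (fun a => d ∣ a), (1 / (a : ℂ)) * ∑ q ∈ pr (Nat.sqrt N), ((Real.log q : ℝ) : ℂ) *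
    ∑ k ∈ Reg N a q, ee (-((h : ℝ) * ((q : ℝ) ^ 2 - (k : ℝ) ^ 2) / d))

/-- `A_d(n) = (1/(φ(d) d²)) ∑_{h mod d, (h,d) = 1} S_d(h) G_d(h) e(h n/d)`. -/
noncomputable def AA (d n : ℕ) : ℂ :=
  (∑ h ∈ (range d).filter (Nat.Coprime d), S d h * GG d h * ee ((n : ℝ) * ((h : ℝ) / d))) /
    ((d.totient : ℂ) * (d : ℂ) ^ 2)

open Classical in
/-- The number of `(r, k)` modulo `e` with `r` prime to `e` and `r² - k² = n`. -/
noncomputable def R (e n : ℕ) : ℕ :=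
  (((range e) ×ˢ (range e)).filter (fun x : ℕ × ℕ => Nat.Coprime e x.1 ∧
    (e : ℤ) ∣ (n : ℤ) + (x.2 : ℤ) ^ 2 - (x.1 : ℤ) ^ 2)).card

/-- The local term at an odd prime `ℓ`: `- (1 + (-p/ℓ))/(ℓ (ℓ - 1))`. -/
noncomputable def loc (p l : ℕ) : ℝ := -(1 + (jacobiSym (-(p : ℤ)) l : ℝ)) / ((l : ℝ) * ((l : ℝ) - 1))

open Classical in
/-- The closed form of `A_d(p)`: nonzero for `d = m` and `d = 4m`, `m` odd and squarefree. -/
noncomputable def aa (d p : ℕ) : ℝ :=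
  if Squarefree d ∧ Odd d then ∏ l ∈ d.primeFactors, loc p l
  else if 4 ∣ d ∧ Squarefree (d / 4) ∧ Odd (d / 4) then
    (ZMod.χ₄ (p : ZMod 4) : ℝ) / 4 * ∏ l ∈ (d / 4).primeFactors, loc p l
  else 0

/-- The singular series of the prime `p`. -/
noncomputable def SS (p : ℕ) : ℝ :=
  ∏' l : Nat.Primes, (if (l : ℕ) = 2 then 1 + (ZMod.χ₄ (p : ZMod 4) : ℝ) / 4 else 1 + loc p l)

/-- `J(Y, a)`: the measure of the `s ∈ [-1/2, 1/2]` with `a² (1 - s²) ≤ Y`. -/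
noncomputable def J (Y a : ℝ) : ℝ :=
  (MeasureTheory.volume {s : ℝ | s ∈ Set.Icc (-(1 / 2) : ℝ) (1 / 2) ∧ a ^ 2 * (1 - s ^ 2) ≤ Y}).toReal

/-- `Φ_N(a) = ∫_0^{√N} J(N - u², a) du`. -/
noncomputable def Phi (N : ℕ) (a : ℝ) : ℝ := ∫ u in (0 : ℝ)..(Real.sqrt N), J ((N : ℝ) - u ^ 2) a

end Pool.Agent.HAE
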