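import Pool.Agent.helper73.BV.Farey
import Pool.Agent.HAE.Defs

/-!
# HAE-LSD: the dual large sieve

PROOF.  Duality from `farey_ls` (`Pool/Agent/helper73/BV/Farey.lean`).  Let `g n = ∑_d ∑_h b d h ee (n h/d)` and `U = ∑_n ‖g n‖²`.
`U = ∑_d ∑_h b d h ∑_n conj (g n) ee (n h/d)`, Cauchy-Schwarz: `U² ≤ (∑ ‖b‖²) (∑_d ∑_h ‖∑_n conj (g n) ee (n h/d)‖²)
≤ (∑ ‖b‖²) 10 (K + Q²) U`.
-/

set_option autoImplicit false

open Finset Filter Topology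
open Pool.Agent.HAV
open Pool.Agent.helper66.VK (ee)

namespace Pool.Agent.HAE

/-- Cauchy-Schwarz for double sums -/
private lemma LSD_cs (s : Finset ℕ) (t : ℕ → Finset ℕ) (x y : ℕ → ℕ → ℝ) :
    (∑ d ∈ s, ∑ h ∈ t d, x d h * y d h) ^ 2 ≤
      (∑ d ∈ s, ∑ h ∈ t d, x d h ^ 2) * ∑ d ∈ s, ∑ h ∈ t d, y d h ^ 2 := by
  have h1 := Finset.sum_mul_sq_le_sq_mul_sq (s.sigma t) (fun z : (Σ _ : ℕ, ℕ) => x z.1 z.2)
    (fun z => y z.1 z.2)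
  rw [Finset.sum_sigma, Finset.sum_sigma, Finset.sum_sigma] at h1
  exact h1

theorem lsd (Q M K : ℕ) (hK : 1 ≤ K) (b : ℕ → ℕ → ℂ) :
    ∑ n ∈ Ioc M (M + K), ‖∑ d ∈ Icc 1 Q, ∑ h ∈ (range d).filter (Nat.Coprime d),
        b d h * ee ((n : ℝ) * ((h : ℝ) / d))‖ ^ 2 ≤
      10 * (K + (Q : ℝ) ^ 2) * ∑ d ∈ Icc 1 Q, ∑ h ∈ (range d).filter (Nat.Coprime d), ‖b d h‖ ^ 2 := by
  classical
  obtain ⟨g, hg⟩ : ∃ g : ℕ → ℂ, ∀ n : ℕ, g n = ∑ d ∈ Icc 1 Q, ∑ h ∈ (range d).filter (Nat.Coprime d),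
      b d h * ee ((n : ℝ) * ((h : ℝ) / d)) := ⟨_, fun n => rfl⟩
  obtain ⟨G, hG⟩ : ∃ G : ℕ → ℕ → ℂ, ∀ d h : ℕ, G d h = ∑ n ∈ Ioc M (M + K),
      (starRingEnd ℂ) (g n) * ee ((n : ℝ) * ((h : ℝ) / d)) := ⟨_, fun d h => rfl⟩
  simp only [← hg]
  have hfl : ∑ q ∈ Icc 1 Q, ∑ h ∈ (range q).filter (Nat.Coprime q), ‖G q h‖ ^ 2 ≤
      10 * (K + (Q : ℝ) ^ 2) * ∑ n ∈ Ioc M (M + K), ‖g n‖ ^ 2 := by
    have h1 := BVM.farey_ls Q M K hK (fun n => (starRingEnd ℂ) (g n))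
    simp only [RCLike.norm_conj] at h1
    simp only [hG]
    exact h1
  have h2 : ((∑ n ∈ Ioc M (M + K), ‖g n‖ ^ 2 : ℝ) : ℂ) =
      ∑ d ∈ Icc 1 Q, ∑ h ∈ (range d).filter (Nat.Coprime d), b d h * G d h := by
    have e3 : ∀ (n : ℕ) (z : ℂ), z * g n = ∑ d ∈ Icc 1 Q, ∑ h ∈ (range d).filter (Nat.Coprime d),
        b d h * (z * ee ((n : ℝ) * ((h : ℝ) / d))) := by
      intro n z
      rw [hg n, Finset.mul_sum]
      refine Finset.sum_congr rfl fun d _ => ?_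
      rw [Finset.mul_sum]
      refine Finset.sum_congr rfl fun h _ => ?_
      ring
    have e1 : ∀ n, ((‖g n‖ ^ 2 : ℝ) : ℂ) = ∑ d ∈ Icc 1 Q, ∑ h ∈ (range d).filter (Nat.Coprime d),
        b d h * ((starRingEnd ℂ) (g n) * ee ((n : ℝ) * ((h : ℝ) / d))) := by
      intro n
      have e2 : ((‖g n‖ ^ 2 : ℝ) : ℂ) = (starRingEnd ℂ) (g n) * g n := by
        rw [mul_comm, Complex.mul_conj, Complex.normSq_eq_norm_sq]
      rw [e2]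
      exact e3 n _
    rw [Complex.ofReal_sum, Finset.sum_congr rfl fun n _ => e1 n, Finset.sum_comm]
    refine Finset.sum_congr rfl fun d _ => ?_
    rw [Finset.sum_comm]
    refine Finset.sum_congr rfl fun h _ => ?_
    rw [hG, Finset.mul_sum]
  set U : ℝ := ∑ n ∈ Ioc M (M + K), ‖g n‖ ^ 2 with hU
  set B : ℝ := ∑ d ∈ Icc 1 Q, ∑ h ∈ (range d).filter (Nat.Coprime d), ‖b d h‖ ^ 2 with hB
  have hU0 : 0 ≤ U := Finset.sum_nonneg fun n _ => by positivity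
  have hB0 : 0 ≤ B := Finset.sum_nonneg fun d _ => Finset.sum_nonneg fun h _ => by positivity
  have h3 : U ≤ ∑ d ∈ Icc 1 Q, ∑ h ∈ (range d).filter (Nat.Coprime d), ‖b d h‖ * ‖G d h‖ := by
    have e1 : ‖(U : ℂ)‖ = U := by
      rw [Complex.norm_real, Real.norm_of_nonneg hU0]
    rw [← e1, h2]
    refine (norm_sum_le _ _).trans (Finset.sum_le_sum fun d _ => ?_)
    refine (norm_sum_le _ _).trans (Finset.sum_le_sum fun h _ => ?_)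
    rw [norm_mul]
  have h4 : U ^ 2 ≤ B * (10 * (K + (Q : ℝ) ^ 2) * U) := by
    calc U ^ 2 ≤ (∑ d ∈ Icc 1 Q, ∑ h ∈ (range d).filter (Nat.Coprime d),
          ‖b d h‖ * ‖G d h‖) ^ 2 := pow_le_pow_left₀ hU0 h3 2
      _ ≤ B * ∑ d ∈ Icc 1 Q, ∑ h ∈ (range d).filter (Nat.Coprime d), ‖G d h‖ ^ 2 :=
          LSD_cs _ _ (fun d h => ‖b d h‖) (fun d h => ‖G d h‖)
      _ ≤ B * (10 * (K + (Q : ℝ) ^ 2) * U) := mul_le_mul_of_nonneg_left hfl hB0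
  rcases hU0.eq_or_lt with h0 | h0
  · rw [← h0]
    positivity
  · have h5 : U * U ≤ (10 * (K + (Q : ℝ) ^ 2) * B) * U := by nlinarith [h4]
    exact le_of_mul_le_mul_right h5 h0

end Pool.Agent.HAE
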