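import Pool.Agent.HAE.FOU
import Pool.Agent.HAE.LSD
import Pool.Agent.HAE.CB

/-!
# HAE-ASM1: the large denominators in mean square

PROOF.  `fourier`; `c N d h = 0` for `d > QQ N` (no multiple).  So the difference is `∑_{D < d ≤ QQ N} ∑_h c N d h ee (n h/d)`; `lsd` with `Q = QQ N`, `b d h = c N d h` for `d > D`, `0` otherwise; `K + (QQ N)² ≤ C N`;
`∑_{d > D} ∑_h ‖c‖² ≤ ∑_{d > D} d · C N² log⁴ N/d³ ≤ C N² log⁴ N/D`.
-/

set_option autoImplicit false

open Finset Filter Topology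
open Pool.Agent.HAV
open Pool.Agent.helper66.VK (ee)

namespace Pool.Agent.HAE

/-- the coefficients vanish for large denominators -/
private theorem ASM1_c_zero {N d h : ℕ} (hd : QQ N < d) : c N d h = 0 := by
  unfold c
  have h1 : (Icc 1 (QQ N)).filter (fun a => d ∣ a) = ∅ := by
    rw [Finset.filter_eq_empty_iff]
    intro a ha hda
    rw [Finset.mem_Icc] at ha
    have := Nat.le_of_dvd (by omega) hda
    omega
  rw [h1, Finset.sum_empty]

/-- the truncated sum as a full sum -/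
private theorem ASM1_diff (N D n : ℕ) :
    (FN N n : ℂ) - ∑ d ∈ Icc 1 D, ∑ h ∈ (range d).filter (Nat.Coprime d),
      c N d h * ee ((n : ℝ) * ((h : ℝ) / d)) =
    ∑ d ∈ Icc 1 (QQ N), ∑ h ∈ (range d).filter (Nat.Coprime d),
      (if D < d then c N d h else 0) * ee ((n : ℝ) * ((h : ℝ) / d)) := by
  have h1 : ∑ d ∈ Icc 1 D, ∑ h ∈ (range d).filter (Nat.Coprime d),
      c N d h * ee ((n : ℝ) * ((h : ℝ) / d)) =
      ∑ d ∈ Icc 1 (QQ N), ∑ h ∈ (range d).filter (Nat.Coprime d),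
      (if D < d then 0 else c N d h) * ee ((n : ℝ) * ((h : ℝ) / d)) := by
    have h2 : ∑ d ∈ Icc 1 D, ∑ h ∈ (range d).filter (Nat.Coprime d),
        c N d h * ee ((n : ℝ) * ((h : ℝ) / d)) =
        ∑ d ∈ (Icc 1 D).filter (fun d => d ≤ QQ N), ∑ h ∈ (range d).filter (Nat.Coprime d),
        c N d h * ee ((n : ℝ) * ((h : ℝ) / d)) := by
      rw [Finset.sum_filter]
      refine Finset.sum_congr rfl fun d _ => ?_
      by_cases hd : d ≤ QQ N
      · rw [if_pos hd]
      · rw [if_neg hd]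
        refine Finset.sum_eq_zero fun h _ => ?_
        rw [ASM1_c_zero (by omega), zero_mul]
    have h3 : ∑ d ∈ Icc 1 (QQ N), ∑ h ∈ (range d).filter (Nat.Coprime d),
        (if D < d then 0 else c N d h) * ee ((n : ℝ) * ((h : ℝ) / d)) =
        ∑ d ∈ (Icc 1 (QQ N)).filter (fun d => d ≤ D), ∑ h ∈ (range d).filter (Nat.Coprime d),
        c N d h * ee ((n : ℝ) * ((h : ℝ) / d)) := by
      rw [Finset.sum_filter]
      refine Finset.sum_congr rfl fun d _ => ?_
      by_cases hd : d ≤ D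
      · rw [if_pos hd]
        refine Finset.sum_congr rfl fun h _ => ?_
        rw [if_neg (by omega)]
      · rw [if_neg hd]
        refine Finset.sum_eq_zero fun h _ => ?_
        rw [if_pos (by omega), zero_mul]
    rw [h2, h3]
    refine Finset.sum_congr ?_ fun _ _ => rfl
    ext d
    simp only [Finset.mem_filter, Finset.mem_Icc]
    omega
  rw [h1, fourier, ← Finset.sum_sub_distrib]
  refine Finset.sum_congr rfl fun d _ => ?_
  rw [← Finset.sum_sub_distrib]
  refine Finset.sum_congr rfl fun h _ => ?_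
  by_cases hd : D < d
  · rw [if_pos hd, if_pos hd]
    ring
  · rw [if_neg hd, if_neg hd]
    ring

private theorem ASM1_QQ {N : ℕ} (hN : 2 ≤ N) : ((QQ N : ℕ) : ℝ) ^ 2 ≤ 16 * N := by
  have h1 : 1 ≤ Nat.sqrt N := by
    rw [Nat.le_sqrt]
    omega
  have h2 : QQ N ≤ 4 * Nat.sqrt N := by
    unfold QQ
    omega
  have h3 : QQ N ^ 2 ≤ 16 * N := by
    calc QQ N ^ 2 ≤ (4 * Nat.sqrt N) ^ 2 := Nat.pow_le_pow_left h2 2
      _ = 16 * Nat.sqrt N ^ 2 := by ring
      _ ≤ 16 * N := Nat.mul_le_mul_left 16 (Nat.sqrt_le' N)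
  exact_mod_cast h3

theorem tail_sq : ∃ C : ℝ, 0 ≤ C ∧ ∀ N K D : ℕ, 2 ≤ N → 1 ≤ K → K ≤ N → 1 ≤ D →
    ∑ n ∈ Ioc N (N + K), ‖(FN N n : ℂ) - ∑ d ∈ Icc 1 D, ∑ h ∈ (range d).filter (Nat.Coprime d),
      c N d h * ee ((n : ℝ) * ((h : ℝ) / d))‖ ^ 2 ≤ C * (N : ℝ) ^ 3 * Real.log N ^ 4 / D := by
  obtain ⟨C, hC0, hC⟩ := cb
  refine ⟨170 * C, by positivity, fun N K D hN hK hKN hD => ?_⟩
  have hN0 : (0 : ℝ) < N := by
    have : 0 < N := by omega
    exact_mod_cast this
  have hD0 : (0 : ℝ) < D := by exact_mod_cast hD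
  have hL : 0 ≤ Real.log (N : ℝ) ^ 4 := by positivity
  have h1 : ∑ n ∈ Ioc N (N + K), ‖(FN N n : ℂ) - ∑ d ∈ Icc 1 D,
      ∑ h ∈ (range d).filter (Nat.Coprime d), c N d h * ee ((n : ℝ) * ((h : ℝ) / d))‖ ^ 2 ≤
      10 * (K + ((QQ N : ℕ) : ℝ) ^ 2) * ∑ d ∈ Icc 1 (QQ N),
        ∑ h ∈ (range d).filter (Nat.Coprime d), ‖(if D < d then c N d h else 0)‖ ^ 2 := by
    refine le_trans (le_of_eq ?_) (lsd (QQ N) N K hK (fun d h => if D < d then c N d h else 0))
    refine Finset.sum_congr rfl fun n _ => ?_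
    rw [ASM1_diff]
  set E : ℝ := C * (N : ℝ) ^ 2 * Real.log N ^ 4 with hE
  have hE0 : 0 ≤ E := by positivity
  have h2 : ∑ d ∈ Icc 1 (QQ N), ∑ h ∈ (range d).filter (Nat.Coprime d),
      ‖(if D < d then c N d h else 0)‖ ^ 2 ≤ E / D := by
    have h3 : ∀ d ∈ Icc 1 (QQ N), ∑ h ∈ (range d).filter (Nat.Coprime d),
        ‖(if D < d then c N d h else 0)‖ ^ 2 ≤ if D < d then E * ((d : ℝ) ^ 2)⁻¹ else 0 := by
      intro d hd
      rw [Finset.mem_Icc] at hd
      by_cases hDd : D < d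
      · rw [if_pos hDd]
        have hd0 : (0 : ℝ) < d := by
          have : 0 < d := by omega
          exact_mod_cast this
        have h4 : ∀ h ∈ (range d).filter (Nat.Coprime d),
            ‖(if D < d then c N d h else 0)‖ ^ 2 ≤ E / (d : ℝ) ^ 3 := by
          intro h hh
          rw [if_pos hDd]
          exact hC N d h hN hd.1 (Finset.mem_filter.1 hh).2
        calc ∑ h ∈ (range d).filter (Nat.Coprime d), ‖(if D < d then c N d h else 0)‖ ^ 2
            ≤ ∑ h ∈ (range d).filter (Nat.Coprime d), E / (d : ℝ) ^ 3 := Finset.sum_le_sum h4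
          _ = (((range d).filter (Nat.Coprime d)).card : ℝ) * (E / (d : ℝ) ^ 3) := by
            rw [Finset.sum_const, nsmul_eq_mul]
          _ ≤ (d : ℝ) * (E / (d : ℝ) ^ 3) := by
            refine mul_le_mul_of_nonneg_right ?_ (by positivity)
            have h5 : ((range d).filter (Nat.Coprime d)).card ≤ d :=
              (Finset.card_filter_le _ _).trans (by rw [Finset.card_range])
            exact_mod_cast h5
          _ = E * ((d : ℝ) ^ 2)⁻¹ := by
            field_simp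
      · rw [if_neg hDd]
        refine le_of_eq (Finset.sum_eq_zero fun h _ => ?_)
        rw [if_neg hDd]
        simp
    refine (Finset.sum_le_sum h3).trans ?_
    rw [← Finset.sum_filter]
    have h6 : (Icc 1 (QQ N)).filter (fun d => D < d) = Ioc D (QQ N) := by
      ext d
      simp only [Finset.mem_filter, Finset.mem_Icc, Finset.mem_Ioc]
      omega
    rw [h6, ← Finset.mul_sum]
    by_cases hDQ : D ≤ QQ N
    · have h7 := sum_Ioc_inv_sq_le_sub (α := ℝ) (k := D) (n := QQ N) (by omega) hDQ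
      have h8 : (0 : ℝ) ≤ ((QQ N : ℕ) : ℝ)⁻¹ := by positivity
      calc E * ∑ i ∈ Ioc D (QQ N), ((i : ℝ) ^ 2)⁻¹ ≤ E * (D : ℝ)⁻¹ :=
            mul_le_mul_of_nonneg_left (by linarith) hE0
        _ = E / D := by rw [div_eq_mul_inv]
    · rw [Finset.Ioc_eq_empty (by omega), Finset.sum_empty, mul_zero]
      positivity
  have h9 : 10 * ((K : ℝ) + ((QQ N : ℕ) : ℝ) ^ 2) ≤ 170 * N := by
    have h10 := ASM1_QQ hN
    have h11 : (K : ℝ) ≤ N := by exact_mod_cast hKN
    linarith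
  have h12 : 0 ≤ ∑ d ∈ Icc 1 (QQ N), ∑ h ∈ (range d).filter (Nat.Coprime d),
      ‖(if D < d then c N d h else 0)‖ ^ 2 :=
    Finset.sum_nonneg fun _ _ => Finset.sum_nonneg fun _ _ => by positivity
  calc _ ≤ 10 * (K + ((QQ N : ℕ) : ℝ) ^ 2) * ∑ d ∈ Icc 1 (QQ N),
        ∑ h ∈ (range d).filter (Nat.Coprime d), ‖(if D < d then c N d h else 0)‖ ^ 2 := h1
    _ ≤ 170 * N * (E / D) := mul_le_mul h9 h2 h12 (by positivity)
    _ = 170 * C * (N : ℝ) ^ 3 * Real.log N ^ 4 / D := by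
      rw [hE]
      ring

end Pool.Agent.HAE
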