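import Pool.Agent.HAE.Defs

/-!
# HAE-SSA2: `R` is multiplicative

PROOF.  Chinese remainder theorem for the pairs `(r, k)`.
-/

set_option autoImplicit false

open Finset Filter Topology
open Pool.Agent.HAV
open Pool.Agent.helper66.VK (ee)

namespace Pool.Agent.HAE

theorem R_one (n : ℕ) : R 1 n = 1 := by
  unfold R
  rw [Finset.card_eq_one]
  refine ⟨(0, 0), ?_⟩
  ext ⟨a, b⟩
  simp only [Finset.mem_filter, Finset.mem_product, Finset.mem_range, Finset.mem_singleton, Prod.mk.injEq]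
  constructor
  · rintro ⟨⟨h1, h2⟩, -⟩
    omega
  · rintro ⟨rfl, rfl⟩
    exact ⟨⟨by norm_num, by norm_num⟩, by simp, by simp⟩

/-- the condition depends on the residues only -/
theorem SSA2_cond {e n a b a' b' : ℕ} (ha : a ≡ a' [MOD e]) (hb : b ≡ b' [MOD e])
    (h : Nat.Coprime e a ∧ (e : ℤ) ∣ (n : ℤ) + (b : ℤ) ^ 2 - (a : ℤ) ^ 2) :
    Nat.Coprime e a' ∧ (e : ℤ) ∣ (n : ℤ) + (b' : ℤ) ^ 2 - (a' : ℤ) ^ 2 := by
  obtain ⟨h1, h2⟩ := h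
  constructor
  · have h3 := ha.gcd_eq
    rw [Nat.coprime_comm, Nat.Coprime, ← h3]
    exact Nat.coprime_comm.1 h1
  · have ha1 : (a : ℤ) ≡ a' [ZMOD e] := (Int.natCast_modEq_iff).2 ha
    have hb1 : (b : ℤ) ≡ b' [ZMOD e] := (Int.natCast_modEq_iff).2 hb
    have h3 : (n : ℤ) + (b : ℤ) ^ 2 - (a : ℤ) ^ 2 ≡ (n : ℤ) + (b' : ℤ) ^ 2 - (a' : ℤ) ^ 2 [ZMOD e] :=
      ((Int.ModEq.refl _).add (hb1.pow 2)).sub (ha1.pow 2)
    exact h3.dvd_iff.1 h2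

theorem R_mul (m m' n : ℕ) (h : Nat.Coprime m m') : R (m * m') n = R m n * R m' n := by
  classical
  rcases Nat.eq_zero_or_pos m with hm | hm
  · subst hm
    simp [R]
  rcases Nat.eq_zero_or_pos m' with hm' | hm'
  · subst hm'
    simp [R]
  have hmm : 0 < m * m' := Nat.mul_pos hm hm'
  have hsplit : ∀ a b : ℕ, (Nat.Coprime (m * m') a ∧ ((m * m' : ℕ) : ℤ) ∣ (n : ℤ) + (b : ℤ) ^ 2 - (a : ℤ) ^ 2) ↔
      (Nat.Coprime m a ∧ (m : ℤ) ∣ (n : ℤ) + (b : ℤ) ^ 2 - (a : ℤ) ^ 2) ∧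
      (Nat.Coprime m' a ∧ (m' : ℤ) ∣ (n : ℤ) + (b : ℤ) ^ 2 - (a : ℤ) ^ 2) := by
    intro a b
    have h1 : Nat.Coprime (m * m') a ↔ Nat.Coprime m a ∧ Nat.Coprime m' a := Nat.coprime_mul_iff_left
    have h2 : ∀ z : ℤ, ((m * m' : ℕ) : ℤ) ∣ z ↔ (m : ℤ) ∣ z ∧ (m' : ℤ) ∣ z := by
      intro z
      constructor
      · intro hz
        rw [Nat.cast_mul] at hz
        exact ⟨(dvd_mul_right _ _).trans hz, (dvd_mul_left _ _).trans hz⟩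
      · rintro ⟨hz1, hz2⟩
        rw [Nat.cast_mul]
        exact (Nat.isCoprime_iff_coprime.2 h).mul_dvd hz1 hz2
    rw [h1, h2]
    tauto
  unfold R
  rw [← Finset.card_product]
  refine Finset.card_bij (fun x _ => ((x.1 % m, x.2 % m), (x.1 % m', x.2 % m'))) ?_ ?_ ?_
  · rintro ⟨a, b⟩ hx
    rw [Finset.mem_filter] at hx
    obtain ⟨h1, h2⟩ := (hsplit a b).1 hx.2
    simp only [Finset.mem_product, Finset.mem_filter, Finset.mem_range]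
    exact ⟨⟨⟨Nat.mod_lt _ hm, Nat.mod_lt _ hm⟩, SSA2_cond (Nat.mod_modEq _ _).symm (Nat.mod_modEq _ _).symm h1⟩,
      ⟨⟨Nat.mod_lt _ hm', Nat.mod_lt _ hm'⟩, SSA2_cond (Nat.mod_modEq _ _).symm (Nat.mod_modEq _ _).symm h2⟩⟩
  · rintro ⟨a, b⟩ hx ⟨a', b'⟩ hx' he
    simp only [Finset.mem_product, Finset.mem_filter, Finset.mem_range] at hx hx'
    simp only [Prod.mk.injEq] at he
    obtain ⟨⟨e1, e2⟩, e3, e4⟩ := he
    have f1 : a ≡ a' [MOD m * m'] := (Nat.modEq_and_modEq_iff_modEq_mul h).1 ⟨e1, e3⟩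
    have f2 : b ≡ b' [MOD m * m'] := (Nat.modEq_and_modEq_iff_modEq_mul h).1 ⟨e2, e4⟩
    have g1 := Nat.ModEq.eq_of_lt_of_lt f1 hx.1.1 hx'.1.1
    have g2 := Nat.ModEq.eq_of_lt_of_lt f2 hx.1.2 hx'.1.2
    rw [g1, g2]
  · rintro ⟨⟨a, b⟩, ⟨a', b'⟩⟩ hx
    simp only [Finset.mem_product, Finset.mem_filter, Finset.mem_range] at hx
    obtain ⟨⟨⟨h1, h2⟩, h3⟩, ⟨h4, h5⟩, h6⟩ := hx
    have c1 := (Nat.chineseRemainder h a a').2
    have c2 := (Nat.chineseRemainder h b b').2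
    have l1 := Nat.chineseRemainder_lt_mul h a a' hm.ne' hm'.ne'
    have l2 := Nat.chineseRemainder_lt_mul h b b' hm.ne' hm'.ne'
    set u : ℕ := (Nat.chineseRemainder h a a' : ℕ)
    set v : ℕ := (Nat.chineseRemainder h b b' : ℕ)
    refine ⟨(u, v), ?_, ?_⟩
    · simp only [Finset.mem_product, Finset.mem_filter, Finset.mem_range]
      exact ⟨⟨l1, l2⟩, (hsplit u v).2 ⟨SSA2_cond c1.1.symm c2.1.symm h3, SSA2_cond c1.2.symm c2.2.symm h6⟩⟩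
    · simp only [Prod.mk.injEq]
      refine ⟨⟨?_, ?_⟩, ?_, ?_⟩
      · rw [c1.1, Nat.mod_eq_of_lt h1]
      · rw [c2.1, Nat.mod_eq_of_lt h2]
      · rw [c1.2, Nat.mod_eq_of_lt h4]
      · rw [c2.2, Nat.mod_eq_of_lt h5]

end Pool.Agent.HAE
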