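import Pool.Agent.HAE.Defs

/-!
# HAE-SSA3: `R` at the powers of an odd prime

PROOF.  Modulo `l^j` put `u = r - k`, `v = r + k` (a bijection, 2 is a unit): `u v = n`, so `u` is a unit and `v = n/u`: `φ(l^j)` pairs; `r = (u + v)/2` is not a unit iff
`u² = - n` modulo `l`: `(1 + jacobiSym (-n) l)` classes modulo `l`, `l^(j-1)` lifts each.
-/

set_option autoImplicit false

open Finset Filter Topology
open Pool.Agent.HAV
open Pool.Agent.helper66.VK (ee)

namespace Pool.Agent.HAE

open Classical in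
private theorem ssa3_count (l m : ℕ) (P : ZMod l → Prop) :
    ((range (l * m)).filter (fun u : ℕ => P (u : ZMod l))).card =
      m * ((range l).filter (fun u : ℕ => P (u : ZMod l))).card := by
  have h : ∀ k : ℕ, ((range k).filter (fun u : ℕ => P (u : ZMod l))).card =
      Nat.count (fun u : ℕ => P (u : ZMod l)) k := fun k => (Nat.count_eq_card_filter_range _ _).symm
  rw [h, h]
  induction m with
  | zero => simp
  | succ m ih =>
    rw [Nat.mul_succ, Nat.count_add, ih, Nat.succ_mul]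
    congr 1
    simp only [Nat.cast_add, Nat.cast_mul, CharP.cast_eq_zero, zero_mul, zero_add]

open Classical in
private theorem ssa3_univ (l : ℕ) [NeZero l] (P : ZMod l → Prop) :
    ((range l).filter (fun u : ℕ => P (u : ZMod l))).card = ((univ : Finset (ZMod l)).filter P).card := by
  refine Finset.card_nbij' (fun u : ℕ => (u : ZMod l)) (fun y => y.val) ?_ ?_ ?_ ?_
  · intro u hu
    simp only [Finset.coe_filter, Finset.mem_range, Set.mem_ofPred_eq, Finset.mem_univ, true_and] at hu ⊢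
    exact hu.2
  · intro y hy
    simp only [Finset.coe_filter, Finset.mem_range, Set.mem_ofPred_eq, Finset.mem_univ, true_and] at hy ⊢
    exact ⟨ZMod.val_lt y, by rwa [ZMod.natCast_zmod_val]⟩
  · intro u hu
    simp only [Finset.coe_filter, Finset.mem_range, Set.mem_ofPred_eq] at hu
    exact ZMod.val_natCast_of_lt hu.1
  · intro y _
    exact ZMod.natCast_zmod_val y

theorem R_odd (l j n : ℕ) (hl : l.Prime) (hl2 : l ≠ 2) (hj : 1 ≤ j) (hn : ¬ l ∣ n) :
    (R (l ^ j) n : ℤ) = (l : ℤ) ^ (j - 1) * ((l : ℤ) - 2 - jacobiSym (-(n : ℤ)) l) := by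
  classical
  have : Fact l.Prime := ⟨hl⟩
  have hq0 : l ^ j ≠ 0 := pow_ne_zero _ hl.ne_zero
  have : NeZero (l ^ j) := ⟨hq0⟩
  have hlq : l ∣ l ^ j := dvd_pow_self l (by omega)
  obtain ⟨φ, hφ⟩ : ∃ φ : ZMod (l ^ j) →+* ZMod l, φ = ZMod.castHom hlq (ZMod l) := ⟨_, rfl⟩
  have hφn : ∀ a : ℕ, φ (a : ZMod (l ^ j)) = (a : ZMod l) := fun a => map_natCast φ a
  have hcop : ∀ a : ℕ, Nat.Coprime (l ^ j) a ↔ (a : ZMod l) ≠ 0 := by
    intro a
    rw [Nat.coprime_pow_left_iff (by omega), hl.coprime_iff_not_dvd, Ne, ZMod.natCast_eq_zero_iff]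
  have hval : ∀ z : ZMod (l ^ j), ((z.val : ℕ) : ZMod l) = φ z := by
    intro z
    rw [← hφn, ZMod.natCast_zmod_val]
  have h2cop : Nat.Coprime 2 (l ^ j) := by
    apply Nat.Coprime.symm
    rw [Nat.coprime_pow_left_iff (by omega), hl.coprime_iff_not_dvd]
    intro h
    exact hl2 ((Nat.prime_dvd_prime_iff_eq hl Nat.prime_two).mp h)
  have h2 : (2 : ZMod (l ^ j)) * (2 : ZMod (l ^ j))⁻¹ = 1 := by
    have := ZMod.coe_mul_inv_eq_one (n := l ^ j) 2 h2cop
    simpa using this
  have hinv : ∀ z : ZMod (l ^ j), φ z ≠ 0 → z * z⁻¹ = 1 := by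
    intro z hz
    have h1 : Nat.Coprime z.val (l ^ j) := by
      apply Nat.Coprime.symm
      rw [hcop, hval]
      exact hz
    have := ZMod.coe_mul_inv_eq_one (n := l ^ j) z.val h1
    rwa [ZMod.natCast_zmod_val] at this
  have hn0 : ((n : ℕ) : ZMod l) ≠ 0 := by
    rw [Ne, ZMod.natCast_eq_zero_iff]
    exact hn
  -- the bijection
  obtain ⟨P, hP⟩ : ∃ P : ZMod l → Prop, ∀ y, P y ↔ (y ≠ 0 ∧ y ^ 2 + (n : ZMod l) ≠ 0) := ⟨_, fun _ => Iff.rfl⟩
  have key : (R (l ^ j) n) = ((range (l * l ^ (j - 1))).filter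
      (fun u : ℕ => P (u : ZMod l))).card := by
    have hlj : l * l ^ (j - 1) = l ^ j := by
      rw [← pow_succ', Nat.sub_add_cancel hj]
    rw [hlj]
    unfold R
    refine Finset.card_nbij' (fun x : ℕ × ℕ => ((x.1 : ZMod (l ^ j)) - x.2).val)
      (fun u : ℕ => ((((u : ZMod (l ^ j)) + n * (u : ZMod (l ^ j))⁻¹) * 2⁻¹).val,
        ((n * (u : ZMod (l ^ j))⁻¹ - (u : ZMod (l ^ j))) * 2⁻¹).val)) ?_ ?_ ?_ ?_
    · rintro ⟨r, k⟩ hx
      simp only [Finset.coe_filter, Finset.mem_product, Finset.mem_range, Set.mem_ofPred_eq, hP] at hx ⊢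
      obtain ⟨⟨-, -⟩, hr, hd⟩ := hx
      have he : (n : ZMod (l ^ j)) + (k : ZMod (l ^ j)) ^ 2 - (r : ZMod (l ^ j)) ^ 2 = 0 := by
        have h1 : (((n : ℤ) + (k : ℤ) ^ 2 - (r : ℤ) ^ 2 : ℤ) : ZMod (l ^ j)) = 0 := by
          rw [ZMod.intCast_zmod_eq_zero_iff_dvd]
          exact_mod_cast hd
        push_cast at h1
        exact h1
      have he' : (n : ZMod l) + (k : ZMod l) ^ 2 - (r : ZMod l) ^ 2 = 0 := by
        have h1 := congrArg φ he
        simpa [hφn] using h1
      rw [hcop] at hr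
      have hu : φ ((r : ZMod (l ^ j)) - k) = (r : ZMod l) - k := by rw [map_sub, hφn, hφn]
      refine ⟨ZMod.val_lt _, ?_, ?_⟩
      · rw [hval, hu]
        intro h0
        apply hn0
        have h1 : (n : ZMod l) = ((r : ZMod l) - k) * ((r : ZMod l) + k) := by linear_combination he'
        rw [h1, h0, zero_mul]
      · rw [hval, hu]
        intro h0
        have h1 : (2 : ZMod l) * r * ((r : ZMod l) - k) = 0 := by linear_combination h0 - he'
        have h3 : (2 : ZMod l) ≠ 0 := by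
          intro h
          have h4 : ((2 : ℕ) : ZMod l) = 0 := by simpa using h
          rw [ZMod.natCast_eq_zero_iff] at h4
          exact hl2 ((Nat.prime_dvd_prime_iff_eq hl Nat.prime_two).mp h4)
        rcases mul_eq_zero.mp h1 with h | h
        · rcases mul_eq_zero.mp h with h | h
          · exact h3 h
          · exact hr h
        · apply hn0
          have h5 : (n : ZMod l) = ((r : ZMod l) - k) * ((r : ZMod l) + k) := by linear_combination he'
          rw [h5, h, zero_mul]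
    · intro u hu
      simp only [Finset.coe_filter, Finset.mem_product, Finset.mem_range, Set.mem_ofPred_eq, hP] at hu ⊢
      obtain ⟨-, hu0, hu1⟩ := hu
      have hui := hinv (u : ZMod (l ^ j)) (by rw [hφn]; exact hu0)
      refine ⟨⟨ZMod.val_lt _, ZMod.val_lt _⟩, ?_, ?_⟩
      · rw [hcop, hval]
        intro h0
        apply hu1
        have h1 : φ ((u : ZMod (l ^ j)) ^ 2 + n) = 0 := by
          have h3 : (u : ZMod (l ^ j)) ^ 2 + n =
              (((u : ZMod (l ^ j)) + n * (u : ZMod (l ^ j))⁻¹) * 2⁻¹) * (2 * u) := by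
            linear_combination (-(n : ZMod (l ^ j)) * (2 : ZMod (l ^ j)) * 2⁻¹) * hui -
              ((u : ZMod (l ^ j)) ^ 2 + n) * h2
          rw [h3, map_mul, h0, zero_mul]
        rw [map_add, map_pow, hφn, hφn] at h1
        exact h1
      · refine (ZMod.intCast_zmod_eq_zero_iff_dvd _ (l ^ j)).mp ?_
        push_cast
        rw [ZMod.natCast_zmod_val, ZMod.natCast_zmod_val]
        linear_combination (-(n : ZMod (l ^ j)) * (2 : ZMod (l ^ j)) ^ 2 * 2⁻¹ ^ 2) * hui -
          (n : ZMod (l ^ j)) * ((2 : ZMod (l ^ j)) * 2⁻¹ + 1) * h2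
    · rintro ⟨r, k⟩ hx
      simp only [Finset.coe_filter, Finset.mem_product, Finset.mem_range, Set.mem_ofPred_eq] at hx
      obtain ⟨⟨hr0, hk0⟩, hr, hd⟩ := hx
      have he : (n : ZMod (l ^ j)) + (k : ZMod (l ^ j)) ^ 2 - (r : ZMod (l ^ j)) ^ 2 = 0 := by
        have h1 : (((n : ℤ) + (k : ℤ) ^ 2 - (r : ℤ) ^ 2 : ℤ) : ZMod (l ^ j)) = 0 := by
          rw [ZMod.intCast_zmod_eq_zero_iff_dvd]
          exact_mod_cast hd
        push_cast at h1
        exact h1
      have he' : (n : ZMod l) + (k : ZMod l) ^ 2 - (r : ZMod l) ^ 2 = 0 := by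
        have h1 := congrArg φ he
        simpa [hφn] using h1
      have hui := hinv ((r : ZMod (l ^ j)) - k) (by
        rw [map_sub, hφn, hφn]
        intro h0
        apply hn0
        have h1 : (n : ZMod l) = ((r : ZMod l) - k) * ((r : ZMod l) + k) := by linear_combination he'
        rw [h1, h0, zero_mul])
      have hv : (n : ZMod (l ^ j)) * ((r : ZMod (l ^ j)) - k)⁻¹ = (r : ZMod (l ^ j)) + k := by
        linear_combination (((r : ZMod (l ^ j)) - k)⁻¹) * he + ((r : ZMod (l ^ j)) + k) * hui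
      simp only [ZMod.natCast_zmod_val]
      rw [hv]
      have e1 : ((r : ZMod (l ^ j)) - k + (r + k)) * 2⁻¹ = r := by
        linear_combination (r : ZMod (l ^ j)) * h2
      have e2 : ((r : ZMod (l ^ j)) + k - (r - k)) * 2⁻¹ = k := by
        linear_combination (k : ZMod (l ^ j)) * h2
      rw [e1, e2, ZMod.val_natCast_of_lt hr0, ZMod.val_natCast_of_lt hk0]
    · intro u hu
      simp only [Finset.coe_filter, Finset.mem_range, Set.mem_ofPred_eq] at hu
      simp only [ZMod.natCast_zmod_val]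
      have e1 : ((u : ZMod (l ^ j)) + n * (u : ZMod (l ^ j))⁻¹) * 2⁻¹ -
          (n * (u : ZMod (l ^ j))⁻¹ - (u : ZMod (l ^ j))) * 2⁻¹ = u := by
        linear_combination (u : ZMod (l ^ j)) * h2
      rw [e1, ZMod.val_natCast_of_lt hu.1]
  rw [key, ssa3_count l (l ^ (j - 1)) P, ssa3_univ]
  have hset : ((univ : Finset (ZMod l)).filter P) =
      ((univ : Finset (ZMod l)).erase 0) \ ((univ : Finset (ZMod l)).filter (fun y => y ^ 2 = (((-(n : ℤ)) : ℤ) : ZMod l))) := by
    ext y
    simp only [Finset.mem_filter, Finset.mem_univ, true_and, Finset.mem_sdiff, Finset.mem_erase, and_true, hP]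
    have e : (y ^ 2 + (n : ZMod l) ≠ 0) ↔ ¬ (y ^ 2 = (((-(n : ℤ)) : ℤ) : ZMod l)) := by
      rw [Ne, not_iff_not]
      push_cast
      exact ⟨fun h => by linear_combination h, fun h => by linear_combination h⟩
    rw [e]
  have hsub : ((univ : Finset (ZMod l)).filter (fun y => y ^ 2 = (((-(n : ℤ)) : ℤ) : ZMod l))) ⊆
      (univ : Finset (ZMod l)).erase 0 := by
    intro y hy
    simp only [Finset.mem_filter, Finset.mem_univ, true_and, Finset.mem_erase, and_true] at hy ⊢
    rintro rfl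
    apply hn0
    push_cast at hy
    linear_combination hy
  have hcard := legendreSym.card_sqrts l hl2 (-(n : ℤ))
  have hc2 : (((univ : Finset (ZMod l)).filter (fun y => y ^ 2 = (((-(n : ℤ)) : ℤ) : ZMod l))).card : ℤ) =
      legendreSym l (-(n : ℤ)) + 1 := by
    rw [← hcard]
    congr 2
    ext y
    simp
  rw [hset, Finset.card_sdiff_of_subset hsub, Finset.card_erase_of_mem (Finset.mem_univ _), Finset.card_univ, ZMod.card]
  have hle := Finset.card_le_card hsub
  rw [Finset.card_erase_of_mem (Finset.mem_univ _), Finset.card_univ, ZMod.card] at hle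
  rw [Nat.cast_mul, Nat.cast_pow, Nat.cast_sub hle, Nat.cast_sub hl.one_le, hc2, ← jacobiSym.legendreSym.to_jacobiSym]
  push_cast
  ring

end Pool.Agent.HAE
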