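import Pool.Agent.HAE.Defs

/-!
# HAE-SSA4: `R` at the powers of 2

PROOF.  `j = 1`: `r = 1`, `k = 0`.  `j ≥ 2`: for `r² - k² = n` put `u = r - k`, odd; `r = u + k`, `u (u + 2k) = n`, so `2 k = n u⁻¹ - u` modulo `2^j`: exactly two `k` modulo `2^j` for each of the
`2^(j-1)` odd `u`; `r` is odd iff `k` is even iff `n u⁻¹ = u` modulo 4 iff `n = 1` modulo 4.
-/

set_option autoImplicit false

open Finset Filter Topology
open Pool.Agent.HAV
open Pool.Agent.helper66.VK (ee)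

namespace Pool.Agent.HAE

open Classical in
/-- `R` as a number of pairs of residue classes -/
private theorem SSA4_eq (e n : ℕ) [NeZero e] :
    R e n = ((univ : Finset (ZMod e × ZMod e)).filter
      (fun x => IsUnit x.1 ∧ x.1 ^ 2 = (n : ZMod e) + x.2 ^ 2)).card := by
  unfold R
  have hiff : ∀ r k : ℕ, ((e : ℤ) ∣ (n : ℤ) + (k : ℤ) ^ 2 - (r : ℤ) ^ 2) ↔
      ((r : ZMod e) ^ 2 = (n : ZMod e) + (k : ZMod e) ^ 2) := by
    intro r k
    rw [← ZMod.intCast_zmod_eq_zero_iff_dvd]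
    push_cast
    rw [sub_eq_zero, eq_comm]
  refine Finset.card_bij (fun a _ => (((a.1 : ℕ) : ZMod e), ((a.2 : ℕ) : ZMod e))) ?_ ?_ ?_
  · rintro ⟨r, k⟩ h
    rw [Finset.mem_filter] at h ⊢
    obtain ⟨-, h1, h2⟩ := h
    refine ⟨Finset.mem_univ _, ?_, ?_⟩
    · show IsUnit ((r : ℕ) : ZMod e)
      rw [ZMod.isUnit_iff_coprime]
      exact h1.symm
    · exact (hiff r k).1 h2
  · rintro ⟨r, k⟩ h ⟨r', k'⟩ h' heq
    rw [Finset.mem_filter, Finset.mem_product, Finset.mem_range, Finset.mem_range] at h h'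
    have h1 : (r : ZMod e) = (r' : ZMod e) := congrArg Prod.fst heq
    have h2 : (k : ZMod e) = (k' : ZMod e) := congrArg Prod.snd heq
    rw [ZMod.natCast_eq_natCast_iff'] at h1 h2
    rw [Nat.mod_eq_of_lt h.1.1, Nat.mod_eq_of_lt h'.1.1] at h1
    rw [Nat.mod_eq_of_lt h.1.2, Nat.mod_eq_of_lt h'.1.2] at h2
    exact Prod.ext h1 h2
  · rintro ⟨x, y⟩ h
    rw [Finset.mem_filter] at h
    obtain ⟨-, h1, h2⟩ := h
    have hx : ((x.val : ℕ) : ZMod e) = x := ZMod.natCast_zmod_val x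
    have hy : ((y.val : ℕ) : ZMod e) = y := ZMod.natCast_zmod_val y
    refine ⟨(x.val, y.val), ?_, ?_⟩
    · rw [Finset.mem_filter, Finset.mem_product, Finset.mem_range, Finset.mem_range]
      refine ⟨⟨ZMod.val_lt x, ZMod.val_lt y⟩, ?_, ?_⟩
      · have h3 : IsUnit ((x.val : ℕ) : ZMod e) := by rw [hx]; exact h1
        rw [ZMod.isUnit_iff_coprime] at h3
        exact h3.symm
      · rw [hiff, hx, hy]
        exact h2
    · show (((x.val : ℕ) : ZMod e), ((y.val : ℕ) : ZMod e)) = (x, y)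
      rw [hx, hy]

theorem R_two (n : ℕ) (hn : Odd n) : R 2 n = 1 := by
  classical
  rw [SSA4_eq, Finset.card_eq_one]
  refine ⟨(1, 0), ?_⟩
  have hn1 : (n : ZMod 2) = 1 := ZMod.natCast_eq_one_iff_odd.2 hn
  ext ⟨x, y⟩
  rw [Finset.mem_filter, Finset.mem_singleton, hn1]
  have h2 : ∀ x y : ZMod 2, (x ≠ 0 ∧ x ^ 2 = 1 + y ^ 2) ↔ (x, y) = (1, 0) := by decide
  rw [← h2 x y]
  constructor
  · rintro ⟨-, h, h'⟩
    exact ⟨h.ne_zero, h'⟩
  · rintro ⟨h, h'⟩
    exact ⟨Finset.mem_univ _, isUnit_iff_ne_zero.2 h, h'⟩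

/-- the reduction modulo 4 -/
private theorem SSA4_unit (j : ℕ) (hj : 2 ≤ j) (x : ZMod (2 ^ j)) :
    IsUnit x ↔ IsUnit (ZMod.castHom (pow_dvd_pow 2 hj : 2 ^ 2 ∣ 2 ^ j) (ZMod (2 ^ 2)) x) := by
  have : NeZero (2 ^ j) := ⟨by positivity⟩
  have hx : ((x.val : ℕ) : ZMod (2 ^ j)) = x := ZMod.natCast_zmod_val x
  rw [← hx, map_natCast, ZMod.isUnit_iff_coprime, ZMod.isUnit_iff_coprime,
    Nat.coprime_pow_right_iff (by omega), Nat.coprime_pow_right_iff (by omega)]

/-- the halves of an element -/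
private theorem SSA4_half (j : ℕ) (hj : 2 ≤ j) (x : ZMod (2 ^ j))
    (hx : ∃ k, 2 * k = x) :
    ((univ : Finset (ZMod (2 ^ j))).filter (fun k => 2 * k = x)).card = 2 := by
  have : NeZero (2 ^ j) := ⟨by positivity⟩
  obtain ⟨k0, hk0⟩ := hx
  have hpow : 2 ^ j = 2 * 2 ^ (j - 1) := by
    rw [← pow_succ']
    congr 1
    omega
  have hlt : 2 ^ (j - 1) < 2 ^ j := Nat.pow_lt_pow_right (by norm_num) (by omega)
  have hc : ((2 ^ (j - 1) : ℕ) : ZMod (2 ^ j)) ≠ 0 := by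
    intro h
    rw [ZMod.natCast_eq_zero_iff] at h
    exact absurd (Nat.le_of_dvd (by positivity) h) (by omega)
  have h2c : 2 * ((2 ^ (j - 1) : ℕ) : ZMod (2 ^ j)) = 0 := by
    have h1 : (2 : ZMod (2 ^ j)) * ((2 ^ (j - 1) : ℕ) : ZMod (2 ^ j)) =
        ((2 * 2 ^ (j - 1) : ℕ) : ZMod (2 ^ j)) := by push_cast; ring
    rw [h1, ← hpow, ZMod.natCast_self]
  rw [Finset.card_eq_two]
  refine ⟨k0, k0 + ((2 ^ (j - 1) : ℕ) : ZMod (2 ^ j)), ?_, ?_⟩
  · intro h
    apply hc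
    exact left_eq_add.1 h
  · ext k
    rw [Finset.mem_filter, Finset.mem_insert, Finset.mem_singleton]
    constructor
    · rintro ⟨-, hk⟩
      have h1 : 2 * (k - k0) = 0 := by rw [mul_sub, hk, hk0, sub_self]
      set y := k - k0 with hy
      have hyv : ((y.val : ℕ) : ZMod (2 ^ j)) = y := ZMod.natCast_zmod_val y
      have h2 : ((2 * y.val : ℕ) : ZMod (2 ^ j)) = 0 := by
        push_cast
        rw [hyv]
        exact h1
      rw [ZMod.natCast_eq_zero_iff] at h2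
      have h3 : 2 * 2 ^ (j - 1) ∣ 2 * y.val := by rw [← hpow]; exact h2
      have h4 : 2 ^ (j - 1) ∣ y.val := Nat.dvd_of_mul_dvd_mul_left (by norm_num) h3
      obtain ⟨c, hc'⟩ := h4
      have h5 : y.val < 2 ^ j := ZMod.val_lt y
      rw [hc', hpow] at h5
      have h6 : c < 2 := by
        by_contra h7
        push Not at h7
        have := Nat.mul_le_mul_left (2 ^ (j - 1)) h7
        omega
      have h8 : k = k0 + y := by rw [hy]; ring
      interval_cases c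
      · left
        rw [h8, ← hyv, hc']
        simp
      · right
        rw [h8, ← hyv, hc', mul_one]
    · intro h
      refine ⟨Finset.mem_univ _, ?_⟩
      rcases h with h | h
      · rw [h, hk0]
      · rw [h, mul_add, h2c, hk0, add_zero]

theorem R_two_pow (j n : ℕ) (hj : 2 ≤ j) (hn : Odd n) : R (2 ^ j) n = if n % 4 = 1 then 2 ^ j else 0 := by
  classical
  have : NeZero (2 ^ j) := ⟨by positivity⟩
  rw [SSA4_eq]
  set π := ZMod.castHom (pow_dvd_pow 2 hj : 2 ^ 2 ∣ 2 ^ j) (ZMod (2 ^ 2)) with hπ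
  have hu4 : ∀ u : ZMod (2 ^ 2), IsUnit u → u ^ 2 = 1 := by
    intro u hu
    obtain ⟨v, hv⟩ := hu.exists_right_inv
    revert u v
    decide
  by_cases h4 : n % 4 = 1
  · rw [if_pos h4]
    have hn4 : ((n : ℕ) : ZMod (2 ^ 2)) = 1 := by
      have h5 : ((n : ℕ) : ZMod (2 ^ 2)) = ((1 : ℕ) : ZMod (2 ^ 2)) := by
        rw [ZMod.natCast_eq_natCast_iff']
        omega
      rw [h5, Nat.cast_one]
    have hnu : IsUnit ((n : ℕ) : ZMod (2 ^ j)) := by
      rw [ZMod.isUnit_iff_coprime]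
      exact (Nat.coprime_pow_right_iff (by omega) _ _).2 (Nat.coprime_two_right.2 hn)
    -- the equation for `k`
    have heven : ∀ u : (ZMod (2 ^ j))ˣ, ∃ k : ZMod (2 ^ j),
        2 * k = (n : ZMod (2 ^ j)) * ((u⁻¹ : (ZMod (2 ^ j))ˣ) : ZMod (2 ^ j)) - u := by
      intro u
      set x : ZMod (2 ^ j) := (n : ZMod (2 ^ j)) * ((u⁻¹ : (ZMod (2 ^ j))ˣ) : ZMod (2 ^ j)) - u
        with hx
      have h6 : π x = 0 := by
        have h7 : π (u : ZMod (2 ^ j)) * π ((u⁻¹ : (ZMod (2 ^ j))ˣ) : ZMod (2 ^ j)) = 1 := by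
          rw [← map_mul, Units.mul_inv, map_one]
        rw [hx, map_sub, map_mul, map_natCast, hn4, one_mul]
        generalize π (u : ZMod (2 ^ j)) = a at h7 ⊢
        generalize π ((u⁻¹ : (ZMod (2 ^ j))ˣ) : ZMod (2 ^ j)) = b at h7 ⊢
        revert a b
        decide
      have hxv : ((x.val : ℕ) : ZMod (2 ^ j)) = x := ZMod.natCast_zmod_val x
      rw [← hxv, map_natCast, ZMod.natCast_eq_zero_iff] at h6
      obtain ⟨c, hc⟩ := h6
      refine ⟨((2 * c : ℕ) : ZMod (2 ^ j)), ?_⟩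
      rw [← hxv, hc]
      push_cast
      ring
    have hcard : ((univ : Finset ((ZMod (2 ^ j))ˣ × ZMod (2 ^ j))).filter (fun p =>
        2 * p.2 = (n : ZMod (2 ^ j)) * ((p.1⁻¹ : (ZMod (2 ^ j))ˣ) : ZMod (2 ^ j)) - p.1)).card =
        2 ^ j := by
      rw [Finset.card_filter, ← Finset.univ_product_univ, Finset.sum_product]
      have h8 : ∀ u : (ZMod (2 ^ j))ˣ, ∑ k : ZMod (2 ^ j), (if 2 * k = (n : ZMod (2 ^ j)) *
          ((u⁻¹ : (ZMod (2 ^ j))ˣ) : ZMod (2 ^ j)) - u then 1 else 0) = 2 := by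
        intro u
        rw [← Finset.card_filter]
        exact SSA4_half j hj _ (heven u)
      simp only [h8]
      rw [Finset.sum_const, Finset.card_univ, ZMod.card_units_eq_totient,
        Nat.totient_prime_pow Nat.prime_two (by omega)]
      show 2 ^ (j - 1) * (2 - 1) * 2 = 2 ^ j
      have h9 : 2 ^ j = 2 ^ (j - 1) * 2 := by
        rw [← pow_succ]
        congr 1
        omega
      rw [h9]
      ring
    refine Eq.trans ?_ hcard
    symm
    refine Finset.card_bij (fun p _ => ((p.1 : ZMod (2 ^ j)) + p.2, p.2)) ?_ ?_ ?_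
    · rintro ⟨u, k⟩ h
      rw [Finset.mem_filter] at h ⊢
      obtain ⟨-, h⟩ := h
      simp only at h
      refine ⟨Finset.mem_univ _, ?_, ?_⟩
      · show IsUnit ((u : ZMod (2 ^ j)) + k)
        rw [SSA4_unit j hj, ← hπ, map_add]
        have h7 : π (u : ZMod (2 ^ j)) * π ((u⁻¹ : (ZMod (2 ^ j))ˣ) : ZMod (2 ^ j)) = 1 := by
          rw [← map_mul, Units.mul_inv, map_one]
        have h8 := congrArg π h
        rw [map_mul, map_sub, map_mul, map_natCast, hn4, one_mul, map_ofNat] at h8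
        have h9 : ∀ a b c : ZMod (2 ^ 2), a * b = 1 → 2 * c = b - a → (a + c) * (a + c) = 1 := by
          decide
        exact IsUnit.of_mul_eq_one _ (h9 _ _ _ h7 h8)
      · show ((u : ZMod (2 ^ j)) + k) ^ 2 = (n : ZMod (2 ^ j)) + k ^ 2
        have h10 : (u : ZMod (2 ^ j)) * (2 * k) = (u : ZMod (2 ^ j)) *
            ((n : ZMod (2 ^ j)) * ((u⁻¹ : (ZMod (2 ^ j))ˣ) : ZMod (2 ^ j)) - u) := by rw [h]
        have h11 : (u : ZMod (2 ^ j)) * ((u⁻¹ : (ZMod (2 ^ j))ˣ) : ZMod (2 ^ j)) = 1 :=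
          Units.mul_inv u
        linear_combination h10 + (n : ZMod (2 ^ j)) * h11
    · rintro ⟨u, k⟩ _ ⟨u', k'⟩ _ heq
      have h1 : (u : ZMod (2 ^ j)) + k = u' + k' := congrArg Prod.fst heq
      have h2 : k = k' := congrArg Prod.snd heq
      subst h2
      have h3 : (u : ZMod (2 ^ j)) = u' := add_right_cancel h1
      rw [Units.ext h3]
    · rintro ⟨r, k⟩ h
      rw [Finset.mem_filter] at h
      obtain ⟨-, h1, h2⟩ := h
      simp only at h1 h2
      have h3 : (r - k) * (r + k) = (n : ZMod (2 ^ j)) := by linear_combination h2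
      have h4' : IsUnit (r - k) := by
        apply isUnit_of_mul_isUnit_left (y := r + k)
        rw [h3]
        exact hnu
      obtain ⟨u, hu⟩ := h4'
      refine ⟨(u, k), ?_, ?_⟩
      · rw [Finset.mem_filter]
        refine ⟨Finset.mem_univ _, ?_⟩
        show 2 * k = (n : ZMod (2 ^ j)) * ((u⁻¹ : (ZMod (2 ^ j))ˣ) : ZMod (2 ^ j)) - u
        have h11 : (u : ZMod (2 ^ j)) * ((u⁻¹ : (ZMod (2 ^ j))ˣ) : ZMod (2 ^ j)) = 1 :=
          Units.mul_inv u
        rw [← h3, ← hu]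
        have h12 : r + k = u + 2 * k := by rw [hu]; ring
        rw [h12]
        linear_combination (-((u : ZMod (2 ^ j)) + 2 * k)) * h11
      · show ((u : ZMod (2 ^ j)) + k, k) = (r, k)
        rw [hu]
        simp
  · rw [if_neg h4, Finset.card_eq_zero, Finset.filter_eq_empty_iff]
    rintro ⟨r, k⟩ - ⟨h1, h2⟩
    simp only at h1 h2
    have hn4 : ((n : ℕ) : ZMod (2 ^ 2)) = 3 := by
      have h5 : ((n : ℕ) : ZMod (2 ^ 2)) = ((3 : ℕ) : ZMod (2 ^ 2)) := by
        rw [ZMod.natCast_eq_natCast_iff']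
        have := Nat.odd_iff.1 hn
        omega
      rw [h5]
      rfl
    rw [SSA4_unit j hj, ← hπ] at h1
    have h3 := congrArg π h2
    rw [map_pow, map_add, map_pow, map_natCast, hn4, hu4 _ h1] at h3
    generalize π k = b at h3
    revert b
    decide

end Pool.Agent.HAE
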