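import Pool.Agent.HAE.Defs

/-!
# HAE-SSB1: the closed form `aa` is multiplicative and small

PROOF.  `|loc p l| ≤ 2/(l (l-1))`; `2 √l/(l-1)` is `≤ 1.7321` at 3, `≤ 1.1181` at 5, `≤ 1` for `l ≥ 7`; so `∏_{l ∣ m} 2/(l (l-1)) ≤ 1.94/m^(3/2)` for `m` odd and squarefree, and for `d = 4m` the value is
`≤ (1/4) 1.94 · 8/d^(3/2)`.
-/

set_option autoImplicit false

open Finset Filter Topology
open Pool.Agent.HAV
open Pool.Agent.helper66.VK (ee)

namespace Pool.Agent.HAE

private theorem ssb1_odd (d p : ℕ) (hd : Odd d) :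
    aa d p = if Squarefree d then ∏ l ∈ d.primeFactors, loc p l else 0 := by
  unfold aa
  by_cases hs : Squarefree d
  · rw [if_pos ⟨hs, hd⟩, if_pos hs]
  · have h4 : ¬ (4 ∣ d) := by
      intro h
      rcases hd with ⟨k, hk⟩
      omega
    rw [if_neg (fun h => hs h.1), if_neg hs, if_neg (fun h => h4 h.1)]

private theorem ssb1_four (k p : ℕ) :
    aa (4 * k) p = if Squarefree k ∧ Odd k then
      (ZMod.χ₄ (p : ZMod 4) : ℝ) / 4 * ∏ l ∈ k.primeFactors, loc p l else 0 := by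
  unfold aa
  have h1 : ¬ Odd (4 * k) := by
    rintro ⟨j, hj⟩
    omega
  have h2 : 4 * k / 4 = k := by omega
  rw [if_neg (fun h => h1 h.2), h2]
  by_cases hs : Squarefree k ∧ Odd k
  · rw [if_pos ⟨dvd_mul_right 4 k, hs.1, hs.2⟩, if_pos hs]
  · rw [if_neg (fun h => hs h.2), if_neg hs]

private theorem ssb1_not (d p : ℕ) (hd : ¬ Odd d) (h4 : ¬ (4 ∣ d)) : aa d p = 0 := by
  unfold aa
  rw [if_neg (fun h => hd h.2), if_neg (fun h => h4 h.1)]

private theorem ssb1_prod (p : ℕ) {m m' : ℕ} (h : Nat.Coprime m m') :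
    ∏ l ∈ (m * m').primeFactors, loc p l =
      (∏ l ∈ m.primeFactors, loc p l) * ∏ l ∈ m'.primeFactors, loc p l := by
  rw [h.primeFactors_mul, Finset.prod_union h.disjoint_primeFactors]

private theorem ssb1_mul (m m' p : ℕ) (h : Nat.Coprime m m') (ho : Odd m') :
    aa (m * m') p = aa m p * aa m' p := by
  rcases Nat.even_or_odd m with he | hm
  · have hne : ¬ Odd m := Nat.not_odd_iff_even.2 he
    by_cases h4 : 4 ∣ m
    · obtain ⟨k, rfl⟩ := h4
      have hk : Nat.Coprime k m' := Nat.Coprime.coprime_mul_left h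
      rw [mul_assoc, ssb1_four, ssb1_four, ssb1_odd m' p ho]
      by_cases h1 : Squarefree k ∧ Odd k
      · by_cases h2 : Squarefree m'
        · rw [if_pos h1, if_pos h2, if_pos ⟨(Nat.squarefree_mul hk).2 ⟨h1.1, h2⟩, h1.2.mul ho⟩,
            ssb1_prod p hk, mul_assoc]
        · rw [if_neg h2, mul_zero, if_neg (fun h3 => h2 ((Nat.squarefree_mul hk).1 h3.1).2)]
      · rw [if_neg h1, zero_mul, if_neg]
        intro h3
        exact h1 ⟨((Nat.squarefree_mul hk).1 h3.1).1, (Nat.odd_mul.1 h3.2).1⟩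
    · rw [ssb1_not m p hne h4, zero_mul]
      apply ssb1_not
      · intro h3
        exact hne (Nat.odd_mul.1 h3).1
      · intro h3
        apply h4
        have h5 : Nat.Coprime 4 m' := by
          have h6 : Nat.Coprime (2 ^ 2) m' := Nat.Coprime.pow_left 2 (Nat.coprime_two_left.2 ho)
          exact h6
        exact h5.dvd_of_dvd_mul_right h3
  · rw [ssb1_odd _ p (hm.mul ho), ssb1_odd m p hm, ssb1_odd m' p ho]
    by_cases h1 : Squarefree m
    · by_cases h2 : Squarefree m'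
      · rw [if_pos h1, if_pos h2, if_pos ((Nat.squarefree_mul h).2 ⟨h1, h2⟩), ssb1_prod p h]
      · rw [if_neg h2, mul_zero, if_neg (fun h3 => h2 ((Nat.squarefree_mul h).1 h3).2)]
    · rw [if_neg h1, zero_mul, if_neg (fun h3 => h1 ((Nat.squarefree_mul h).1 h3).1)]

theorem aa_zero (p : ℕ) : aa 0 p = 0 := by
  have h := ssb1_four 0 p
  rw [mul_zero] at h
  rw [h, if_neg]
  intro h1
  exact not_squarefree_zero h1.1

theorem aa_one (p : ℕ) : aa 1 p = 1 := by
  rw [ssb1_odd 1 p odd_one, if_pos squarefree_one]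
  simp

theorem aa_mul (m m' p : ℕ) (h : Nat.Coprime m m') : aa (m * m') p = aa m p * aa m' p := by
  rcases Nat.even_or_odd m' with he | ho
  · rcases Nat.even_or_odd m with he2 | ho2
    · exfalso
      have h1 := Nat.dvd_gcd he2.two_dvd he.two_dvd
      rw [h] at h1
      omega
    · rw [mul_comm m m', mul_comm (aa m p)]
      exact ssb1_mul m' m p h.symm ho2
  · exact ssb1_mul m m' p h ho

theorem aa_prime (l p : ℕ) (hl : l.Prime) (hl2 : l ≠ 2) : aa l p = loc p l := by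
  rw [ssb1_odd l p (hl.odd_of_ne_two hl2), if_pos hl.prime.squarefree, hl.primeFactors,
    Finset.prod_singleton]

theorem aa_pow (l j p : ℕ) (hl : l.Prime) (hl2 : l ≠ 2) (hj : 2 ≤ j) : aa (l ^ j) p = 0 := by
  rw [ssb1_odd _ p (hl.odd_of_ne_two hl2).pow, if_neg]
  intro h
  have h1 := (Nat.squarefree_pow_iff hl.one_lt.ne' (by omega)).1 h
  omega

theorem aa_two (p : ℕ) : aa 2 p = 0 :=
  ssb1_not 2 p (by decide) (by decide)

theorem aa_four (p : ℕ) : aa 4 p = (ZMod.χ₄ (p : ZMod 4) : ℝ) / 4 := by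
  have h := ssb1_four 1 p
  rw [mul_one] at h
  rw [h, if_pos ⟨squarefree_one, odd_one⟩]
  simp

theorem aa_two_pow (j p : ℕ) (hj : 3 ≤ j) : aa (2 ^ j) p = 0 := by
  obtain ⟨i, rfl⟩ := Nat.exists_eq_add_of_le hj
  have h1 : 2 ^ (3 + i) = 4 * (2 * 2 ^ i) := by
    rw [pow_add]
    ring
  rw [h1, ssb1_four, if_neg]
  rintro ⟨-, k, hk⟩
  omega

private theorem ssb1_loc (p l : ℕ) (hl : 3 ≤ l) : |loc p l| ≤ 2 / ((l : ℝ) * ((l : ℝ) - 1)) := by
  have h3 : (3 : ℝ) ≤ l := by exact_mod_cast hl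
  have hpos : 0 < (l : ℝ) * ((l : ℝ) - 1) := mul_pos (by linarith) (by linarith)
  unfold loc
  rw [abs_div, abs_of_pos hpos]
  apply div_le_div_of_nonneg_right _ hpos.le
  rcases jacobiSym.trichotomy (-(p : ℤ)) l with h | h | h <;> rw [h] <;> norm_num

private theorem ssb1_rpow (l : ℕ) (hl : 3 ≤ l) :
    (l : ℝ) ^ (3 / 2 : ℝ) = (l : ℝ) * Real.sqrt l := by
  have h3 : (0 : ℝ) < l := by
    have : (3 : ℝ) ≤ l := by exact_mod_cast hl
    linarith
  rw [Real.sqrt_eq_rpow, show (3 / 2 : ℝ) = 1 + 1 / 2 by norm_num, Real.rpow_add h3,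
    Real.rpow_one]

private theorem ssb1_factor (p l : ℕ) (hl : l.Prime) (hl2 : l ≠ 2) :
    |loc p l| * (l : ℝ) ^ (3 / 2 : ℝ) ≤
      (if l = 3 then 1.7321 else 1) * (if l = 5 then 1.1181 else 1) := by
  have h2 := hl.two_le
  have hl3 : 3 ≤ l := by omega
  have h3 : (3 : ℝ) ≤ l := by exact_mod_cast hl3
  have hpos : 0 < (l : ℝ) * ((l : ℝ) - 1) := mul_pos (by linarith) (by linarith)
  have hl1 : (0 : ℝ) < (l : ℝ) - 1 := by linarith
  have h5 : |loc p l| * (l : ℝ) ^ (3 / 2 : ℝ) ≤ 2 * Real.sqrt l / ((l : ℝ) - 1) := by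
    rw [ssb1_rpow l hl3]
    refine (mul_le_mul_of_nonneg_right (ssb1_loc p l hl3) (by positivity)).trans (le_of_eq ?_)
    have hne : (l : ℝ) ≠ 0 := by linarith
    have hne1 : (l : ℝ) - 1 ≠ 0 := hl1.ne'
    field_simp
  refine h5.trans ?_
  rw [div_le_iff₀ hl1]
  have hs0 := Real.sqrt_nonneg (l : ℝ)
  have hs2 := Real.sq_sqrt (show (0 : ℝ) ≤ l by linarith)
  by_cases e3 : l = 3
  · subst e3
    have h6 : Real.sqrt ((3 : ℕ) : ℝ) ≤ 1.7321 := by
      rw [Real.sqrt_le_left (by norm_num)]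
      norm_num
    rw [if_pos rfl, if_neg (by norm_num)]
    push_cast at h6 ⊢
    linarith
  · by_cases e5 : l = 5
    · subst e5
      have h6 : Real.sqrt ((5 : ℕ) : ℝ) ≤ 2.2362 := by
        rw [Real.sqrt_le_left (by norm_num)]
        norm_num
      rw [if_neg (by norm_num), if_pos rfl]
      push_cast at h6 ⊢
      linarith
    · rw [if_neg e3, if_neg e5]
      have h6 : l ≠ 4 := by
        rintro rfl
        exact absurd hl (by decide)
      have h7 : l ≠ 6 := by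
        rintro rfl
        exact absurd hl (by decide)
      have h8 : (7 : ℝ) ≤ l := by
        have : 7 ≤ l := by omega
        exact_mod_cast this
      nlinarith

private theorem ssb1_bound (m p : ℕ) (hs : Squarefree m) (ho : Odd m) :
    |∏ l ∈ m.primeFactors, loc p l| * (m : ℝ) ^ (3 / 2 : ℝ) ≤ 2 := by
  have h1 : (m : ℝ) ^ (3 / 2 : ℝ) = ∏ l ∈ m.primeFactors, (l : ℝ) ^ (3 / 2 : ℝ) := by
    rw [Real.finsetProd_rpow _ _ (fun i _ => Nat.cast_nonneg i)]
    congr 1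
    have h2 := Nat.prod_primeFactors_of_squarefree hs
    conv_lhs => rw [← h2]
    push_cast
    rfl
  rw [h1, Finset.abs_prod, ← Finset.prod_mul_distrib]
  have hl2 : ∀ l ∈ m.primeFactors, l.Prime ∧ l ≠ 2 := by
    intro l hl
    refine ⟨Nat.prime_of_mem_primeFactors hl, ?_⟩
    rintro rfl
    have h3 := Nat.dvd_of_mem_primeFactors hl
    rcases ho with ⟨k, hk⟩
    omega
  refine (Finset.prod_le_prod (fun l _ => by positivity)
    (fun l hl => ssb1_factor p l (hl2 l hl).1 (hl2 l hl).2)).trans ?_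
  rw [Finset.prod_mul_distrib, Finset.prod_ite_eq', Finset.prod_ite_eq']
  split_ifs <;> norm_num

theorem aa_bound (d p : ℕ) (hd : 1 ≤ d) : |aa d p| ≤ 4 / (d : ℝ) ^ (3 / 2 : ℝ) := by
  have hd0 : (0 : ℝ) < d := by exact_mod_cast hd
  have hdp : (0 : ℝ) < (d : ℝ) ^ (3 / 2 : ℝ) := Real.rpow_pos_of_pos hd0 _
  rw [le_div_iff₀ hdp]
  rcases Nat.even_or_odd d with he | ho
  · by_cases h4 : 4 ∣ d
    · obtain ⟨k, rfl⟩ := h4
      rw [ssb1_four]
      split_ifs with hk
      · have hb := ssb1_bound k p hk.1 hk.2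
        have hx : |(ZMod.χ₄ (p : ZMod 4) : ℝ)| ≤ 1 := by
          have h1 : ∀ x : ZMod 4, |ZMod.χ₄ x| ≤ 1 := by decide
          exact_mod_cast h1 (p : ZMod 4)
        have h8 : ((4 * k : ℕ) : ℝ) ^ (3 / 2 : ℝ) = 8 * (k : ℝ) ^ (3 / 2 : ℝ) := by
          push_cast
          rw [Real.mul_rpow (by norm_num) (Nat.cast_nonneg k)]
          congr 1
          rw [show (4 : ℝ) = 2 ^ (2 : ℝ) by norm_num, ← Real.rpow_mul (by norm_num)]
          norm_num
        rw [h8, abs_mul, abs_div, abs_of_pos (show (0 : ℝ) < 4 by norm_num)]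
        have h9 : 0 ≤ |∏ l ∈ k.primeFactors, loc p l| * (k : ℝ) ^ (3 / 2 : ℝ) := by positivity
        have h10 := mul_le_mul_of_nonneg_right hx h9
        nlinarith
      · rw [abs_zero, zero_mul]
        norm_num
    · rw [ssb1_not d p (Nat.not_odd_iff_even.2 he) h4, abs_zero, zero_mul]
      norm_num
  · rw [ssb1_odd d p ho]
    split_ifs with hs
    · exact (ssb1_bound d p hs ho).trans (by norm_num)
    · rw [abs_zero, zero_mul]
      norm_num

end Pool.Agent.HAE
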