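import Pool.Agent.HAE.SSA1
import Pool.Agent.HAE.SSA2
import Pool.Agent.HAE.SSA3
import Pool.Agent.HAE.SSA4
import Pool.Agent.HAE.SSB1

/-!
# HAE-SSA5: the closed form

PROOF.  The function `d ↦ ∑_{e ∣ d} μ(d/e) R(e)/φ(e)` is multiplicative (`R_mul`, `Nat.totient_mul`, Dirichlet convolution of multiplicative functions), and so is `aa` (`aa_mul`); by `Nat.recOnPosPrimePosCoprime` it is enough
to compare at prime powers `l^j`, `j ≥ 1`, `l ∤ n`: the value of `(1/l^j) (R(l^j)/φ(l^j) - R(l^(j-1))/φ(l^(j-1)))`.  Odd `l`: `R(l^j)/φ(l^j) = (l - 2 - jac)/(l-1)` for all `j ≥ 1`, `R(1) = 1`.  `l = 2`: `R(2)/φ(2) = 1`, `R(2^j)/φ(2^j) = 2` or `0` for `j ≥ 2`,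
`χ₄ n = 1` or `-1`.
-/

set_option autoImplicit false

open Finset Filter Topology
open Pool.Agent.HAV
open Pool.Agent.helper66.VK (ee)

namespace Pool.Agent.HAE

/-- The arithmetic function `e ↦ R(e)/φ(e)`. -/
noncomputable def ssa5_f (n : ℕ) : ArithmeticFunction ℝ :=
  ⟨fun e => if e = 0 then 0 else (R e n : ℝ) / (e.totient : ℝ), by simp⟩

theorem ssa5_f_mult (n : ℕ) : (ssa5_f n).IsMultiplicative := by
  refine ⟨?_, ?_⟩
  · simp [ssa5_f, R_one]
  · intro m k h
    simp only [ssa5_f, ArithmeticFunction.coe_mk]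
    rcases Nat.eq_zero_or_pos m with rfl | hm
    · simp
    rcases Nat.eq_zero_or_pos k with rfl | hk
    · simp
    rw [if_neg (by positivity), if_neg hm.ne', if_neg hk.ne', R_mul m k n h, Nat.totient_mul h]
    push_cast
    rw [mul_div_mul_comm]

/-- The Dirichlet convolution with the Moebius function. -/
noncomputable def ssa5_g (n : ℕ) : ArithmeticFunction ℝ :=
  ((ArithmeticFunction.moebius : ArithmeticFunction ℤ) : ArithmeticFunction ℝ) * ssa5_f n

theorem ssa5_g_mult (n : ℕ) : (ssa5_g n).IsMultiplicative :=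
  ArithmeticFunction.isMultiplicative_moebius.intCast.mul (ssa5_f_mult n)

theorem ssa5_g_eq (d n : ℕ) : ssa5_g n d =
    ∑ e ∈ d.divisors, (ArithmeticFunction.moebius (d / e) : ℝ) * (R e n : ℝ) / (e.totient : ℝ) := by
  unfold ssa5_g
  rw [ArithmeticFunction.mul_apply, Nat.sum_divisorsAntidiagonal'
    (f := fun a b => (((ArithmeticFunction.moebius : ArithmeticFunction ℤ) : ArithmeticFunction ℝ) a) * ssa5_f n b)]
  refine sum_congr rfl fun e he => ?_
  have he0 : e ≠ 0 := (Nat.pos_of_mem_divisors he).ne'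
  simp only [ArithmeticFunction.intCoe_apply, ssa5_f, ArithmeticFunction.coe_mk, if_neg he0]
  rw [mul_div_assoc]

theorem ssa5_pow (n l k : ℕ) (hl : l.Prime) : ssa5_g n (l ^ (k + 1)) =
    (R (l ^ (k + 1)) n : ℝ) / ((l ^ (k + 1)).totient : ℝ) - (R (l ^ k) n : ℝ) / ((l ^ k).totient : ℝ) := by
  rw [ssa5_g_eq, Nat.divisors_prime_pow hl, sum_map]
  simp only [Function.Embedding.coeFn_mk]
  rw [sum_range_succ, sum_range_succ]
  have h0 : ∑ x ∈ range k, (ArithmeticFunction.moebius (l ^ (k + 1) / l ^ x) : ℝ) * (R (l ^ x) n : ℝ) /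
      ((l ^ x).totient : ℝ) = 0 := by
    refine sum_eq_zero fun x hx => ?_
    have hx' := mem_range.1 hx
    rw [Nat.pow_div (by omega) hl.pos, ArithmeticFunction.moebius_apply_prime_pow hl (by omega),
      if_neg (by omega)]
    simp
  rw [h0, Nat.pow_div (by omega) hl.pos, Nat.div_self (pow_pos hl.pos _)]
  have h1 : k + 1 - k = 1 := by omega
  rw [h1, pow_one, ArithmeticFunction.moebius_apply_prime hl, ArithmeticFunction.moebius_apply_one]
  push_cast
  ring

theorem ssa5_loc (n l k : ℕ) (hl : l.Prime) (hn : Nat.Coprime l n) :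
    (1 / ((l ^ (k + 1) : ℕ) : ℝ)) * ssa5_g n (l ^ (k + 1)) = aa (l ^ (k + 1)) n := by
  have hl0 : (l : ℝ) ≠ 0 := by exact_mod_cast hl.ne_zero
  have hln : ¬ l ∣ n := by
    intro h
    exact hl.one_lt.ne' (Nat.Coprime.eq_one_of_dvd hn h)
  rw [ssa5_pow n l k hl]
  by_cases hl2 : l = 2
  · subst hl2
    have hodd : Odd n := by
      rw [← Nat.not_even_iff_odd, even_iff_two_dvd]
      exact hln
    rcases Nat.lt_or_ge k 1 with hk | hk
    · have : k = 0 := by omega
      subst this
      rw [zero_add, pow_one, pow_zero, R_two n hodd, R_one, aa_two]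
      simp
    rcases Nat.lt_or_ge k 2 with hk2 | hk2
    · have : k = 1 := by omega
      subst this
      rw [pow_one, R_two n hodd, R_two_pow (1 + 1) n (by norm_num) hodd]
      have h4 : (2 : ℕ) ^ (1 + 1) = 4 := by norm_num
      rw [h4, aa_four]
      have ht : Nat.totient 4 = 2 := by decide
      have ht2 : Nat.totient 2 = 1 := by decide
      rw [ht, ht2]
      rcases Nat.odd_mod_four_iff.1 (Nat.odd_iff.1 hodd) with h | h
      · rw [if_pos h, ZMod.χ₄_nat_one_mod_four h]
        norm_num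
      · rw [if_neg (by omega), ZMod.χ₄_nat_three_mod_four h]
        norm_num
    · rw [aa_two_pow (k + 1) n (by omega), R_two_pow (k + 1) n (by omega) hodd, R_two_pow k n hk2 hodd]
      split_ifs
      · rw [Nat.totient_prime_pow Nat.prime_two (by omega), Nat.totient_prime_pow Nat.prime_two (by omega)]
        obtain ⟨m, rfl⟩ := Nat.exists_eq_add_of_le hk
        have e1 : 1 + m + 1 - 1 = m + 1 := by omega
        have e2 : 1 + m - 1 = m := by omega
        rw [e1, e2]
        push_cast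
        have : (2 : ℝ) ^ m ≠ 0 := by positivity
        field_simp
        ring
      · simp
  · have hodd := fun j (hj : 1 ≤ j) => R_odd l j n hl hl2 hj hln
    have hl1 : (l : ℝ) - 1 ≠ 0 := by
      have : (1 : ℝ) < l := by exact_mod_cast hl.one_lt
      linarith
    have hR : ∀ j, 1 ≤ j → (R (l ^ j) n : ℝ) / ((l ^ j).totient : ℝ) =
        ((l : ℝ) - 2 - (jacobiSym (-(n : ℤ)) l : ℝ)) / ((l : ℝ) - 1) := by
      intro j hj
      have h1 : (R (l ^ j) n : ℝ) = (l : ℝ) ^ (j - 1) * ((l : ℝ) - 2 - (jacobiSym (-(n : ℤ)) l : ℝ)) := by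
        exact_mod_cast hodd j hj
      rw [h1, Nat.totient_prime_pow hl hj]
      push_cast [Nat.cast_sub hl.one_le]
      have : (l : ℝ) ^ (j - 1) ≠ 0 := by positivity
      rw [mul_div_mul_left _ _ this]
    rcases Nat.eq_zero_or_pos k with rfl | hk
    · rw [hR 1 le_rfl, zero_add, pow_one, pow_zero, aa_prime l n hl hl2, R_one]
      unfold loc
      simp only [Nat.totient_one, Nat.cast_one, div_one]
      field_simp
      ring
    · rw [hR (k + 1) (by omega), hR k hk, aa_pow l (k + 1) n hl hl2 (by omega)]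
      simp

theorem ssa5_main (n : ℕ) : ∀ d : ℕ, 1 ≤ d → Nat.Coprime d n →
    (1 / (d : ℝ)) * ssa5_g n d = aa d n := by
  intro d
  induction d using Nat.recOnPosPrimePosCoprime with
  | prime_pow p k hp hk =>
    intro _ hc
    obtain ⟨m, rfl⟩ := Nat.exists_eq_add_of_le hk
    have e1 : 1 + m = m + 1 := by omega
    rw [e1] at hc ⊢
    exact ssa5_loc n p m hp (Nat.Coprime.coprime_dvd_left (dvd_pow_self p (by omega)) hc)
  | zero =>
    intro h _
    omega
  | one =>
    intro _ _
    rw [aa_one, (ssa5_g_mult n).map_one]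
    simp
  | coprime a b ha hb hab iha ihb =>
    intro _ hc
    have hca : Nat.Coprime a n := Nat.Coprime.coprime_dvd_left (dvd_mul_right a b) hc
    have hcb : Nat.Coprime b n := Nat.Coprime.coprime_dvd_left (dvd_mul_left b a) hc
    rw [aa_mul a b n hab, ← iha (by omega) hca, ← ihb (by omega) hcb,
      (ssa5_g_mult n).map_mul_of_coprime hab]
    push_cast
    rw [one_div_mul_eq_div, one_div_mul_eq_div, one_div_mul_eq_div, mul_div_mul_comm]

theorem AA_eq_aa (d n : ℕ) (hd : 1 ≤ d) (hdn : Nat.Coprime d n) : AA d n = ((aa d n : ℝ) : ℂ) := by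
  rw [AA_eq_sum d n hd, ← ssa5_main n d hd hdn, ssa5_g_eq]

end Pool.Agent.HAE
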