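import Pool.Agent.HAE.CM
import Pool.Agent.HAE.SSA5

/-!
# HAE-ASM2b: the small denominators at a prime, with a power of the logarithm

PROOF.  As `ASM2.lean` (`mainp`), with `cm (A + 2B) B` and no final `ε`.
-/

set_option autoImplicit false

open Finset Filter Topology
open Pool.Agent.HAV
open Pool.Agent.helper66.VK (ee)

namespace Pool.Agent.HAE

private theorem asm2b_log_pow_le (B : ℕ) : ∃ x₁ : ℕ, ∀ N : ℕ, x₁ ≤ N → Real.log N ^ B ≤ N := by
  have h := (isLittleO_log_rpow_atTop (r := (1 : ℝ) / ((B : ℝ) + 1)) (by positivity)).bound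
    (c := 1) one_pos
  have h2 : ∀ᶠ N : ℕ in atTop, ‖Real.log (N : ℝ)‖ ≤ 1 * ‖(N : ℝ) ^ ((1 : ℝ) / ((B : ℝ) + 1))‖ :=
    tendsto_natCast_atTop_atTop.eventually h
  obtain ⟨x₁, hx₁⟩ := eventually_atTop.mp h2
  refine ⟨max x₁ 1, fun N hN => ?_⟩
  have hN1 : (1 : ℝ) ≤ (N : ℝ) := by exact_mod_cast (le_max_right _ _).trans hN
  have hlog : 0 ≤ Real.log (N : ℝ) := Real.log_nonneg hN1
  have h3 := hx₁ N ((le_max_left _ _).trans hN)
  rw [one_mul, Real.norm_of_nonneg hlog, Real.norm_of_nonneg (by positivity)] at h3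
  calc Real.log (N : ℝ) ^ B ≤ ((N : ℝ) ^ ((1 : ℝ) / ((B : ℝ) + 1))) ^ B := pow_le_pow_left₀ hlog h3 B
    _ = (N : ℝ) ^ ((1 : ℝ) / ((B : ℝ) + 1) * (B : ℝ)) := by
        rw [← Real.rpow_natCast, ← Real.rpow_mul (by positivity)]
    _ ≤ (N : ℝ) ^ (1 : ℝ) := by
        apply Real.rpow_le_rpow_of_exponent_le hN1
        rw [one_div, inv_mul_eq_div, div_le_one (by positivity)]
        linarith
    _ = N := Real.rpow_one _

private theorem asm2b_main_term (d p : ℕ) (K : ℝ) :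
    ∑ h ∈ (range d).filter (Nat.Coprime d), S d h * GG d h * (K : ℂ) / ((d.totient : ℂ) * (d : ℂ) ^ 2) *
      ee ((p : ℝ) * ((h : ℝ) / d)) = (K : ℂ) * AA d p := by
  unfold AA
  rw [mul_div_assoc', Finset.mul_sum, Finset.sum_div]
  refine Finset.sum_congr rfl fun h _ => ?_
  ring

theorem mainp' (A B : ℕ) : ∃ C : ℝ, 0 ≤ C ∧ ∃ x₀ : ℕ, ∀ N : ℕ, x₀ ≤ N → ∀ D : ℕ, 1 ≤ D →
    (D : ℝ) ≤ Real.log N ^ B → ∀ p : ℕ, p.Prime → N < p →
    ‖∑ d ∈ Icc 1 D, ∑ h ∈ (range d).filter (Nat.Coprime d), c N d h * ee ((p : ℝ) * ((h : ℝ) / d)) -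
      ((Real.pi ^ 2 / 12 * N * ∑ d ∈ Icc 1 D, aa d p : ℝ) : ℂ)‖ ≤ C * N / Real.log N ^ A := by
  obtain ⟨C, hC, x₀, hx₀⟩ := cm (A + 2 * B) B
  obtain ⟨x₁, hx₁⟩ := asm2b_log_pow_le B
  have hlt : Tendsto (fun N : ℕ => Real.log (N : ℝ)) atTop atTop :=
    Real.tendsto_log_atTop.comp tendsto_natCast_atTop_atTop
  obtain ⟨x₂, hx₂⟩ := eventually_atTop.mp (hlt.eventually_ge_atTop 1)
  refine ⟨C, hC, max (max x₀ x₁) x₂, fun N hN D hD1 hD p hp hNp => ?_⟩
  have hN0 : x₀ ≤ N := (le_max_left _ _).trans ((le_max_left _ _).trans hN)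
  have hN1 : x₁ ≤ N := (le_max_right _ _).trans ((le_max_left _ _).trans hN)
  have hN2 : x₂ ≤ N := (le_max_right _ _).trans hN
  have hL1 : (1 : ℝ) ≤ Real.log N := hx₂ N hN2
  have hLpos : (0 : ℝ) < Real.log N := by linarith
  have hDN : D ≤ N := by exact_mod_cast hD.trans (hx₁ N hN1)
  -- the main term
  have hAA : ∀ d ∈ Icc 1 D, AA d p = ((aa d p : ℝ) : ℂ) := by
    intro d hd
    obtain ⟨hd1, hd2⟩ := Finset.mem_Icc.mp hd
    refine AA_eq_aa d p hd1 ?_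
    exact ((Nat.Prime.coprime_iff_not_dvd hp).mpr (Nat.not_dvd_of_pos_of_lt hd1 (by omega))).symm
  have hmain : ((Real.pi ^ 2 / 12 * N * ∑ d ∈ Icc 1 D, aa d p : ℝ) : ℂ) =
      ∑ d ∈ Icc 1 D, ∑ h ∈ (range d).filter (Nat.Coprime d),
        S d h * GG d h * ((Real.pi ^ 2 / 12 * N : ℝ) : ℂ) / ((d.totient : ℂ) * (d : ℂ) ^ 2) *
          ee ((p : ℝ) * ((h : ℝ) / d)) := by
    rw [Finset.sum_congr rfl fun d _ => asm2b_main_term d p (Real.pi ^ 2 / 12 * N), ← Finset.mul_sum,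
      Finset.sum_congr rfl hAA]
    push_cast
    ring
  rw [hmain, ← Finset.sum_sub_distrib]
  have hterm : ∀ d ∈ Icc 1 D, ‖∑ h ∈ (range d).filter (Nat.Coprime d), c N d h * ee ((p : ℝ) * ((h : ℝ) / d)) -
      ∑ h ∈ (range d).filter (Nat.Coprime d),
        S d h * GG d h * ((Real.pi ^ 2 / 12 * N : ℝ) : ℂ) / ((d.totient : ℂ) * (d : ℂ) ^ 2) *
          ee ((p : ℝ) * ((h : ℝ) / d))‖ ≤ (D : ℝ) * (C * N / Real.log N ^ (A + 2 * B)) := by
    intro d hd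
    obtain ⟨hd1, hd2⟩ := Finset.mem_Icc.mp hd
    have hdD : (d : ℝ) ≤ D := by exact_mod_cast hd2
    have hnn : 0 ≤ C * N / Real.log N ^ (A + 2 * B) := by positivity
    rw [← Finset.sum_sub_distrib]
    refine (norm_sum_le_of_le _ (f := fun h => c N d h * ee ((p : ℝ) * ((h : ℝ) / d)) -
        S d h * GG d h * ((Real.pi ^ 2 / 12 * N : ℝ) : ℂ) / ((d.totient : ℂ) * (d : ℂ) ^ 2) *
          ee ((p : ℝ) * ((h : ℝ) / d))) (n := fun _ => C * N / Real.log N ^ (A + 2 * B)) ?_).trans ?_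
    · intro h _
      rw [← sub_mul, norm_mul, Pool.Agent.helper66.VK.norm_ee, mul_one]
      exact hx₀ N hN0 d h hd1 (hdD.trans hD)
    · rw [Finset.sum_const, nsmul_eq_mul]
      refine mul_le_mul_of_nonneg_right ?_ hnn
      have : ((range d).filter (Nat.Coprime d)).card ≤ d := (Finset.card_filter_le _ _).trans (by simp)
      exact le_trans (by exact_mod_cast this) hdD
  refine (norm_sum_le_of_le _ hterm).trans ?_
  rw [Finset.sum_const, nsmul_eq_mul, Nat.card_Icc, Nat.add_sub_cancel]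
  have hD0 : (0 : ℝ) ≤ D := Nat.cast_nonneg _
  have hDD : (D : ℝ) * D ≤ Real.log N ^ (2 * B) := by
    have := mul_le_mul hD hD hD0 (by positivity)
    calc (D : ℝ) * D ≤ Real.log N ^ B * Real.log N ^ B := this
      _ = Real.log N ^ (2 * B) := by ring
  calc (D : ℝ) * ((D : ℝ) * (C * N / Real.log N ^ (A + 2 * B)))
      = ((D : ℝ) * D) * (C * N / Real.log N ^ (A + 2 * B)) := by ring
    _ ≤ Real.log N ^ (2 * B) * (C * N / Real.log N ^ (A + 2 * B)) :=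
        mul_le_mul_of_nonneg_right hDD (by positivity)
    _ = C * N / Real.log N ^ A := by
        rw [pow_add]
        field_simp

end Pool.Agent.HAE
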