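import Pool.Agent.HAE.Defs

/-!
# HAE-BND: the region fixed at the scale `N`, on average

PROOF.  Let `N < n ≤ N + K`.  `F n - FN N n = ∑ log q` over the triples `(q, a, k)`, `q` prime, `q² < n`, `1 ≤ a`, `k ∈ ks a`, `a ∣ n - q² + k²`,
`N < a² + q² - k² ≤ n` (in `N0 (n - q²)` the condition `a² ≤ n - q² + k²` gives `3 a² ≤ 4 (n - q²)`, so the ranges of `a` in both definitions contain everything;
the triples with `a² + q² - k² ≤ N` have `q² ≤ N` because `a² ≥ k²`).  All terms are `≥ 0`.  Sum over `n`: for a triple with `N < a² + q² - k² ≤ N + K` the number of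
`n ∈ Ioc N (N + K)` with `n = q² - k²` modulo `a` is `≤ K/a + 1`, `log q ≤ log (2N)`.  For fixed `(a, k)` the number of `q` with `N - a² + k² < q² ≤ N + K - a² + k²` is
`≤ √K + 1`.  `3 a² ≤ 4 (N + K) ≤ 8 N`, `|ks a| ≤ a + 1`: total `≤ log (2N) (√K + 1) ∑_{a ≤ 2 √N} (a + 1)(K/a + 1) ≤ C log N √K (K √N + N)`.
-/

set_option autoImplicit false

open Finset Filter Topology
open Pool.Agent.HAV
open Pool.Agent.helper66.VK (ee)

namespace Pool.Agent.HAE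

theorem bnd_icc (f : ℕ → ℝ) (X Y : ℕ) (hX : ∀ a, X < a → f a = 0) (hY : ∀ a, Y < a → f a = 0) :
    ∑ a ∈ Icc 1 X, f a = ∑ a ∈ Icc 1 Y, f a := by
  rcases le_total X Y with h | h
  · refine sum_subset (Icc_subset_Icc_right h) fun a ha hb => hX a ?_
    rw [mem_Icc] at ha hb
    omega
  · refine (sum_subset (Icc_subset_Icc_right h) fun a ha hb => hY a ?_).symm
    rw [mem_Icc] at ha hb
    omega

theorem bnd_ks {a : ℕ} {k : ℤ} (hk : k ∈ ks a) : 4 * k ^ 2 ≤ (a : ℤ) ^ 2 := by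
  classical
  unfold ks at hk
  have h := (mem_filter.1 hk).2
  have h2 : |k| ^ 2 = k ^ 2 := sq_abs k
  have h3 := abs_nonneg k
  nlinarith

theorem bnd_ks_card (a : ℕ) : (((ks a).card : ℕ) : ℝ) ≤ a + 1 := by
  classical
  have h1 : ks a ⊆ Icc (-((a / 2 : ℕ) : ℤ)) ((a / 2 : ℕ) : ℤ) := by
    intro k hk
    unfold ks at hk
    rw [Finset.mem_filter, Finset.mem_Icc] at hk
    rw [Finset.mem_Icc]
    have h2 := hk.2
    have h3 := abs_le.1 (show |k| ≤ ((a / 2 : ℕ) : ℤ) by omega)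
    exact h3
  have h2 := Finset.card_le_card h1
  rw [Int.card_Icc] at h2
  have h3 : (ks a).card ≤ a + 1 := by omega
  exact_mod_cast h3

open Classical in
/-- The number of `k ∈ ks a` with `a ∣ n - q² + k²` and `a² + q² - k² ≤ x`. -/
noncomputable def bnd_cnt (n x q a : ℕ) : ℝ :=
  (((ks a).filter (fun k => (a : ℤ) ∣ (n : ℤ) - (q : ℤ) ^ 2 + k ^ 2 ∧
    (a : ℤ) ^ 2 + (q : ℤ) ^ 2 - k ^ 2 ≤ x)).card : ℝ)

theorem bnd_key {a q x : ℕ} {k : ℤ} (hk : k ∈ ks a) (h : (a : ℤ) ^ 2 + (q : ℤ) ^ 2 - k ^ 2 ≤ x) :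
    3 * a ^ 2 + 4 * q ^ 2 ≤ 4 * x := by
  have h1 := bnd_ks hk
  zify
  linarith

theorem bnd_cnt_zero {n x q a : ℕ} (h : 4 * x < 3 * a ^ 2 + 4 * q ^ 2) : bnd_cnt n x q a = 0 := by
  classical
  unfold bnd_cnt
  rw [Nat.cast_eq_zero, card_eq_zero, filter_eq_empty_iff]
  intro k hk hc
  have := bnd_key hk hc.2
  omega

theorem bnd_QQ {x a : ℕ} (h : QQ x < a) : 4 * x < 3 * a ^ 2 := by
  unfold QQ at h
  have h1 := Nat.lt_succ_sqrt x
  have h2 : 2 * (Nat.sqrt x + 1) ≤ a := by omega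
  have h3 : (2 * (Nat.sqrt x + 1)) * (2 * (Nat.sqrt x + 1)) ≤ a * a := Nat.mul_le_mul h2 h2
  have h4 : x < (Nat.sqrt x + 1) * (Nat.sqrt x + 1) := h1
  nlinarith

theorem bnd_F (N n : ℕ) (hn : n ≤ 2 * N) : F n =
    ∑ q ∈ pr (Nat.sqrt (2 * N)), Real.log q * ∑ a ∈ Icc 1 (QQ (2 * N)), bnd_cnt n n q a := by
  classical
  unfold F
  have hsub : qr n ⊆ pr (Nat.sqrt (2 * N)) := by
    intro q hq
    unfold qr at hq
    unfold pr
    rw [mem_filter, mem_Icc] at hq ⊢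
    refine ⟨⟨hq.1.1, ?_⟩, hq.2.1⟩
    rw [Nat.le_sqrt']
    omega
  rw [← sum_subset hsub]
  · refine sum_congr rfl fun q hq => ?_
    unfold qr at hq
    rw [mem_filter, mem_Icc] at hq
    have hqn := hq.2.2
    congr 1
    unfold N0
    have h1 : ∀ a, (((ks a).filter (fun k => (a : ℤ) ∣ ((n - q ^ 2 : ℕ) : ℤ) + k ^ 2 ∧
        (a : ℤ) ^ 2 ≤ ((n - q ^ 2 : ℕ) : ℤ) + k ^ 2)).card : ℝ) = bnd_cnt n n q a := by
      intro a
      unfold bnd_cnt
      congr 2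
      refine filter_congr fun k _ => ?_
      rw [Nat.cast_sub hqn.le]
      push_cast
      constructor
      · rintro ⟨h, h'⟩
        exact ⟨h, by linarith⟩
      · rintro ⟨h, h'⟩
        exact ⟨h, by linarith⟩
    rw [sum_congr rfl fun a _ => h1 a]
    refine bnd_icc _ _ _ (fun a ha => bnd_cnt_zero ?_) (fun a ha => bnd_cnt_zero ?_)
    · zify [hqn.le] at ha ⊢
      nlinarith
    · have h2 := bnd_QQ ha
      nlinarith
  · intro q _ hq
    rw [sum_eq_zero, mul_zero]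
    intro a ha
    refine bnd_cnt_zero ?_
    by_contra hc
    rename_i hq1
    apply hq
    unfold pr at hq1
    unfold qr
    rw [mem_filter, mem_Icc] at hq1 ⊢
    rw [mem_Icc] at ha
    have h2 : q ^ 2 < n := by nlinarith
    refine ⟨⟨hq1.1.1, ?_⟩, hq1.2, h2⟩
    nlinarith

theorem bnd_FN (N n : ℕ) : FN N n =
    ∑ q ∈ pr (Nat.sqrt (2 * N)), Real.log q * ∑ a ∈ Icc 1 (QQ (2 * N)), bnd_cnt n N q a := by
  classical
  unfold FN
  have hsub : pr (Nat.sqrt N) ⊆ pr (Nat.sqrt (2 * N)) := by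
    intro q hq
    unfold pr at hq ⊢
    rw [mem_filter, mem_Icc] at hq ⊢
    exact ⟨⟨hq.1.1, hq.1.2.trans (Nat.sqrt_le_sqrt (by omega))⟩, hq.2⟩
  rw [← sum_subset hsub]
  · refine sum_congr rfl fun q hq => ?_
    congr 1
    have h1 : ∀ a, (((Reg N a q).filter (fun k => (a : ℤ) ∣ (n : ℤ) - (q : ℤ) ^ 2 + k ^ 2)).card : ℝ) =
        bnd_cnt n N q a := by
      intro a
      unfold bnd_cnt Reg
      rw [filter_filter]
      congr 2
      refine filter_congr fun k _ => ?_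
      exact and_comm
    rw [sum_congr rfl fun a _ => h1 a]
    refine bnd_icc _ _ _ (fun a ha => bnd_cnt_zero ?_) (fun a ha => bnd_cnt_zero ?_)
    · have h2 := bnd_QQ ha
      nlinarith
    · have h2 := bnd_QQ ha
      nlinarith
  · intro q hq1 hq
    rw [sum_eq_zero, mul_zero]
    intro a ha
    refine bnd_cnt_zero ?_
    by_contra hc
    apply hq
    unfold pr at hq1 ⊢
    rw [mem_filter, mem_Icc] at hq1 ⊢
    rw [mem_Icc] at ha
    refine ⟨⟨hq1.1.1, ?_⟩, hq1.2⟩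
    rw [Nat.le_sqrt']
    nlinarith

open Classical in
/-- The triples in the window. -/
noncomputable def bnd_D (N K n q a : ℕ) : ℝ :=
  (((ks a).filter (fun k => (a : ℤ) ∣ (n : ℤ) - (q : ℤ) ^ 2 + k ^ 2 ∧
    (N : ℤ) < (a : ℤ) ^ 2 + (q : ℤ) ^ 2 - k ^ 2 ∧ (a : ℤ) ^ 2 + (q : ℤ) ^ 2 - k ^ 2 ≤ N + K)).card : ℝ)

theorem bnd_mono (n N q a : ℕ) (h : N ≤ n) : bnd_cnt n N q a ≤ bnd_cnt n n q a := by
  classical
  unfold bnd_cnt
  refine Nat.cast_le.2 (card_le_card ?_)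
  intro k hk
  rw [mem_filter] at hk ⊢
  refine ⟨hk.1, hk.2.1, hk.2.2.trans ?_⟩
  exact_mod_cast h

theorem bnd_diff (n N K q a : ℕ) (hK : n ≤ N + K) : bnd_cnt n n q a ≤ bnd_cnt n N q a + bnd_D N K n q a := by
  classical
  unfold bnd_cnt bnd_D
  rw [← Nat.cast_add]
  refine Nat.cast_le.2 (le_trans (card_le_card ?_) (card_union_le _ _))
  intro k hk
  rw [mem_filter] at hk
  rw [mem_union, mem_filter, mem_filter]
  have hK' : (n : ℤ) ≤ N + K := by exact_mod_cast hK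
  rcases le_or_gt ((a : ℤ) ^ 2 + (q : ℤ) ^ 2 - k ^ 2) N with h | h
  · exact Or.inl ⟨hk.1, hk.2.1, h⟩
  · exact Or.inr ⟨hk.1, hk.2.1, h, hk.2.2.trans hK'⟩

theorem bnd_abs (N K n : ℕ) (hN : N ≤ n) (hK : n ≤ N + K) (hKN : K ≤ N) :
    |F n - FN N n| ≤ Real.log (2 * N) *
      ∑ q ∈ pr (Nat.sqrt (2 * N)), ∑ a ∈ Icc 1 (QQ (2 * N)), bnd_D N K n q a := by
  rw [bnd_F N n (by omega), bnd_FN N n, ← sum_sub_distrib, mul_sum]
  have hD : ∀ q a, 0 ≤ bnd_D N K n q a := fun q a => Nat.cast_nonneg _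
  refine (abs_sum_le_sum_abs _ _).trans (sum_le_sum fun q hq => ?_)
  have hq1 : 1 ≤ q ∧ q ≤ Nat.sqrt (2 * N) := by
    unfold pr at hq
    rw [mem_filter, mem_Icc] at hq
    exact hq.1
  have hlog0 : 0 ≤ Real.log q := Real.log_natCast_nonneg q
  have hlog : Real.log q ≤ Real.log (2 * N) := by
    refine Real.log_le_log (by exact_mod_cast hq1.1) ?_
    have := hq1.2.trans (Nat.sqrt_le_self _)
    exact_mod_cast this
  rw [← mul_sub, ← sum_sub_distrib, abs_mul, abs_of_nonneg hlog0]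
  refine mul_le_mul hlog ?_ (abs_nonneg _) (hlog0.trans hlog)
  refine (abs_sum_le_sum_abs _ _).trans (sum_le_sum fun a _ => ?_)
  rw [abs_of_nonneg (by linarith [bnd_mono n N q a hN])]
  linarith [bnd_diff n N K q a hK]

open Classical in
theorem bnd_count (N K a : ℕ) (ha : 1 ≤ a) (c : ℤ) :
    (((Ioc N (N + K)).filter (fun n : ℕ => (a : ℤ) ∣ (n : ℤ) - c)).card : ℝ) ≤ (K : ℝ) / a + 1 := by
  have ha0 : 0 < a := ha
  set v : ℕ := (c % a).toNat with hv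
  have hvc : (v : ℤ) = c % a := Int.toNat_of_nonneg (Int.emod_nonneg _ (by omega))
  have h0 : (Ioc N (N + K)).filter (fun n : ℕ => (a : ℤ) ∣ (n : ℤ) - c) =
      (Ioc N (N + K)).filter (fun n => n ≡ v [MOD a]) := by
    refine filter_congr fun n _ => ?_
    rw [← Int.natCast_modEq_iff, hvc]
    constructor
    · intro h
      exact ((Int.modEq_iff_dvd.2 h).symm).trans (Int.mod_modEq c a).symm
    · intro h
      exact Int.modEq_iff_dvd.1 ((h.trans (Int.mod_modEq c a)).symm)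
  rw [h0]
  have h1 : ((((Ioc N (N + K)).filter (fun n => n ≡ v [MOD a])).card : ℕ) : ℤ) =
      max (⌊(((N + K : ℕ) : ℚ) - v) / (a : ℚ)⌋ - ⌊((N : ℚ) - v) / (a : ℚ)⌋) 0 := by
    rw [← Nat.Ioc_filter_modEq_card N (N + K) ha0 v]
  have hq0 : (0 : ℚ) < (a : ℚ) := by exact_mod_cast ha0
  have h2 : ((((Ioc N (N + K)).filter (fun n => n ≡ v [MOD a])).card : ℕ) : ℚ) ≤ (K : ℚ) / a + 1 := by
    have h3 : ((((Ioc N (N + K)).filter (fun n => n ≡ v [MOD a])).card : ℕ) : ℚ) =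
        ((max (⌊(((N + K : ℕ) : ℚ) - v) / (a : ℚ)⌋ - ⌊((N : ℚ) - v) / (a : ℚ)⌋) 0 : ℤ) : ℚ) := by
      rw [← h1]
      push_cast
      rfl
    rw [h3, Int.cast_max]
    apply max_le
    · push_cast
      have h4 := Int.floor_le ((((N + K : ℕ) : ℚ) - v) / (a : ℚ))
      have h5 := (Int.sub_one_lt_floor (((N : ℚ) - v) / (a : ℚ))).le
      have h6 : (K : ℚ) / a = (((N + K : ℕ) : ℚ) - v) / a - ((N : ℚ) - v) / a := by
        push_cast
        ring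
      rw [h6]
      push_cast at h4 ⊢
      linarith
    · push_cast
      positivity
  have h7 : (((((Ioc N (N + K)).filter (fun n => n ≡ v [MOD a])).card : ℕ) : ℚ) : ℝ) ≤
      (((K : ℚ) / a + 1 : ℚ) : ℝ) := by exact_mod_cast h2
  push_cast at h7
  exact h7

open Classical in
theorem bnd_qcount (Z K : ℕ) (u : ℤ) :
    (((pr Z).filter (fun q : ℕ => u < (q : ℤ) ^ 2 ∧ (q : ℤ) ^ 2 ≤ u + K)).card : ℝ) ≤ Real.sqrt K + 1 := by
  set Q := (pr Z).filter (fun q : ℕ => u < (q : ℤ) ^ 2 ∧ (q : ℤ) ^ 2 ≤ u + K) with hQ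
  rcases Q.eq_empty_or_nonempty with h | h
  · rw [h]
    simp only [card_empty, Nat.cast_zero]
    positivity
  · have hm := Q.min'_mem h
    set m := Q.min' h with hmdef
    have hsub : Q ⊆ Icc m (m + Nat.sqrt K) := by
      intro q hq
      have hmq : m ≤ q := Q.min'_le q hq
      rw [mem_Icc]
      refine ⟨hmq, ?_⟩
      rw [hQ, mem_filter] at hq hm
      have h1 : (q : ℤ) ^ 2 - (m : ℤ) ^ 2 ≤ K := by linarith [hq.2.2, hm.2.1]
      have h2 : (q - m) ^ 2 ≤ K := by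
        zify [hmq]
        have hmq' : (m : ℤ) ≤ q := by exact_mod_cast hmq
        have hm0 : (0 : ℤ) ≤ m := Nat.cast_nonneg m
        nlinarith
      have h3 : q - m ≤ Nat.sqrt K := Nat.le_sqrt'.2 h2
      omega
    have h1 := card_le_card hsub
    rw [Nat.card_Icc] at h1
    have h2 : (Q.card : ℝ) ≤ (Nat.sqrt K : ℝ) + 1 := by
      have : Q.card ≤ Nat.sqrt K + 1 := by omega
      exact_mod_cast this
    refine h2.trans ?_
    have := Real.nat_sqrt_le_real_sqrt (a := K)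
    linarith

open Classical in
theorem bnd_sumn (N K q a : ℕ) (ha : 1 ≤ a) :
    ∑ n ∈ Ioc N (N + K), bnd_D N K n q a ≤ ((K : ℝ) / a + 1) *
      (((ks a).filter (fun k => (N : ℤ) < (a : ℤ) ^ 2 + (q : ℤ) ^ 2 - k ^ 2 ∧
        (a : ℤ) ^ 2 + (q : ℤ) ^ 2 - k ^ 2 ≤ N + K)).card : ℝ) := by
  set W := (ks a).filter (fun k => (N : ℤ) < (a : ℤ) ^ 2 + (q : ℤ) ^ 2 - k ^ 2 ∧
        (a : ℤ) ^ 2 + (q : ℤ) ^ 2 - k ^ 2 ≤ N + K) with hW
  have h1 : ∀ n, bnd_D N K n q a = ∑ k ∈ W, if (a : ℤ) ∣ (n : ℤ) - ((q : ℤ) ^ 2 - k ^ 2) then (1 : ℝ) else 0 := by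
    intro n
    unfold bnd_D
    rw [sum_boole, hW, filter_filter]
    congr 2
    refine filter_congr fun k _ => ?_
    have e : (n : ℤ) - (q : ℤ) ^ 2 + k ^ 2 = (n : ℤ) - ((q : ℤ) ^ 2 - k ^ 2) := by ring
    rw [e]
    exact and_comm
  rw [sum_congr rfl fun n _ => h1 n, sum_comm]
  calc ∑ k ∈ W, ∑ n ∈ Ioc N (N + K), (if (a : ℤ) ∣ (n : ℤ) - ((q : ℤ) ^ 2 - k ^ 2) then (1 : ℝ) else 0)
      ≤ ∑ _k ∈ W, ((K : ℝ) / a + 1) := by
        refine sum_le_sum fun k _ => ?_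
        rw [sum_boole]
        exact bnd_count N K a ha _
    _ = ((K : ℝ) / a + 1) * (W.card : ℝ) := by
        rw [sum_const, nsmul_eq_mul, mul_comm]

open Classical in
theorem bnd_sumq (N K a Z : ℕ) :
    ∑ q ∈ pr Z, (((ks a).filter (fun k => (N : ℤ) < (a : ℤ) ^ 2 + (q : ℤ) ^ 2 - k ^ 2 ∧
        (a : ℤ) ^ 2 + (q : ℤ) ^ 2 - k ^ 2 ≤ N + K)).card : ℝ) ≤ ((a : ℝ) + 1) * (Real.sqrt K + 1) := by
  have h1 : ∀ q : ℕ, (((ks a).filter (fun k => (N : ℤ) < (a : ℤ) ^ 2 + (q : ℤ) ^ 2 - k ^ 2 ∧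
        (a : ℤ) ^ 2 + (q : ℤ) ^ 2 - k ^ 2 ≤ N + K)).card : ℝ) = ∑ k ∈ ks a,
        if (N : ℤ) - (a : ℤ) ^ 2 + k ^ 2 < (q : ℤ) ^ 2 ∧ (q : ℤ) ^ 2 ≤ (N : ℤ) - (a : ℤ) ^ 2 + k ^ 2 + K then (1 : ℝ) else 0 := by
    intro q
    rw [sum_boole]
    congr 2
    refine filter_congr fun k _ => ?_
    constructor
    · rintro ⟨h, h'⟩
      exact ⟨by linarith, by linarith⟩
    · rintro ⟨h, h'⟩
      exact ⟨by linarith, by linarith⟩
  rw [sum_congr rfl fun q _ => h1 q, sum_comm]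
  calc ∑ k ∈ ks a, ∑ q ∈ pr Z, (if (N : ℤ) - (a : ℤ) ^ 2 + k ^ 2 < (q : ℤ) ^ 2 ∧
        (q : ℤ) ^ 2 ≤ (N : ℤ) - (a : ℤ) ^ 2 + k ^ 2 + K then (1 : ℝ) else 0)
      ≤ ∑ _k ∈ ks a, (Real.sqrt K + 1) := by
        refine sum_le_sum fun k _ => ?_
        rw [sum_boole]
        exact bnd_qcount Z K _
    _ = ((ks a).card : ℝ) * (Real.sqrt K + 1) := by
        rw [sum_const, nsmul_eq_mul]
    _ ≤ ((a : ℝ) + 1) * (Real.sqrt K + 1) := by
        refine mul_le_mul_of_nonneg_right (bnd_ks_card a) ?_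
        positivity

theorem bnd_suma (N K a Z : ℕ) (ha : 1 ≤ a) (hK : 1 ≤ K) :
    ∑ q ∈ pr Z, ∑ n ∈ Ioc N (N + K), bnd_D N K n q a ≤ 4 * Real.sqrt K * (K + a) := by
  classical
  have h1 : ∑ q ∈ pr Z, ∑ n ∈ Ioc N (N + K), bnd_D N K n q a ≤
      ((K : ℝ) / a + 1) * (((a : ℝ) + 1) * (Real.sqrt K + 1)) := by
    refine (sum_le_sum fun q _ => bnd_sumn N K q a ha).trans ?_
    rw [← mul_sum]
    exact mul_le_mul_of_nonneg_left (bnd_sumq N K a Z) (by positivity)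
  have ha1 : (1 : ℝ) ≤ a := by exact_mod_cast ha
  have hs : 1 ≤ Real.sqrt K := by
    rw [Real.one_le_sqrt]
    exact_mod_cast hK
  refine h1.trans ?_
  have h2 : ((a : ℝ) + 1) * (Real.sqrt K + 1) ≤ (2 * a) * (2 * Real.sqrt K) := by
    refine mul_le_mul (by linarith) (by linarith) (by positivity) (by positivity)
  calc ((K : ℝ) / a + 1) * (((a : ℝ) + 1) * (Real.sqrt K + 1))
      ≤ ((K : ℝ) / a + 1) * ((2 * a) * (2 * Real.sqrt K)) := mul_le_mul_of_nonneg_left h2 (by positivity)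
    _ = 4 * Real.sqrt K * (K + a) := by
        field_simp
        ring

theorem bnd_final (N K : ℕ) (hN : 2 ≤ N) (hK : 1 ≤ K) (hKN : K ≤ N) :
    ∑ n ∈ Ioc N (N + K), |F n - FN N n| ≤ Real.log (2 * N) * (4 * Real.sqrt K * (K * QQ (2 * N) + QQ (2 * N) ^ 2)) := by
  have h1 : ∑ n ∈ Ioc N (N + K), |F n - FN N n| ≤ ∑ n ∈ Ioc N (N + K), Real.log (2 * N) *
      ∑ q ∈ pr (Nat.sqrt (2 * N)), ∑ a ∈ Icc 1 (QQ (2 * N)), bnd_D N K n q a := by
    refine sum_le_sum fun n hn => ?_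
    rw [mem_Ioc] at hn
    exact bnd_abs N K n hn.1.le hn.2 hKN
  refine h1.trans ?_
  rw [← mul_sum]
  have hN1 : (1 : ℝ) ≤ 2 * N := by
    have : (2 : ℝ) ≤ N := by exact_mod_cast hN
    linarith
  refine mul_le_mul_of_nonneg_left ?_ (Real.log_nonneg hN1)
  have h2 : ∑ n ∈ Ioc N (N + K), ∑ q ∈ pr (Nat.sqrt (2 * N)), ∑ a ∈ Icc 1 (QQ (2 * N)), bnd_D N K n q a =
      ∑ a ∈ Icc 1 (QQ (2 * N)), ∑ q ∈ pr (Nat.sqrt (2 * N)), ∑ n ∈ Ioc N (N + K), bnd_D N K n q a := by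
    rw [sum_comm]
    rw [sum_congr rfl fun q _ => sum_comm]
    rw [sum_comm]
  rw [h2]
  calc ∑ a ∈ Icc 1 (QQ (2 * N)), ∑ q ∈ pr (Nat.sqrt (2 * N)), ∑ n ∈ Ioc N (N + K), bnd_D N K n q a
      ≤ ∑ _a ∈ Icc 1 (QQ (2 * N)), 4 * Real.sqrt K * (K + (QQ (2 * N) : ℝ)) := by
        refine sum_le_sum fun a ha => ?_
        rw [mem_Icc] at ha
        refine (bnd_suma N K a _ ha.1 hK).trans ?_
        refine mul_le_mul_of_nonneg_left ?_ (by positivity)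
        have : (a : ℝ) ≤ (QQ (2 * N) : ℝ) := by exact_mod_cast ha.2
        linarith
    _ = 4 * Real.sqrt K * (K * QQ (2 * N) + QQ (2 * N) ^ 2) := by
        rw [sum_const, Nat.card_Icc, nsmul_eq_mul, Nat.add_sub_cancel]
        ring

theorem bnd_QQ_le (N : ℕ) (hN : 2 ≤ N) : (QQ (2 * N) : ℝ) ≤ 5 * Real.sqrt N := by
  unfold QQ
  have h1 := Real.nat_sqrt_le_real_sqrt (a := 2 * N)
  have h2 : (2 : ℝ) ≤ N := by exact_mod_cast hN
  have h3 : Real.sqrt ((2 * N : ℕ) : ℝ) = Real.sqrt 2 * Real.sqrt N := by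
    push_cast
    rw [Real.sqrt_mul (by norm_num)]
  have h4 : Real.sqrt 2 ≤ 3 / 2 := by
    rw [Real.sqrt_le_left (by norm_num)]
    norm_num
  have h5 : Real.sqrt N * Real.sqrt N = N := Real.mul_self_sqrt (by positivity)
  have h6 := Real.sqrt_nonneg (N : ℝ)
  have h7 : 1 ≤ Real.sqrt N := by
    rw [Real.one_le_sqrt]
    linarith
  rw [h3] at h1
  push_cast
  have h8 : Real.sqrt 2 * Real.sqrt N ≤ 3 / 2 * Real.sqrt N := mul_le_mul_of_nonneg_right h4 h6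
  linarith

theorem bnd : ∃ C : ℝ, 0 ≤ C ∧ ∀ N K : ℕ, 2 ≤ N → 1 ≤ K → K ≤ N →
    ∑ n ∈ Ioc N (N + K), |F n - FN N n| ≤
      C * Real.log N * Real.sqrt K * (K * Real.sqrt N + N) := by
  refine ⟨200, by norm_num, fun N K hN hK hKN => ?_⟩
  refine (bnd_final N K hN hK hKN).trans ?_
  have h2 : (2 : ℝ) ≤ N := by exact_mod_cast hN
  have hlog : Real.log (2 * N) ≤ 2 * Real.log N := by
    rw [Real.log_mul (by norm_num) (by positivity)]
    have := Real.log_le_log (by norm_num) h2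
    linarith
  have hlogN : 0 ≤ Real.log N := Real.log_nonneg (by linarith)
  have hQ := bnd_QQ_le N hN
  have hQ0 : (0 : ℝ) ≤ (QQ (2 * N) : ℝ) := Nat.cast_nonneg _
  have hs0 := Real.sqrt_nonneg (N : ℝ)
  have hs : Real.sqrt N ^ 2 = N := Real.sq_sqrt (by positivity)
  have hK0 : (0 : ℝ) ≤ K := Nat.cast_nonneg _
  have hQ2 : (QQ (2 * N) : ℝ) ^ 2 ≤ 25 * N := by nlinarith
  have hsum : (K : ℝ) * QQ (2 * N) + (QQ (2 * N) : ℝ) ^ 2 ≤ 25 * (K * Real.sqrt N + N) := by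
    have h3 : (K : ℝ) * QQ (2 * N) ≤ K * (5 * Real.sqrt N) := mul_le_mul_of_nonneg_left hQ hK0
    have h4 : 0 ≤ (K : ℝ) * Real.sqrt N := by positivity
    linarith
  have hT0 : 0 ≤ 4 * Real.sqrt K * (K * QQ (2 * N) + QQ (2 * N) ^ 2) := by positivity
  calc Real.log (2 * N) * (4 * Real.sqrt K * (K * QQ (2 * N) + QQ (2 * N) ^ 2))
      ≤ (2 * Real.log N) * (4 * Real.sqrt K * (25 * (K * Real.sqrt N + N))) := by
        refine mul_le_mul hlog ?_ hT0 (by positivity)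
        exact mul_le_mul_of_nonneg_left hsum (by positivity)
    _ = 200 * Real.log N * Real.sqrt K * (K * Real.sqrt N + N) := by ring

end Pool.Agent.HAE
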