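import Pool.Agent.HAE.SSB1

/-!
# HAE-SSB2: the singular series

PROOF.  Mathlib's Euler product (`EulerProduct.eulerProduct_hasProd` or its tprod form) for `d ↦ aa d p` (`aa_zero`, `aa_one`, `aa_mul`, summable by `aa_bound`): `∏' (∑' e, aa (l^e) p) = ∑' d, aa d p`; the local sum is `1 + loc p l` for odd `l` and
`1 + 0 + χ₄/4` at 2.  The tail `∑_{d > D} 4/d^(3/2) ≤ 8/√D`.
-/

set_option autoImplicit false

open Finset Filter Topology
open Pool.Agent.HAV
open Pool.Agent.helper66.VK (ee)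

namespace Pool.Agent.HAE

private theorem SSB2_bound (d p : ℕ) : |aa d p| ≤ 4 / (d : ℝ) ^ (3 / 2 : ℝ) := by
  rcases Nat.eq_zero_or_pos d with rfl | hd
  · rw [aa_zero, abs_zero]
    positivity
  · exact aa_bound d p hd

private theorem SSB2_summable (p : ℕ) : Summable (fun d : ℕ => ‖aa d p‖) := by
  have h1 : Summable (fun d : ℕ => 4 * (1 / (d : ℝ) ^ (3 / 2 : ℝ))) :=
    (Real.summable_one_div_nat_rpow.2 (by norm_num)).mul_left 4
  refine Summable.of_nonneg_of_le (fun _ => norm_nonneg _) (fun d => ?_) h1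
  rw [Real.norm_eq_abs, mul_one_div]
  exact SSB2_bound d p

private theorem SSB2_local (p : ℕ) (l : Nat.Primes) :
    ∑' e : ℕ, aa ((l : ℕ) ^ e) p =
      (if (l : ℕ) = 2 then 1 + (ZMod.χ₄ (p : ZMod 4) : ℝ) / 4 else 1 + loc p l) := by
  split_ifs with h
  · rw [h, tsum_eq_sum (s := range 3)]
    · rw [sum_range_succ, sum_range_succ, sum_range_one, pow_zero, aa_one, pow_one, aa_two,
        show (2 : ℕ) ^ 2 = 4 by norm_num, aa_four]
      ring
    · intro e he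
      rw [mem_range] at he
      exact aa_two_pow e p (by omega)
  · rw [tsum_eq_sum (s := range 2)]
    · rw [sum_range_succ, sum_range_one, pow_zero, aa_one, pow_one, aa_prime l p l.2 h]
    · intro e he
      rw [mem_range] at he
      exact aa_pow l e p l.2 h (by omega)

private theorem SSB2_SS (p : ℕ) : SS p = ∑' d : ℕ, aa d p := by
  unfold SS
  rw [← EulerProduct.eulerProduct_tprod (f := fun d => aa d p) (aa_one p)
    (fun {m n} h => aa_mul m n p h) (SSB2_summable p) (aa_zero p)]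
  exact tprod_congr fun l => (SSB2_local p l).symm

private theorem SSB2_step (n : ℝ) (hn : 1 ≤ n) :
    4 / (n + 1) ^ (3 / 2 : ℝ) ≤ 8 / Real.sqrt n - 8 / Real.sqrt (n + 1) := by
  have h0 : 0 < n := by linarith
  have h1 : 0 < n + 1 := by linarith
  set a := Real.sqrt n with ha
  set b := Real.sqrt (n + 1) with hb
  have ha0 : 0 < a := Real.sqrt_pos.2 h0
  have hb0 : 0 < b := Real.sqrt_pos.2 h1
  have ha2 : a ^ 2 = n := Real.sq_sqrt h0.le
  have hb2 : b ^ 2 = n + 1 := Real.sq_sqrt h1.le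
  have hab : a ≤ b := Real.sqrt_le_sqrt (by linarith)
  have h3 : (n + 1) ^ (3 / 2 : ℝ) = b ^ 3 := by
    rw [hb, Real.sqrt_eq_rpow, ← Real.rpow_natCast, ← Real.rpow_mul h1.le]
    norm_num
  rw [h3]
  have h4 : 8 / a - 8 / b = 8 * (b - a) / (a * b) := by
    field_simp
  rw [h4, div_le_div_iff₀ (by positivity) (by positivity)]
  have h5 : (b - a) * (b + a) = 1 := by nlinarith
  have h6 : 1 ≤ (b - a) * (2 * b) := by nlinarith
  have h7 : a * b ≤ b ^ 2 := by nlinarith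
  have h8 : 0 ≤ b - a := by linarith
  calc 4 * (a * b) ≤ 4 * b ^ 2 := by linarith
    _ = 4 * b ^ 2 * 1 := by ring
    _ ≤ 4 * b ^ 2 * ((b - a) * (2 * b)) := mul_le_mul_of_nonneg_left h6 (by positivity)
    _ = 8 * (b - a) * b ^ 3 := by ring

private theorem SSB2_tail (D : ℕ) (hD : 1 ≤ D) (m : ℕ) :
    ∑ k ∈ range m, 4 / ((k + (D + 1) : ℕ) : ℝ) ^ (3 / 2 : ℝ) ≤
      8 / Real.sqrt D - 8 / Real.sqrt ((D + m : ℕ) : ℝ) := by
  induction m with
  | zero => simp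
  | succ m ih =>
    rw [sum_range_succ]
    have h1 : (1 : ℝ) ≤ ((D + m : ℕ) : ℝ) := by exact_mod_cast Nat.le_add_right_of_le hD
    have h2 := SSB2_step ((D + m : ℕ) : ℝ) h1
    have h3 : ((m + (D + 1) : ℕ) : ℝ) = ((D + m : ℕ) : ℝ) + 1 := by push_cast; ring
    have h4 : ((D + (m + 1) : ℕ) : ℝ) = ((D + m : ℕ) : ℝ) + 1 := by push_cast; ring
    rw [h3, h4]
    linarith

private theorem SSB2_sum (p D : ℕ) : ∑ d ∈ Icc 1 D, aa d p = ∑ d ∈ range (D + 1), aa d p := by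
  have e1 : range (D + 1) = insert 0 (Icc 1 D) := by
    ext d
    simp only [mem_range, mem_insert, mem_Icc]
    omega
  rw [e1, sum_insert (by simp), aa_zero, zero_add]

private theorem SSB2_rest (p D : ℕ) (hD : 1 ≤ D) :
    ∑' k : ℕ, ‖aa (k + (D + 1)) p‖ ≤ 8 / Real.sqrt D := by
  refine Real.tsum_le_of_sum_range_le (fun _ => norm_nonneg _) fun m => ?_
  calc ∑ k ∈ range m, ‖aa (k + (D + 1)) p‖
      ≤ ∑ k ∈ range m, 4 / ((k + (D + 1) : ℕ) : ℝ) ^ (3 / 2 : ℝ) :=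
        sum_le_sum fun k _ => by
          rw [Real.norm_eq_abs]
          exact SSB2_bound (k + (D + 1)) p
    _ ≤ 8 / Real.sqrt D - 8 / Real.sqrt ((D + m : ℕ) : ℝ) := SSB2_tail D hD m
    _ ≤ 8 / Real.sqrt D := by
        have : 0 ≤ 8 / Real.sqrt ((D + m : ℕ) : ℝ) := by positivity
        linarith

private theorem SSB2_abs (p D : ℕ) :
    |∑ d ∈ range (D + 1), aa d p - ∑' d : ℕ, aa d p| ≤ ∑' k : ℕ, ‖aa (k + (D + 1)) p‖ := by
  have hs : Summable (fun d : ℕ => aa d p) := (SSB2_summable p).of_norm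
  have h1 : ∑ d ∈ range (D + 1), aa d p + ∑' k : ℕ, aa (k + (D + 1)) p = ∑' d : ℕ, aa d p :=
    hs.sum_add_tsum_nat_add (D + 1)
  have h2 : ∑ d ∈ range (D + 1), aa d p - ∑' d : ℕ, aa d p = -∑' k : ℕ, aa (k + (D + 1)) p := by
    rw [← h1]
    ring
  rw [h2, abs_neg, ← Real.norm_eq_abs]
  have h3 : Summable (fun k : ℕ => ‖aa (k + (D + 1)) p‖) :=
    (summable_nat_add_iff (f := fun d : ℕ => ‖aa d p‖) (D + 1)).2 (SSB2_summable p)
  exact norm_tsum_le_tsum_norm h3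

private theorem SSB2_main (p D : ℕ) (hD : 1 ≤ D) :
    |∑ d ∈ Icc 1 D, aa d p - SS p| ≤ 8 / Real.sqrt D := by
  rw [SSB2_sum, SSB2_SS]
  exact (SSB2_abs p D).trans (SSB2_rest p D hD)

theorem ssb : ∃ C : ℝ, 0 ≤ C ∧ ∀ p D : ℕ, 1 ≤ D → |∑ d ∈ Icc 1 D, aa d p - SS p| ≤ C / Real.sqrt D :=
  ⟨8, by norm_num, fun p D hD => SSB2_main p D hD⟩

theorem SS_bound : ∃ C : ℝ, 0 ≤ C ∧ ∀ p : ℕ, |SS p| ≤ C := by
  refine ⟨9, by norm_num, fun p => ?_⟩
  have h := SSB2_main p 1 le_rfl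
  rw [Icc_self, sum_singleton, aa_one, Nat.cast_one, Real.sqrt_one, div_one] at h
  rw [abs_le] at h ⊢
  constructor <;> linarith [h.1, h.2]

end Pool.Agent.HAE
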