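import Pool.Agent.HAE.ASM1
import Pool.Agent.HAE.ASM2
import Pool.Agent.HAE.BND
import Pool.Agent.HAE.SSB2

/-!
# HAE-BLK: one block

PROOF.  `D = ⌊log^B N⌋`, `B = 3A + 12`.  If `ε N < |F p - (π²/12) N SS p|` then one of: (i) the difference in `tail_sq` at `n = p` is `> ε N/4`: at most `16 C N³ log⁴ N/(D ε² N²)` integers `n`;
(ii) `|F p - FN N p| > ε N/4`: at most `4 C log N √K (K √N + N)/(ε N)` by `bnd`, `K ≤ N/L^(2A+6)` gives `≤ C' N/L^(3A+8)`; (iii) the difference in `mainp` `> ε N/4` or `(π²/12) |∑_{d ≤ D} aa d p - SS p| > ε/4`: impossible for large `N`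
(`mainp`, `ssb`).
-/

set_option autoImplicit false

open Finset Filter Topology
open Pool.Agent.HAV
open Pool.Agent.helper66.VK (ee)

namespace Pool.Agent.HAE

private theorem blk_large (A : ℕ) (M : ℝ) : ∃ x₀ : ℕ, ∀ N : ℕ, x₀ ≤ N →
    2 ≤ N ∧ 1 ≤ Real.log N ∧ M ≤ Real.log N ∧ Real.log N ^ (2 * A + 6) ≤ Real.sqrt N := by
  have h1 : Tendsto (fun N : ℕ => Real.log (N : ℝ)) atTop atTop :=
    Real.tendsto_log_atTop.comp tendsto_natCast_atTop_atTop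
  have h2 : ∀ᶠ x : ℝ in atTop, Real.log x ^ (2 * (2 * A + 6)) ≤ x := by
    have h3 := (Real.isLittleO_pow_log_id_atTop (n := 2 * (2 * A + 6))).bound (show (0 : ℝ) < 1 by norm_num)
    filter_upwards [h3, eventually_ge_atTop (1 : ℝ)] with x hx hx1
    rw [one_mul, Real.norm_eq_abs, Real.norm_eq_abs, id] at hx
    calc Real.log x ^ (2 * (2 * A + 6)) ≤ |Real.log x ^ (2 * (2 * A + 6))| := le_abs_self _
      _ ≤ |x| := hx
      _ = x := abs_of_nonneg (by linarith)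
  have h4 : ∀ᶠ N : ℕ in atTop, Real.log (N : ℝ) ^ (2 * (2 * A + 6)) ≤ (N : ℝ) :=
    tendsto_natCast_atTop_atTop.eventually h2
  have h5 : ∀ᶠ N : ℕ in atTop, 2 ≤ N ∧ 1 ≤ Real.log (N : ℝ) ∧ M ≤ Real.log (N : ℝ) ∧
      Real.log (N : ℝ) ^ (2 * A + 6) ≤ Real.sqrt N := by
    filter_upwards [h4, h1.eventually (eventually_ge_atTop 1), h1.eventually (eventually_ge_atTop M),
      eventually_ge_atTop 2] with N g1 g2 g3 g4
    refine ⟨g4, g2, g3, ?_⟩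
    apply Real.le_sqrt_of_sq_le
    rw [← pow_mul, mul_comm (2 * A + 6) 2]
    exact g1
  obtain ⟨x₀, hx⟩ := eventually_atTop.1 h5
  exact ⟨x₀, fun N hN => hx N hN⟩

private theorem blk_floor {x : ℝ} (hx : 1 ≤ x) : x / 2 ≤ (⌊x⌋₊ : ℝ) := by
  have h1 := Nat.lt_floor_add_one x
  have h2 : 1 ≤ ⌊x⌋₊ := (Nat.one_le_floor_iff _).2 hx
  have h3 : (1 : ℝ) ≤ (⌊x⌋₊ : ℝ) := by exact_mod_cast h2
  linarith

/-- Chebyshev for squares -/
private theorem blk_card_sq (s : Finset ℕ) (g : ℕ → ℝ) (t X : ℝ) (ht : 0 < t)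
    (hX : ∑ n ∈ s, g n ^ 2 ≤ X) :
    ((s.filter (fun n => t < g n)).card : ℝ) * t ^ 2 ≤ X := by
  calc ((s.filter (fun n => t < g n)).card : ℝ) * t ^ 2
      = ∑ _n ∈ s.filter (fun n => t < g n), t ^ 2 := by rw [sum_const, nsmul_eq_mul]
    _ ≤ ∑ n ∈ s.filter (fun n => t < g n), g n ^ 2 := by
        refine sum_le_sum fun n hn => ?_
        have := (mem_filter.1 hn).2
        exact pow_le_pow_left₀ ht.le this.le 2
    _ ≤ ∑ n ∈ s, g n ^ 2 :=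
        sum_le_sum_of_subset_of_nonneg (filter_subset _ _) fun n _ _ => by positivity
    _ ≤ X := hX

private theorem blk_card (s : Finset ℕ) (g : ℕ → ℝ) (t X : ℝ) (hg : ∀ n, 0 ≤ g n)
    (hX : ∑ n ∈ s, g n ≤ X) :
    ((s.filter (fun n => t < g n)).card : ℝ) * t ≤ X := by
  calc ((s.filter (fun n => t < g n)).card : ℝ) * t
      = ∑ _n ∈ s.filter (fun n => t < g n), t := by rw [sum_const, nsmul_eq_mul]
    _ ≤ ∑ n ∈ s.filter (fun n => t < g n), g n :=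
        sum_le_sum fun n hn => (mem_filter.1 hn).2.le
    _ ≤ ∑ n ∈ s, g n :=
        sum_le_sum_of_subset_of_nonneg (filter_subset _ _) fun n _ _ => hg n
    _ ≤ X := hX

private theorem blk_i {A : ℕ} {ε Ct N L D X : ℝ} (hε : 0 < ε) (hCt : 0 ≤ Ct) (hN : 0 < N) (hL : 1 ≤ L)
    (hD : L ^ (3 * A + 12) / 2 ≤ D)
    (h : X * (ε * N / 4) ^ 2 ≤ Ct * N ^ 3 * L ^ 4 / D) :
    X ≤ 32 * Ct / ε ^ 2 * N / L ^ (3 * A + 8) := by
  have hL0 : 0 < L := by linarith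
  have hD0 : 0 < D := lt_of_lt_of_le (by positivity) hD
  have h1 : Ct * N ^ 3 * L ^ 4 / D ≤ Ct * N ^ 3 * L ^ 4 / (L ^ (3 * A + 12) / 2) := by
    apply div_le_div_of_nonneg_left (by positivity) (by positivity) hD
  have h2 : Ct * N ^ 3 * L ^ 4 / (L ^ (3 * A + 12) / 2) = (ε * N / 4) ^ 2 * (32 * Ct / ε ^ 2 * N / L ^ (3 * A + 8)) := by
    have e : L ^ (3 * A + 12) = L ^ (3 * A + 8) * L ^ 4 := by rw [← pow_add]
    rw [e]
    field_simp
    ring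
  have h3 : 0 < (ε * N / 4) ^ 2 := by positivity
  have h4 : (ε * N / 4) ^ 2 * X ≤ (ε * N / 4) ^ 2 * (32 * Ct / ε ^ 2 * N / L ^ (3 * A + 8)) := by
    rw [← h2]; linarith
  exact le_of_mul_le_mul_left h4 h3

private theorem blk_ii {A : ℕ} {ε Cb N L K X : ℝ} (hε : 0 < ε) (hCb : 0 ≤ Cb) (hN : 0 < N) (hL : 1 ≤ L)
    (hK0 : 0 ≤ K) (hK : K ≤ N / L ^ (2 * A + 6)) (hLN : L ^ (2 * A + 6) ≤ Real.sqrt N)
    (h : X * (ε * N / 4) ≤ Cb * L * Real.sqrt K * (K * Real.sqrt N + N)) :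
    X ≤ 8 * Cb / ε * N / L ^ (3 * A + 8) := by
  have hL0 : 0 < L := by linarith
  have hs : 0 < Real.sqrt N := Real.sqrt_pos.2 hN
  have hss : Real.sqrt N * Real.sqrt N = N := Real.mul_self_sqrt hN.le
  have h1 : Real.sqrt K ≤ Real.sqrt N / L ^ (A + 3) := by
    apply Real.sqrt_le_iff.2
    refine ⟨by positivity, ?_⟩
    rw [div_pow, Real.sq_sqrt hN.le, ← pow_mul]
    have e : (A + 3) * 2 = 2 * A + 6 := by ring
    rw [e]; exact hK
  have h2 : K * Real.sqrt N ≤ N * Real.sqrt N / L ^ (2 * A + 6) := by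
    calc K * Real.sqrt N ≤ (N / L ^ (2 * A + 6)) * Real.sqrt N :=
          mul_le_mul_of_nonneg_right hK hs.le
      _ = N * Real.sqrt N / L ^ (2 * A + 6) := by ring
  have h3 : N ≤ N * Real.sqrt N / L ^ (2 * A + 6) := by
    rw [le_div_iff₀ (by positivity)]
    exact mul_le_mul_of_nonneg_left hLN hN.le
  have h4 : K * Real.sqrt N + N ≤ 2 * (N * Real.sqrt N / L ^ (2 * A + 6)) := by linarith
  have h5 : Cb * L * Real.sqrt K * (K * Real.sqrt N + N) ≤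
      Cb * L * (Real.sqrt N / L ^ (A + 3)) * (2 * (N * Real.sqrt N / L ^ (2 * A + 6))) := by
    gcongr
  have h6 : Cb * L * (Real.sqrt N / L ^ (A + 3)) * (2 * (N * Real.sqrt N / L ^ (2 * A + 6))) =
      (ε * N / 4) * (8 * Cb / ε * N / L ^ (3 * A + 8)) := by
    have e : L ^ (A + 3) * L ^ (2 * A + 6) = L * L ^ (3 * A + 8) := by
      rw [← pow_add, ← pow_succ']
      congr 1
      ring
    have e2 : Cb * L * (Real.sqrt N / L ^ (A + 3)) * (2 * (N * Real.sqrt N / L ^ (2 * A + 6))) =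
        2 * Cb * L * (Real.sqrt N * Real.sqrt N) * N / (L ^ (A + 3) * L ^ (2 * A + 6)) := by
      field_simp
    rw [e2, e, hss]
    field_simp
    ring
  have h7 : 0 < ε * N / 4 := by positivity
  have h8 : (ε * N / 4) * X ≤ (ε * N / 4) * (8 * Cb / ε * N / L ^ (3 * A + 8)) := by
    rw [← h6]; linarith
  exact le_of_mul_le_mul_left h8 h7

private theorem blk_iii {ε Cs L D : ℝ} (hε : 0 < ε) (hCs : 0 ≤ Cs) (hL : 1 ≤ L) (hD : L / 2 ≤ D)
    (hM : 2 * (4 * Cs / ε) ^ 2 ≤ L) : Real.pi ^ 2 / 12 * (Cs / Real.sqrt D) ≤ ε / 4 := by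
  have hD0 : 0 < D := by linarith
  have hs : 0 < Real.sqrt D := Real.sqrt_pos.2 hD0
  have h1 : 4 * Cs / ε ≤ Real.sqrt D := by
    apply Real.le_sqrt_of_sq_le
    linarith
  have h2 : Cs / Real.sqrt D ≤ ε / 4 := by
    rw [div_le_iff₀ hs]
    rw [div_le_iff₀ hε] at h1
    linarith
  have h3 : Real.pi ^ 2 / 12 ≤ 1 := by
    have h4 := Real.pi_lt_d2
    have h5 := Real.pi_pos
    nlinarith
  calc Real.pi ^ 2 / 12 * (Cs / Real.sqrt D) ≤ 1 * (ε / 4) :=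
        mul_le_mul h3 h2 (by positivity) (by norm_num)
    _ = ε / 4 := one_mul _

open Classical in
theorem block (A : ℕ) (ε : ℝ) (hε : 0 < ε) : ∃ C : ℝ, 0 ≤ C ∧ ∃ x₀ : ℕ, ∀ N : ℕ, x₀ ≤ N → ∀ K : ℕ, 1 ≤ K →
    (K : ℝ) ≤ N / Real.log N ^ (2 * A + 6) →
    (((Ioc N (N + K)).filter (fun p => p.Prime ∧ ε * N < |F p - Real.pi ^ 2 / 12 * N * SS p|)).card : ℝ) ≤
      C * N / Real.log N ^ (3 * A + 8) := by
  obtain ⟨Ct, hCt, ht⟩ := tail_sq
  obtain ⟨Cb, hCb, hb⟩ := bnd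
  obtain ⟨Cs, hCs, hs⟩ := ssb
  obtain ⟨x1, hm⟩ := mainp (3 * A + 12) (ε / 4) (by positivity)
  obtain ⟨x2, hx2⟩ := blk_large A (2 * (4 * Cs / ε) ^ 2)
  refine ⟨32 * Ct / ε ^ 2 + 8 * Cb / ε, by positivity, max x1 x2, fun N hN K hK hKN => ?_⟩
  obtain ⟨hN2, hL1, hLM, hLs⟩ := hx2 N ((le_max_right _ _).trans hN)
  have hN0 : (0 : ℝ) < N := by
    have : 0 < N := by omega
    exact_mod_cast this
  set L := Real.log (N : ℝ) with hL
  have hL0 : 0 < L := by linarith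
  have hLB : 1 ≤ L ^ (3 * A + 12) := one_le_pow₀ hL1
  set D := ⌊L ^ (3 * A + 12)⌋₊ with hD
  have hD1 : 1 ≤ D := (Nat.one_le_floor_iff _).2 hLB
  have hD2 : L ^ (3 * A + 12) / 2 ≤ (D : ℝ) := blk_floor hLB
  have hD3 : (D : ℝ) ≤ L ^ (3 * A + 12) := Nat.floor_le (by positivity)
  have hD4 : L / 2 ≤ (D : ℝ) := by
    have : L ^ 1 ≤ L ^ (3 * A + 12) := pow_le_pow_right₀ hL1 (by omega)
    rw [pow_one] at this
    linarith
  have hKN' : K ≤ N := by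
    have h1 : (K : ℝ) ≤ N := by
      refine hKN.trans ?_
      apply div_le_self hN0.le
      exact one_le_pow₀ hL1
    exact_mod_cast h1
  have hsum1 := ht N K D hN2 hK hKN' hD1
  have hsum2 := hb N K hN2 hK hKN'
  have h3 := blk_iii (ε := ε) hε hCs hL1 hD4 hLM
  set T : ℕ → ℂ := fun n => ∑ d ∈ Icc 1 D, ∑ h ∈ (range d).filter (Nat.Coprime d),
      c N d h * ee ((n : ℝ) * ((h : ℝ) / d)) with hT
  have hεN : 0 < ε * N / 4 := by positivity
  have hc1 := blk_card_sq (Ioc N (N + K)) (fun n => ‖(FN N n : ℂ) - T n‖) (ε * N / 4) _ hεN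
    hsum1
  have hc2 := blk_card (Ioc N (N + K)) (fun n => |F n - FN N n|) (ε * N / 4) _
    (fun n => abs_nonneg _) hsum2
  have hc1' := blk_i (A := A) hε hCt hN0 hL1 hD2 hc1
  have hc2' := blk_ii (A := A) hε hCb hN0 hL1 (Nat.cast_nonneg K) hKN hLs hc2
  have hsub : (Ioc N (N + K)).filter (fun p => p.Prime ∧ ε * N < |F p - Real.pi ^ 2 / 12 * N * SS p|) ⊆
      (Ioc N (N + K)).filter (fun n => ε * N / 4 < ‖(FN N n : ℂ) - T n‖) ∪
      (Ioc N (N + K)).filter (fun n => ε * N / 4 < |F n - FN N n|) := by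
    intro p hp
    obtain ⟨hp1, hp2, hp3⟩ := mem_filter.1 hp
    rw [mem_union, mem_filter, mem_filter]
    by_contra hcon
    rw [not_or] at hcon
    have g1 : ‖(FN N p : ℂ) - T p‖ ≤ ε * N / 4 := by
      by_contra h
      exact hcon.1 ⟨hp1, not_le.1 h⟩
    have g2 : |F p - FN N p| ≤ ε * N / 4 := by
      by_contra h
      exact hcon.2 ⟨hp1, not_le.1 h⟩
    have g3 : ‖T p - ((Real.pi ^ 2 / 12 * N * ∑ d ∈ Icc 1 D, aa d p : ℝ) : ℂ)‖ ≤ ε / 4 * N :=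
      hm N ((le_max_left _ _).trans hN) D hD1 hD3 p hp2 (mem_Ioc.1 hp1).1
    have g4 : |∑ d ∈ Icc 1 D, aa d p - SS p| ≤ Cs / Real.sqrt D := hs p D hD1
    have g5 : |FN N p - Real.pi ^ 2 / 12 * N * ∑ d ∈ Icc 1 D, aa d p| ≤ ε * N / 4 + ε / 4 * N := by
      rw [← Real.norm_eq_abs, ← Complex.norm_real]
      have e : ((FN N p - Real.pi ^ 2 / 12 * N * ∑ d ∈ Icc 1 D, aa d p : ℝ) : ℂ) =
          ((FN N p : ℂ) - T p) + (T p - ((Real.pi ^ 2 / 12 * N * ∑ d ∈ Icc 1 D, aa d p : ℝ) : ℂ)) := by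
        rw [Complex.ofReal_sub]; ring
      rw [e]
      exact (norm_add_le _ _).trans (add_le_add g1 g3)
    have g6 : |Real.pi ^ 2 / 12 * N * (∑ d ∈ Icc 1 D, aa d p - SS p)| ≤ ε / 4 * N := by
      rw [abs_mul, abs_of_nonneg (by positivity)]
      calc Real.pi ^ 2 / 12 * N * |∑ d ∈ Icc 1 D, aa d p - SS p| ≤
          Real.pi ^ 2 / 12 * N * (Cs / Real.sqrt D) := by gcongr
        _ = Real.pi ^ 2 / 12 * (Cs / Real.sqrt D) * N := by ring
        _ ≤ ε / 4 * N := mul_le_mul_of_nonneg_right h3 hN0.le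
    have g7 : |F p - Real.pi ^ 2 / 12 * N * SS p| ≤ ε * N := by
      have e : F p - Real.pi ^ 2 / 12 * N * SS p = (F p - FN N p) +
          (FN N p - Real.pi ^ 2 / 12 * N * ∑ d ∈ Icc 1 D, aa d p) +
          Real.pi ^ 2 / 12 * N * (∑ d ∈ Icc 1 D, aa d p - SS p) := by ring
      rw [e]
      refine (abs_add_le _ _).trans ((add_le_add (abs_add_le _ _) le_rfl).trans ?_)
      linarith
    linarith
  have hcard : (((Ioc N (N + K)).filter (fun p => p.Prime ∧ ε * N < |F p - Real.pi ^ 2 / 12 * N * SS p|)).card : ℝ) ≤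
      (((Ioc N (N + K)).filter (fun n => ε * N / 4 < ‖(FN N n : ℂ) - T n‖)).card : ℝ) +
      (((Ioc N (N + K)).filter (fun n => ε * N / 4 < |F n - FN N n|)).card : ℝ) := by
    have := (card_le_card hsub).trans (card_union_le _ _)
    exact_mod_cast this
  refine hcard.trans ((add_le_add hc1' hc2').trans (le_of_eq ?_))
  ring

end Pool.Agent.HAE
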