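import Pool.Agent.HAE.Defs

/-!
# HAE-JI2: monotonicity of `J` and `Phi`

PROOF.  Measures of subsets of `[-1/2, 1/2]`; on it `3/4 ≤ 1 - s² ≤ 1`.  `Phi`: the integrand is antitone in `u` on `[0, √N]`, so interval integrable.
-/

set_option autoImplicit false

open Finset Filter Topology
open Pool.Agent.HAV
open Pool.Agent.helper66.VK (ee)

namespace Pool.Agent.HAE

theorem JI2_vol : MeasureTheory.volume (Set.Icc (-(1 / 2) : ℝ) (1 / 2)) = 1 := by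
  rw [Real.volume_Icc]
  norm_num

theorem JI2_lt (Y a : ℝ) :
    MeasureTheory.volume {s : ℝ | s ∈ Set.Icc (-(1 / 2) : ℝ) (1 / 2) ∧ a ^ 2 * (1 - s ^ 2) ≤ Y} ≠ ⊤ := by
  refine ne_top_of_le_ne_top ?_ (MeasureTheory.measure_mono (t := Set.Icc (-(1 / 2) : ℝ) (1 / 2)) fun s hs => hs.1)
  rw [JI2_vol]
  exact ENNReal.one_ne_top

theorem JI2_sub {Y Y' a a' : ℝ}
    (h : ∀ s ∈ Set.Icc (-(1 / 2) : ℝ) (1 / 2), a ^ 2 * (1 - s ^ 2) ≤ Y → a' ^ 2 * (1 - s ^ 2) ≤ Y') :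
    J Y a ≤ J Y' a' := by
  unfold J
  refine ENNReal.toReal_mono (JI2_lt Y' a') (MeasureTheory.measure_mono ?_)
  rintro s ⟨h1, h2⟩
  exact ⟨h1, h s h1 h2⟩

theorem JI2_sq {s : ℝ} (hs : s ∈ Set.Icc (-(1 / 2) : ℝ) (1 / 2)) : 3 / 4 ≤ 1 - s ^ 2 := by
  have h1 := hs.1
  have h2 := hs.2
  nlinarith

theorem J_nonneg (Y a : ℝ) : 0 ≤ J Y a := by
  unfold J
  exact ENNReal.toReal_nonneg

theorem J_le_one (Y a : ℝ) : J Y a ≤ 1 := by
  unfold J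
  have h1 : MeasureTheory.volume {s : ℝ | s ∈ Set.Icc (-(1 / 2) : ℝ) (1 / 2) ∧ a ^ 2 * (1 - s ^ 2) ≤ Y} ≤ 1 := by
    rw [← JI2_vol]
    exact MeasureTheory.measure_mono fun s hs => hs.1
  have h2 := ENNReal.toReal_mono ENNReal.one_ne_top h1
  simpa using h2

theorem J_mono {Y Y' : ℝ} (a : ℝ) (h : Y ≤ Y') : J Y a ≤ J Y' a := by
  exact JI2_sub fun s _ h1 => h1.trans h

theorem J_anti (Y : ℝ) {a a' : ℝ} (h0 : 0 ≤ a) (h : a ≤ a') : J Y a' ≤ J Y a := by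
  refine JI2_sub fun s hs h1 => le_trans ?_ h1
  have h2 := JI2_sq hs
  have h3 : a ^ 2 ≤ a' ^ 2 := pow_le_pow_left₀ h0 h 2
  exact mul_le_mul_of_nonneg_right h3 (by linarith)

theorem J_zero {Y a : ℝ} (h : 4 * Y < 3 * a ^ 2) : J Y a = 0 := by
  unfold J
  have h1 : {s : ℝ | s ∈ Set.Icc (-(1 / 2) : ℝ) (1 / 2) ∧ a ^ 2 * (1 - s ^ 2) ≤ Y} = ∅ := by
    rw [Set.eq_empty_iff_forall_notMem]
    rintro s ⟨h2, h3⟩
    have h4 := JI2_sq h2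
    have h5 : a ^ 2 * (3 / 4) ≤ a ^ 2 * (1 - s ^ 2) := mul_le_mul_of_nonneg_left h4 (sq_nonneg a)
    linarith
  rw [h1]
  simp

theorem J_int (N : ℕ) (a : ℝ) :
    IntervalIntegrable (fun u : ℝ => J ((N : ℝ) - u ^ 2) a) MeasureTheory.volume 0 (Real.sqrt N) := by
  apply AntitoneOn.intervalIntegrable
  rw [Set.uIcc_of_le (Real.sqrt_nonneg _)]
  intro u hu v hv huv
  refine J_mono a ?_
  have h1 : u ^ 2 ≤ v ^ 2 := pow_le_pow_left₀ hu.1 huv 2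
  linarith

theorem Phi_nonneg (N : ℕ) (a : ℝ) : 0 ≤ Phi N a := by
  unfold Phi
  exact intervalIntegral.integral_nonneg (Real.sqrt_nonneg _) fun u _ => J_nonneg _ _

theorem Phi_le (N : ℕ) (a : ℝ) : Phi N a ≤ Real.sqrt N := by
  unfold Phi
  have h1 : ∫ u in (0 : ℝ)..(Real.sqrt N), J ((N : ℝ) - u ^ 2) a ≤ ∫ u in (0 : ℝ)..(Real.sqrt N), (1 : ℝ) :=
    intervalIntegral.integral_mono_on (Real.sqrt_nonneg _) (J_int N a) (by simp) fun u _ => J_le_one _ _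
  simpa using h1

theorem Phi_anti (N : ℕ) {a a' : ℝ} (h0 : 0 ≤ a) (h : a ≤ a') : Phi N a' ≤ Phi N a := by
  unfold Phi
  exact intervalIntegral.integral_mono_on (Real.sqrt_nonneg _) (J_int N a') (J_int N a)
    fun u _ => J_anti _ h0 h

end Pool.Agent.HAE
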