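import Pool.Agent.HAE.JI1b
import Pool.Agent.HAE.JI2

/-!
# HAE-JI3: the sum of `Phi` over the multiples of `d`

PROOF.  `f = Phi N` is antitone on `[0, ∞)`, `0 ≤ f ≤ √N`.  With `j = QQ N/d`: `∑_{i=1}^j f (i d)` is between `(1/d) ∫_0^{(j+1) d} f - f 0` and `(1/d) ∫_0^{j d} f`.
`int_phi`.
-/

set_option autoImplicit false

open Finset Filter Topology
open Pool.Agent.HAV
open Pool.Agent.helper66.VK (ee)

namespace Pool.Agent.HAE

theorem JI3_reindex (f : ℝ → ℝ) (Q d : ℕ) (hd : 1 ≤ d) :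
    ∑ a ∈ (Icc 1 Q).filter (fun a => d ∣ a), f a = ∑ i ∈ range (Q / d), f ((d : ℝ) * ((i + 1 : ℕ) : ℝ)) := by
  symm
  refine Finset.sum_bij (fun i _ => d * (i + 1)) ?_ ?_ ?_ ?_
  · intro i hi
    rw [mem_range] at hi
    rw [mem_filter, mem_Icc]
    have h1 : d * (i + 1) ≤ d * (Q / d) := Nat.mul_le_mul_left d hi
    have h2 : d * (Q / d) ≤ Q := Nat.mul_div_le Q d
    refine ⟨⟨?_, h1.trans h2⟩, Dvd.intro _ rfl⟩
    have : 0 < d * (i + 1) := Nat.mul_pos hd (Nat.succ_pos i)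
    omega
  · intro i _ i' _ h
    have := Nat.eq_of_mul_eq_mul_left hd h
    omega
  · intro b hb
    rw [mem_filter, mem_Icc] at hb
    obtain ⟨⟨hb1, hb2⟩, c, hc⟩ := hb
    have hc1 : 1 ≤ c := by
      rcases Nat.eq_zero_or_pos c with h | h
      · subst h
        rw [mul_zero] at hc
        omega
      · exact h
    refine ⟨c - 1, ?_, ?_⟩
    · rw [mem_range]
      have : c ≤ Q / d := by
        rw [Nat.le_div_iff_mul_le hd]
        rw [hc] at hb2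
        rw [mul_comm]
        exact hb2
      omega
    · have : c - 1 + 1 = c := by omega
      rw [this, hc]
  · intro i _
    push_cast
    rfl

theorem JI3_anti (N : ℕ) : AntitoneOn (Phi N) (Set.Ici 0) := by
  intro a ha b _ hab
  exact Phi_anti N ha hab

theorem JI3_int (N : ℕ) (b : ℝ) (hb : 0 ≤ b) : IntervalIntegrable (Phi N) MeasureTheory.volume 0 b := by
  apply AntitoneOn.intervalIntegrable
  refine (JI3_anti N).mono ?_
  rw [Set.uIcc_of_le hb]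
  exact fun x hx => hx.1

theorem JI3_mono (N : ℕ) {a b : ℝ} (ha : 0 ≤ a) (hab : a ≤ b) :
    ∫ t in (0 : ℝ)..a, Phi N t ≤ ∫ t in (0 : ℝ)..b, Phi N t := by
  refine intervalIntegral.integral_mono_interval le_rfl ha hab ?_ (JI3_int N b (ha.trans hab))
  exact Filter.Eventually.of_forall (fun t => Phi_nonneg N t)

theorem JI3_fin {S G M q : ℝ} (h7 : G ≤ q) (h9 : 0 ≤ q) (h10 : M ≤ S + G) (h11 : S ≤ M) : |S - M| ≤ 2 * q := by
  rw [abs_le]
  constructor <;> linarith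

theorem sum_phi (N d : ℕ) (hN : 1 ≤ N) (hd : 1 ≤ d) :
    |∑ a ∈ (Icc 1 (QQ N)).filter (fun a => d ∣ a), Phi N a - Real.pi ^ 2 / 12 * N / d| ≤ 2 * Real.sqrt N := by
  have hd0 : (0 : ℝ) < d := by exact_mod_cast hd
  rw [JI3_reindex (Phi N) (QQ N) d hd]
  set j : ℕ := QQ N / d with hj
  set g : ℝ → ℝ := fun x => Phi N ((d : ℝ) * x) with hg
  have hga : ∀ n : ℕ, AntitoneOn g (Set.Icc 0 (0 + (n : ℝ))) := by
    intro n a ha b hb hab
    exact JI3_anti N (mul_nonneg hd0.le ha.1) (mul_nonneg hd0.le hb.1) (mul_le_mul_of_nonneg_left hab hd0.le)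
  have hint := int_phi N hN
  have hcomp : ∀ x : ℝ, ∫ t in (0 : ℝ)..x, g t = (d : ℝ)⁻¹ * ∫ t in (0 : ℝ)..((d : ℝ) * x), Phi N t := by
    intro x
    have := intervalIntegral.integral_comp_mul_left (a := 0) (b := x) (Phi N) hd0.ne'
    rw [mul_zero, smul_eq_mul] at this
    exact this
  have h1 := AntitoneOn.sum_le_integral (f := g) (x₀ := 0) (a := j) (hga j)
  have h2 := AntitoneOn.integral_le_sum (f := g) (x₀ := 0) (a := j + 1) (hga (j + 1))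
  simp only [zero_add] at h1 h2
  rw [hcomp] at h1 h2
  rw [Finset.sum_range_succ'] at h2
  have hjd : (d : ℝ) * (j : ℝ) ≤ (QQ N : ℝ) := by
    have : d * j ≤ QQ N := Nat.mul_div_le (QQ N) d
    exact_mod_cast this
  have hjd' : (QQ N : ℝ) ≤ (d : ℝ) * ((j + 1 : ℕ) : ℝ) := by
    have : QQ N < d * (j + 1) := Nat.lt_mul_div_succ (QQ N) hd
    exact_mod_cast this.le
  have h3 := JI3_mono N (mul_nonneg hd0.le (Nat.cast_nonneg j)) hjd
  have h4 := JI3_mono N (Nat.cast_nonneg (QQ N)) hjd'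
  rw [hint] at h3 h4
  have h5 : (d : ℝ)⁻¹ * ∫ t in (0 : ℝ)..((d : ℝ) * (j : ℝ)), Phi N t ≤ Real.pi ^ 2 / 12 * N / d := by
    rw [div_eq_inv_mul (Real.pi ^ 2 / 12 * (N : ℝ)) (d : ℝ)]
    exact mul_le_mul_of_nonneg_left h3 (by positivity)
  have h6 : Real.pi ^ 2 / 12 * N / d ≤ (d : ℝ)⁻¹ * ∫ t in (0 : ℝ)..((d : ℝ) * ((j + 1 : ℕ) : ℝ)), Phi N t := by
    rw [div_eq_inv_mul (Real.pi ^ 2 / 12 * (N : ℝ)) (d : ℝ)]
    exact mul_le_mul_of_nonneg_left h4 (by positivity)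
  have h7 : g ((0 : ℕ) : ℝ) ≤ Real.sqrt N := Phi_le N _
  have h8 : ∑ i ∈ range j, Phi N ((d : ℝ) * ((i + 1 : ℕ) : ℝ)) = ∑ i ∈ range j, g ((i + 1 : ℕ) : ℝ) := rfl
  have h9 : 0 ≤ Real.sqrt N := Real.sqrt_nonneg _
  have h10 : Real.pi ^ 2 / 12 * N / d ≤ ∑ i ∈ range j, g ((i + 1 : ℕ) : ℝ) + g ((0 : ℕ) : ℝ) := h6.trans h2
  have h11 : ∑ i ∈ range j, g ((i + 1 : ℕ) : ℝ) ≤ Real.pi ^ 2 / 12 * N / d := h1.trans h5
  rw [h8]
  exact JI3_fin h7 h9 h10 h11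

end Pool.Agent.HAE
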