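import Pool.Agent.HAE.CMA
import Pool.Agent.HAE.JI3

/-!
# HAE-CM: the Fourier coefficients with a small denominator

PROOF.  `c N d h = ∑_{a ≤ QQ N, d ∣ a} (1/a) (..)`: `cma` with `A`, `B`: the main terms give `S GG/(φ(d) d) ∑_{a ≤ QQ N, d ∣ a} Phi N a`, then `sum_phi` (`‖S GG‖ ≤ φ(d) d`: error `2 √N`).
The errors: `∑_a (1/a) C (a √N/log^A N + d √N) ≤ C (QQ N √N/log^A N + d √N (1 + log QQ N)) ≤ C' N/log^A N` for large `N`.
-/

set_option autoImplicit false

open Finset Filter Topology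
open Pool.Agent.HAV
open Pool.Agent.helper66.VK (ee)

namespace Pool.Agent.HAE

theorem cm_ee (t : ℝ) : ‖ee t‖ = 1 := by
  unfold ee
  have : (2 * (Real.pi : ℂ) * (t : ℂ) * Complex.I) = ((2 * Real.pi * t : ℝ) : ℂ) * Complex.I := by
    push_cast
    ring
  rw [this]
  exact Complex.norm_exp_ofReal_mul_I _

theorem cm_S (d h : ℕ) : ‖S d h‖ ≤ d.totient := by
  unfold S
  refine (norm_sum_le _ _).trans ?_
  simp only [cm_ee, Finset.sum_const, nsmul_eq_mul, mul_one]
  rw [Nat.totient_eq_card_coprime]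

theorem cm_GG (d h : ℕ) : ‖GG d h‖ ≤ d := by
  unfold GG
  refine (norm_sum_le _ _).trans ?_
  simp only [cm_ee, Finset.sum_const, nsmul_eq_mul, mul_one, Finset.card_range, le_refl]

theorem cm_harm (Q : ℕ) : ∑ a ∈ Icc 1 Q, (1 / (a : ℝ)) ≤ 1 + Real.log Q := by
  have h := harmonic_le_one_add_log Q
  rw [harmonic_eq_sum_Icc] at h
  push_cast at h
  simpa only [one_div] using h

theorem cm_large (k : ℕ) : ∃ x₀ : ℕ, ∀ N : ℕ, x₀ ≤ N → 2 * Real.log N ^ k ≤ Real.sqrt N := by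
  have h1 : Tendsto (fun x : ℝ => Real.sqrt x) atTop atTop := Real.tendsto_sqrt_atTop
  have h2 := (Real.isLittleO_pow_log_id_atTop (n := k)).comp_tendsto h1
  have h3 := h2.def (c := 1 / (2 * 2 ^ k)) (by positivity)
  have h4 : ∀ᶠ x : ℝ in atTop, 2 * Real.log x ^ k ≤ Real.sqrt x := by
    filter_upwards [h3, eventually_ge_atTop (1 : ℝ)] with x hx hx1
    simp only [Function.comp, id] at hx
    have e1 : Real.log (Real.sqrt x) = Real.log x / 2 := by rw [Real.log_sqrt (by linarith)]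
    have hlog : 0 ≤ Real.log x := Real.log_nonneg hx1
    rw [e1, Real.norm_of_nonneg (by positivity), Real.norm_of_nonneg (Real.sqrt_nonneg x), div_pow,
      div_mul_eq_mul_div, one_mul, le_div_iff₀ (by positivity)] at hx
    have e2 : Real.log x ^ k / 2 ^ k * (2 * 2 ^ k) = 2 * Real.log x ^ k := by
      field_simp
    rw [e2] at hx
    exact hx
  obtain ⟨x₀, hx₀⟩ := (tendsto_natCast_atTop_atTop.eventually h4).exists_forall_of_atTop
  exact ⟨x₀, fun N hN => hx₀ N hN⟩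

theorem cm (A B : ℕ) : ∃ C : ℝ, 0 ≤ C ∧ ∃ x₀ : ℕ, ∀ N : ℕ, x₀ ≤ N → ∀ d h : ℕ, 1 ≤ d →
    (d : ℝ) ≤ Real.log N ^ B →
    ‖c N d h - S d h * GG d h * ((Real.pi ^ 2 / 12 * N : ℝ) : ℂ) / ((d.totient : ℂ) * (d : ℂ) ^ 2)‖ ≤
      C * N / Real.log N ^ A := by
  obtain ⟨C, hC, x₁, h1⟩ := cma A B
  obtain ⟨x₂, h2⟩ := cm_large (A + B + 1)
  obtain ⟨x₃, h3⟩ := cm_large A
  refine ⟨5 * C + 1, by positivity, max (max x₁ x₂) (max x₃ 16), ?_⟩
  intro N hN d h hd hdB
  have hN1 : x₁ ≤ N := (le_max_left _ _).trans ((le_max_left _ _).trans hN)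
  have hN2 : x₂ ≤ N := (le_max_right _ _).trans ((le_max_left _ _).trans hN)
  have hN3 : x₃ ≤ N := (le_max_left _ _).trans ((le_max_right _ _).trans hN)
  have hN16 : 16 ≤ N := (le_max_right _ _).trans ((le_max_right _ _).trans hN)
  replace h1 := h1 N hN1 d h
  replace h2 := h2 N hN2
  replace h3 := h3 N hN3
  have hNr : (16 : ℝ) ≤ (N : ℝ) := by exact_mod_cast hN16
  have hlog1 : 1 ≤ Real.log N := by
    rw [Real.le_log_iff_exp_le (by linarith)]
    have := Real.exp_one_lt_d9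
    linarith
  have hsq : Real.sqrt N * Real.sqrt N = N := Real.mul_self_sqrt (by linarith)
  have hs4 : 4 ≤ Real.sqrt N := by
    rw [show (4 : ℝ) = Real.sqrt 16 by rw [show (16 : ℝ) = 4 ^ 2 by norm_num]; simp]
    exact Real.sqrt_le_sqrt hNr
  have hs0 : 0 ≤ Real.sqrt N := Real.sqrt_nonneg _
  -- the size of `QQ N`
  have hQs : ((Nat.sqrt N : ℕ) : ℝ) ≤ Real.sqrt N := by
    rw [Real.le_sqrt (by positivity) (by linarith)]
    have := Nat.sqrt_le' N
    exact_mod_cast this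
  have hQ : ((QQ N : ℕ) : ℝ) ≤ 4 * Real.sqrt N := by
    unfold QQ
    push_cast
    linarith
  have hQN : ((QQ N : ℕ) : ℝ) ≤ N := by
    rw [← hsq]
    nlinarith
  have hQ1 : (1 : ℝ) ≤ ((QQ N : ℕ) : ℝ) := by
    unfold QQ
    push_cast
    have : (0 : ℝ) ≤ ((Nat.sqrt N : ℕ) : ℝ) := Nat.cast_nonneg _
    linarith
  have hlogQ : Real.log (QQ N : ℕ) ≤ Real.log N := Real.log_le_log (by linarith) hQN
  have hd0 : (0 : ℝ) < d := by exact_mod_cast hd
  have hφ0 : (0 : ℝ) < d.totient := by exact_mod_cast Nat.totient_pos.2 hd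
  have hdC : (d : ℂ) ≠ 0 := by exact_mod_cast (by omega : d ≠ 0)
  have hφC : (d.totient : ℂ) ≠ 0 := by exact_mod_cast (Nat.totient_pos.2 hd).ne'
  -- the decomposition
  set I : ℕ → ℂ := fun a => ∑ q ∈ pr (Nat.sqrt N), ((Real.log q : ℝ) : ℂ) *
    ∑ k ∈ Reg N a q, ee (-((h : ℝ) * ((q : ℝ) ^ 2 - (k : ℝ) ^ 2) / d)) with hI
  set M : ℕ → ℂ := fun a => S d h * GG d h * ((a * Phi N a : ℝ) : ℂ) /
    ((d.totient : ℂ) * (d : ℂ)) with hM
  set s : Finset ℕ := (Icc 1 (QQ N)).filter (fun a => d ∣ a) with hs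
  have hc : c N d h = ∑ a ∈ s, (1 / (a : ℂ)) * I a := rfl
  have hmain : ∑ a ∈ s, (1 / (a : ℂ)) * M a =
      S d h * GG d h / ((d.totient : ℂ) * (d : ℂ)) * ((∑ a ∈ s, Phi N a : ℝ) : ℂ) := by
    push_cast
    rw [Finset.mul_sum]
    refine Finset.sum_congr rfl fun a ha => ?_
    have ha1 : 1 ≤ a := (Finset.mem_Icc.1 (Finset.mem_filter.1 ha).1).1
    have haC : (a : ℂ) ≠ 0 := by exact_mod_cast (by omega : a ≠ 0)
    simp only [hM]
    push_cast
    field_simp
  have hdec : c N d h - S d h * GG d h * ((Real.pi ^ 2 / 12 * N : ℝ) : ℂ) /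
      ((d.totient : ℂ) * (d : ℂ) ^ 2) = (∑ a ∈ s, (1 / (a : ℂ)) * (I a - M a)) +
      S d h * GG d h / ((d.totient : ℂ) * (d : ℂ)) *
        ((∑ a ∈ s, Phi N a - Real.pi ^ 2 / 12 * N / d : ℝ) : ℂ) := by
    have e1 : ∑ a ∈ s, (1 / (a : ℂ)) * (I a - M a) =
        (∑ a ∈ s, (1 / (a : ℂ)) * I a) - ∑ a ∈ s, (1 / (a : ℂ)) * M a := by
      rw [← Finset.sum_sub_distrib]
      exact Finset.sum_congr rfl fun a _ => by ring
    rw [e1, hmain, hc]
    push_cast
    field_simp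
    ring
  rw [hdec]
  -- the first error
  have hb1 : ‖∑ a ∈ s, (1 / (a : ℂ)) * (I a - M a)‖ ≤
      C * (4 * N / Real.log N ^ A) + C * (N / Real.log N ^ A) := by
    have e1 : ‖∑ a ∈ s, (1 / (a : ℂ)) * (I a - M a)‖ ≤ ∑ a ∈ Icc 1 (QQ N),
        (C * (Real.sqrt N / Real.log N ^ A) + C * (d * Real.sqrt N) * (1 / (a : ℝ))) := by
      refine (norm_sum_le _ _).trans ?_
      refine le_trans (Finset.sum_le_sum (g := fun a : ℕ => C * (Real.sqrt N / Real.log N ^ A) +
        C * (d * Real.sqrt N) * (1 / (a : ℝ))) fun a ha => ?_)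
        (Finset.sum_le_sum_of_subset_of_nonneg (Finset.filter_subset _ _) fun a _ _ => by positivity)
      have ha' := Finset.mem_Icc.1 (Finset.mem_filter.1 ha).1
      have ha0 : (0 : ℝ) < a := by exact_mod_cast ha'.1
      have e2 := h1 a hd hdB ha'.1 ha'.2
      rw [norm_mul, norm_div, norm_one, Complex.norm_natCast]
      calc 1 / (a : ℝ) * ‖I a - M a‖ ≤ 1 / (a : ℝ) *
            (C * (a * Real.sqrt N / Real.log N ^ A + d * Real.sqrt N)) :=
            mul_le_mul_of_nonneg_left e2 (by positivity)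
        _ = C * (Real.sqrt N / Real.log N ^ A) + C * (d * Real.sqrt N) * (1 / (a : ℝ)) := by
            field_simp
    refine e1.trans ?_
    rw [Finset.sum_add_distrib, Finset.sum_const, Nat.card_Icc, ← Finset.mul_sum, nsmul_eq_mul]
    refine add_le_add ?_ ?_
    · have e2 : ((QQ N + 1 - 1 : ℕ) : ℝ) = (QQ N : ℕ) := by simp
      rw [e2]
      calc ((QQ N : ℕ) : ℝ) * (C * (Real.sqrt N / Real.log N ^ A))
          ≤ 4 * Real.sqrt N * (C * (Real.sqrt N / Real.log N ^ A)) :=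
            mul_le_mul_of_nonneg_right hQ (by positivity)
        _ = C * (4 * (Real.sqrt N * Real.sqrt N) / Real.log N ^ A) := by ring
        _ = C * (4 * N / Real.log N ^ A) := by rw [hsq]
    · rw [mul_assoc]
      refine mul_le_mul_of_nonneg_left ?_ hC
      have e3 : ∑ a ∈ Icc 1 (QQ N), (1 / (a : ℝ)) ≤ 2 * Real.log N := by
        have := cm_harm (QQ N)
        linarith
      calc (d : ℝ) * Real.sqrt N * ∑ a ∈ Icc 1 (QQ N), (1 / (a : ℝ))
          ≤ Real.log N ^ B * Real.sqrt N * (2 * Real.log N) := by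
            refine mul_le_mul (mul_le_mul_of_nonneg_right hdB hs0) e3 ?_ (by positivity)
            exact Finset.sum_nonneg fun a _ => by positivity
        _ = Real.sqrt N * (2 * Real.log N ^ (A + B + 1)) / Real.log N ^ A := by
            rw [pow_add, pow_add, pow_one]
            field_simp
        _ ≤ Real.sqrt N * Real.sqrt N / Real.log N ^ A := by gcongr
        _ = N / Real.log N ^ A := by rw [hsq]
  -- the second error
  have hb2 : ‖S d h * GG d h / ((d.totient : ℂ) * (d : ℂ)) *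
      ((∑ a ∈ s, Phi N a - Real.pi ^ 2 / 12 * N / d : ℝ) : ℂ)‖ ≤ N / Real.log N ^ A := by
    have e1 : ‖S d h * GG d h / ((d.totient : ℂ) * (d : ℂ))‖ ≤ 1 := by
      rw [norm_div, norm_mul, norm_mul, Complex.norm_natCast, Complex.norm_natCast,
        div_le_one (by positivity)]
      exact mul_le_mul (cm_S d h) (cm_GG d h) (norm_nonneg _) hφ0.le
    rw [norm_mul, Complex.norm_real, Real.norm_eq_abs]
    have e2 := sum_phi N d (by omega) hd
    calc ‖S d h * GG d h / ((d.totient : ℂ) * (d : ℂ))‖ *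
          |∑ a ∈ s, Phi N a - Real.pi ^ 2 / 12 * N / d| ≤ 1 * (2 * Real.sqrt N) :=
          mul_le_mul e1 e2 (abs_nonneg _) (by norm_num)
      _ = Real.sqrt N * (2 * Real.log N ^ A) / Real.log N ^ A := by field_simp
      _ ≤ Real.sqrt N * Real.sqrt N / Real.log N ^ A := by gcongr
      _ = N / Real.log N ^ A := by rw [hsq]
  refine (norm_add_le _ _).trans ((add_le_add hb1 hb2).trans (le_of_eq ?_))
  ring

end Pool.Agent.HAE
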