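import Pool.Agent.HAE.GS2

/-!
# HAE-REG: the sum over `k`

PROOF.  `Reg N a q = {k : 2|k| ≤ a, k² ≥ a² + q² - N}`.  `a * J (N - q²) a` is the measure of `{κ ∈ [-a/2, a/2] : κ² ≥ a² + q² - N}` (scaling).  If `a² + q² ≤ N` it is one
interval `Ico u v` with `|v - u - a| ≤ 1`, otherwise (with `t = √(a² + q² - N)`) empty if `t > a/2` (then `J = 0`) and if `t ≤ a/2` two disjoint intervals of lengths `a/2 - t + O(1)`
(error at most 1 each).  `gs2`, `norm_GG_le`.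
-/

set_option autoImplicit false

open Finset Filter Topology
open Pool.Agent.HAV
open Pool.Agent.helper66.VK (ee)

namespace Pool.Agent.HAE

theorem REG_J_one (Y a : ℝ) (h : a ^ 2 ≤ Y) : J Y a = 1 := by
  have hs : {s : ℝ | s ∈ Set.Icc (-(1 / 2) : ℝ) (1 / 2) ∧ a ^ 2 * (1 - s ^ 2) ≤ Y} =
      Set.Icc (-(1 / 2) : ℝ) (1 / 2) := by
    ext s
    simp only [Set.mem_setOf_eq, and_iff_left_iff_imp]
    intro _
    nlinarith [mul_nonneg (sq_nonneg a) (sq_nonneg s)]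
  unfold J
  rw [hs, Real.volume_Icc]
  norm_num

theorem REG_J_zero (Y a : ℝ) (h : Y < a ^ 2 * (3 / 4)) : J Y a = 0 := by
  have hs : {s : ℝ | s ∈ Set.Icc (-(1 / 2) : ℝ) (1 / 2) ∧ a ^ 2 * (1 - s ^ 2) ≤ Y} = ∅ := by
    ext s
    simp only [Set.mem_setOf_eq, Set.mem_empty_iff_false, iff_false, not_and, Set.mem_Icc]
    rintro ⟨h1, h2⟩ h3
    have h4 : s ^ 2 ≤ 1 / 4 := by nlinarith
    nlinarith [mul_nonneg (sq_nonneg a) (sub_nonneg.mpr h4)]
  unfold J
  rw [hs]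
  simp

theorem REG_J_mid (Y a t : ℝ) (ha : 0 < a) (ht : 0 ≤ t) (ht2 : t ≤ a / 2)
    (hY : a ^ 2 - Y = t ^ 2) : a * J Y a = a - 2 * t := by
  have hta : 0 ≤ t / a := div_nonneg ht ha.le
  have hta2 : t / a ≤ 1 / 2 := by
    rw [div_le_iff₀ ha]
    linarith
  have hs : {s : ℝ | s ∈ Set.Icc (-(1 / 2) : ℝ) (1 / 2) ∧ a ^ 2 * (1 - s ^ 2) ≤ Y} =
      Set.Icc (-(1 / 2) : ℝ) (1 / 2) \ Set.Ioo (-(t / a)) (t / a) := by
    ext s
    simp only [Set.mem_setOf_eq, Set.mem_sdiff, Set.mem_Ioo, and_congr_right_iff]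
    intro _
    have key : a ^ 2 * (1 - s ^ 2) ≤ Y ↔ t / a ≤ |s| := by
      have h1 : a ^ 2 * (1 - s ^ 2) ≤ Y ↔ t ^ 2 ≤ (a * |s|) ^ 2 := by
        rw [mul_pow, sq_abs]
        constructor <;> intro h <;> nlinarith
      rw [h1, div_le_iff₀ ha, mul_comm |s| a]
      exact pow_le_pow_iff_left₀ ht (mul_nonneg ha.le (abs_nonneg s)) two_ne_zero
    rw [key, ← not_lt, not_iff_not, abs_lt]
  have hsub : Set.Ioo (-(t / a)) (t / a) ⊆ Set.Icc (-(1 / 2) : ℝ) (1 / 2) := by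
    intro s hs'
    exact ⟨by linarith [hs'.1], by linarith [hs'.2]⟩
  unfold J
  rw [hs, MeasureTheory.measure_sdiff hsub measurableSet_Ioo.nullMeasurableSet
    (by rw [Real.volume_Ioo]; exact ENNReal.ofReal_ne_top), Real.volume_Icc, Real.volume_Ioo,
    ← ENNReal.ofReal_sub _ (by linarith), ENNReal.toReal_ofReal (by linarith)]
  field_simp
  ring

theorem reg_sum (N a q d h : ℕ) (ha : 1 ≤ a) (hd : 1 ≤ d) (hq : q ^ 2 ≤ N) :
    ‖∑ k ∈ Reg N a q, ee ((h : ℝ) * (k : ℝ) ^ 2 / d) -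
      (((a : ℝ) * J ((N : ℝ) - (q : ℝ) ^ 2) a / d : ℝ) : ℂ) * GG d h‖ ≤ 10 * d := by
  have hd0 : (0 : ℝ) < d := by exact_mod_cast hd
  have hd1 : (1 : ℝ) ≤ d := by exact_mod_cast hd
  have ha0 : (0 : ℝ) < a := by exact_mod_cast ha
  have hG := norm_GG_le d h
  -- the last factor
  have hlast : ∀ x : ℝ, ‖((x / d : ℝ) : ℂ) * GG d h‖ ≤ |x| := by
    intro x
    rw [norm_mul, Complex.norm_real, Real.norm_eq_abs, abs_div, abs_of_pos hd0]
    calc |x| / d * ‖GG d h‖ ≤ |x| / d * d :=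
          mul_le_mul_of_nonneg_left hG (div_nonneg (abs_nonneg x) hd0.le)
      _ = |x| := by field_simp
  set f : ℤ := (a : ℤ) / 2 with hf
  have hf1 : 2 * f ≤ a := by omega
  have hf2 : (a : ℤ) ≤ 2 * f + 1 := by omega
  have hf1' : 2 * (f : ℝ) ≤ a := by exact_mod_cast hf1
  have hf2' : (a : ℝ) ≤ 2 * f + 1 := by exact_mod_cast hf2
  have hmem : ∀ k : ℤ, k ∈ Reg N a q ↔ |k| ≤ f ∧ (a : ℤ) ^ 2 + (q : ℤ) ^ 2 - k ^ 2 ≤ N := by
    intro k
    unfold Reg ks
    simp only [mem_filter, mem_Icc]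
    constructor
    · rintro ⟨⟨_, h1⟩, h2⟩
      exact ⟨by omega, h2⟩
    · rintro ⟨h1, h2⟩
      have h3 := abs_le.mp h1
      exact ⟨⟨⟨by omega, by omega⟩, by omega⟩, h2⟩
  by_cases h1 : a ^ 2 + q ^ 2 ≤ N
  · -- one interval
    have h1' : (a : ℤ) ^ 2 + (q : ℤ) ^ 2 ≤ N := by exact_mod_cast h1
    have h1r : (a : ℝ) ^ 2 ≤ (N : ℝ) - (q : ℝ) ^ 2 := by
      have : (a : ℝ) ^ 2 + (q : ℝ) ^ 2 ≤ N := by exact_mod_cast h1
      linarith
    rw [REG_J_one _ _ h1r, mul_one]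
    have hset : Reg N a q = Ico (-f) (f + 1) := by
      ext k
      rw [hmem, mem_Ico, abs_le]
      constructor
      · rintro ⟨h2, _⟩
        omega
      · rintro ⟨h2, h3⟩
        refine ⟨⟨h2, by omega⟩, ?_⟩
        nlinarith [sq_nonneg k]
    rw [hset]
    have hg := gs2 d h hd (-f) (f + 1) (by omega)
    have e1 : ((f + 1 - -f : ℤ) : ℝ) = 2 * f + 1 := by push_cast; ring
    rw [e1] at hg
    have h5 := hlast (2 * f + 1 - a)
    have h6 : |2 * (f : ℝ) + 1 - a| ≤ 1 := by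
      rw [abs_le]
      constructor <;> linarith
    have e2 : ∑ k ∈ Ico (-f) (f + 1), ee ((h : ℝ) * (k : ℝ) ^ 2 / d) -
        (((a : ℝ) / d : ℝ) : ℂ) * GG d h =
        (∑ k ∈ Ico (-f) (f + 1), ee ((h : ℝ) * (k : ℝ) ^ 2 / d) -
          (((2 * (f : ℝ) + 1) / d : ℝ) : ℂ) * GG d h) +
        (((2 * (f : ℝ) + 1 - a) / d : ℝ) : ℂ) * GG d h := by
      push_cast
      ring
    rw [e2]
    refine (norm_add_le _ _).trans ?_
    linarith
  · by_cases h2 : N - q ^ 2 < a ^ 2 - a ^ 2 / 4 ∧ 4 * (N - q ^ 2) < 3 * a ^ 2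
    · -- empty
      obtain ⟨-, h2⟩ := h2
      have h2r : (N : ℝ) - (q : ℝ) ^ 2 < (a : ℝ) ^ 2 * (3 / 4) := by
        have h3 : ((N - q ^ 2 : ℕ) : ℝ) = (N : ℝ) - (q : ℝ) ^ 2 := by
          rw [Nat.cast_sub hq]; push_cast; ring
        have h4 : 4 * ((N - q ^ 2 : ℕ) : ℝ) < 3 * (a : ℝ) ^ 2 := by exact_mod_cast h2
        rw [h3] at h4
        linarith
      rw [REG_J_zero _ _ h2r]
      have hset : Reg N a q = ∅ := by
        ext k
        rw [hmem]
        simp only [notMem_empty, iff_false, not_and, not_le]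
        intro hk
        have h3 := abs_le.mp hk
        have hk2 : k ^ 2 ≤ f ^ 2 := by nlinarith [h3.1, h3.2]
        have hf0 : 0 ≤ f := by omega
        have h4 : 4 * f ^ 2 ≤ (a : ℤ) ^ 2 := by nlinarith
        have h5 : 4 * ((N : ℤ) - (q : ℤ) ^ 2) < 3 * (a : ℤ) ^ 2 := by
          have h6 : ((N - q ^ 2 : ℕ) : ℤ) = (N : ℤ) - (q : ℤ) ^ 2 := by
            rw [Nat.cast_sub hq]; push_cast; ring
          have h7 : 4 * ((N - q ^ 2 : ℕ) : ℤ) < 3 * (a : ℤ) ^ 2 := by exact_mod_cast h2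
          rw [h6] at h7
          exact h7
        linarith
      rw [hset]
      simp only [sum_empty, mul_zero, zero_div, Complex.ofReal_zero, zero_mul, sub_zero, norm_zero]
      positivity
    · -- two intervals
      have h3 : 3 * a ^ 2 ≤ 4 * (N - q ^ 2) := by
        by_contra hc
        apply h2
        constructor <;> omega
      have h3r : 3 * (a : ℝ) ^ 2 ≤ 4 * ((N : ℝ) - (q : ℝ) ^ 2) := by
        have h4 : ((N - q ^ 2 : ℕ) : ℝ) = (N : ℝ) - (q : ℝ) ^ 2 := by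
          rw [Nat.cast_sub hq]; push_cast; ring
        have h5 : 3 * (a : ℝ) ^ 2 ≤ 4 * ((N - q ^ 2 : ℕ) : ℝ) := by exact_mod_cast h3
        rw [h4] at h5
        exact h5
      have h1r : (N : ℝ) < (a : ℝ) ^ 2 + (q : ℝ) ^ 2 := by
        have := not_le.mp h1
        exact_mod_cast this
      set m : ℝ := (a : ℝ) ^ 2 + (q : ℝ) ^ 2 - N with hm
      have hm0 : 0 < m := by linarith
      set t : ℝ := Real.sqrt m with ht
      have ht0 : 0 < t := Real.sqrt_pos.mpr hm0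
      have htt : t ^ 2 = m := Real.sq_sqrt hm0.le
      have hta : t ≤ a / 2 := by
        rw [ht, Real.sqrt_le_left (by positivity)]
        rw [hm]
        nlinarith
      have hJ := REG_J_mid ((N : ℝ) - (q : ℝ) ^ 2) a t ha0 ht0.le hta (by rw [htt, hm]; ring)
      rw [hJ]
      set c : ℤ := ⌈t⌉ with hc
      have hc1 : (c : ℝ) < t + 1 := Int.ceil_lt_add_one t
      have hc2 : t ≤ c := Int.le_ceil t
      have hc0 : 1 ≤ c := Int.one_le_ceil_iff.mpr ht0
      have hcf : c ≤ f + 1 := by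
        have h4 : (c : ℝ) < f + 2 := by linarith
        have h5 : c < f + 2 := by exact_mod_cast h4
        omega
      have hset : Reg N a q = Ico c (f + 1) ∪ Ico (-f) (1 - c) := by
        ext k
        rw [hmem, mem_union, mem_Ico, mem_Ico]
        have key : (a : ℤ) ^ 2 + (q : ℤ) ^ 2 - k ^ 2 ≤ N ↔ c ≤ |k| := by
          rw [hc, Int.ceil_le, ht, Real.sqrt_le_left (by positivity), hm, Int.cast_abs, sq_abs]
          constructor
          · intro h5
            have h6 : (a : ℝ) ^ 2 + (q : ℝ) ^ 2 - (k : ℝ) ^ 2 ≤ N := by exact_mod_cast h5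
            linarith
          · intro h5
            have h6 : (a : ℝ) ^ 2 + (q : ℝ) ^ 2 - (k : ℝ) ^ 2 ≤ N := by linarith
            exact_mod_cast h6
        rw [key]
        rcases le_or_gt 0 k with hk | hk
        · rw [abs_of_nonneg hk]
          omega
        · rw [abs_of_neg hk]
          omega
      have hdis : Disjoint (Ico c (f + 1)) (Ico (-f) (1 - c)) := by
        rw [Finset.disjoint_left]
        intro k hk1 hk2
        rw [mem_Ico] at hk1 hk2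
        omega
      rw [hset, sum_union hdis]
      have hg1 := gs2 d h hd c (f + 1) hcf
      have hg2 := gs2 d h hd (-f) (1 - c) (by omega)
      have e1 : ((f + 1 - c : ℤ) : ℝ) = (f : ℝ) + 1 - c := by push_cast; ring
      have e2 : ((1 - c - -f : ℤ) : ℝ) = (f : ℝ) + 1 - c := by push_cast; ring
      rw [e1] at hg1
      rw [e2] at hg2
      have h5 := hlast (2 * ((f : ℝ) + 1 - c) - (a - 2 * t))
      have h6 : |2 * ((f : ℝ) + 1 - c) - (a - 2 * t)| ≤ 3 := by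
        rw [abs_le]
        constructor <;> linarith
      have e3 : ∑ k ∈ Ico c (f + 1), ee ((h : ℝ) * (k : ℝ) ^ 2 / d) +
          ∑ k ∈ Ico (-f) (1 - c), ee ((h : ℝ) * (k : ℝ) ^ 2 / d) -
          ((((a : ℝ) - 2 * t) / d : ℝ) : ℂ) * GG d h =
          (∑ k ∈ Ico c (f + 1), ee ((h : ℝ) * (k : ℝ) ^ 2 / d) -
            ((((f : ℝ) + 1 - c) / d : ℝ) : ℂ) * GG d h) +
          (∑ k ∈ Ico (-f) (1 - c), ee ((h : ℝ) * (k : ℝ) ^ 2 / d) -
            ((((f : ℝ) + 1 - c) / d : ℝ) : ℂ) * GG d h) +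
          (((2 * ((f : ℝ) + 1 - c) - (a - 2 * t)) / d : ℝ) : ℂ) * GG d h := by
        push_cast
        ring
      rw [e3]
      refine (norm_add₃_le).trans ?_
      linarith

end Pool.Agent.HAE
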