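import Pool.Agent.HAE.QSW
import Pool.Agent.HAE.ABEL
import Pool.Agent.HAE.JI2
import Pool.Agent.HAE.REG

/-!
# HAE-CMA: the sum over `q` and `k` for one modulus `a`

PROOF.  The inner term is `ee (-(h q²/d)) ee (h k²/d)`; `reg_sum` for every `q ≤ √N` (total error `10 d ∑_{q ≤ √N} log q ≤ C d √N`, Chebyshev `θ(y) ≤ log 4 · y`).  Then `abel` with `n = ⌊√N⌋`,
`lam q = log q ee (-(h q²/d))` for primes (0 otherwise), `w u = J (N - u²) a` (antitone on `[0, n]`, values in `[0,1]`), `z = S d h/φ(d)` (`‖z‖ ≤ 1`), `E` from `qsw` at `x = ⌊√N⌋` with `B + 1`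
(`log N ≤ 3 log ⌊√N⌋`, so `d ≤ log^B N ≤ log^(B+1) ⌊√N⌋` for large `N`).  The integral over `[⌊√N⌋, √N]` is `≤ 1`.  Multiply by `(a/d) GG`, `‖GG‖ ≤ d`.
-/

set_option autoImplicit false

open Finset Filter Topology
open Pool.Agent.HAV
open Pool.Agent.helper66.VK (ee)

namespace Pool.Agent.HAE

private theorem CMA_theta (n : ℕ) : ∑ q ∈ pr n, Real.log q ≤ Real.log 4 * n := by
  have h := Chebyshev.theta_le_log4_mul_x (x := (n : ℝ)) (Nat.cast_nonneg n)
  refine le_trans (le_of_eq ?_) h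
  rw [Chebyshev.theta, Nat.floor_natCast]
  unfold pr
  apply sum_congr _ fun _ _ => rfl
  ext q
  simp only [mem_filter, mem_Icc, mem_Ioc]
  constructor
  · rintro ⟨⟨h1, h2⟩, h3⟩
    exact ⟨⟨h3.pos, h2⟩, h3⟩
  · rintro ⟨⟨h1, h2⟩, h3⟩
    exact ⟨⟨h3.pos, h2⟩, h3⟩

private theorem CMA_log {N : ℕ} (h : 3 ≤ Nat.sqrt N) :
    Real.log N ≤ 3 * Real.log (Nat.sqrt N : ℕ) := by
  have h1 : N < (Nat.sqrt N + 1) * (Nat.sqrt N + 1) := Nat.lt_succ_sqrt N
  set n := Nat.sqrt N with hn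
  have h2 : (n + 1) * (n + 1) ≤ n ^ 3 := by nlinarith [Nat.mul_le_mul h h]
  have h3 : N ≤ n ^ 3 := by omega
  have hN : 0 < N := by
    rcases Nat.eq_zero_or_pos N with h4 | h4
    · rw [h4] at hn
      simp at hn
      omega
    · exact h4
  calc Real.log N ≤ Real.log ((n ^ 3 : ℕ) : ℝ) :=
        Real.log_le_log (by exact_mod_cast hN) (by exact_mod_cast h3)
    _ = 3 * Real.log n := by
        push_cast
        rw [Real.log_pow]
        norm_num

private theorem CMA_pr (y : ℕ) (f : ℕ → ℂ) :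
    ∑ q ∈ pr y, f q = ∑ q ∈ Icc 1 y, (if q.Prime then f q else 0) := by
  unfold pr
  rw [sum_filter]

theorem cma (A B : ℕ) : ∃ C : ℝ, 0 ≤ C ∧ ∃ x₀ : ℕ, ∀ N : ℕ, x₀ ≤ N → ∀ d h a : ℕ, 1 ≤ d →
    (d : ℝ) ≤ Real.log N ^ B → 1 ≤ a → a ≤ QQ N →
    ‖∑ q ∈ pr (Nat.sqrt N), ((Real.log q : ℝ) : ℂ) * ∑ k ∈ Reg N a q, ee (-((h : ℝ) * ((q : ℝ) ^ 2 - (k : ℝ) ^ 2) / d)) -
      S d h * GG d h * ((a * Phi N a : ℝ) : ℂ) / ((d.totient : ℂ) * (d : ℂ))‖ ≤
      C * (a * Real.sqrt N / Real.log N ^ A + d * Real.sqrt N) := by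
  obtain ⟨C1, hC1, x1, hx1⟩ := qsw A (B + 1)
  have hev : ∀ᶠ n : ℕ in atTop, (3 : ℝ) ^ B + 1 ≤ Real.log n :=
    (Real.tendsto_log_atTop.comp tendsto_natCast_atTop_atTop).eventually_ge_atTop _
  obtain ⟨n1, hn1⟩ := eventually_atTop.1 hev
  refine ⟨C1 * 3 ^ A + 22, by positivity, (max (max x1 n1) 3) ^ 2, ?_⟩
  intro N hN d h a hd hdB ha haQ
  have hn0 : max (max x1 n1) 3 ≤ Nat.sqrt N := Nat.le_sqrt'.2 hN
  have hlog := CMA_log (le_trans (le_max_right _ _) hn0)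
  have hsq1 : ((Nat.sqrt N : ℕ) : ℝ) ≤ Real.sqrt N := Real.nat_sqrt_le_real_sqrt
  have hsq2 : Real.sqrt N ≤ (Nat.sqrt N : ℕ) + 1 := Real.real_sqrt_le_nat_sqrt_succ
  have hqN : ∀ q : ℕ, q ≤ Nat.sqrt N → q ^ 2 ≤ N := fun q hq => Nat.le_sqrt'.1 hq
  unfold QQ at haQ
  set n := Nat.sqrt N with hn
  have hx1n : x1 ≤ n := le_trans (le_trans (le_max_left _ _) (le_max_left _ _)) hn0
  have hn1n : n1 ≤ n := le_trans (le_trans (le_max_right _ _) (le_max_left _ _)) hn0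
  have hn3 : 3 ≤ n := le_trans (le_max_right _ _) hn0
  have hnR : (3 : ℝ) ≤ n := by exact_mod_cast hn3
  have hlogn : (3 : ℝ) ^ B + 1 ≤ Real.log n := hn1 n hn1n
  have h3B : (0 : ℝ) < 3 ^ B := by positivity
  have hlogn0 : 0 < Real.log n := by linarith
  have hNn : (n : ℝ) ≤ N := by
    have h4 : n ≤ N := Nat.sqrt_le_self N
    exact_mod_cast h4
  have hlogN0 : 0 < Real.log N :=
    lt_of_lt_of_le hlogn0 (Real.log_le_log (by linarith) hNn)
  have hdR : (1 : ℝ) ≤ d := by exact_mod_cast hd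
  have hd0 : (0 : ℝ) < d := by linarith
  have hdC : (d : ℂ) ≠ 0 := by
    have : d ≠ 0 := by omega
    exact_mod_cast this
  have htot : (0 : ℝ) < d.totient := by exact_mod_cast Nat.totient_pos.2 hd
  have htotC : (d.totient : ℂ) ≠ 0 := by
    have : d.totient ≠ 0 := (Nat.totient_pos.2 hd).ne'
    exact_mod_cast this
  have haR : (1 : ℝ) ≤ a := by exact_mod_cast ha
  have hdn : (d : ℝ) ≤ Real.log n ^ (B + 1) := by
    calc (d : ℝ) ≤ Real.log N ^ B := hdB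
      _ ≤ (3 * Real.log n) ^ B := pow_le_pow_left₀ hlogN0.le hlog B
      _ = 3 ^ B * Real.log n ^ B := mul_pow _ _ _
      _ ≤ Real.log n * Real.log n ^ B :=
          mul_le_mul_of_nonneg_right (by linarith) (by positivity)
      _ = _ := by ring
  -- the weight and the coefficients
  set w : ℝ → ℝ := fun u => J ((N : ℝ) - u ^ 2) a with hw
  set lam : ℕ → ℂ := fun q => if q.Prime then
    ((Real.log q : ℝ) : ℂ) * ee (-((h : ℝ) * (q : ℝ) ^ 2 / d)) else 0 with hlam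
  set z : ℂ := S d h / (d.totient : ℂ) with hz
  have hz1 : ‖z‖ ≤ 1 := by
    rw [hz, norm_div, Complex.norm_natCast, div_le_one htot]
    exact norm_S_le d h
  set E : ℝ := C1 * n / Real.log n ^ A with hE
  have hEq : ∀ y ≤ n, ‖∑ q ∈ Icc 1 y, lam q - z * (y : ℂ)‖ ≤ E := by
    intro y hy
    have h4 := hx1 n hx1n y hy d h hd hdn
    rw [CMA_pr] at h4
    exact h4
  have hab := abel n lam w (by
      intro u hu u' hu' huu
      apply J_mono
      have : u ^ 2 ≤ u' ^ 2 := pow_le_pow_left₀ hu.1 huu 2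
      linarith) (fun u _ => J_nonneg _ _) (fun u _ => J_le_one _ _) z E hEq
  -- the end of the integral
  have hint : |(∫ u in (0 : ℝ)..n, w u) - Phi N a| ≤ 1 := by
    have h5 : IntervalIntegrable w MeasureTheory.volume 0 (Real.sqrt N) := J_int N a
    have h6 : IntervalIntegrable w MeasureTheory.volume 0 (n : ℝ) := by
      apply h5.mono_set
      rw [Set.uIcc_of_le (by positivity), Set.uIcc_of_le (by positivity)]
      exact Set.Icc_subset_Icc_right hsq1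
    have h7 : IntervalIntegrable w MeasureTheory.volume (n : ℝ) (Real.sqrt N) := by
      apply h5.mono_set
      rw [Set.uIcc_of_le hsq1, Set.uIcc_of_le (by positivity)]
      exact Set.Icc_subset_Icc_left (by positivity)
    have h8 : Phi N a = (∫ u in (0 : ℝ)..n, w u) + ∫ u in (n : ℝ)..(Real.sqrt N), w u :=
      (intervalIntegral.integral_add_adjacent_intervals h6 h7).symm
    have h9 : ‖∫ u in (n : ℝ)..(Real.sqrt N), w u‖ ≤ 1 * |Real.sqrt N - n| := by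
      apply intervalIntegral.norm_integral_le_of_norm_le_const
      intro u _
      rw [Real.norm_eq_abs, abs_of_nonneg (J_nonneg _ _)]
      exact J_le_one _ _
    rw [Real.norm_eq_abs, one_mul, abs_of_nonneg (by linarith : 0 ≤ Real.sqrt N - n)] at h9
    rw [h8, sub_add_cancel_left, abs_neg]
    linarith
  -- the inner sums
  have hin : ∀ q ∈ pr n, ‖((Real.log q : ℝ) : ℂ) * ∑ k ∈ Reg N a q,
      ee (-((h : ℝ) * ((q : ℝ) ^ 2 - (k : ℝ) ^ 2) / d)) -
      ((a : ℂ) / d * GG d h) * (((w q : ℝ) : ℂ) * lam q)‖ ≤ Real.log q * (10 * d) := by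
    intro q hq
    unfold pr at hq
    rw [mem_filter, mem_Icc] at hq
    have h4 : ∑ k ∈ Reg N a q, ee (-((h : ℝ) * ((q : ℝ) ^ 2 - (k : ℝ) ^ 2) / d)) =
        ee (-((h : ℝ) * (q : ℝ) ^ 2 / d)) * ∑ k ∈ Reg N a q, ee ((h : ℝ) * (k : ℝ) ^ 2 / d) := by
      rw [mul_sum]
      apply sum_congr rfl
      intro k _
      rw [← Pool.Agent.helper66.VK.ee_add]
      congr 1
      ring
    have h5 := reg_sum N a q d h ha hd (hqN q hq.1.2)
    have h6 : ((Real.log q : ℝ) : ℂ) * ∑ k ∈ Reg N a q,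
        ee (-((h : ℝ) * ((q : ℝ) ^ 2 - (k : ℝ) ^ 2) / d)) -
        ((a : ℂ) / d * GG d h) * (((w q : ℝ) : ℂ) * lam q) =
        ((Real.log q : ℝ) : ℂ) * (ee (-((h : ℝ) * (q : ℝ) ^ 2 / d)) *
          (∑ k ∈ Reg N a q, ee ((h : ℝ) * (k : ℝ) ^ 2 / d) -
          (((a : ℝ) * J ((N : ℝ) - (q : ℝ) ^ 2) a / d : ℝ) : ℂ) * GG d h)) := by
      rw [h4]
      simp only [hlam, hw, if_pos hq.2]
      push_cast
      ring
    have hlq : 0 ≤ Real.log q := Real.log_natCast_nonneg q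
    rw [h6, norm_mul, norm_mul, Pool.Agent.helper66.VK.norm_ee, one_mul, Complex.norm_real,
      Real.norm_eq_abs, abs_of_nonneg hlq]
    exact mul_le_mul_of_nonneg_left h5 hlq
  have hsum : ‖∑ q ∈ pr n, ((Real.log q : ℝ) : ℂ) * ∑ k ∈ Reg N a q,
      ee (-((h : ℝ) * ((q : ℝ) ^ 2 - (k : ℝ) ^ 2) / d)) -
      ((a : ℂ) / d * GG d h) * ∑ q ∈ Icc 1 n, ((w q : ℝ) : ℂ) * lam q‖ ≤ 14 * d * Real.sqrt N := by
    have h4 : ∑ q ∈ Icc 1 n, ((w q : ℝ) : ℂ) * lam q = ∑ q ∈ pr n, ((w q : ℝ) : ℂ) * lam q := by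
      rw [CMA_pr]
      apply sum_congr rfl
      intro q _
      simp only [hlam]
      split_ifs <;> simp
    rw [h4, mul_sum, ← sum_sub_distrib]
    refine (norm_sum_le_of_le _ hin).trans ?_
    rw [← sum_mul]
    have h5 := CMA_theta n
    have h6 : Real.log 4 < 1.4 := by
      have : (4 : ℝ) = 2 ^ 2 := by norm_num
      rw [this, Real.log_pow]
      have := Real.log_two_lt_d9
      push_cast
      linarith
    calc (∑ q ∈ pr n, Real.log q) * (10 * d) ≤ (Real.log 4 * n) * (10 * d) :=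
          mul_le_mul_of_nonneg_right h5 (by positivity)
      _ ≤ (1.4 * Real.sqrt N) * (10 * d) := by
          apply mul_le_mul_of_nonneg_right _ (by positivity)
          exact mul_le_mul h6.le hsq1 (by positivity) (by norm_num)
      _ = _ := by ring
  -- the main term
  have hmain : ‖∑ q ∈ Icc 1 n, ((w q : ℝ) : ℂ) * lam q - z * ((Phi N a : ℝ) : ℂ)‖ ≤ E + 2 := by
    have h4 : ∑ q ∈ Icc 1 n, ((w q : ℝ) : ℂ) * lam q - z * ((Phi N a : ℝ) : ℂ) =
        (∑ q ∈ Icc 1 n, ((w q : ℝ) : ℂ) * lam q - z * ((∫ u in (0 : ℝ)..n, w u : ℝ) : ℂ)) +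
        z * (((∫ u in (0 : ℝ)..n, w u) - Phi N a : ℝ) : ℂ) := by
      push_cast
      ring
    rw [h4]
    refine (norm_add_le _ _).trans ?_
    have h5 : ‖z * (((∫ u in (0 : ℝ)..n, w u) - Phi N a : ℝ) : ℂ)‖ ≤ 1 * 1 := by
      rw [norm_mul, Complex.norm_real, Real.norm_eq_abs]
      exact mul_le_mul hz1 hint (abs_nonneg _) (by norm_num)
    linarith
  have hcoef : ‖(a : ℂ) / d * GG d h‖ ≤ a := by
    rw [norm_mul, norm_div, Complex.norm_natCast, Complex.norm_natCast]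
    calc (a : ℝ) / d * ‖GG d h‖ ≤ a / d * d :=
          mul_le_mul_of_nonneg_left (norm_GG_le d h) (by positivity)
      _ = a := by field_simp
  have hmain2 : ‖((a : ℂ) / d * GG d h) * ∑ q ∈ Icc 1 n, ((w q : ℝ) : ℂ) * lam q -
      S d h * GG d h * ((a * Phi N a : ℝ) : ℂ) / ((d.totient : ℂ) * (d : ℂ))‖ ≤ a * (E + 2) := by
    have h4 : ((a : ℂ) / d * GG d h) * ∑ q ∈ Icc 1 n, ((w q : ℝ) : ℂ) * lam q -
        S d h * GG d h * ((a * Phi N a : ℝ) : ℂ) / ((d.totient : ℂ) * (d : ℂ)) =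
        ((a : ℂ) / d * GG d h) * (∑ q ∈ Icc 1 n, ((w q : ℝ) : ℂ) * lam q -
          z * ((Phi N a : ℝ) : ℂ)) := by
      rw [hz]
      push_cast
      field_simp
    rw [h4, norm_mul]
    exact mul_le_mul hcoef hmain (norm_nonneg _) (by positivity)
  -- the error terms
  have hEb : E ≤ C1 * 3 ^ A * (Real.sqrt N / Real.log N ^ A) := by
    have h4 : Real.log N ^ A ≤ 3 ^ A * Real.log n ^ A := by
      rw [← mul_pow]
      exact pow_le_pow_left₀ hlogN0.le hlog A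
    have h5 : 0 < Real.log n ^ A := by positivity
    have h6 : 0 < Real.log N ^ A := by positivity
    rw [hE, mul_div_assoc, mul_assoc]
    apply mul_le_mul_of_nonneg_left _ hC1
    rw [← mul_div_assoc, div_le_div_iff₀ h5 h6]
    calc (n : ℝ) * Real.log N ^ A ≤ Real.sqrt N * (3 ^ A * Real.log n ^ A) :=
          mul_le_mul hsq1 h4 h6.le (by positivity)
      _ = _ := by ring
  have hsN : 1 ≤ Real.sqrt N := by linarith
  have ha4 : (a : ℝ) ≤ 4 * Real.sqrt N := by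
    have h4 : (a : ℝ) ≤ 2 * n + 2 := by exact_mod_cast haQ
    linarith
  have hfin : ‖∑ q ∈ pr n, ((Real.log q : ℝ) : ℂ) * ∑ k ∈ Reg N a q,
      ee (-((h : ℝ) * ((q : ℝ) ^ 2 - (k : ℝ) ^ 2) / d)) -
      S d h * GG d h * ((a * Phi N a : ℝ) : ℂ) / ((d.totient : ℂ) * (d : ℂ))‖ ≤
      14 * d * Real.sqrt N + a * (E + 2) := by
    refine (norm_sub_le_norm_sub_add_norm_sub _ _ _).trans (add_le_add hsum hmain2)
  refine hfin.trans ?_
  have h4 : (a : ℝ) * E ≤ a * (C1 * 3 ^ A * (Real.sqrt N / Real.log N ^ A)) :=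
    mul_le_mul_of_nonneg_left hEb (by positivity)
  have h5 : (Real.sqrt N) ≤ d * Real.sqrt N := le_mul_of_one_le_left (by positivity) hdR
  have h6 : 0 ≤ C1 * 3 ^ A * (d * Real.sqrt N) := by positivity
  have h7 : 0 ≤ 22 * (a * Real.sqrt N / Real.log N ^ A) := by positivity
  calc 14 * d * Real.sqrt N + a * (E + 2) = 14 * d * Real.sqrt N + (a * E + 2 * a) := by ring
    _ ≤ 14 * (d * Real.sqrt N) + (a * (C1 * 3 ^ A * (Real.sqrt N / Real.log N ^ A)) +
        8 * (d * Real.sqrt N)) := by linarith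
    _ = C1 * 3 ^ A * (a * Real.sqrt N / Real.log N ^ A) + 22 * (d * Real.sqrt N) := by ring
    _ ≤ _ := by linarith

end Pool.Agent.HAE
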