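import Pool.Agent.HAE.Defs

/-!
# HAE-DIV: the divisor bound

PROOF.  `τ(n)/n^ε = ∏_l (v + 1)/l^(v ε)`.  For `l ≥ 2^(1/ε)` the factor is `≤ (v+1)/2^v ≤ 1`; for every `l ≥ 2` it is `≤ (v + 1)/2^(v ε) ≤ 1 + 1/(ε log 2)` (`2^(v ε) ≥ 1 + v ε log 2`).  So
`C = (1 + 1/(ε log 2))^(number of primes below 2^(1/ε))`.
-/

set_option autoImplicit false

open Finset Filter Topology
open Pool.Agent.HAV
open Pool.Agent.helper66.VK (ee)

namespace Pool.Agent.HAE

theorem div_bound (ε : ℝ) (hε : 0 < ε) : ∃ C : ℝ, 0 ≤ C ∧ ∀ n : ℕ, 1 ≤ n → (n.divisors.card : ℝ) ≤ C * (n : ℝ) ^ ε := by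
  have hl2 : 0 < Real.log 2 := Real.log_pos (by norm_num)
  set A : ℝ := 1 + 1 / (ε * Real.log 2) with hA
  have hA1 : 1 ≤ A := by
    have : 0 < 1 / (ε * Real.log 2) := by positivity
    linarith
  set B : ℕ := ⌈(2 : ℝ) ^ (1 / ε)⌉₊ with hB
  refine ⟨A ^ B, by positivity, fun n hn => ?_⟩
  have hn0 : n ≠ 0 := by omega
  have h1 : (n.divisors.card : ℝ) = ∏ p ∈ n.primeFactors, ((n.factorization p : ℝ) + 1) := by
    rw [Nat.card_divisors hn0]
    push_cast
    rfl
  have h2 : (n : ℝ) ^ ε = ∏ p ∈ n.primeFactors, ((p : ℝ) ^ n.factorization p) ^ ε := by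
    rw [Real.finsetProd_rpow _ _ fun p _ => by positivity]
    congr 1
    conv_lhs => rw [← Nat.prod_factorization_pow_eq_self hn0]
    rw [Finsupp.prod]
    push_cast
    rfl
  have h3 : ∀ p ∈ n.primeFactors, ((n.factorization p : ℝ) + 1) ≤
      (if p < B then A else 1) * ((p : ℝ) ^ n.factorization p) ^ ε := by
    intro p hp
    have hp2 : 2 ≤ p := (Nat.prime_of_mem_primeFactors hp).two_le
    have hp2' : (2 : ℝ) ≤ p := by exact_mod_cast hp2
    set v := n.factorization p with hv
    have e1 : ((p : ℝ) ^ v) ^ ε = ((p : ℝ) ^ ε) ^ v := by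
      rw [← Real.rpow_natCast, ← Real.rpow_natCast, ← Real.rpow_mul (by positivity), ← Real.rpow_mul (by positivity),
        mul_comm]
    split_ifs with hpB
    · have h4 : 1 + (v : ℝ) * (ε * Real.log 2) ≤ ((p : ℝ) ^ v) ^ ε := by
        calc 1 + (v : ℝ) * (ε * Real.log 2) ≤ Real.exp ((v : ℝ) * (ε * Real.log 2)) := by
              have := Real.add_one_le_exp ((v : ℝ) * (ε * Real.log 2))
              linarith
          _ = ((2 : ℝ) ^ v) ^ ε := by
              rw [← Real.rpow_natCast, ← Real.rpow_mul (by norm_num), Real.rpow_def_of_pos (by norm_num)]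
              congr 1
              ring
          _ ≤ _ := Real.rpow_le_rpow (by positivity) (pow_le_pow_left₀ (by norm_num) hp2' v) hε.le
      have h5 : (v : ℝ) + 1 ≤ A * (1 + (v : ℝ) * (ε * Real.log 2)) := by
        have h6 : A * (1 + (v : ℝ) * (ε * Real.log 2)) =
            1 + 1 / (ε * Real.log 2) + (v : ℝ) * (ε * Real.log 2) + v := by
          rw [hA]
          field_simp
          ring
        rw [h6]
        have h7 : 0 < 1 / (ε * Real.log 2) := by positivity
        have h8 : 0 ≤ (v : ℝ) * (ε * Real.log 2) := by positivity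
        linarith
      exact h5.trans (mul_le_mul_of_nonneg_left h4 (by linarith))
    · rw [one_mul, e1]
      have h4 : (2 : ℝ) ^ (1 / ε) ≤ p := by
        refine (Nat.le_ceil _).trans ?_
        exact_mod_cast not_lt.1 hpB
      have h5 : (2 : ℝ) ≤ (p : ℝ) ^ ε := by
        calc (2 : ℝ) = ((2 : ℝ) ^ (1 / ε)) ^ ε := by
              rw [← Real.rpow_mul (by norm_num), one_div, inv_mul_cancel₀ hε.ne', Real.rpow_one]
          _ ≤ _ := Real.rpow_le_rpow (by positivity) h4 hε.le
      have h6 : (v : ℝ) + 1 ≤ 2 ^ v := by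
        exact_mod_cast Nat.lt_two_pow_self (n := v)
      exact h6.trans (pow_le_pow_left₀ (by norm_num) h5 v)
  rw [h1, h2]
  calc ∏ p ∈ n.primeFactors, ((n.factorization p : ℝ) + 1) ≤
        ∏ p ∈ n.primeFactors, ((if p < B then A else 1) * ((p : ℝ) ^ n.factorization p) ^ ε) :=
        Finset.prod_le_prod (fun p _ => by positivity) h3
    _ = (∏ p ∈ n.primeFactors, (if p < B then A else 1)) *
          ∏ p ∈ n.primeFactors, ((p : ℝ) ^ n.factorization p) ^ ε := Finset.prod_mul_distrib
    _ ≤ A ^ B * ∏ p ∈ n.primeFactors, ((p : ℝ) ^ n.factorization p) ^ ε := by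
        apply mul_le_mul_of_nonneg_right _ (Finset.prod_nonneg fun p _ => by positivity)
        rw [← Finset.prod_filter, Finset.prod_const]
        apply pow_le_pow_right₀ hA1
        calc (n.primeFactors.filter (fun p => p < B)).card ≤ (range B).card := by
              apply Finset.card_le_card
              intro p hp
              exact Finset.mem_range.2 (Finset.mem_filter.1 hp).2
          _ = B := Finset.card_range B

end Pool.Agent.HAE
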