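import Pool.Agent.HAE.DIV

/-!
# HAE-UNB: the pointwise bound for `N0`

PROOF.  A pair of `N0 n` has `3 a² ≤ 4 n`, so `|k| ≤ a/2 ≤ √n`, and `a` is a divisor of `n + k² ≤ 2 n`: `N0 n ≤ ∑_{|k| ≤ √n} τ(n + k²)`; `div_bound`.
-/

set_option autoImplicit false

open Finset Filter Topology
open Pool.Agent.HAV
open Pool.Agent.helper66.VK (ee)

namespace Pool.Agent.HAE

private theorem UNB_count (n : ℕ) :
    N0 n ≤ ∑ k ∈ Icc (-(Nat.sqrt n : ℤ)) (Nat.sqrt n), (((n + k.natAbs ^ 2).divisors.card : ℕ) : ℝ) := by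
  classical
  unfold N0
  rw [← Nat.cast_sum, ← Nat.cast_sum, Nat.cast_le]
  rw [← Finset.card_sigma, ← Finset.card_sigma]
  refine Finset.card_le_card_of_injOn (fun x => ⟨x.2, x.1⟩) ?_ ?_
  · rintro ⟨a, k⟩ hx
    have hx' := Finset.mem_coe.1 hx
    rw [Finset.mem_sigma] at hx'
    obtain ⟨ha, hk⟩ := hx'
    rw [Finset.mem_filter] at hk
    obtain ⟨hk1, hk2, hk3⟩ := hk
    unfold ks at hk1
    rw [Finset.mem_filter] at hk1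
    have h1 : 2 * |k| ≤ (a : ℤ) := hk1.2
    have ha1 : 1 ≤ a := (Finset.mem_Icc.1 ha).1
    simp only at hk2 hk3 h1
    have h2 : 4 * k ^ 2 ≤ (a : ℤ) ^ 2 := by
      have h3 : 0 ≤ |k| := abs_nonneg k
      have h4 : |k| ^ 2 = k ^ 2 := sq_abs k
      nlinarith
    have h5 : k ^ 2 ≤ (n : ℤ) := by nlinarith
    have h6 : k.natAbs ^ 2 ≤ n := by
      have h7 : ((k.natAbs ^ 2 : ℕ) : ℤ) = k ^ 2 := by
        push_cast
        exact sq_abs k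
      have h8 : ((k.natAbs ^ 2 : ℕ) : ℤ) ≤ (n : ℤ) := by rw [h7]; exact h5
      exact_mod_cast h8
    have h9 : k.natAbs ≤ Nat.sqrt n := by
      rw [Nat.le_sqrt]
      nlinarith
    have hn : 0 < n + k.natAbs ^ 2 := by
      have h10 : (0 : ℤ) < (a : ℤ) ^ 2 := by positivity
      have h11 : (0 : ℤ) < n + k ^ 2 := lt_of_lt_of_le h10 hk3
      have h7 : ((k.natAbs ^ 2 : ℕ) : ℤ) = k ^ 2 := by
        push_cast
        exact sq_abs k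
      have h12 : ((n + k.natAbs ^ 2 : ℕ) : ℤ) = n + k ^ 2 := by
        rw [Nat.cast_add, h7]
      have h13 : (0 : ℤ) < ((n + k.natAbs ^ 2 : ℕ) : ℤ) := by rw [h12]; exact h11
      exact_mod_cast h13
    show (⟨k, a⟩ : Σ _ : ℤ, ℕ) ∈ ((Icc (-(Nat.sqrt n : ℤ)) (Nat.sqrt n)).sigma
      (fun k => (n + k.natAbs ^ 2).divisors) : Finset (Σ _ : ℤ, ℕ))
    rw [Finset.mem_sigma]
    refine ⟨?_, ?_⟩
    · rw [Finset.mem_Icc]
      have h14 : (k.natAbs : ℤ) ≤ (Nat.sqrt n : ℤ) := by exact_mod_cast h9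
      rw [Int.natCast_natAbs] at h14
      exact abs_le.1 h14
    · rw [Nat.mem_divisors]
      refine ⟨?_, hn.ne'⟩
      have h7 : ((k.natAbs ^ 2 : ℕ) : ℤ) = k ^ 2 := by
        push_cast
        exact sq_abs k
      have h12 : ((n + k.natAbs ^ 2 : ℕ) : ℤ) = n + k ^ 2 := by
        rw [Nat.cast_add, h7]
      have h15 : (a : ℤ) ∣ ((n + k.natAbs ^ 2 : ℕ) : ℤ) := by rw [h12]; exact hk2
      exact Int.natCast_dvd_natCast.1 h15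
  · rintro ⟨a, k⟩ _ ⟨a', k'⟩ _ h
    simp only [Sigma.mk.injEq, heq_eq_eq] at h
    obtain ⟨h1, h2⟩ := h
    subst h1
    subst h2
    rfl

theorem N0_le (ε : ℝ) (hε : 0 < ε) : ∃ C : ℝ, 0 ≤ C ∧ ∀ n : ℕ, 1 ≤ n → N0 n ≤ C * (n : ℝ) ^ (1 / 2 + ε) := by
  obtain ⟨C₁, hC₁, h⟩ := div_bound ε hε
  refine ⟨3 * (C₁ * (2 : ℝ) ^ ε), by positivity, fun n hn => ?_⟩
  have hn1 : (1 : ℝ) ≤ n := by exact_mod_cast hn
  have hn0 : (0 : ℝ) < n := by linarith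
  refine (UNB_count n).trans ?_
  have hs : ((Nat.sqrt n : ℕ) : ℝ) ≤ (n : ℝ) ^ (1 / 2 : ℝ) := by
    rw [← Real.sqrt_eq_rpow]
    exact Real.nat_sqrt_le_real_sqrt
  have h1 : (1 : ℝ) ≤ (n : ℝ) ^ (1 / 2 : ℝ) := Real.one_le_rpow hn1 (by norm_num)
  have hterm : ∀ k ∈ Icc (-(Nat.sqrt n : ℤ)) (Nat.sqrt n),
      (((n + k.natAbs ^ 2).divisors.card : ℕ) : ℝ) ≤ C₁ * (2 : ℝ) ^ ε * (n : ℝ) ^ ε := by
    intro k hk
    rw [Finset.mem_Icc] at hk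
    have h2 : k.natAbs ≤ Nat.sqrt n := by
      have h3 : |k| ≤ (Nat.sqrt n : ℤ) := abs_le.2 hk
      rw [← Int.natCast_natAbs] at h3
      exact_mod_cast h3
    have h4 : k.natAbs ^ 2 ≤ n := by
      rw [Nat.le_sqrt] at h2
      nlinarith
    have h5 : ((n + k.natAbs ^ 2 : ℕ) : ℝ) ≤ 2 * n := by
      have h6 : n + k.natAbs ^ 2 ≤ 2 * n := by omega
      exact_mod_cast h6
    refine (h (n + k.natAbs ^ 2) (by omega)).trans ?_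
    rw [mul_assoc]
    refine mul_le_mul_of_nonneg_left ?_ hC₁
    rw [← Real.mul_rpow (by norm_num) hn0.le]
    exact Real.rpow_le_rpow (Nat.cast_nonneg _) h5 hε.le
  refine (Finset.sum_le_sum hterm).trans ?_
  rw [Finset.sum_const, nsmul_eq_mul, Int.card_Icc]
  have h7 : (((Nat.sqrt n : ℤ) + 1 - -(Nat.sqrt n : ℤ)).toNat : ℝ) = 2 * (Nat.sqrt n : ℝ) + 1 := by
    have h8 : ((Nat.sqrt n : ℤ) + 1 - -(Nat.sqrt n : ℤ)).toNat = 2 * Nat.sqrt n + 1 := by omega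
    rw [h8]
    push_cast
    ring
  rw [h7, Real.rpow_add hn0]
  have h9 : 2 * (Nat.sqrt n : ℝ) + 1 ≤ 3 * (n : ℝ) ^ (1 / 2 : ℝ) := by linarith
  have h10 : 0 ≤ C₁ * (2 : ℝ) ^ ε * (n : ℝ) ^ ε := by positivity
  calc (2 * (Nat.sqrt n : ℝ) + 1) * (C₁ * (2 : ℝ) ^ ε * (n : ℝ) ^ ε)
      ≤ (3 * (n : ℝ) ^ (1 / 2 : ℝ)) * (C₁ * (2 : ℝ) ^ ε * (n : ℝ) ^ ε) :=
        mul_le_mul_of_nonneg_right h9 h10
    _ = 3 * (C₁ * (2 : ℝ) ^ ε) * ((n : ℝ) ^ (1 / 2 : ℝ) * (n : ℝ) ^ ε) := by ring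

end Pool.Agent.HAE
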