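import Pool.Agent.HAE.UNA
import Pool.Agent.HAE.UNB
import Pool.Agent.HAE.SSB2

/-!
# HAE-UN: removing the weight `log q`, at one prime

PROOF.  `G0 = ∑_{q ∈ qr p} N0 (p - q²)`, `G` the same with `hurwitz (4 ..)`.  `|G - G0| ≤ √p · 4 C p^(1/4)` (`hur_N0`, `div_bound (1/4)`).  `log q ≤ (1/2) log p`: `F p ≤ (1/2) log p G0`.  For `0 < η < 1/4` the `q ≤ p^(1/2-η)` contribute to `G0` at most
`p^(1/2-η) C p^(1/2+η/2)` (`N0_le (η/2)`), and the others have `log q ≥ (1/2 - η) log p`: `G0 ≤ F p/((1/2 - η) log p) + C p^(1-η/2)`.  `F p/p ≤ (π²/12) |SS p| + δ` is bounded (`SS_bound`): choose `η`, `δ` small, `p` large.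
-/

set_option autoImplicit false

open Finset Filter Topology
open Pool.Agent.HAV
open Pool.Agent.helper66.VK (ee)

namespace Pool.Agent.HAE

private lemma un_N0_nonneg (n : ℕ) : 0 ≤ N0 n := by
  unfold N0
  exact Finset.sum_nonneg (fun _ _ => Nat.cast_nonneg _)

private lemma un_mem {p q : ℕ} (h : q ∈ qr p) : 1 ≤ q ∧ q ^ 2 < p := by
  unfold qr at h
  rw [Finset.mem_filter, Finset.mem_Icc] at h
  exact ⟨h.1.1, h.2.2⟩

private lemma un_card (p : ℕ) : ((qr p).card : ℝ) ≤ Real.sqrt p := by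
  have h1 : qr p ⊆ Icc 1 (Nat.sqrt p) := by
    intro q hq
    obtain ⟨h1, h2⟩ := un_mem hq
    rw [Finset.mem_Icc]
    refine ⟨h1, ?_⟩
    rw [Nat.le_sqrt']
    exact h2.le
  have h2 := Finset.card_le_card h1
  rw [Nat.card_Icc, Nat.add_sub_cancel] at h2
  calc ((qr p).card : ℝ) ≤ (Nat.sqrt p : ℝ) := by exact_mod_cast h2
    _ ≤ Real.sqrt p := Real.nat_sqrt_le_real_sqrt

private lemma un_hur (C : ℝ) (hC : 0 ≤ C) (hdiv : ∀ n : ℕ, 1 ≤ n → (n.divisors.card : ℝ) ≤ C * (n : ℝ) ^ (1 / 4 : ℝ)) (p : ℕ) :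
    |∑ q ∈ qr p, hurwitz (4 * (p - q ^ 2)) - ∑ q ∈ qr p, N0 (p - q ^ 2)| ≤
      Real.sqrt p * (4 * (C * (p : ℝ) ^ (1 / 4 : ℝ))) := by
  rw [← Finset.sum_sub_distrib]
  calc |∑ q ∈ qr p, (hurwitz (4 * (p - q ^ 2)) - N0 (p - q ^ 2))|
      ≤ ∑ q ∈ qr p, |hurwitz (4 * (p - q ^ 2)) - N0 (p - q ^ 2)| := Finset.abs_sum_le_sum_abs _ _
    _ ≤ ∑ _q ∈ qr p, 4 * (C * (p : ℝ) ^ (1 / 4 : ℝ)) := by
        refine Finset.sum_le_sum (fun q hq => ?_)
        obtain ⟨h1, h2⟩ := un_mem hq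
        have hn : 1 ≤ p - q ^ 2 := by omega
        have h3 := hur_N0 (p - q ^ 2) hn
        have h4 := hdiv (p - q ^ 2) hn
        have h5 : ((p - q ^ 2 : ℕ) : ℝ) ^ (1 / 4 : ℝ) ≤ (p : ℝ) ^ (1 / 4 : ℝ) := by
          refine Real.rpow_le_rpow (Nat.cast_nonneg _) ?_ (by norm_num)
          exact_mod_cast Nat.sub_le _ _
        have h6 := mul_le_mul_of_nonneg_left h5 hC
        linarith
    _ = ((qr p).card : ℝ) * (4 * (C * (p : ℝ) ^ (1 / 4 : ℝ))) := by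
        rw [Finset.sum_const, nsmul_eq_mul]
    _ ≤ Real.sqrt p * (4 * (C * (p : ℝ) ^ (1 / 4 : ℝ))) :=
        mul_le_mul_of_nonneg_right (un_card p) (by positivity)

private lemma un_up (p : ℕ) (hp : 2 ≤ p) :
    F p ≤ (1 / 2) * Real.log p * ∑ q ∈ qr p, N0 (p - q ^ 2) := by
  unfold F
  rw [Finset.mul_sum]
  refine Finset.sum_le_sum (fun q hq => ?_)
  obtain ⟨h1, h2⟩ := un_mem hq
  refine mul_le_mul_of_nonneg_right ?_ (un_N0_nonneg _)
  have hq0 : (0 : ℝ) < q := by exact_mod_cast h1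
  have h3 : Real.log ((q : ℝ) ^ 2) ≤ Real.log p := by
    refine Real.log_le_log (by positivity) ?_
    exact_mod_cast h2.le
  rw [Real.log_pow] at h3
  push_cast at h3
  linarith

private lemma un_lo (C η : ℝ) (hC : 0 ≤ C) (h0 : 0 < η) (h1 : η ≤ 1 / 4)
    (hN : ∀ n : ℕ, 1 ≤ n → N0 n ≤ C * (n : ℝ) ^ (1 / 2 + η / 2)) (p : ℕ) (hp : 2 ≤ p) :
    (1 / 2 - η) * Real.log p * ∑ q ∈ qr p, N0 (p - q ^ 2) ≤
      F p + (1 / 2 - η) * Real.log p * (C * ((p : ℝ) / (p : ℝ) ^ (η / 2))) := by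
  classical
  have hp0 : (0 : ℝ) < p := by exact_mod_cast (by omega : 0 < p)
  have hp1 : (1 : ℝ) ≤ p := by exact_mod_cast (by omega : 1 ≤ p)
  have hL : 0 ≤ Real.log p := Real.log_nonneg hp1
  have hd : 0 ≤ 1 / 2 - η := by linarith
  have hK : 0 ≤ (1 / 2 - η) * Real.log p := mul_nonneg hd hL
  set Z : ℝ := (p : ℝ) ^ (1 / 2 - η) with hZ
  have hZ0 : 0 < Z := Real.rpow_pos_of_pos hp0 _
  rw [← Finset.sum_filter_add_sum_filter_not (qr p) (fun q : ℕ => (q : ℝ) ≤ Z) (fun q => N0 (p - q ^ 2)), mul_add]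
  have hsmall : ∑ q ∈ (qr p).filter (fun q : ℕ => (q : ℝ) ≤ Z), N0 (p - q ^ 2) ≤
      C * ((p : ℝ) / (p : ℝ) ^ (η / 2)) := by
    have hc : (((qr p).filter (fun q : ℕ => (q : ℝ) ≤ Z)).card : ℝ) ≤ Z := by
      have hs : (qr p).filter (fun q : ℕ => (q : ℝ) ≤ Z) ⊆ Icc 1 ⌊Z⌋₊ := by
        intro q hq
        rw [Finset.mem_filter] at hq
        rw [Finset.mem_Icc]
        exact ⟨(un_mem hq.1).1, Nat.le_floor hq.2⟩
      have h2 := Finset.card_le_card hs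
      rw [Nat.card_Icc, Nat.add_sub_cancel] at h2
      calc (((qr p).filter (fun q : ℕ => (q : ℝ) ≤ Z)).card : ℝ) ≤ (⌊Z⌋₊ : ℝ) := by exact_mod_cast h2
        _ ≤ Z := Nat.floor_le hZ0.le
    calc ∑ q ∈ (qr p).filter (fun q : ℕ => (q : ℝ) ≤ Z), N0 (p - q ^ 2)
        ≤ ∑ _q ∈ (qr p).filter (fun q : ℕ => (q : ℝ) ≤ Z), C * (p : ℝ) ^ (1 / 2 + η / 2) := by
          refine Finset.sum_le_sum (fun q hq => ?_)
          rw [Finset.mem_filter] at hq
          obtain ⟨h3, h4⟩ := un_mem hq.1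
          have hn : 1 ≤ p - q ^ 2 := by omega
          refine (hN _ hn).trans (mul_le_mul_of_nonneg_left ?_ hC)
          refine Real.rpow_le_rpow (Nat.cast_nonneg _) ?_ (by linarith)
          exact_mod_cast Nat.sub_le _ _
      _ = (((qr p).filter (fun q : ℕ => (q : ℝ) ≤ Z)).card : ℝ) * (C * (p : ℝ) ^ (1 / 2 + η / 2)) := by
          rw [Finset.sum_const, nsmul_eq_mul]
      _ ≤ Z * (C * (p : ℝ) ^ (1 / 2 + η / 2)) :=
          mul_le_mul_of_nonneg_right hc (mul_nonneg hC (Real.rpow_nonneg hp0.le _))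
      _ = C * (Z * (p : ℝ) ^ (1 / 2 + η / 2)) := by ring
      _ = C * ((p : ℝ) / (p : ℝ) ^ (η / 2)) := by
          congr 1
          rw [hZ, ← Real.rpow_add hp0, eq_div_iff (Real.rpow_pos_of_pos hp0 _).ne', ← Real.rpow_add hp0]
          have he : 1 / 2 - η + (1 / 2 + η / 2) + η / 2 = 1 := by ring
          rw [he, Real.rpow_one]
  have hbig : (1 / 2 - η) * Real.log p * ∑ q ∈ (qr p).filter (fun q : ℕ => ¬ (q : ℝ) ≤ Z), N0 (p - q ^ 2) ≤ F p := by
    unfold F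
    rw [Finset.mul_sum]
    calc ∑ q ∈ (qr p).filter (fun q : ℕ => ¬ (q : ℝ) ≤ Z), (1 / 2 - η) * Real.log p * N0 (p - q ^ 2)
        ≤ ∑ q ∈ (qr p).filter (fun q : ℕ => ¬ (q : ℝ) ≤ Z), Real.log q * N0 (p - q ^ 2) := by
          refine Finset.sum_le_sum (fun q hq => ?_)
          rw [Finset.mem_filter] at hq
          refine mul_le_mul_of_nonneg_right ?_ (un_N0_nonneg _)
          have h5 : Z ≤ q := (not_le.1 hq.2).le
          have h6 := Real.log_le_log hZ0 h5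
          rwa [hZ, Real.log_rpow hp0] at h6
      _ ≤ ∑ q ∈ qr p, Real.log q * N0 (p - q ^ 2) := by
          refine Finset.sum_le_sum_of_subset_of_nonneg (Finset.filter_subset _ _) (fun q hq _ => ?_)
          refine mul_nonneg (Real.log_nonneg ?_) (un_N0_nonneg _)
          exact_mod_cast (un_mem hq).1
  have h7 := mul_le_mul_of_nonneg_left hsmall hK
  linarith

private lemma un_tend (C r e : ℝ) (hr : 0 < r) (he : 0 < e) :
    ∀ᶠ p : ℕ in atTop, C * (Real.log p / (p : ℝ) ^ r) ≤ e := by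
  have h1 : Tendsto (fun x : ℝ => Real.log x / x ^ r) atTop (𝓝 0) :=
    (isLittleO_log_rpow_atTop hr).tendsto_div_nhds_zero
  have h2 : Tendsto (fun p : ℕ => C * (Real.log p / (p : ℝ) ^ r)) atTop (𝓝 (C * 0)) :=
    (h1.comp tendsto_natCast_atTop_atTop).const_mul C
  rw [mul_zero] at h2
  filter_upwards [h2.eventually (Iio_mem_nhds he)] with p hp
  exact le_of_lt hp

theorem un (ε : ℝ) (hε : 0 < ε) : ∃ δ : ℝ, 0 < δ ∧ ∃ p₀ : ℕ, ∀ p : ℕ, p₀ ≤ p → p.Prime →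
    |F p - Real.pi ^ 2 / 12 * p * SS p| ≤ δ * p →
    |Real.log p / p * ∑ q ∈ qr p, hurwitz (4 * (p - q ^ 2)) - Real.pi ^ 2 / 6 * SS p| ≤ ε := by
  obtain ⟨K, hK0, hK⟩ := SS_bound
  obtain ⟨C1, hC10, hC1⟩ := div_bound (1 / 4) (by norm_num)
  have hK1 : 0 < K + 1 := by linarith
  set η : ℝ := min (1 / 4) (ε / (32 * (K + 1))) with hη
  have hη0 : 0 < η := lt_min (by norm_num) (by positivity)
  have hη1 : η ≤ 1 / 4 := min_le_left _ _
  have hη2 : 8 * η * (K + 1) ≤ ε / 4 := by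
    have h := min_le_right (1 / 4 : ℝ) (ε / (32 * (K + 1)))
    rw [← hη, le_div_iff₀ (by positivity)] at h
    linarith
  obtain ⟨C2, hC20, hC2⟩ := N0_le (η / 2) (by positivity)
  have t1 := un_tend C2 (η / 2) (ε / 4) (by positivity) (by positivity)
  have t2 := un_tend (4 * C1) (1 / 4) (ε / 4) (by norm_num) (by positivity)
  obtain ⟨p0, hp0⟩ := eventually_atTop.1 (t1.and t2)
  refine ⟨min 1 (ε / 8), lt_min one_pos (by positivity), max p0 2, fun p hp hpp hF => ?_⟩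
  obtain ⟨e1, e2⟩ := hp0 p ((le_max_left _ _).trans hp)
  have hp2 : 2 ≤ p := (le_max_right _ _).trans hp
  have hpos : (0 : ℝ) < p := by exact_mod_cast (by omega : 0 < p)
  have hp1 : (1 : ℝ) < p := by exact_mod_cast (by omega : 1 < p)
  have hL : 0 < Real.log p := Real.log_pos hp1
  set G0 : ℝ := ∑ q ∈ qr p, N0 (p - q ^ 2) with hG0
  set G : ℝ := ∑ q ∈ qr p, hurwitz (4 * (p - q ^ 2)) with hG
  have a1 : |G - G0| ≤ Real.sqrt p * (4 * (C1 * (p : ℝ) ^ (1 / 4 : ℝ))) := un_hur C1 hC10 hC1 p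
  have a2 : F p ≤ (1 / 2) * Real.log p * G0 := un_up p hp2
  have a3 : (1 / 2 - η) * Real.log p * G0 ≤
      F p + (1 / 2 - η) * Real.log p * (C2 * ((p : ℝ) / (p : ℝ) ^ (η / 2))) :=
    un_lo C2 η hC20 hη0 hη1 hC2 p hp2
  have hF0 : 0 ≤ F p := by
    unfold F
    refine Finset.sum_nonneg (fun q hq => mul_nonneg (Real.log_nonneg ?_) (un_N0_nonneg _))
    exact_mod_cast (un_mem hq).1
  -- normalised quantities
  set f : ℝ := F p / p with hf
  have hf0 : 0 ≤ f := div_nonneg hF0 hpos.le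
  have hFf : F p = f * p := by rw [hf]; field_simp
  have b0 : |f - Real.pi ^ 2 / 12 * SS p| ≤ min 1 (ε / 8) := by
    rw [hFf] at hF
    have h : f * p - Real.pi ^ 2 / 12 * p * SS p = (f - Real.pi ^ 2 / 12 * SS p) * p := by ring
    rw [h, abs_mul, abs_of_pos hpos] at hF
    exact le_of_mul_le_mul_right hF hpos
  have b1 : |f - Real.pi ^ 2 / 12 * SS p| ≤ 1 := b0.trans (min_le_left _ _)
  have b2 : |f - Real.pi ^ 2 / 12 * SS p| ≤ ε / 8 := b0.trans (min_le_right _ _)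
  have hpi : Real.pi ^ 2 / 12 ≤ 1 := by
    have h1 := Real.pi_lt_d2
    have h2 := Real.pi_pos
    nlinarith
  have hfK : f ≤ K + 1 := by
    have h1 : Real.pi ^ 2 / 12 * SS p ≤ K := by
      calc Real.pi ^ 2 / 12 * SS p ≤ |Real.pi ^ 2 / 12 * SS p| := le_abs_self _
        _ = Real.pi ^ 2 / 12 * |SS p| := by rw [abs_mul, abs_of_nonneg (by positivity)]
        _ ≤ 1 * K := mul_le_mul hpi (hK p) (abs_nonneg _) (by norm_num)
        _ = K := one_mul K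
    have h2 := (abs_le.1 b1).2
    linarith
  -- the three comparisons
  set g : ℝ := Real.log p / p * G with hg
  set g0 : ℝ := Real.log p / p * G0 with hg0
  have c1 : |g - g0| ≤ ε / 4 := by
    have h1 : g - g0 = Real.log p / p * (G - G0) := by rw [hg, hg0]; ring
    rw [h1, abs_mul, abs_of_nonneg (by positivity)]
    calc Real.log p / p * |G - G0| ≤ Real.log p / p * (Real.sqrt p * (4 * (C1 * (p : ℝ) ^ (1 / 4 : ℝ)))) :=
          mul_le_mul_of_nonneg_left a1 (by positivity)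
      _ = 4 * C1 * (Real.log p / (p : ℝ) ^ (1 / 4 : ℝ)) := by
          have h2 : Real.sqrt p * (p : ℝ) ^ (1 / 4 : ℝ) * (p : ℝ) ^ (1 / 4 : ℝ) = p := by
            rw [Real.sqrt_eq_rpow, ← Real.rpow_add hpos, ← Real.rpow_add hpos]
            norm_num
          have h3 : 0 < (p : ℝ) ^ (1 / 4 : ℝ) := Real.rpow_pos_of_pos hpos _
          have h4 : Real.sqrt p * (p : ℝ) ^ (1 / 4 : ℝ) = p / (p : ℝ) ^ (1 / 4 : ℝ) := by
            rw [eq_div_iff h3.ne']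
            exact h2
          have h5 : Real.log p / p * (Real.sqrt p * (4 * (C1 * (p : ℝ) ^ (1 / 4 : ℝ)))) =
              4 * C1 * (Real.log p / p * (Real.sqrt p * (p : ℝ) ^ (1 / 4 : ℝ))) := by ring
          rw [h5, h4]
          congr 1
          field_simp
      _ ≤ ε / 4 := e2
  have c2 : 2 * f ≤ g0 := by
    have h1 : Real.log p * G0 = g0 * p := by rw [hg0]; field_simp
    have h2 : f * p ≤ 1 / 2 * (g0 * p) := by
      rw [← h1, ← hFf]
      linarith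
    have h3 : (2 * f) * p ≤ g0 * p := by linarith
    exact le_of_mul_le_mul_right h3 hpos
  have c3 : g0 - 2 * f ≤ 8 * η * (K + 1) + ε / 4 := by
    have h1 : Real.log p * G0 = g0 * p := by rw [hg0]; field_simp
    have h2 : Real.log p * (C2 * ((p : ℝ) / (p : ℝ) ^ (η / 2))) = C2 * (Real.log p / (p : ℝ) ^ (η / 2)) * p := by
      ring
    have hd : 0 < 1 / 2 - η := by linarith
    have h3 : (1 / 2 - η) * (g0 * p) ≤ f * p + (1 / 2 - η) * (C2 * (Real.log p / (p : ℝ) ^ (η / 2)) * p) := by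
      rw [← h1, ← h2, ← hFf]
      linarith
    have h4 : ((1 / 2 - η) * g0) * p ≤ (f + (1 / 2 - η) * (C2 * (Real.log p / (p : ℝ) ^ (η / 2)))) * p := by
      linarith
    have h5 : (1 / 2 - η) * g0 ≤ f + (1 / 2 - η) * (C2 * (Real.log p / (p : ℝ) ^ (η / 2))) :=
      le_of_mul_le_mul_right h4 hpos
    have h6 : (1 / 2 - η) * (C2 * (Real.log p / (p : ℝ) ^ (η / 2))) ≤ (1 / 2 - η) * (ε / 4) :=
      mul_le_mul_of_nonneg_left e1 hd.le
    -- f ≤ (1/2 - η) (2 f + 8 η (K+1))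
    have h7 : f ≤ (1 / 2 - η) * (2 * f + 8 * η * (K + 1)) := by
      have h8 : 2 * η * f ≤ 2 * η * (K + 1) := mul_le_mul_of_nonneg_left hfK (by positivity)
      have h9 : 2 * η * (K + 1) ≤ (1 / 2 - η) * (8 * η * (K + 1)) := by
        have h10 : 0 ≤ η * (K + 1) := by positivity
        nlinarith
      linarith
    have h11 : (1 / 2 - η) * g0 ≤ (1 / 2 - η) * (2 * f + 8 * η * (K + 1) + ε / 4) := by
      linarith
    have h12 := le_of_mul_le_mul_left h11 hd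
    linarith
  have c4 : |2 * f - Real.pi ^ 2 / 6 * SS p| ≤ ε / 4 := by
    have h1 : 2 * f - Real.pi ^ 2 / 6 * SS p = 2 * (f - Real.pi ^ 2 / 12 * SS p) := by ring
    rw [h1, abs_mul, abs_of_pos (by norm_num : (0 : ℝ) < 2)]
    linarith
  have c5 : |g0 - 2 * f| ≤ ε / 2 := by
    rw [abs_of_nonneg (by linarith)]
    linarith
  calc |g - Real.pi ^ 2 / 6 * SS p| = |(g - g0) + (g0 - 2 * f) + (2 * f - Real.pi ^ 2 / 6 * SS p)| := by
        congr 1; ring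
    _ ≤ |g - g0| + |g0 - 2 * f| + |2 * f - Real.pi ^ 2 / 6 * SS p| := abs_add_three _ _ _
    _ ≤ ε := by linarith

end Pool.Agent.HAE
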