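import Pool.Agent.HAE.UNI
import Pool.Agent.HAE.UN

/-!
# HAE-FIN (helper14): the theorem for almost all primes
-/

set_option autoImplicit false

open Finset Filter Topology
open Pool.Agent.HAV

namespace Pool.Agent.HAE

open Classical in
theorem fin (ε : ℝ) (hε : 0 < ε) (A : ℕ) : ∃ C : ℝ, ∀ X : ℕ, 2 ≤ X →
    (((pr X).filter (fun p : ℕ => ε < |Real.log p / p * ∑ q ∈ qr p, hurwitz (4 * (p - q ^ 2)) -
      Real.pi ^ 2 / 6 * SS p|)).card : ℝ) ≤ C * X / Real.log X ^ A := by
  obtain ⟨δ, hδ, p₀, hp₀⟩ := un ε hε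
  obtain ⟨C, hC, h⟩ := almost_all A δ hδ
  obtain ⟨c, hc⟩ : ∃ c : ℝ, 0 ≤ c ∧ ∀ X : ℕ, 2 ≤ X → Real.log X ^ A ≤ c * X := by
    refine ⟨(A.factorial : ℝ), by positivity, fun X hX => ?_⟩
    have hX0 : (0 : ℝ) < X := by positivity
    have h1 : 0 ≤ Real.log X := Real.log_natCast_nonneg X
    have h2 := Real.pow_div_factorial_le_exp (Real.log X) h1 A
    rw [Real.exp_log hX0, div_le_iff₀ (by positivity)] at h2
    linarith
  refine ⟨C + p₀ * c, fun X hX => ?_⟩
  have hlog : 0 < Real.log X := Real.log_pos (by exact_mod_cast (by omega : 1 < X))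
  have hsub : (pr X).filter (fun p : ℕ => ε < |Real.log p / p * ∑ q ∈ qr p, hurwitz (4 * (p - q ^ 2)) -
      Real.pi ^ 2 / 6 * SS p|) ⊆
      (pr X).filter (fun p => δ * p < |F p - Real.pi ^ 2 / 12 * p * SS p|) ∪ range p₀ := by
    intro p hp
    rw [Finset.mem_filter] at hp
    rw [Finset.mem_union]
    by_cases hpp : p₀ ≤ p
    · left
      rw [Finset.mem_filter]
      refine ⟨hp.1, ?_⟩
      by_contra hcon
      push Not at hcon
      have hprime : p.Prime := by
        have := hp.1
        unfold pr at this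
        rw [Finset.mem_filter] at this
        exact this.2
      have := hp₀ p hpp hprime hcon
      linarith [hp.2]
    · right
      rw [Finset.mem_range]
      omega
  have hcard := (Finset.card_le_card hsub).trans (Finset.card_union_le _ _)
  rw [Finset.card_range] at hcard
  have hcard' : (((pr X).filter (fun p : ℕ => ε < |Real.log p / p * ∑ q ∈ qr p, hurwitz (4 * (p - q ^ 2)) -
      Real.pi ^ 2 / 6 * SS p|)).card : ℝ) ≤
      (((pr X).filter (fun p => δ * p < |F p - Real.pi ^ 2 / 12 * p * SS p|)).card : ℝ) + p₀ := by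
    exact_mod_cast hcard
  refine hcard'.trans ?_
  have h3 := h X hX
  have h4 : (p₀ : ℝ) ≤ p₀ * c * X / Real.log X ^ A := by
    rw [le_div_iff₀ (by positivity)]
    have := hc.2 X hX
    have h5 : (0 : ℝ) ≤ p₀ := by positivity
    nlinarith
  calc _ ≤ C * X / Real.log X ^ A + p₀ * c * X / Real.log X ^ A := add_le_add h3 h4
    _ = (C + p₀ * c) * X / Real.log X ^ A := by ring

end Pool.Agent.HAE
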