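import Pool.Agent.HAE.UNA
import Pool.Agent.HAE.DIV

/-!
# HAE-UNc: from `N0` to class numbers in the weighted sum

PROOF.  `|hurwitz (4 n) - N0 n| ≤ 4 τ(n) ≤ 4 C n^(1/4)` (`hur_N0`, `div_bound (1/4)`), at most `√p` primes `q`, `log q ≤ log p`: `≤ 4 C p^(3/4) log p ≤ C' p^(7/8)`.
-/

set_option autoImplicit false

open Finset Filter Topology
open Pool.Agent.HAV
open Pool.Agent.helper66.VK (ee)

namespace Pool.Agent.HAE

private lemma unc_mem {p q : ℕ} (h : q ∈ qr p) : 1 ≤ q ∧ q ^ 2 < p := by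
  unfold qr at h
  rw [Finset.mem_filter, Finset.mem_Icc] at h
  exact ⟨h.1.1, h.2.2⟩

private lemma unc_card (p : ℕ) : ((qr p).card : ℝ) ≤ Real.sqrt p := by
  have h1 : qr p ⊆ Icc 1 (Nat.sqrt p) := by
    intro q hq
    obtain ⟨h1, h2⟩ := unc_mem hq
    rw [Finset.mem_Icc]
    refine ⟨h1, ?_⟩
    rw [Nat.le_sqrt']
    exact h2.le
  have h2 := Finset.card_le_card h1
  rw [Nat.card_Icc, Nat.add_sub_cancel] at h2
  calc ((qr p).card : ℝ) ≤ (Nat.sqrt p : ℝ) := by exact_mod_cast h2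
    _ ≤ Real.sqrt p := Real.nat_sqrt_le_real_sqrt

theorem F_hurwitz : ∃ C : ℝ, 0 ≤ C ∧ ∀ p : ℕ, 1 ≤ p →
    |∑ q ∈ qr p, Real.log q * hurwitz (4 * (p - q ^ 2)) - F p| ≤ C * (p : ℝ) ^ (7 / 8 : ℝ) := by
  obtain ⟨C, hC, hdiv⟩ := div_bound (1 / 4) (by norm_num)
  refine ⟨32 * C, by positivity, fun p hp => ?_⟩
  have hp0 : (0 : ℝ) < p := by exact_mod_cast (by omega : 0 < p)
  have hp1 : (1 : ℝ) ≤ p := by exact_mod_cast hp
  have hL : 0 ≤ Real.log p := Real.log_nonneg hp1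
  have hlog : Real.log p ≤ 8 * (p : ℝ) ^ (1 / 8 : ℝ) := by
    have h := Real.log_le_rpow_div hp0.le (by norm_num : (0 : ℝ) < 1 / 8)
    have h2 : (p : ℝ) ^ (1 / 8 : ℝ) / (1 / 8) = 8 * (p : ℝ) ^ (1 / 8 : ℝ) := by ring
    linarith
  have h4p : 0 ≤ 4 * (C * (p : ℝ) ^ (1 / 4 : ℝ)) :=
    mul_nonneg (by norm_num) (mul_nonneg hC (Real.rpow_nonneg hp0.le _))
  unfold F
  rw [← Finset.sum_sub_distrib]
  calc |∑ q ∈ qr p, (Real.log q * hurwitz (4 * (p - q ^ 2)) - Real.log q * N0 (p - q ^ 2))|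
      ≤ ∑ q ∈ qr p, |Real.log q * hurwitz (4 * (p - q ^ 2)) - Real.log q * N0 (p - q ^ 2)| :=
        Finset.abs_sum_le_sum_abs _ _
    _ ≤ ∑ _q ∈ qr p, Real.log p * (4 * (C * (p : ℝ) ^ (1 / 4 : ℝ))) := by
        refine Finset.sum_le_sum (fun q hq => ?_)
        obtain ⟨h1, h2⟩ := unc_mem hq
        have hn : 1 ≤ p - q ^ 2 := by omega
        have hq1 : (1 : ℝ) ≤ q := by exact_mod_cast h1
        have hqp : (q : ℝ) ≤ p := by
          have h3 : q ≤ p := by nlinarith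
          exact_mod_cast h3
        have h3 := hur_N0 (p - q ^ 2) hn
        have h4 := hdiv (p - q ^ 2) hn
        have h5 : ((p - q ^ 2 : ℕ) : ℝ) ^ (1 / 4 : ℝ) ≤ (p : ℝ) ^ (1 / 4 : ℝ) := by
          refine Real.rpow_le_rpow (Nat.cast_nonneg _) ?_ (by norm_num)
          exact_mod_cast Nat.sub_le _ _
        have h6 := mul_le_mul_of_nonneg_left h5 hC
        have h7 : |hurwitz (4 * (p - q ^ 2)) - N0 (p - q ^ 2)| ≤ 4 * (C * (p : ℝ) ^ (1 / 4 : ℝ)) := by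
          linarith
        rw [← mul_sub, abs_mul, abs_of_nonneg (Real.log_nonneg hq1)]
        exact mul_le_mul (Real.log_le_log (by linarith) hqp) h7 (abs_nonneg _) hL
    _ = ((qr p).card : ℝ) * (Real.log p * (4 * (C * (p : ℝ) ^ (1 / 4 : ℝ)))) := by
        rw [Finset.sum_const, nsmul_eq_mul]
    _ ≤ Real.sqrt p * (Real.log p * (4 * (C * (p : ℝ) ^ (1 / 4 : ℝ)))) :=
        mul_le_mul_of_nonneg_right (unc_card p) (mul_nonneg hL h4p)
    _ ≤ Real.sqrt p * (8 * (p : ℝ) ^ (1 / 8 : ℝ) * (4 * (C * (p : ℝ) ^ (1 / 4 : ℝ)))) :=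
        mul_le_mul_of_nonneg_left (mul_le_mul_of_nonneg_right hlog h4p) (Real.sqrt_nonneg _)
    _ = 32 * C * ((p : ℝ) ^ (1 / 2 : ℝ) * (p : ℝ) ^ (1 / 8 : ℝ) * (p : ℝ) ^ (1 / 4 : ℝ)) := by
        rw [Real.sqrt_eq_rpow]
        ring
    _ = 32 * C * (p : ℝ) ^ (7 / 8 : ℝ) := by
        rw [← Real.rpow_add hp0, ← Real.rpow_add hp0]
        norm_num

end Pool.Agent.HAE
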