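import Pool.Agent.HAE.UNIb
import Pool.Agent.HAE.UNc

/-!
# HAE-FINb (helper14): the weighted theorem with powers of the logarithm
-/

set_option autoImplicit false

open Finset Filter Topology
open Pool.Agent.HAV

namespace Pool.Agent.HAE

private theorem FINb_ev (C : ℝ) (E : ℕ) : ∃ p₀ : ℕ, ∀ p : ℕ, p₀ ≤ p →
    2 ≤ Real.log p ∧ C * (p : ℝ) ^ (7 / 8 : ℝ) ≤ (p : ℝ) / Real.log p ^ E / 2 := by
  have h1 : Tendsto (fun p : ℕ => Real.log p) atTop atTop :=
    Real.tendsto_log_atTop.comp tendsto_natCast_atTop_atTop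
  have h2 : Tendsto (fun p : ℕ => Real.log (p : ℝ) ^ E / (p : ℝ) ^ (1 / 8 : ℝ)) atTop (𝓝 0) := by
    have := (isLittleO_log_rpow_rpow_atTop (r := (E : ℝ)) (s := (1 / 8 : ℝ)) (by norm_num)).tendsto_div_nhds_zero
    have h3 := this.comp tendsto_natCast_atTop_atTop (α := ℕ)
    refine h3.congr fun p => ?_
    simp only [Function.comp, Real.rpow_natCast]
  have h4 : Tendsto (fun p : ℕ => C * (Real.log (p : ℝ) ^ E / (p : ℝ) ^ (1 / 8 : ℝ))) atTop (𝓝 (C * 0)) :=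
    h2.const_mul C
  rw [mul_zero] at h4
  have h5 := h4.eventually (gt_mem_nhds (by norm_num : (0 : ℝ) < 1 / 2))
  obtain ⟨p₀, hp⟩ := Filter.eventually_atTop.1 ((h1.eventually_ge_atTop 2).and (h5.and (eventually_ge_atTop 1)))
  refine ⟨p₀, fun p hpp => ?_⟩
  obtain ⟨ha, hb, hc⟩ := hp p hpp
  refine ⟨ha, ?_⟩
  have hp0 : (0 : ℝ) < p := by exact_mod_cast hc
  have hlog : 0 < Real.log p ^ E := by positivity
  have e1 : (p : ℝ) = (p : ℝ) ^ (7 / 8 : ℝ) * (p : ℝ) ^ (1 / 8 : ℝ) := by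
    rw [← Real.rpow_add hp0]
    norm_num
  have h8 : (0 : ℝ) < (p : ℝ) ^ (1 / 8 : ℝ) := by positivity
  have h78 : (0 : ℝ) < (p : ℝ) ^ (7 / 8 : ℝ) := by positivity
  have hb' : C * Real.log (p : ℝ) ^ E < 1 / 2 * (p : ℝ) ^ (1 / 8 : ℝ) := by
    rw [mul_div_assoc'] at hb
    rwa [div_lt_iff₀ h8] at hb
  rw [div_div, le_div_iff₀ (by positivity)]
  have : C * (p : ℝ) ^ (7 / 8 : ℝ) * (Real.log p ^ E * 2) = (C * Real.log (p : ℝ) ^ E) * (p : ℝ) ^ (7 / 8 : ℝ) * 2 := by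
    ring
  rw [this]
  nlinarith

open Classical in
theorem finb (A E : ℕ) : ∃ C : ℝ, ∀ X : ℕ, 2 ≤ X →
    (((pr X).filter (fun p : ℕ => (p : ℝ) / Real.log p ^ E <
      |∑ q ∈ qr p, Real.log q * hurwitz (4 * (p - q ^ 2)) - Real.pi ^ 2 / 12 * p * SS p|)).card : ℝ) ≤
      C * X / Real.log X ^ A := by
  obtain ⟨C₁, _, hF⟩ := F_hurwitz
  obtain ⟨p₀, hp₀⟩ := FINb_ev C₁ E
  obtain ⟨C, hC, h⟩ := almost_all' A (E + 1)
  obtain ⟨c, hc⟩ : ∃ c : ℝ, 0 ≤ c ∧ ∀ X : ℕ, 2 ≤ X → Real.log X ^ A ≤ c * X := by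
    refine ⟨(A.factorial : ℝ), by positivity, fun X hX => ?_⟩
    have hX0 : (0 : ℝ) < X := by positivity
    have h1 : 0 ≤ Real.log X := Real.log_natCast_nonneg X
    have h2 := Real.pow_div_factorial_le_exp (Real.log X) h1 A
    rw [Real.exp_log hX0, div_le_iff₀ (by positivity)] at h2
    linarith
  refine ⟨C + (p₀ + 1 : ℕ) * c, fun X hX => ?_⟩
  have hlog : 0 < Real.log X := Real.log_pos (by exact_mod_cast (by omega : 1 < X))
  have hsub : (pr X).filter (fun p : ℕ => (p : ℝ) / Real.log p ^ E <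
      |∑ q ∈ qr p, Real.log q * hurwitz (4 * (p - q ^ 2)) - Real.pi ^ 2 / 12 * p * SS p|) ⊆
      (pr X).filter (fun p : ℕ => (p : ℝ) / Real.log p ^ (E + 1) < |F p - Real.pi ^ 2 / 12 * p * SS p|) ∪
        range (p₀ + 1) := by
    intro p hp
    rw [Finset.mem_filter] at hp
    rw [Finset.mem_union]
    by_cases hpp : p₀ + 1 ≤ p
    · left
      rw [Finset.mem_filter]
      refine ⟨hp.1, ?_⟩
      obtain ⟨hl, hsm⟩ := hp₀ p (by omega)
      have h1 := hF p (by omega)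
      have hp0 : (0 : ℝ) < p := by exact_mod_cast (by omega : 0 < p)
      have hlE : 0 < Real.log p ^ E := by positivity
      have h2 : (p : ℝ) / Real.log p ^ (E + 1) ≤ (p : ℝ) / Real.log p ^ E / 2 := by
        rw [div_div]
        refine div_le_div_of_nonneg_left hp0.le (by positivity) ?_
        rw [pow_succ]
        exact mul_le_mul_of_nonneg_left hl hlE.le
      have h3 := abs_sub_abs_le_abs_sub
        (∑ q ∈ qr p, Real.log q * hurwitz (4 * (p - q ^ 2)) - Real.pi ^ 2 / 12 * p * SS p)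
        (F p - Real.pi ^ 2 / 12 * p * SS p)
      rw [sub_sub_sub_cancel_right] at h3
      linarith [hp.2]
    · right
      rw [Finset.mem_range]
      omega
  have hcard := (Finset.card_le_card hsub).trans (Finset.card_union_le _ _)
  rw [Finset.card_range] at hcard
  have hcard' : (((pr X).filter (fun p : ℕ => (p : ℝ) / Real.log p ^ E <
      |∑ q ∈ qr p, Real.log q * hurwitz (4 * (p - q ^ 2)) - Real.pi ^ 2 / 12 * p * SS p|)).card : ℝ) ≤
      (((pr X).filter (fun p : ℕ => (p : ℝ) / Real.log p ^ (E + 1) <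
        |F p - Real.pi ^ 2 / 12 * p * SS p|)).card : ℝ) + (p₀ + 1 : ℕ) := by
    exact_mod_cast hcard
  refine hcard'.trans ?_
  have h3 := h X hX
  have h4 : ((p₀ + 1 : ℕ) : ℝ) ≤ (p₀ + 1 : ℕ) * c * X / Real.log X ^ A := by
    rw [le_div_iff₀ (by positivity)]
    have := hc.2 X hX
    have h5 : (0 : ℝ) ≤ ((p₀ + 1 : ℕ) : ℝ) := by positivity
    nlinarith
  calc _ ≤ C * X / Real.log X ^ A + (p₀ + 1 : ℕ) * c * X / Real.log X ^ A := add_le_add h3 h4
    _ = (C + (p₀ + 1 : ℕ) * c) * X / Real.log X ^ A := by ring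

end Pool.Agent.HAE
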