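import Pool.Agent.HAE.Defs

/-!
# HAE-FOU: the Fourier expansion of `FN`

PROOF.  For `a ≥ 1`, `1_{a ∣ m} = (1/a) ∑_{b < a} ee (b m / a) = (1/a) ∑_{d ∣ a} ∑_{h < d, (h,d) = 1} ee (h m / d)`; use it with
`m = n - q² + k²`, and exchange the sums (`d ∣ a ≤ QQ N`).
-/

set_option autoImplicit false

open Finset Filter Topology
open Pool.Agent.HAV
open Pool.Agent.helper66.VK (ee)

namespace Pool.Agent.HAE

private theorem FOU_ee_one {t : ℝ} (h : ee t = 1) : ∃ n : ℤ, t = n := by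
  unfold Pool.Agent.helper66.VK.ee at h
  rw [Complex.exp_eq_one_iff] at h
  obtain ⟨n, hn⟩ := h
  refine ⟨n, ?_⟩
  have h1 : (2 * (Real.pi : ℂ) * Complex.I) ≠ 0 := Complex.two_pi_I_ne_zero
  have h2 : ((t : ℂ) - n) * (2 * (Real.pi : ℂ) * Complex.I) = 0 := by
    linear_combination hn
  have h3 : (t : ℂ) - n = 0 := (mul_eq_zero.mp h2).resolve_right h1
  have h4 : (t : ℂ) = ((n : ℝ) : ℂ) := by
    push_cast
    exact sub_eq_zero.mp h3
  exact_mod_cast h4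

private theorem FOU_geom (a : ℕ) (ha : 1 ≤ a) (m : ℤ) :
    ∑ b ∈ range a, ee ((m : ℝ) * ((b : ℝ) / a)) = if (a : ℤ) ∣ m then (a : ℂ) else 0 := by
  have ha0 : (a : ℝ) ≠ 0 := by positivity
  have h1 : ∀ b : ℕ, ee ((m : ℝ) * ((b : ℝ) / a)) = ee ((m : ℝ) / a) ^ b := fun b => by
    rw [← Pool.Agent.helper66.VK.ee_nat_mul]
    congr 1
    ring
  rw [sum_congr rfl (fun b _ => h1 b)]
  split_ifs with h
  · obtain ⟨c, rfl⟩ := h
    have h2 : ((((a : ℤ) * c : ℤ) : ℝ) / a) = (c : ℤ) := by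
      push_cast
      field_simp
    rw [h2, Pool.Agent.helper66.VK.ee_int]
    simp
  · have hz : ee ((m : ℝ) / a) ≠ 1 := fun h2 => by
      obtain ⟨c, hc⟩ := FOU_ee_one h2
      apply h
      refine ⟨c, ?_⟩
      have h3 : (m : ℝ) = (a : ℝ) * c := by
        rw [← hc]
        field_simp
      exact_mod_cast h3
    have h3 : ee ((m : ℝ) / a) ^ a = 1 := by
      rw [← Pool.Agent.helper66.VK.ee_nat_mul]
      have h4 : (a : ℝ) * ((m : ℝ) / a) = m := by field_simp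
      rw [h4, Pool.Agent.helper66.VK.ee_int]
    rw [geom_sum_eq hz, h3, sub_self, zero_div]

private theorem FOU_reduce (a : ℕ) (ha : 1 ≤ a) (f : ℝ → ℂ) :
    ∑ d ∈ a.divisors, ∑ h ∈ (range d).filter (Nat.Coprime d), f ((h : ℝ) / d) =
      ∑ b ∈ range a, f ((b : ℝ) / a) := by
  rw [Finset.sum_sigma']
  have ha0 : 0 < a := ha
  refine Finset.sum_bij' (fun x _ => x.2 * (a / x.1))
    (fun b _ => ⟨a / Nat.gcd a b, b / Nat.gcd a b⟩) ?_ ?_ ?_ ?_ ?_
  · rintro ⟨d, h⟩ hx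
    simp only [Finset.mem_sigma, Nat.mem_divisors, Finset.mem_filter, Finset.mem_range] at hx ⊢
    obtain ⟨⟨hd, _⟩, hh, _⟩ := hx
    have hdp : 0 < d := Nat.pos_of_dvd_of_pos hd ha0
    have hq : 0 < a / d := Nat.div_pos (Nat.le_of_dvd ha0 hd) hdp
    calc h * (a / d) < d * (a / d) := Nat.mul_lt_mul_of_pos_right hh hq
      _ = a := Nat.mul_div_cancel' hd
  · intro b hb
    simp only [Finset.mem_sigma, Nat.mem_divisors, Finset.mem_filter, Finset.mem_range] at hb ⊢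
    have hg : 0 < Nat.gcd a b := Nat.gcd_pos_of_pos_left b ha0
    refine ⟨⟨Nat.div_dvd_of_dvd (Nat.gcd_dvd_left a b), ha0.ne'⟩, ?_, ?_⟩
    · exact Nat.div_lt_div_of_lt_of_dvd (Nat.gcd_dvd_left a b) hb
    · exact Nat.coprime_div_gcd_div_gcd hg
  · rintro ⟨d, h⟩ hx
    simp only [Finset.mem_sigma, Nat.mem_divisors, Finset.mem_filter, Finset.mem_range] at hx
    obtain ⟨⟨hd, _⟩, hh, hc⟩ := hx
    have hdp : 0 < d := Nat.pos_of_dvd_of_pos hd ha0
    have hq : 0 < a / d := Nat.div_pos (Nat.le_of_dvd ha0 hd) hdp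
    have hg : Nat.gcd a (h * (a / d)) = a / d := by
      conv_lhs => rw [← Nat.mul_div_cancel' hd]
      rw [Nat.mul_div_cancel' hd]
      have h1 : Nat.gcd (d * (a / d)) (h * (a / d)) = Nat.gcd d h * (a / d) :=
        Nat.gcd_mul_right d (a / d) h
      rw [Nat.mul_div_cancel' hd, hc.gcd_eq_one, one_mul] at h1
      exact h1
    simp only [hg]
    have h1 : a / (a / d) = d := Nat.div_div_self hd ha0.ne'
    have h2 : h * (a / d) / (a / d) = h := Nat.mul_div_cancel h hq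
    rw [h1, h2]
  · intro b hb
    simp only [Finset.mem_range] at hb
    have hg : 0 < Nat.gcd a b := Nat.gcd_pos_of_pos_left b ha0
    have h1 : a / (a / Nat.gcd a b) = Nat.gcd a b :=
      Nat.div_div_self (Nat.gcd_dvd_left a b) ha0.ne'
    simp only [h1]
    exact Nat.div_mul_cancel (Nat.gcd_dvd_right a b)
  · rintro ⟨d, h⟩ hx
    simp only [Finset.mem_sigma, Nat.mem_divisors, Finset.mem_filter, Finset.mem_range] at hx
    obtain ⟨⟨hd, _⟩, hh, hc⟩ := hx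
    have hdp : 0 < d := Nat.pos_of_dvd_of_pos hd ha0
    obtain ⟨e, rfl⟩ := hd
    have he : 0 < e := Nat.pos_of_mul_pos_left ha0 |> fun h => by
      rcases Nat.eq_zero_or_pos e with h0 | h0
      · subst h0; simp at ha0
      · exact h0
    have h1 : d * e / d = e := Nat.mul_div_cancel_left e hdp
    simp only [h1]
    congr 1
    have hd' : (d : ℝ) ≠ 0 := by positivity
    have he' : (e : ℝ) ≠ 0 := by positivity
    push_cast
    field_simp

private theorem FOU_ind (a : ℕ) (ha : 1 ≤ a) (m : ℤ) : (if (a : ℤ) ∣ m then (1 : ℂ) else 0) =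
    (1 / (a : ℂ)) * ∑ d ∈ a.divisors, ∑ h ∈ (range d).filter (Nat.Coprime d),
      ee ((m : ℝ) * ((h : ℝ) / d)) := by
  rw [FOU_reduce a ha (fun x => ee ((m : ℝ) * x)), FOU_geom a ha m]
  have ha0 : (a : ℂ) ≠ 0 := by
    have : a ≠ 0 := by omega
    exact_mod_cast this
  split_ifs
  · field_simp
  · simp

private theorem FOU_term (a : ℕ) (ha : 1 ≤ a) (N n q : ℕ) :
    ((((Reg N a q).filter (fun k => (a : ℤ) ∣ (n : ℤ) - (q : ℤ) ^ 2 + k ^ 2)).card : ℝ) : ℂ) =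
      (1 / (a : ℂ)) * ∑ d ∈ a.divisors, ∑ h ∈ (range d).filter (Nat.Coprime d),
        (∑ k ∈ Reg N a q, ee (-((h : ℝ) * ((q : ℝ) ^ 2 - (k : ℝ) ^ 2) / d))) *
          ee ((n : ℝ) * ((h : ℝ) / d)) := by
  have h0 : ∀ k : ℤ, (((if (a : ℤ) ∣ (n : ℤ) - (q : ℤ) ^ 2 + k ^ 2 then 1 else 0 : ℕ) : ℝ) : ℂ) =
      (1 / (a : ℂ)) * ∑ d ∈ a.divisors, ∑ h ∈ (range d).filter (Nat.Coprime d),
        ee ((((n : ℤ) - (q : ℤ) ^ 2 + k ^ 2 : ℤ) : ℝ) * ((h : ℝ) / d)) := fun k => by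
    rw [← FOU_ind a ha _]
    split_ifs <;> simp
  rw [Finset.card_filter, Nat.cast_sum, Complex.ofReal_sum, sum_congr rfl (fun k _ => h0 k),
    ← mul_sum]
  congr 1
  rw [sum_comm]
  refine sum_congr rfl fun d _ => ?_
  rw [sum_comm]
  refine sum_congr rfl fun h _ => ?_
  rw [sum_mul]
  refine sum_congr rfl fun k _ => ?_
  rw [← Pool.Agent.helper66.VK.ee_add]
  congr 1
  push_cast
  ring

theorem fourier (N n : ℕ) : (FN N n : ℂ) = ∑ d ∈ Icc 1 (QQ N), ∑ h ∈ (range d).filter (Nat.Coprime d),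
    c N d h * ee ((n : ℝ) * ((h : ℝ) / d)) := by
  have h1 : (FN N n : ℂ) = ∑ a ∈ Icc 1 (QQ N), ∑ d ∈ a.divisors,
      ∑ h ∈ (range d).filter (Nat.Coprime d), (1 / (a : ℂ)) * (∑ q ∈ pr (Nat.sqrt N),
        ((Real.log q : ℝ) : ℂ) * ∑ k ∈ Reg N a q, ee (-((h : ℝ) * ((q : ℝ) ^ 2 - (k : ℝ) ^ 2) / d))) *
          ee ((n : ℝ) * ((h : ℝ) / d)) := by
    unfold FN
    push_cast
    rw [sum_congr rfl (fun q _ => mul_sum _ _ _), sum_comm]
    refine sum_congr rfl fun a ha => ?_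
    have ha1 : 1 ≤ a := (Finset.mem_Icc.mp ha).1
    have h2 : ∀ q ∈ pr (Nat.sqrt N), ((Real.log q : ℝ) : ℂ) *
        ((((Reg N a q).filter (fun k => (a : ℤ) ∣ (n : ℤ) - (q : ℤ) ^ 2 + k ^ 2)).card : ℝ) : ℂ) =
        ∑ d ∈ a.divisors, ∑ h ∈ (range d).filter (Nat.Coprime d), (1 / (a : ℂ)) *
          (((Real.log q : ℝ) : ℂ) * ∑ k ∈ Reg N a q,
            ee (-((h : ℝ) * ((q : ℝ) ^ 2 - (k : ℝ) ^ 2) / d))) * ee ((n : ℝ) * ((h : ℝ) / d)) := by
      intro q _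
      rw [FOU_term a ha1, mul_sum, mul_sum]
      refine sum_congr rfl fun d _ => ?_
      rw [mul_sum, mul_sum]
      refine sum_congr rfl fun h _ => ?_
      ring
    push_cast at h2
    rw [sum_congr rfl h2, sum_comm]
    refine sum_congr rfl fun d _ => ?_
    rw [sum_comm]
    refine sum_congr rfl fun h _ => ?_
    rw [mul_sum, sum_mul]
  rw [h1, Finset.sum_comm' (s' := fun d => (Icc 1 (QQ N)).filter (fun a => d ∣ a))
    (t' := Icc 1 (QQ N))]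
  · refine sum_congr rfl fun d _ => ?_
    rw [sum_comm]
    refine sum_congr rfl fun h _ => ?_
    unfold c
    rw [sum_mul]
  · intro a d
    simp only [Finset.mem_Icc, Nat.mem_divisors, Finset.mem_filter]
    constructor
    · rintro ⟨⟨h2, h3⟩, h4, _⟩
      exact ⟨⟨⟨h2, h3⟩, h4⟩, Nat.pos_of_dvd_of_pos h4 h2, (Nat.le_of_dvd h2 h4).trans h3⟩
    · rintro ⟨⟨⟨h2, h3⟩, h4⟩, _⟩
      exact ⟨⟨h2, h3⟩, h4, by omega⟩

end Pool.Agent.HAE
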