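import Pool.Agent.HAE.Defs
import Pool.Agent.helper73.BV.PV

/-!
# HAE-GS1: incomplete quadratic Gauss sums

PROOF (Weyl differencing).  It is enough to treat `v - u ≤ d` (split into at most `(v-u)/d + 1` pieces).  Then
`‖∑_k‖² ≤ 2 ∑_{0 ≤ l < d} ‖∑_{k < L - l} ee (2 h l k/d)‖`, every inner sum is at most `GS1_f d ((2 h l) % d)` (geometric sum).
As `l` runs over a complete system modulo `d` the class of `2 h l` takes every value at most twice, so the sum is
`≤ 4 d (1 + log d)`.  Hence `‖∑_k‖² ≤ 8 d (1 + log d)` and `‖∑_k‖ ≤ 3 √d (1 + log d)`.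
-/

set_option autoImplicit false

open Finset Filter Topology
open Pool.Agent.HAV
open Pool.Agent.helper66.VK (ee)

namespace Pool.Agent.HAE

open Pool.Agent.helper66.VK in
/-- the square of the norm of a sum -/
theorem GS1_sq (z : ℕ → ℂ) (L : ℕ) :
    ‖∑ i ∈ range L, z i‖ ^ 2 ≤
      2 * (∑ i ∈ range L, ∑ i' ∈ range (i + 1), z i * (starRingEnd ℂ) (z i')).re := by
  induction L with
  | zero => simp
  | succ L ih =>
    rw [Finset.sum_range_succ (fun i => z i), Finset.sum_range_succ]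
    set S := ∑ i ∈ range L, z i with hS
    set P := ∑ i ∈ range L, ∑ i' ∈ range (i + 1), z i * (starRingEnd ℂ) (z i') with hP
    have h1 : ∑ i' ∈ range (L + 1), z L * (starRingEnd ℂ) (z i') =
        z L * (starRingEnd ℂ) (S + z L) := by
      rw [← Finset.mul_sum, ← map_sum, Finset.sum_range_succ]
    rw [h1]
    rw [← Complex.normSq_eq_norm_sq] at ih ⊢
    rw [Complex.normSq_add]
    have h2 : (z L * (starRingEnd ℂ) (S + z L)).re =
        (S * (starRingEnd ℂ) (z L)).re + Complex.normSq (z L) := by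
      rw [Complex.normSq_apply]
      simp only [map_add, Complex.mul_re, Complex.add_re, Complex.add_im, Complex.conj_re,
        Complex.conj_im]
      ring
    have h3 : 0 ≤ Complex.normSq (z L) := Complex.normSq_nonneg _
    rw [Complex.add_re, h2]
    linarith

/-- Weyl differencing -/
theorem GS1_weyl (z : ℕ → ℂ) (L : ℕ) (B : ℕ → ℝ)
    (hB : ∀ l < L, ‖∑ k ∈ range (L - l), z (l + k) * (starRingEnd ℂ) (z k)‖ ≤ B l) :
    ‖∑ i ∈ range L, z i‖ ^ 2 ≤ 2 * ∑ l ∈ range L, B l := by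
  have h1 : ∑ i ∈ range L, ∑ i' ∈ range (i + 1), z i * (starRingEnd ℂ) (z i') =
      ∑ l ∈ range L, ∑ k ∈ range (L - l), z (l + k) * (starRingEnd ℂ) (z k) := by
    rw [← Finset.sum_range_diag_flip L (fun l k => z (l + k) * (starRingEnd ℂ) (z k))]
    refine Finset.sum_congr rfl fun i _ => ?_
    rw [← Finset.sum_range_reflect]
    refine Finset.sum_congr rfl fun l hl => ?_
    have hl' := Finset.mem_range.1 hl
    have e1 : l + (i - l) = i := by omega
    have e2 : i + 1 - 1 - l = i - l := by omega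
    rw [e1, e2]
  have h2 := GS1_sq z L
  rw [h1] at h2
  refine h2.trans ?_
  have h3 : (∑ l ∈ range L, ∑ k ∈ range (L - l), z (l + k) * (starRingEnd ℂ) (z k)).re ≤
      ∑ l ∈ range L, B l := by
    refine (Complex.re_le_norm _).trans ((norm_sum_le _ _).trans ?_)
    exact Finset.sum_le_sum fun l hl => hB l (Finset.mem_range.1 hl)
  linarith

/-- bound of a geometric sum with ratio `e(r/d)` -/
noncomputable def GS1_f (d r : ℕ) : ℝ :=
  if r = 0 then (d : ℝ) else (d : ℝ) / 2 * (1 / r + 1 / ((d : ℝ) - r))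

theorem GS1_f_nonneg {d r : ℕ} (h : r < d) : 0 ≤ GS1_f d r := by
  unfold GS1_f
  have h1 : (0 : ℝ) < (d : ℝ) - r := by
    have : (r : ℝ) < d := by exact_mod_cast h
    linarith
  split_ifs
  · positivity
  · positivity

theorem GS1_shift (θ : ℝ) (M : ℕ) :
    ∑ n ∈ Ioc 0 M, ee (n * θ) = ee θ * ∑ k ∈ range M, ee (k * θ) := by
  induction M with
  | zero => simp
  | succ M ih =>
    rw [Finset.sum_Ioc_succ_top (by omega), Finset.sum_range_succ, mul_add, ih]
    congr 1
    rw [← Pool.Agent.helper66.VK.ee_add]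
    congr 1
    push_cast
    ring

theorem GS1_geom {d : ℕ} (hd : 1 ≤ d) (m : ℕ) {M : ℕ} (hM : M ≤ d) :
    ‖∑ k ∈ range M, ee (k * ((m : ℝ) / d))‖ ≤ GS1_f d (m % d) := by
  have hd0 : (0 : ℝ) < d := by exact_mod_cast hd
  have hper : ∀ k : ℕ, ee (k * ((m : ℝ) / d)) = ee (k * (((m % d : ℕ) : ℝ) / d)) := by
    intro k
    have h1 : (m : ℝ) = ((m % d : ℕ) : ℝ) + d * ((m / d : ℕ) : ℝ) := by
      have := Nat.mod_add_div m d
      exact_mod_cast this.symm
    have h2 : (k : ℝ) * ((m : ℝ) / d) =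
        k * (((m % d : ℕ) : ℝ) / d) + (((k * (m / d) : ℕ) : ℤ) : ℝ) := by
      rw [h1]
      generalize m / d = q
      generalize m % d = r
      push_cast
      field_simp
    rw [h2, Pool.Agent.helper66.VK.ee_add, Pool.Agent.helper66.VK.ee_int, mul_one]
  rw [Finset.sum_congr rfl fun k _ => hper k]
  have hlt : m % d < d := Nat.mod_lt _ (by omega)
  unfold GS1_f
  split_ifs with h0
  · rw [h0]
    refine (norm_sum_le _ _).trans ?_
    simp only [Pool.Agent.helper66.VK.norm_ee, Finset.sum_const, Finset.card_range,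
      nsmul_eq_mul, mul_one]
    exact_mod_cast hM
  · have h1 := BVM.geom_bound d (m % d) 0 M (Nat.pos_of_ne_zero h0) hlt
    rw [GS1_shift, norm_mul, Pool.Agent.helper66.VK.norm_ee, one_mul] at h1
    exact h1

theorem GS1_sum_f {d : ℕ} (hd : 1 ≤ d) : ∑ r ∈ range d, GS1_f d r ≤ 2 * d * (1 + Real.log d) := by
  have hd0 : (1 : ℝ) ≤ d := by exact_mod_cast hd
  have hlog : 0 ≤ Real.log d := Real.log_nonneg hd0
  obtain ⟨e, rfl⟩ : ∃ e, d = e + 1 := ⟨d - 1, by omega⟩
  rw [Finset.sum_range_succ']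
  have h0 : GS1_f (e + 1) 0 = ((e + 1 : ℕ) : ℝ) := by simp [GS1_f]
  rw [h0]
  have h1 : ∑ j ∈ range e, GS1_f (e + 1) (j + 1) ≤ ((e + 1 : ℕ) : ℝ) * (1 + Real.log ((e + 1 : ℕ) : ℝ)) := by
    rcases Nat.eq_zero_or_pos e with he | he
    · subst he
      simp only [Finset.range_zero, Finset.sum_empty]
      positivity
    · have h2 := BVM.PV_harm (e + 1) (by omega)
      have h3 : e + 1 - 1 = e := by omega
      rw [h3] at h2
      refine le_trans (le_of_eq ?_) h2
      refine Finset.sum_congr rfl fun j _ => ?_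
      unfold GS1_f
      rw [if_neg (by omega)]
  nlinarith

theorem GS1_perm {d h : ℕ} (hd : 1 ≤ d) (hh : Nat.Coprime d h) (g : ℕ → ℝ) :
    ∑ l ∈ range d, g ((h * l) % d) = ∑ l ∈ range d, g l := by
  have hinj : Set.InjOn (fun l => (h * l) % d) (range d : Set ℕ) := by
    intro a ha b hb hab
    simp only [coe_range, Set.mem_Iio] at ha hb
    have h1 : h * a ≡ h * b [MOD d] := hab
    have h2 : a ≡ b [MOD d] := Nat.ModEq.cancel_left_of_coprime hh h1
    have h3 : a % d = b % d := h2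
    rwa [Nat.mod_eq_of_lt ha, Nat.mod_eq_of_lt hb] at h3
  have himg : (range d).image (fun l => (h * l) % d) = range d := by
    apply Finset.eq_of_subset_of_card_le
    · intro x hx
      rw [Finset.mem_image] at hx
      obtain ⟨a, _, rfl⟩ := hx
      exact Finset.mem_range.2 (Nat.mod_lt _ (by omega))
    · rw [Finset.card_image_of_injOn hinj]
  conv_rhs => rw [← himg]
  rw [Finset.sum_image hinj]

theorem GS1_double {d : ℕ} (g : ℕ → ℝ) (hg : ∀ r < d, 0 ≤ g r) (hd : 1 ≤ d) :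
    ∑ l ∈ range d, g ((2 * l) % d) ≤ 2 * ∑ l ∈ range d, g l := by
  have h1 : ∑ l ∈ range d, g ((2 * l) % d) ≤ ∑ m ∈ range (d + d), g (m % d) := by
    have hinj : Set.InjOn (fun l : ℕ => 2 * l) (range d : Set ℕ) := fun a _ b _ hab => by
      simp only at hab
      omega
    have : ∑ l ∈ range d, g ((2 * l) % d) = ∑ m ∈ (range d).image (fun l => 2 * l), g (m % d) := by
      rw [Finset.sum_image hinj]
    rw [this]
    refine Finset.sum_le_sum_of_subset_of_nonneg ?_ fun m _ _ => hg _ (Nat.mod_lt _ (by omega))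
    intro x hx
    rw [Finset.mem_image] at hx
    obtain ⟨a, ha, rfl⟩ := hx
    rw [Finset.mem_range] at ha ⊢
    omega
  refine h1.trans (le_of_eq ?_)
  rw [Finset.sum_range_add]
  have h2 : ∑ x ∈ range d, g (x % d) = ∑ l ∈ range d, g l :=
    Finset.sum_congr rfl fun x hx => by rw [Nat.mod_eq_of_lt (Finset.mem_range.1 hx)]
  have h3 : ∑ x ∈ range d, g ((d + x) % d) = ∑ l ∈ range d, g l :=
    Finset.sum_congr rfl fun x hx => by
      rw [Nat.add_mod_left, Nat.mod_eq_of_lt (Finset.mem_range.1 hx)]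
  rw [h2, h3]
  ring

/-- short intervals -/
theorem GS1_short {d h : ℕ} (hd : 1 ≤ d) (hh : Nat.Coprime d h) (u : ℤ) {L : ℕ} (hL : L ≤ d) :
    ‖∑ i ∈ range L, ee ((h : ℝ) * (((u + i : ℤ)) : ℝ) ^ 2 / d)‖ ≤
      3 * Real.sqrt d * (1 + Real.log d) := by
  have hd0 : (1 : ℝ) ≤ d := by exact_mod_cast hd
  have hd1 : (0 : ℝ) < d := by linarith
  have hlog : 0 ≤ Real.log d := Real.log_nonneg hd0
  have hW := GS1_weyl (fun i => ee ((h : ℝ) * (((u + i : ℤ)) : ℝ) ^ 2 / d)) L
    (fun l => GS1_f d ((2 * (h * l)) % d)) (by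
      intro l _
      have h1 : ∀ k : ℕ, ee ((h : ℝ) * (((u + (l + k : ℕ) : ℤ)) : ℝ) ^ 2 / d) *
          (starRingEnd ℂ) (ee ((h : ℝ) * (((u + k : ℤ)) : ℝ) ^ 2 / d)) =
          ee ((h : ℝ) * ((l : ℝ) ^ 2 + 2 * l * u) / d) * ee (k * (((2 * (h * l) : ℕ) : ℝ) / d)) := by
        intro k
        rw [Pool.Agent.helper66.VK.conj_ee, ← Pool.Agent.helper66.VK.ee_add,
          ← Pool.Agent.helper66.VK.ee_add]
        congr 1
        push_cast
        field_simp
        ring
      rw [Finset.sum_congr rfl fun k _ => h1 k, ← Finset.mul_sum, norm_mul,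
        Pool.Agent.helper66.VK.norm_ee, one_mul]
      exact GS1_geom hd _ (by omega))
  have hS1 : ∑ l ∈ range L, GS1_f d ((2 * (h * l)) % d) ≤
      ∑ l ∈ range d, GS1_f d ((2 * (h * l)) % d) :=
    Finset.sum_le_sum_of_subset_of_nonneg (Finset.range_subset_range.2 hL) fun l _ _ =>
      GS1_f_nonneg (Nat.mod_lt _ (by omega))
  have hS2 : ∑ l ∈ range d, GS1_f d ((2 * (h * l)) % d) =
      ∑ l ∈ range d, GS1_f d ((2 * l) % d) := by
    rw [← GS1_perm hd hh (fun x => GS1_f d ((2 * x) % d))]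
    refine Finset.sum_congr rfl fun l _ => ?_
    congr 1
    rw [Nat.mul_mod 2 ((h * l) % d) d, Nat.mod_mod, ← Nat.mul_mod]
  have hS3 := GS1_double (GS1_f d) (fun r hr => GS1_f_nonneg hr) hd
  have hS4 := GS1_sum_f hd
  have hsq : ‖∑ i ∈ range L, ee ((h : ℝ) * (((u + i : ℤ)) : ℝ) ^ 2 / d)‖ ^ 2 ≤
      (3 * Real.sqrt d * (1 + Real.log d)) ^ 2 := by
    have h5 : (3 * Real.sqrt d * (1 + Real.log d)) ^ 2 = 9 * d * (1 + Real.log d) ^ 2 := by
      rw [mul_pow, mul_pow, Real.sq_sqrt hd1.le]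
      norm_num
    rw [h5]
    have h6 : ‖∑ i ∈ range L, ee ((h : ℝ) * (((u + i : ℤ)) : ℝ) ^ 2 / d)‖ ^ 2 ≤
        8 * (d * (1 + Real.log d)) := by
      refine hW.trans ?_
      linarith
    refine h6.trans ?_
    have h7 : (d : ℝ) * (1 + Real.log d) ≤ d * (1 + Real.log d) ^ 2 := by
      apply mul_le_mul_of_nonneg_left _ hd1.le
      nlinarith
    have h8 : 0 ≤ (d : ℝ) * (1 + Real.log d) ^ 2 := by positivity
    nlinarith
  exact le_of_sq_le_sq hsq (by positivity)

theorem GS1_range (f : ℤ → ℂ) (u : ℤ) (L : ℕ) :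
    ∑ k ∈ Ico u (u + L), f k = ∑ i ∈ range L, f (u + i) := by
  induction L with
  | zero => simp
  | succ L ih =>
    rw [Finset.sum_range_succ, ← ih]
    have h1 : Ico u (u + ((L + 1 : ℕ) : ℤ)) = insert (u + (L : ℤ)) (Ico u (u + L)) := by
      ext x
      simp only [Finset.mem_Ico, Finset.mem_insert]
      push_cast
      omega
    rw [h1, Finset.sum_insert (by simp), add_comm]

theorem GS1_split (f : ℤ → ℂ) {u w v : ℤ} (h1 : u ≤ w) (h2 : w ≤ v) :
    ∑ k ∈ Ico u v, f k = ∑ k ∈ Ico u w, f k + ∑ k ∈ Ico w v, f k := by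
  rw [← Finset.sum_union]
  · congr 1
    ext x
    simp only [Finset.mem_Ico, Finset.mem_union]
    omega
  · rw [Finset.disjoint_left]
    intro x hx hx'
    rw [Finset.mem_Ico] at hx hx'
    omega

theorem GS1_many {d h : ℕ} (hd : 1 ≤ d) (hh : Nat.Coprime d h) (m : ℕ) : ∀ u v : ℤ, u ≤ v →
    v - u ≤ m * d → ‖∑ k ∈ Ico u v, ee ((h : ℝ) * (k : ℝ) ^ 2 / d)‖ ≤
      m * (3 * Real.sqrt d * (1 + Real.log d)) := by
  have hd0 : (1 : ℝ) ≤ d := by exact_mod_cast hd
  have hlog : 0 ≤ Real.log d := Real.log_nonneg hd0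
  have hshort : ∀ u v : ℤ, u ≤ v → v - u ≤ d →
      ‖∑ k ∈ Ico u v, ee ((h : ℝ) * (k : ℝ) ^ 2 / d)‖ ≤ 3 * Real.sqrt d * (1 + Real.log d) := by
    intro u v huv hvd
    obtain ⟨L, hL⟩ : ∃ L : ℕ, v = u + L := ⟨(v - u).toNat, by
      rw [Int.toNat_of_nonneg (by linarith)]
      ring⟩
    rw [hL, GS1_range (fun k => ee ((h : ℝ) * (k : ℝ) ^ 2 / d)) u L]
    exact GS1_short hd hh u (by rw [hL] at hvd; omega)
  induction m with
  | zero =>
    intro u v huv hvu
    have : v = u := by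
      push_cast at hvu
      linarith
    rw [this]
    simp
  | succ m ih =>
    intro u v huv hvu
    have hB : 0 ≤ 3 * Real.sqrt d * (1 + Real.log d) := by positivity
    rcases le_or_gt (v - u) d with h1 | h1
    · refine (hshort u v huv h1).trans ?_
      push_cast
      have : 0 ≤ (m : ℝ) * (3 * Real.sqrt d * (1 + Real.log d)) := by positivity
      linarith
    · rw [GS1_split _ (show u ≤ u + d by linarith [Int.natCast_nonneg d]) (show u + d ≤ v by linarith)]
      refine (norm_add_le _ _).trans ?_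
      have h2 := hshort u (u + d) (by linarith [Int.natCast_nonneg d]) (by linarith)
      have h3 := ih (u + d) v (by linarith) (by push_cast at hvu; linarith)
      push_cast
      linarith

theorem gs1 : ∃ C : ℝ, 0 ≤ C ∧ ∀ d h : ℕ, 1 ≤ d → Nat.Coprime d h → ∀ u v : ℤ, u ≤ v →
    ‖∑ k ∈ Ico u v, ee ((h : ℝ) * (k : ℝ) ^ 2 / d)‖ ≤
      C * (((v - u : ℤ) : ℝ) / d + 1) * Real.sqrt d * (1 + Real.log d) := by
  refine ⟨3, by norm_num, fun d h hd hh u v huv => ?_⟩
  have hd0 : (1 : ℝ) ≤ d := by exact_mod_cast hd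
  have hd1 : (0 : ℝ) < d := by linarith
  have hlog : 0 ≤ Real.log d := Real.log_nonneg hd0
  have hdz : (0 : ℤ) < d := by exact_mod_cast hd
  set m : ℕ := ((v - u) / d).toNat + 1 with hm
  have hq : 0 ≤ (v - u) / (d : ℤ) := Int.ediv_nonneg (by linarith) hdz.le
  have hmz : (m : ℤ) = (v - u) / d + 1 := by
    rw [hm]
    push_cast
    rw [Int.toNat_of_nonneg hq]
  have h1 : v - u ≤ m * d := by
    rw [hmz]
    have := Int.lt_ediv_add_one_mul_self (v - u) hdz
    linarith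
  have h2 := GS1_many hd hh m u v huv h1
  have h3 : (m : ℝ) ≤ ((v - u : ℤ) : ℝ) / d + 1 := by
    have h4 : (m : ℝ) = (((v - u) / d : ℤ) : ℝ) + 1 := by
      have : ((m : ℤ) : ℝ) = (((v - u) / d + 1 : ℤ) : ℝ) := by rw [hmz]
      push_cast at this ⊢
      exact this
    rw [h4]
    have h5 : (((v - u) / d : ℤ) : ℝ) ≤ ((v - u : ℤ) : ℝ) / d := by
      rw [le_div_iff₀ hd1]
      have := Int.ediv_mul_le (v - u) hdz.ne'
      exact_mod_cast this
    linarith
  refine h2.trans ?_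
  have h6 : 0 ≤ 3 * Real.sqrt d * (1 + Real.log d) := by positivity
  calc (m : ℝ) * (3 * Real.sqrt d * (1 + Real.log d))
      ≤ (((v - u : ℤ) : ℝ) / d + 1) * (3 * Real.sqrt d * (1 + Real.log d)) :=
        mul_le_mul_of_nonneg_right h3 h6
    _ = 3 * (((v - u : ℤ) : ℝ) / d + 1) * Real.sqrt d * (1 + Real.log d) := by ring

end Pool.Agent.HAE
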