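import Pool.Agent.HAE.Defs

/-!
# HAE-GS2: long intervals

PROOF.  `k ↦ ee (h k²/d)` has period `d`.  `v - u = q d + r`, `0 ≤ r < d`: the sum over `q` complete periods is `q * GG d h`, the rest has
`r ≤ d` terms, and `‖(r/d) GG d h‖ ≤ r ≤ d`.
-/

set_option autoImplicit false

open Finset Filter Topology
open Pool.Agent.HAV
open Pool.Agent.helper66.VK (ee)

namespace Pool.Agent.HAE

theorem norm_GG_le (d h : ℕ) : ‖GG d h‖ ≤ d := by
  unfold GG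
  refine (norm_sum_le _ _).trans ?_
  simp [helper66.VK.norm_ee]

theorem norm_S_le (d h : ℕ) : ‖S d h‖ ≤ d.totient := by
  unfold S
  refine (norm_sum_le _ _).trans ?_
  simp only [helper66.VK.norm_ee, Finset.sum_const, nsmul_eq_mul, mul_one]
  rw [Nat.totient_eq_card_coprime]

private theorem gs2_per (d h : ℕ) (hd : 1 ≤ d) (k : ℤ) :
    ee ((h : ℝ) * (((k + d : ℤ) : ℤ) : ℝ) ^ 2 / d) = ee ((h : ℝ) * (k : ℝ) ^ 2 / d) := by
  have hd0 : (d : ℝ) ≠ 0 := by positivity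
  have e : (h : ℝ) * (((k + d : ℤ) : ℤ) : ℝ) ^ 2 / d =
      (h : ℝ) * (k : ℝ) ^ 2 / d + (((h : ℤ) * (2 * k + d) : ℤ) : ℝ) := by
    push_cast
    field_simp
    ring
  rw [e, helper66.VK.ee_add, helper66.VK.ee_int, mul_one]

private theorem gs2_period (d h : ℕ) (hd : 1 ≤ d) (u : ℤ) :
    ∑ j ∈ range d, ee ((h : ℝ) * ((u + j : ℤ) : ℝ) ^ 2 / d) = GG d h := by
  have step : ∀ u : ℤ, ∑ j ∈ range d, ee ((h : ℝ) * ((u + 1 + j : ℤ) : ℝ) ^ 2 / d) =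
      ∑ j ∈ range d, ee ((h : ℝ) * ((u + j : ℤ) : ℝ) ^ 2 / d) := by
    intro u
    have h1 := Finset.sum_range_succ (fun j : ℕ => ee ((h : ℝ) * ((u + j : ℤ) : ℝ) ^ 2 / d)) d
    have h2 := Finset.sum_range_succ' (fun j : ℕ => ee ((h : ℝ) * ((u + j : ℤ) : ℝ) ^ 2 / d)) d
    rw [h1] at h2
    have h3 := gs2_per d h hd u
    have h4 : ∀ j : ℕ, (u + ((j + 1 : ℕ) : ℤ) : ℤ) = u + 1 + j := by
      intro j
      push_cast
      ring
    simp only [h4] at h2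
    have h5 : (u + ((0 : ℕ) : ℤ) : ℤ) = u := by simp
    rw [h3, h5] at h2
    exact (add_right_cancel h2).symm
  have h0 : ∑ j ∈ range d, ee ((h : ℝ) * (((0 : ℤ) + j : ℤ) : ℝ) ^ 2 / d) = GG d h := by
    unfold GG
    refine Finset.sum_congr rfl fun j _ => ?_
    push_cast
    rw [zero_add]
  induction u using Int.induction_on with
  | zero => exact h0
  | succ n ih => rw [step]; exact ih
  | pred n ih =>
    have := step (-(n : ℤ) - 1)
    rw [sub_add_cancel] at this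
    rw [← this]
    exact ih

private theorem gs2_periods (d h : ℕ) (hd : 1 ≤ d) (u : ℤ) (q : ℕ) :
    ∑ j ∈ range (q * d), ee ((h : ℝ) * ((u + j : ℤ) : ℝ) ^ 2 / d) = q * GG d h := by
  induction q with
  | zero => simp
  | succ q ih =>
    rw [Nat.succ_mul, Finset.sum_range_add, ih]
    have h1 := gs2_period d h hd (u + (q * d : ℕ))
    have h2 : ∀ j : ℕ, (u + ((q * d + j : ℕ) : ℤ) : ℤ) = u + ((q * d : ℕ) : ℤ) + j := by
      intro j
      push_cast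
      ring
    simp only [h2]
    rw [h1]
    push_cast
    ring

private theorem gs2_nat (d h : ℕ) (hd : 1 ≤ d) (u : ℤ) (n : ℕ) :
    ‖∑ j ∈ range n, ee ((h : ℝ) * ((u + j : ℤ) : ℝ) ^ 2 / d) - (((n : ℝ) / d : ℝ) : ℂ) * GG d h‖ ≤
      2 * d := by
  have hd0 : (d : ℝ) ≠ 0 := by positivity
  have hr : n % d < d := Nat.mod_lt _ hd
  have hn : n = n / d * d + n % d := by
    rw [mul_comm]
    exact (Nat.div_add_mod n d).symm
  have h1 : ∑ j ∈ range n, ee ((h : ℝ) * ((u + j : ℤ) : ℝ) ^ 2 / d) =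
      ((n / d : ℕ) : ℂ) * GG d h + ∑ j ∈ range (n % d),
        ee ((h : ℝ) * ((u + ((n / d * d + j : ℕ) : ℤ) : ℤ) : ℝ) ^ 2 / d) := by
    conv_lhs => rw [hn]
    rw [Finset.sum_range_add, gs2_periods d h hd]
  have h2 : (((n : ℝ) / d : ℝ) : ℂ) = ((n / d : ℕ) : ℂ) + ((((n % d : ℕ) : ℝ) / d : ℝ) : ℂ) := by
    have h3 : (n : ℝ) / d = ((n / d : ℕ) : ℝ) + ((n % d : ℕ) : ℝ) / d := by
      have h4 : (n : ℝ) = ((n / d : ℕ) : ℝ) * d + ((n % d : ℕ) : ℝ) := by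
        exact_mod_cast hn
      field_simp
      linarith
    rw [h3]
    push_cast
    ring
  rw [h1, h2]
  have h5 : ((n / d : ℕ) : ℂ) * GG d h + ∑ j ∈ range (n % d),
        ee ((h : ℝ) * ((u + ((n / d * d + j : ℕ) : ℤ) : ℤ) : ℝ) ^ 2 / d) -
      (((n / d : ℕ) : ℂ) + ((((n % d : ℕ) : ℝ) / d : ℝ) : ℂ)) * GG d h =
      ∑ j ∈ range (n % d), ee ((h : ℝ) * ((u + ((n / d * d + j : ℕ) : ℤ) : ℤ) : ℝ) ^ 2 / d) -
      ((((n % d : ℕ) : ℝ) / d : ℝ) : ℂ) * GG d h := by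
    ring
  rw [h5]
  have hr' : ((n % d : ℕ) : ℝ) ≤ d := by exact_mod_cast hr.le
  have h6 : ‖∑ j ∈ range (n % d), ee ((h : ℝ) * ((u + ((n / d * d + j : ℕ) : ℤ) : ℤ) : ℝ) ^ 2 / d)‖ ≤
      d := by
    refine (norm_sum_le _ _).trans ?_
    simp only [helper66.VK.norm_ee, Finset.sum_const, nsmul_eq_mul, mul_one, card_range]
    exact hr'
  have h7 : ‖((((n % d : ℕ) : ℝ) / d : ℝ) : ℂ) * GG d h‖ ≤ d := by
    rw [norm_mul, Complex.norm_real, Real.norm_eq_abs, abs_of_nonneg (by positivity)]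
    have h8 : ((n % d : ℕ) : ℝ) / d ≤ 1 := by
      rw [div_le_one (by positivity)]
      exact hr'
    calc ((n % d : ℕ) : ℝ) / d * ‖GG d h‖ ≤ 1 * d :=
          mul_le_mul h8 (norm_GG_le d h) (norm_nonneg _) zero_le_one
      _ = d := one_mul _
  calc _ ≤ ‖∑ j ∈ range (n % d), ee ((h : ℝ) * ((u + ((n / d * d + j : ℕ) : ℤ) : ℤ) : ℝ) ^ 2 / d)‖ +
        ‖((((n % d : ℕ) : ℝ) / d : ℝ) : ℂ) * GG d h‖ := norm_sub_le _ _
    _ ≤ 2 * d := by linarith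

theorem gs2 (d h : ℕ) (hd : 1 ≤ d) (u v : ℤ) (huv : u ≤ v) :
    ‖∑ k ∈ Ico u v, ee ((h : ℝ) * (k : ℝ) ^ 2 / d) - ((((v - u : ℤ) : ℝ) / d : ℝ) : ℂ) * GG d h‖ ≤ 2 * d := by
  obtain ⟨n, hn⟩ := Int.eq_ofNat_of_zero_le (sub_nonneg.2 huv)
  have h1 : ∑ k ∈ Ico u v, ee ((h : ℝ) * (k : ℝ) ^ 2 / d) =
      ∑ j ∈ range n, ee ((h : ℝ) * ((u + j : ℤ) : ℝ) ^ 2 / d) := by
    symm
    refine Finset.sum_bij (fun (j : ℕ) _ => u + (j : ℤ)) ?_ ?_ ?_ ?_
    · intro j hj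
      have := Finset.mem_range.1 hj
      exact Finset.mem_Ico.2 ⟨by omega, by omega⟩
    · intro i _ j _ hij
      have h2 : u + (i : ℤ) = u + (j : ℤ) := hij
      omega
    · intro k hk
      have := Finset.mem_Ico.1 hk
      refine ⟨(k - u).toNat, Finset.mem_range.2 (by omega), ?_⟩
      show u + (((k - u).toNat : ℕ) : ℤ) = k
      omega
    · intro j _
      rfl
  rw [h1, hn]
  have := gs2_nat d h hd u n
  simpa using this

end Pool.Agent.HAE
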