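import Pool.Agent.HAE.Defs

/-!
# HAE-JI1a: the integral of `J Y` over the moduli

PROOF.  `J Y t` is the length of `{s ∈ [-1/2,1/2] : t² (1 - s²) ≤ Y}`.  Fubini: `∫_{-1/2}^{1/2} √(Y/(1-s²)) ds = √Y 2 arcsin (1/2)`.
-/

set_option autoImplicit false

open Finset Filter Topology
open Pool.Agent.HAV
open Pool.Agent.helper66.VK (ee)

namespace Pool.Agent.HAE

/-- the region -/
private def JI1a_S (Y Q : ℝ) : Set (ℝ × ℝ) :=
  {p | p.1 ∈ Set.Ioc 0 Q ∧ p.2 ∈ Set.Icc (-(1 / 2) : ℝ) (1 / 2) ∧ p.1 ^ 2 * (1 - p.2 ^ 2) ≤ Y}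

private theorem JI1a_meas (Y Q : ℝ) : MeasurableSet (JI1a_S Y Q) := by
  unfold JI1a_S
  refine (measurable_fst measurableSet_Ioc).inter ((measurable_snd measurableSet_Icc).inter ?_)
  exact measurableSet_le (f := fun p : ℝ × ℝ => p.1 ^ 2 * (1 - p.2 ^ 2)) (g := fun _ => Y)
    (by fun_prop) measurable_const

private theorem JI1a_arcsin : ∫ s in (-(1 / 2) : ℝ)..(1 / 2), 1 / Real.sqrt (1 - s ^ 2) =
    Real.pi / 3 := by
  have h1 : ∀ s ∈ Set.uIcc (-(1 / 2) : ℝ) (1 / 2),
      HasDerivAt Real.arcsin (1 / Real.sqrt (1 - s ^ 2)) s := by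
    intro s hs
    rw [Set.uIcc_of_le (by norm_num)] at hs
    exact Real.hasDerivAt_arcsin (by linarith [hs.1]) (by linarith [hs.2])
  have h2 : IntervalIntegrable (fun s : ℝ => 1 / Real.sqrt (1 - s ^ 2)) MeasureTheory.volume
      (-(1 / 2)) (1 / 2) := by
    apply ContinuousOn.intervalIntegrable
    refine ContinuousOn.div continuousOn_const (by fun_prop) fun s hs => ?_
    rw [Set.uIcc_of_le (by norm_num)] at hs
    have : 0 < 1 - s ^ 2 := by nlinarith [hs.1, hs.2]
    positivity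
  rw [intervalIntegral.integral_eq_sub_of_hasDerivAt h1 h2]
  have h3 : Real.arcsin (1 / 2) = Real.pi / 6 := by
    rw [← Real.sin_pi_div_six]
    exact Real.arcsin_sin (by linarith [Real.pi_pos]) (by linarith [Real.pi_pos])
  rw [Real.arcsin_neg, h3]
  ring

theorem int_J (Y Q : ℝ) (hY : 0 ≤ Y) (hQ : 0 ≤ Q) (h : 4 * Y ≤ 3 * Q ^ 2) :
    ∫ t in (0 : ℝ)..Q, J Y t = Real.pi / 3 * Real.sqrt Y := by
  have hS := JI1a_meas Y Q
  -- the left side
  have hL : ∫ t in (0 : ℝ)..Q, J Y t = (MeasureTheory.volume (JI1a_S Y Q)).toReal := by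
    rw [intervalIntegral.integral_of_le hQ, MeasureTheory.Measure.volume_eq_prod,
      MeasureTheory.Measure.prod_apply hS]
    have h1 : ∀ t : ℝ, MeasureTheory.volume (Prod.mk t ⁻¹' JI1a_S Y Q) =
        (Set.Ioc 0 Q).indicator (fun t => MeasureTheory.volume
          {s : ℝ | s ∈ Set.Icc (-(1 / 2) : ℝ) (1 / 2) ∧ t ^ 2 * (1 - s ^ 2) ≤ Y}) t := by
      intro t
      by_cases ht : t ∈ Set.Ioc 0 Q
      · rw [Set.indicator_of_mem ht]
        congr 1
        ext s
        exact ⟨fun hs => hs.2, fun hs => ⟨ht, hs⟩⟩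
      · rw [Set.indicator_of_notMem ht]
        have : Prod.mk t ⁻¹' JI1a_S Y Q = ∅ := by
          rw [Set.eq_empty_iff_forall_notMem]
          exact fun s hs => ht hs.1
        rw [this, MeasureTheory.measure_empty]
    have hm := measurable_measure_prodMk_left (ν := MeasureTheory.volume) hS
    have hm2 : Measurable fun t : ℝ => (Set.Ioc 0 Q).indicator (fun t => MeasureTheory.volume
          {s : ℝ | s ∈ Set.Icc (-(1 / 2) : ℝ) (1 / 2) ∧ t ^ 2 * (1 - s ^ 2) ≤ Y}) t := by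
      have h2 : (fun t : ℝ => (Set.Ioc 0 Q).indicator (fun t => MeasureTheory.volume
          {s : ℝ | s ∈ Set.Icc (-(1 / 2) : ℝ) (1 / 2) ∧ t ^ 2 * (1 - s ^ 2) ≤ Y}) t) =
          fun t => MeasureTheory.volume (Prod.mk t ⁻¹' JI1a_S Y Q) := funext fun t => (h1 t).symm
      rw [h2]
      exact hm
    simp_rw [h1]
    rw [MeasureTheory.lintegral_indicator measurableSet_Ioc]
    have hfin : ∀ t : ℝ, MeasureTheory.volume
        {s : ℝ | s ∈ Set.Icc (-(1 / 2) : ℝ) (1 / 2) ∧ t ^ 2 * (1 - s ^ 2) ≤ Y} < ⊤ := by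
      intro t
      refine lt_of_le_of_lt (MeasureTheory.measure_mono (t := Set.Icc (-(1 / 2) : ℝ) (1 / 2))
        fun s hs => hs.1) ?_
      rw [Real.volume_Icc]
      exact ENNReal.ofReal_lt_top
    unfold J
    rw [MeasureTheory.integral_toReal]
    · rw [aemeasurable_indicator_iff measurableSet_Ioc |>.symm]
      exact hm2.aemeasurable
    · exact Filter.Eventually.of_forall hfin
  -- the right side
  rw [hL, MeasureTheory.Measure.volume_eq_prod, MeasureTheory.Measure.prod_apply_symm hS]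
  have h2 : ∀ s : ℝ, MeasureTheory.volume ((fun t => (t, s)) ⁻¹' JI1a_S Y Q) =
      (Set.Icc (-(1 / 2) : ℝ) (1 / 2)).indicator
        (fun s => ENNReal.ofReal (Real.sqrt Y * (1 / Real.sqrt (1 - s ^ 2)))) s := by
    intro s
    by_cases hs : s ∈ Set.Icc (-(1 / 2) : ℝ) (1 / 2)
    · rw [Set.indicator_of_mem hs]
      have hs1 : 3 / 4 ≤ 1 - s ^ 2 := by nlinarith [hs.1, hs.2]
      have hs0 : 0 < Real.sqrt (1 - s ^ 2) := Real.sqrt_pos.2 (by linarith)
      set w := Real.sqrt Y * (1 / Real.sqrt (1 - s ^ 2)) with hw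
      have hw0 : 0 ≤ w := by positivity
      have hw2 : w ^ 2 * (1 - s ^ 2) = Y := by
        rw [hw, mul_pow, div_pow, Real.sq_sqrt hY, Real.sq_sqrt (by linarith)]
        field_simp
      have hwQ : w ≤ Q := by
        refine abs_le_of_sq_le_sq' ?_ hQ |>.2
        nlinarith [sq_nonneg w]
      have h3 : (fun t => (t, s)) ⁻¹' JI1a_S Y Q = Set.Ioc 0 w := by
        ext t
        constructor
        · rintro ⟨ht, -, ht2⟩
          refine ⟨ht.1, ?_⟩
          have ht2' : t ^ 2 * (1 - s ^ 2) ≤ w ^ 2 * (1 - s ^ 2) := by rw [hw2]; exact ht2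
          have h4 : t ^ 2 ≤ w ^ 2 := le_of_mul_le_mul_right ht2' (by linarith)
          exact (abs_le_of_sq_le_sq' h4 hw0).2
        · rintro ⟨ht1, ht2⟩
          refine ⟨⟨ht1, ht2.trans hwQ⟩, hs, ?_⟩
          show t ^ 2 * (1 - s ^ 2) ≤ Y
          rw [← hw2]
          have h4 : t ^ 2 ≤ w ^ 2 := pow_le_pow_left₀ ht1.le ht2 2
          exact mul_le_mul_of_nonneg_right h4 (by linarith)
      rw [h3, Real.volume_Ioc, sub_zero]
    · rw [Set.indicator_of_notMem hs]
      have : (fun t => (t, s)) ⁻¹' JI1a_S Y Q = ∅ := by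
        rw [Set.eq_empty_iff_forall_notMem]
        exact fun t ht => hs ht.2.1
      rw [this, MeasureTheory.measure_empty]
  simp_rw [h2]
  rw [MeasureTheory.lintegral_indicator measurableSet_Icc]
  have hcont : ContinuousOn (fun s : ℝ => Real.sqrt Y * (1 / Real.sqrt (1 - s ^ 2)))
      (Set.Icc (-(1 / 2) : ℝ) (1 / 2)) := by
    refine ContinuousOn.mul continuousOn_const
      (ContinuousOn.div continuousOn_const (by fun_prop) fun s hs => ?_)
    have : 0 < 1 - s ^ 2 := by nlinarith [hs.1, hs.2]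
    positivity
  have hint : MeasureTheory.IntegrableOn (fun s : ℝ => Real.sqrt Y * (1 / Real.sqrt (1 - s ^ 2)))
      (Set.Icc (-(1 / 2) : ℝ) (1 / 2)) MeasureTheory.volume := hcont.integrableOn_Icc
  rw [← MeasureTheory.ofReal_integral_eq_lintegral_ofReal hint
    (Filter.Eventually.of_forall fun s => by positivity)]
  rw [ENNReal.toReal_ofReal (MeasureTheory.integral_nonneg fun s => by positivity),
    MeasureTheory.integral_Icc_eq_integral_Ioc, ← intervalIntegral.integral_of_le (by norm_num),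
    intervalIntegral.integral_const_mul, JI1a_arcsin]
  ring

end Pool.Agent.HAE
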