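import Pool.Agent.HAE.JI1a
import Pool.Agent.HAE.JI2

/-!
# HAE-JI1b: the integral of `Phi`

PROOF.  Exchange the integrals (bounded, jointly measurable: `J` is the measure of a section), `int_J` with `Y = N - u²` (`4N ≤ 3 (QQ N)²`), and `∫_0^{√N} √(N - u²) du = π N/4`.
-/

set_option autoImplicit false

open Finset Filter Topology
open Pool.Agent.HAV
open Pool.Agent.helper66.VK (ee)

namespace Pool.Agent.HAE

/-- `J` is jointly measurable. -/
theorem JI1b_meas (N : ℕ) : Measurable (fun p : ℝ × ℝ => J ((N : ℝ) - p.2 ^ 2) p.1) := by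
  have hE : MeasurableSet {q : (ℝ × ℝ) × ℝ | q.2 ∈ Set.Icc (-(1 / 2) : ℝ) (1 / 2) ∧
      q.1.1 ^ 2 * (1 - q.2 ^ 2) ≤ (N : ℝ) - q.1.2 ^ 2} :=
    (measurableSet_Icc.preimage measurable_snd).inter
      (measurableSet_le (f := fun q : (ℝ × ℝ) × ℝ => q.1.1 ^ 2 * (1 - q.2 ^ 2))
        (g := fun q : (ℝ × ℝ) × ℝ => (N : ℝ) - q.1.2 ^ 2) (by fun_prop) (by fun_prop))
  exact (measurable_measure_prodMk_left (ν := MeasureTheory.volume) hE).ennreal_toReal

/-- The quarter of the unit circle. -/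
theorem JI1b_quarter1 : ∫ x in (0 : ℝ)..1, Real.sqrt (1 - x ^ 2) = Real.pi / 4 := by
  have hc : Continuous (fun x : ℝ => Real.sqrt (1 - x ^ 2)) := by fun_prop
  have h1 : ∫ x in (-1 : ℝ)..1, Real.sqrt (1 - x ^ 2) = Real.pi / 2 := integral_sqrt_one_sub_sq
  have h2 : ∫ x in (-1 : ℝ)..0, Real.sqrt (1 - x ^ 2) = ∫ x in (0 : ℝ)..1, Real.sqrt (1 - x ^ 2) := by
    have h := intervalIntegral.integral_comp_neg (a := (0 : ℝ)) (b := 1)
      (fun x : ℝ => Real.sqrt (1 - x ^ 2))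
    simp only [neg_zero, neg_sq] at h
    exact h.symm
  have h3 := intervalIntegral.integral_add_adjacent_intervals (hc.intervalIntegrable (μ := MeasureTheory.volume) (-1) 0)
    (hc.intervalIntegrable (μ := MeasureTheory.volume) 0 1)
  linarith

/-- The quarter of the circle of radius `√N`. -/
theorem JI1b_quarter (N : ℕ) (hN : 1 ≤ N) :
    ∫ u in (0 : ℝ)..(Real.sqrt N), Real.sqrt ((N : ℝ) - u ^ 2) = Real.pi / 4 * N := by
  have hN0 : (0 : ℝ) < N := by exact_mod_cast hN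
  have hs : 0 < Real.sqrt N := Real.sqrt_pos.2 hN0
  have h := intervalIntegral.integral_comp_mul_left (a := (0 : ℝ)) (b := 1)
    (fun u : ℝ => Real.sqrt ((N : ℝ) - u ^ 2)) hs.ne'
  have h2 : ∀ x : ℝ, Real.sqrt ((N : ℝ) - (Real.sqrt N * x) ^ 2) = Real.sqrt N * Real.sqrt (1 - x ^ 2) := by
    intro x
    rw [mul_pow, Real.sq_sqrt hN0.le, ← Real.sqrt_mul hN0.le]
    congr 1
    ring
  simp only [h2, mul_zero, mul_one, smul_eq_mul] at h
  rw [intervalIntegral.integral_const_mul, JI1b_quarter1] at h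
  have h3 : Real.sqrt N * Real.sqrt N = N := Real.mul_self_sqrt hN0.le
  calc ∫ u in (0 : ℝ)..(Real.sqrt N), Real.sqrt ((N : ℝ) - u ^ 2)
      = Real.sqrt N * ((Real.sqrt N)⁻¹ * ∫ u in (0 : ℝ)..(Real.sqrt N), Real.sqrt ((N : ℝ) - u ^ 2)) := by
        rw [← mul_assoc, mul_inv_cancel₀ hs.ne', one_mul]
    _ = Real.sqrt N * (Real.sqrt N * (Real.pi / 4)) := by rw [h]
    _ = Real.pi / 4 * N := by rw [← mul_assoc, h3]; ring

theorem int_phi (N : ℕ) (hN : 1 ≤ N) : ∫ t in (0 : ℝ)..(QQ N : ℝ), Phi N t = Real.pi ^ 2 / 12 * N := by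
  have hN0 : (0 : ℝ) < N := by exact_mod_cast hN
  have hQ0 : (0 : ℝ) ≤ (QQ N : ℝ) := Nat.cast_nonneg _
  have hs : 0 ≤ Real.sqrt N := Real.sqrt_nonneg _
  -- `QQ N ≥ 2 √N`
  have hQ : 2 * Real.sqrt N ≤ (QQ N : ℝ) := by
    have h1 : Real.sqrt N ≤ (Nat.sqrt N : ℝ) + 1 := by
      rw [Real.sqrt_le_left (by positivity)]
      have h2 := Nat.lt_succ_sqrt N
      have h3 : (N : ℝ) < ((Nat.sqrt N : ℝ) + 1) * ((Nat.sqrt N : ℝ) + 1) := by
        exact_mod_cast h2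
      nlinarith
    have h4 : (QQ N : ℝ) = 2 * (Nat.sqrt N : ℝ) + 2 := by
      unfold QQ
      push_cast
      ring
    linarith
  have hQ2 : 4 * (N : ℝ) ≤ (QQ N : ℝ) ^ 2 := by
    have h1 : Real.sqrt N * Real.sqrt N = N := Real.mul_self_sqrt hN0.le
    nlinarith
  have hint : MeasureTheory.Integrable (Function.uncurry (fun t u : ℝ => J ((N : ℝ) - u ^ 2) t))
      ((MeasureTheory.volume.restrict (Set.Ioc (0 : ℝ) (QQ N))).prod
        (MeasureTheory.volume.restrict (Set.Ioc (0 : ℝ) (Real.sqrt N)))) := by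
    refine MeasureTheory.Integrable.of_bound (C := 1) ?_ ?_
    · exact (JI1b_meas N).aestronglyMeasurable
    · refine Filter.Eventually.of_forall fun p => ?_
      simp only [Function.uncurry]
      rw [Real.norm_eq_abs, abs_of_nonneg (J_nonneg _ _)]
      exact J_le_one _ _
  have hswap : ∫ t in (0 : ℝ)..(QQ N : ℝ), Phi N t =
      ∫ u in (0 : ℝ)..(Real.sqrt N), ∫ t in (0 : ℝ)..(QQ N : ℝ), J ((N : ℝ) - u ^ 2) t := by
    unfold Phi
    simp only [intervalIntegral.integral_of_le hQ0, intervalIntegral.integral_of_le hs]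
    exact MeasureTheory.integral_integral_swap hint
  rw [hswap]
  have h5 : ∫ u in (0 : ℝ)..(Real.sqrt N), ∫ t in (0 : ℝ)..(QQ N : ℝ), J ((N : ℝ) - u ^ 2) t =
      ∫ u in (0 : ℝ)..(Real.sqrt N), Real.pi / 3 * Real.sqrt ((N : ℝ) - u ^ 2) := by
    refine intervalIntegral.integral_congr fun u hu => ?_
    rw [Set.uIcc_of_le hs] at hu
    have h6 : u ^ 2 ≤ N := by
      have h7 : u ^ 2 ≤ Real.sqrt N ^ 2 := pow_le_pow_left₀ hu.1 hu.2 2
      rwa [Real.sq_sqrt hN0.le] at h7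
    exact int_J _ _ (by linarith) hQ0 (by nlinarith [sq_nonneg u, sq_nonneg (QQ N : ℝ)])
  rw [h5, intervalIntegral.integral_const_mul, JI1b_quarter N hN]
  ring

end Pool.Agent.HAE
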