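import Pool.Agent.HAE.SW

/-!
# HAE-QSW: the squares of the primes in an exponential sum with a small denominator

PROOF.  `swt` with `A + B`, `B`.  The primes `q ≤ y` with `q ∣ d` contribute `≤ ∑_{q ∣ d} log q ≤ log d ≤ d`, harmless.  For `r` prime to `d` the primes `q ≤ y`, `q = r` modulo `d`,
have `ee (-(h q²/d)) = ee (-(h r²/d))` and total weight `thetaAP d r y` (a class `r` prime to `d` has representative `r < d`; for `d = 1` it is `r = 0`).
So the difference is `≤ φ(d) C x/log^(A+B) x + d`.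
-/

set_option autoImplicit false

open Finset Filter Topology
open Pool.Agent.HAV
open Pool.Agent.helper66.VK (ee)

namespace Pool.Agent.HAE

private theorem QSW_mod {d : ℕ} (hd : 1 ≤ d) (h m : ℕ) :
    ee (-((h : ℝ) * (m : ℝ) ^ 2 / d)) = ee (-((h : ℝ) * ((m % d : ℕ) : ℝ) ^ 2 / d)) := by
  have hd0 : (d : ℝ) ≠ 0 := by
    have : d ≠ 0 := by omega
    exact_mod_cast this
  have h1 : (m : ℝ) = d * ((m / d : ℕ) : ℝ) + ((m % d : ℕ) : ℝ) := by
    exact_mod_cast (Nat.div_add_mod m d).symm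
  set t := m / d with ht
  set r := m % d with hr
  have h2 : -((h : ℝ) * (m : ℝ) ^ 2 / d) = -((h : ℝ) * (r : ℝ) ^ 2 / d) +
      ((-((h : ℤ) * (2 * r * t + d * t ^ 2)) : ℤ) : ℝ) := by
    rw [h1]
    push_cast
    field_simp
    ring
  rw [h2, Pool.Agent.helper66.VK.ee_add, Pool.Agent.helper66.VK.ee_int, mul_one]

open Classical in
/-- the coprime classes -/
private theorem QSW_cop {d : ℕ} (hd : 1 ≤ d) (h y : ℕ) :
    ∑ q ∈ (pr y).filter (fun q => Nat.Coprime d q), ((Real.log q : ℝ) : ℂ) * ee (-((h : ℝ) * (q : ℝ) ^ 2 / d)) =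
      ∑ r ∈ (range d).filter (Nat.Coprime d), ee (-((h : ℝ) * (r : ℝ) ^ 2 / d)) *
        ((BVM.thetaAP d r y : ℝ) : ℂ) := by
  rw [← Finset.sum_fiberwise_of_maps_to (s := (pr y).filter (fun q => Nat.Coprime d q))
    (t := (range d).filter (Nat.Coprime d)) (g := fun q => q % d)]
  · apply Finset.sum_congr rfl
    intro r hr
    rw [Finset.mem_filter, Finset.mem_range] at hr
    unfold BVM.thetaAP
    push_cast
    rw [Finset.mul_sum]
    have hset : (((pr y).filter (fun q => Nat.Coprime d q)).filter (fun q => q % d = r)) =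
        (Icc 1 y).filter (fun p => p.Prime ∧ p ≡ r [MOD d]) := by
      ext q
      unfold pr
      simp only [Finset.mem_filter, Finset.mem_Icc]
      constructor
      · rintro ⟨⟨⟨h1, h2⟩, h3⟩, h4⟩
        refine ⟨h1, h2, ?_⟩
        unfold Nat.ModEq
        rw [h4, Nat.mod_eq_of_lt hr.1]
      · rintro ⟨h1, h2, h3⟩
        unfold Nat.ModEq at h3
        rw [Nat.mod_eq_of_lt hr.1] at h3
        refine ⟨⟨⟨h1, h2⟩, ?_⟩, h3⟩
        have h4 : Nat.gcd d q = Nat.gcd d (q % d) := by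
          rw [Nat.gcd_comm d (q % d), Nat.gcd_comm d q]
          rw [Nat.gcd_comm q d]
          exact Nat.gcd_rec d q
        unfold Nat.Coprime
        rw [h4, h3]
        exact hr.2
    rw [hset]
    apply Finset.sum_congr rfl
    intro q hq
    rw [Finset.mem_filter] at hq
    have h5 : q % d = r := by
      have := hq.2.2
      unfold Nat.ModEq at this
      rwa [Nat.mod_eq_of_lt hr.1] at this
    rw [QSW_mod hd h q, h5, mul_comm]
  · intro q hq
    rw [Finset.mem_filter] at hq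
    rw [Finset.mem_filter, Finset.mem_range]
    refine ⟨Nat.mod_lt _ (by omega), ?_⟩
    have h4 : Nat.gcd d q = Nat.gcd d (q % d) := by
      rw [Nat.gcd_comm d (q % d)]
      exact Nat.gcd_rec d q
    have h5 : Nat.gcd d q = 1 := hq.2
    unfold Nat.Coprime
    rw [← h4, h5]

open Classical in
/-- the primes dividing `d` -/
private theorem QSW_div {d : ℕ} (hd : 1 ≤ d) (h y : ℕ) :
    ‖∑ q ∈ (pr y).filter (fun q => ¬ Nat.Coprime d q), ((Real.log q : ℝ) : ℂ) *
      ee (-((h : ℝ) * (q : ℝ) ^ 2 / d))‖ ≤ d := by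
  have h1 : ‖∑ q ∈ (pr y).filter (fun q => ¬ Nat.Coprime d q), ((Real.log q : ℝ) : ℂ) *
      ee (-((h : ℝ) * (q : ℝ) ^ 2 / d))‖ ≤ ∑ q ∈ (pr y).filter (fun q => ¬ Nat.Coprime d q), Real.log q := by
    refine (norm_sum_le _ _).trans (le_of_eq ?_)
    apply Finset.sum_congr rfl
    intro q _
    rw [norm_mul, Pool.Agent.helper66.VK.norm_ee, mul_one, Complex.norm_real, Real.norm_eq_abs,
      abs_of_nonneg (Real.log_natCast_nonneg q)]
  have h2 : ∑ q ∈ (pr y).filter (fun q => ¬ Nat.Coprime d q), Real.log q ≤ ∑ q ∈ d.primeFactors, Real.log q := by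
    apply Finset.sum_le_sum_of_subset_of_nonneg
    · intro q hq
      unfold pr at hq
      rw [Finset.mem_filter, Finset.mem_filter] at hq
      obtain ⟨⟨_, hq1⟩, hq2⟩ := hq
      rw [Nat.mem_primeFactors]
      refine ⟨hq1, ?_, by omega⟩
      by_contra hc
      exact hq2 ((Nat.Prime.coprime_iff_not_dvd hq1).2 hc).symm
    · intro q _ _
      exact Real.log_natCast_nonneg q
  have h3 : ∑ q ∈ d.primeFactors, Real.log q ≤ Real.log d := by
    rw [← Real.log_prod (fun q hq => by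
      have := (Nat.prime_of_mem_primeFactors hq).ne_zero
      exact_mod_cast this)]
    have h4 : ∏ q ∈ d.primeFactors, q ≤ d := Nat.le_of_dvd (by omega) (Nat.prod_primeFactors_dvd d)
    apply Real.log_le_log
    · exact Finset.prod_pos fun q hq => by
        have := (Nat.prime_of_mem_primeFactors hq).pos
        exact_mod_cast this
    · have h6 : ((∏ q ∈ d.primeFactors, q : ℕ) : ℝ) ≤ (d : ℝ) := Nat.cast_le.2 h4
      rw [Nat.cast_prod] at h6
      exact h6
  have h5 : Real.log d ≤ d := Real.log_le_self (Nat.cast_nonneg d)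
  linarith

theorem qsw (A B : ℕ) : ∃ C : ℝ, 0 ≤ C ∧ ∃ x₀ : ℕ, ∀ x : ℕ, x₀ ≤ x → ∀ y ≤ x, ∀ d h : ℕ, 1 ≤ d →
    (d : ℝ) ≤ Real.log x ^ B →
    ‖∑ q ∈ pr y, ((Real.log q : ℝ) : ℂ) * ee (-((h : ℝ) * (q : ℝ) ^ 2 / d)) - S d h / (d.totient : ℂ) * (y : ℂ)‖ ≤
      C * x / Real.log x ^ A := by
  classical
  obtain ⟨C, hC, x₁, hx₁⟩ := swt (A + B) B
  have hev1 : ∀ᶠ X : ℕ in atTop, Real.log (X : ℝ) ^ (A + B) ≤ (X : ℝ) := by
    have h := (Real.isLittleO_pow_log_id_atTop (n := A + B)).def (show (0 : ℝ) < 1 by norm_num)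
    filter_upwards [tendsto_natCast_atTop_atTop.eventually h] with X hX
    simp only [Real.norm_eq_abs, id, one_mul] at hX
    have hX' : |(X : ℝ)| = X := abs_of_nonneg (Nat.cast_nonneg X)
    rw [hX'] at hX
    exact (le_abs_self _).trans hX
  obtain ⟨x₂, hx₂⟩ := Filter.eventually_atTop.1 hev1
  refine ⟨C + 1, by linarith, max (max x₁ x₂) 3, fun x hx y hy d h hd hdx => ?_⟩
  have hxx1 : x₁ ≤ x := (le_max_left _ _).trans ((le_max_left _ _).trans hx)
  have hxx2 : x₂ ≤ x := (le_max_right _ _).trans ((le_max_left _ _).trans hx)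
  have hxx3 : 3 ≤ x := (le_max_right _ _).trans hx
  have hx3 : (3 : ℝ) ≤ x := by exact_mod_cast hxx3
  have hL : 0 < Real.log x := Real.log_pos (by linarith)
  have hφ : (0 : ℝ) < d.totient := by exact_mod_cast Nat.totient_pos.2 hd
  have hφ' : (d.totient : ℂ) ≠ 0 := by exact_mod_cast hφ.ne'
  have key := hx₁ x hxx1 y hy d
  have hsplit : ∑ q ∈ pr y, ((Real.log q : ℝ) : ℂ) * ee (-((h : ℝ) * (q : ℝ) ^ 2 / d)) -
      S d h / (d.totient : ℂ) * (y : ℂ) =
      ∑ r ∈ (range d).filter (Nat.Coprime d), ee (-((h : ℝ) * (r : ℝ) ^ 2 / d)) *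
        ((BVM.thetaAP d r y - (y : ℝ) / d.totient : ℝ) : ℂ) +
      ∑ q ∈ (pr y).filter (fun q => ¬ Nat.Coprime d q), ((Real.log q : ℝ) : ℂ) *
        ee (-((h : ℝ) * (q : ℝ) ^ 2 / d)) := by
    rw [← Finset.sum_filter_add_sum_filter_not (pr y) (fun q => Nat.Coprime d q), QSW_cop hd h y]
    have h1 : S d h / (d.totient : ℂ) * (y : ℂ) = ∑ r ∈ (range d).filter (Nat.Coprime d),
        ee (-((h : ℝ) * (r : ℝ) ^ 2 / d)) * ((y : ℂ) / d.totient) := by
      unfold S
      rw [← Finset.sum_mul]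
      field_simp
    have h2 : ∑ r ∈ (range d).filter (Nat.Coprime d), ee (-((h : ℝ) * (r : ℝ) ^ 2 / d)) *
        ((BVM.thetaAP d r y - (y : ℝ) / d.totient : ℝ) : ℂ) =
        ∑ r ∈ (range d).filter (Nat.Coprime d), ee (-((h : ℝ) * (r : ℝ) ^ 2 / d)) *
          ((BVM.thetaAP d r y : ℝ) : ℂ) - ∑ r ∈ (range d).filter (Nat.Coprime d),
        ee (-((h : ℝ) * (r : ℝ) ^ 2 / d)) * ((y : ℂ) / d.totient) := by
      rw [← Finset.sum_sub_distrib]
      apply Finset.sum_congr rfl
      intro r _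
      push_cast
      ring
    rw [h1, h2]
    ring
  rw [hsplit]
  have hb1 : ‖∑ r ∈ (range d).filter (Nat.Coprime d), ee (-((h : ℝ) * (r : ℝ) ^ 2 / d)) *
        ((BVM.thetaAP d r y - (y : ℝ) / d.totient : ℝ) : ℂ)‖ ≤ C * x / Real.log x ^ A := by
    refine (norm_sum_le _ _).trans ?_
    have h1 : ∑ r ∈ (range d).filter (Nat.Coprime d), ‖ee (-((h : ℝ) * (r : ℝ) ^ 2 / d)) *
        ((BVM.thetaAP d r y - (y : ℝ) / d.totient : ℝ) : ℂ)‖ ≤
        ∑ _r ∈ (range d).filter (Nat.Coprime d), C * x / Real.log x ^ (A + B) := by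
      apply Finset.sum_le_sum
      intro r hr
      rw [Finset.mem_filter] at hr
      rw [norm_mul, Pool.Agent.helper66.VK.norm_ee, one_mul, Complex.norm_real, Real.norm_eq_abs]
      exact key r hd hdx hr.2.symm
    refine h1.trans ?_
    rw [Finset.sum_const, nsmul_eq_mul]
    have hcard : ((((range d).filter (Nat.Coprime d)).card : ℕ) : ℝ) ≤ Real.log x ^ B := by
      refine le_trans ?_ hdx
      have := Finset.card_filter_le (range d) (Nat.Coprime d)
      rw [Finset.card_range] at this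
      exact_mod_cast this
    calc ((((range d).filter (Nat.Coprime d)).card : ℕ) : ℝ) * (C * x / Real.log x ^ (A + B))
        ≤ Real.log x ^ B * (C * x / Real.log x ^ (A + B)) :=
          mul_le_mul_of_nonneg_right hcard (by positivity)
      _ = C * x / Real.log x ^ A := by
          rw [pow_add]
          field_simp
  have hb2 : ‖∑ q ∈ (pr y).filter (fun q => ¬ Nat.Coprime d q), ((Real.log q : ℝ) : ℂ) *
        ee (-((h : ℝ) * (q : ℝ) ^ 2 / d))‖ ≤ 1 * x / Real.log x ^ A := by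
    refine (QSW_div hd h y).trans (hdx.trans ?_)
    rw [le_div_iff₀ (by positivity), one_mul, ← pow_add, add_comm]
    exact hx₂ x hxx2
  calc _ ≤ C * x / Real.log x ^ A + 1 * x / Real.log x ^ A := (norm_add_le _ _).trans (add_le_add hb1 hb2)
    _ = (C + 1) * x / Real.log x ^ A := by ring

end Pool.Agent.HAE
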