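import Pool.Agent.HAE.Defs

/-!
# HAE-SSA1: `AA` by Ramanujan sums

PROOF.  `∑_{h mod d, (h,d)=1} S GG ee (n h/d) = ∑_{r mod d, (r,d)=1} ∑_{k mod d} c_d (n - r² + k²)`, `c_d(m) = ∑_{(h,d)=1} ee (h m/d) = ∑_{e ∣ d, e ∣ m} e μ(d/e)`.  For `e ∣ d` the number of
`(r, k)` modulo `d`, `r` prime to `d`, with `e ∣ n - r² + k²` is `(φ(d)/φ(e)) (d/e) R e n` (every class prime to `e` has `φ(d)/φ(e)` lifts prime to `d`:
`ZMod.unitsMap` is surjective).
-/

set_option autoImplicit false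

open Finset Filter Topology
open Pool.Agent.HAV
open Pool.Agent.helper66.VK (ee)

namespace Pool.Agent.HAE

/-- `∑_{j < q} e(j m / q) = q 1_{q ∣ m}` -/
theorem ssa1_geom (q : ℕ) (hq : 1 ≤ q) (m : ℤ) :
    ∑ j ∈ range q, ee ((j : ℝ) * m / q) = if (q : ℤ) ∣ m then (q : ℂ) else 0 := by
  have hq0 : (q : ℝ) ≠ 0 := by positivity
  by_cases h : (q : ℤ) ∣ m
  · rw [if_pos h]
    obtain ⟨t, rfl⟩ := h
    have h1 : ∀ j ∈ range q, ee ((j : ℝ) * ((q * t : ℤ) : ℝ) / q) = 1 := by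
      intro j _
      have h2 : (j : ℝ) * ((q * t : ℤ) : ℝ) / q = (((j : ℤ) * t : ℤ) : ℝ) := by
        push_cast
        field_simp
      rw [h2, Pool.Agent.helper66.VK.ee_int]
    rw [sum_congr rfl h1]
    simp
  · rw [if_neg h]
    have hz : ∀ j ∈ range q, ee ((j : ℝ) * m / q) = ee ((m : ℝ) / q) ^ j := by
      intro j _
      rw [← Pool.Agent.helper66.VK.ee_nat_mul]
      congr 1
      ring
    have hz1 : ee ((m : ℝ) / q) ≠ 1 := by
      intro h1
      unfold ee at h1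
      rw [Complex.exp_eq_one_iff] at h1
      obtain ⟨t, ht⟩ := h1
      have h2 : ((m : ℝ) / q : ℝ) = (t : ℝ) := by
        have h3 : (((m : ℝ) / q : ℝ) : ℂ) * (2 * Real.pi * Complex.I) =
            (t : ℂ) * (2 * Real.pi * Complex.I) := by
          rw [← ht]
          ring
        have h4 := mul_right_cancel₀ Complex.two_pi_I_ne_zero h3
        exact_mod_cast h4
      apply h
      refine ⟨t, ?_⟩
      rw [div_eq_iff hq0] at h2
      have h3 : (m : ℝ) = ((q * t : ℤ) : ℝ) := by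
        rw [h2]
        push_cast
        ring
      exact_mod_cast h3
    have hzq : ee ((m : ℝ) / q) ^ q = 1 := by
      rw [← Pool.Agent.helper66.VK.ee_nat_mul]
      have h2 : (q : ℝ) * ((m : ℝ) / q) = ((m : ℤ) : ℝ) := by
        field_simp
      rw [h2, Pool.Agent.helper66.VK.ee_int]
    rw [sum_congr rfl hz, geom_sum_eq hz1, hzq, sub_self, zero_div]

theorem ssa1_moebius (d h : ℕ) (hd : 1 ≤ d) :
    (if Nat.Coprime d h then (1 : ℂ) else 0) =
      ∑ δ ∈ d.divisors, if δ ∣ h then ((ArithmeticFunction.moebius δ : ℤ) : ℂ) else 0 := by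
  have h1 : ∑ i ∈ (Nat.gcd d h).divisors, ArithmeticFunction.moebius i =
      if Nat.gcd d h = 1 then 1 else 0 := by
    rw [← ArithmeticFunction.coe_mul_zeta_apply, ArithmeticFunction.moebius_mul_coe_zeta,
      ArithmeticFunction.one_apply]
  have h2 : (Nat.gcd d h).divisors = d.divisors.filter fun δ => δ ∣ h := by
    ext δ
    simp only [Nat.mem_divisors, mem_filter, Nat.dvd_gcd_iff]
    constructor
    · rintro ⟨⟨h3, h4⟩, -⟩
      exact ⟨⟨h3, by omega⟩, h4⟩
    · rintro ⟨⟨h3, -⟩, h4⟩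
      exact ⟨⟨h3, h4⟩, (Nat.gcd_pos_of_pos_left h (by omega)).ne'⟩
  rw [← sum_filter, ← h2]
  unfold Nat.Coprime
  have h3 : ((∑ i ∈ (Nat.gcd d h).divisors, ArithmeticFunction.moebius i : ℤ) : ℂ) =
      ((if Nat.gcd d h = 1 then 1 else 0 : ℤ) : ℂ) := by rw [h1]
  push_cast at h3
  rw [h3]

/-- Ramanujan sums -/
theorem ssa1_ram (d : ℕ) (hd : 1 ≤ d) (m : ℤ) :
    ∑ h ∈ (range d).filter (Nat.Coprime d), ee ((h : ℝ) * m / d) =
      ∑ e ∈ d.divisors, ((ArithmeticFunction.moebius (d / e) : ℤ) : ℂ) *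
        (if (e : ℤ) ∣ m then (e : ℂ) else 0) := by
  have h1 : ∑ h ∈ (range d).filter (Nat.Coprime d), ee ((h : ℝ) * m / d) =
      ∑ h ∈ range d, ∑ δ ∈ d.divisors,
        if δ ∣ h then ((ArithmeticFunction.moebius δ : ℤ) : ℂ) * ee ((h : ℝ) * m / d) else 0 := by
    rw [sum_filter]
    refine sum_congr rfl fun h _ => ?_
    have h2 := ssa1_moebius d h hd
    have h3 : (if Nat.Coprime d h then ee ((h : ℝ) * m / d) else 0) =
        (if Nat.Coprime d h then (1 : ℂ) else 0) * ee ((h : ℝ) * m / d) := by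
      split_ifs <;> simp
    rw [h3, h2, sum_mul]
    refine sum_congr rfl fun δ _ => ?_
    split_ifs <;> simp
  have h4 : ∀ δ ∈ d.divisors, ∑ h ∈ range d,
      (if δ ∣ h then ((ArithmeticFunction.moebius δ : ℤ) : ℂ) * ee ((h : ℝ) * m / d) else 0) =
      ((ArithmeticFunction.moebius δ : ℤ) : ℂ) *
        (if ((d / δ : ℕ) : ℤ) ∣ m then ((d / δ : ℕ) : ℂ) else 0) := by
    intro δ hδ
    have hδd : δ ∣ d := Nat.dvd_of_mem_divisors hδ
    obtain ⟨q, rfl⟩ := hδd
    have hδ0 : 0 < δ := Nat.pos_of_mul_pos_right (by omega : 0 < δ * q)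
    have hq0 : 0 < q := Nat.pos_of_mul_pos_left (by omega : 0 < δ * q)
    rw [Nat.mul_div_cancel_left q hδ0, ← ssa1_geom q hq0 m, mul_sum, ← sum_filter]
    refine sum_nbij' (fun h => h / δ) (fun j => δ * j) ?_ ?_ ?_ ?_ ?_
    · intro h hh
      rw [mem_filter, mem_range] at hh
      rw [mem_range]
      exact Nat.div_lt_of_lt_mul hh.1
    · intro j hj
      rw [mem_range] at hj
      rw [mem_filter, mem_range]
      exact ⟨Nat.mul_lt_mul_of_pos_left hj hδ0, dvd_mul_right δ j⟩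
    · intro h hh
      rw [mem_filter] at hh
      exact Nat.mul_div_cancel' hh.2
    · intro j _
      exact Nat.mul_div_cancel_left j hδ0
    · intro h hh
      rw [mem_filter] at hh
      obtain ⟨j, rfl⟩ := hh.2
      have h5 : ((δ * j : ℕ) : ℝ) * m / ((δ * q : ℕ) : ℝ) = (((δ * j / δ : ℕ)) : ℝ) * m / q := by
        rw [Nat.mul_div_cancel_left j hδ0]
        have h6 : (δ : ℝ) ≠ 0 := by positivity
        have h7 : (q : ℝ) ≠ 0 := by positivity
        push_cast
        field_simp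
      rw [h5]
  rw [h1, sum_comm, sum_congr rfl h4, ← Nat.sum_div_divisors]
  refine sum_congr rfl fun e he => ?_
  rw [Nat.div_div_self (Nat.dvd_of_mem_divisors he) (by omega)]

/-- periodic sums -/
theorem ssa1_per {d e : ℕ} (he : e ∣ d) (f : ℕ → ℂ) (hf : ∀ x, f (x % e) = f x) :
    (e : ℂ) * ∑ k ∈ range d, f k = d * ∑ k ∈ range e, f k := by
  obtain ⟨q, rfl⟩ := he
  have h1 : ∀ q : ℕ, ∑ k ∈ range (e * q), f k = q * ∑ k ∈ range e, f k := by
    intro q
    induction q with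
    | zero => simp
    | succ q ih =>
      rw [Nat.mul_succ, sum_range_add, ih]
      have h2 : ∑ x ∈ range e, f (e * q + x) = ∑ x ∈ range e, f x := by
        refine sum_congr rfl fun x _ => ?_
        rw [← hf (e * q + x), ← hf x, Nat.mul_add_mod]
      rw [h2]
      push_cast
      ring
  rw [h1]
  push_cast
  ring

theorem ssa1_units (d : ℕ) [NeZero d] (f : ℕ → ℂ) :
    ∑ r ∈ (range d).filter (Nat.Coprime d), f r = ∑ u : (ZMod d)ˣ, f (u : ZMod d).val := by
  symm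
  refine sum_bij (fun u _ => (u : ZMod d).val) ?_ ?_ ?_ ?_
  · intro u _
    rw [mem_filter, mem_range]
    exact ⟨ZMod.val_lt _, (ZMod.val_coe_unit_coprime u).symm⟩
  · intro u _ v _ h
    exact Units.ext (ZMod.val_injective d h)
  · intro r hr
    rw [mem_filter, mem_range] at hr
    refine ⟨ZMod.unitOfCoprime r hr.2.symm, mem_univ _, ?_⟩
    rw [ZMod.coe_unitOfCoprime, ZMod.val_natCast, Nat.mod_eq_of_lt hr.1]
  · intro u _
    rfl

/-- periodic sums over the residues prime to the modulus -/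
theorem ssa1_perc {d e : ℕ} (hd : 1 ≤ d) (he : e ∣ d) (f : ℕ → ℂ) (hf : ∀ x, f (x % e) = f x) :
    (e.totient : ℂ) * ∑ r ∈ (range d).filter (Nat.Coprime d), f r =
      d.totient * ∑ r ∈ (range e).filter (Nat.Coprime e), f r := by
  have hd0 : NeZero d := ⟨by omega⟩
  have he0 : NeZero e := ⟨by
    rintro rfl
    rw [zero_dvd_iff] at he
    omega⟩
  rw [ssa1_units d f, ssa1_units e f]
  let φ : (ZMod d)ˣ →* (ZMod e)ˣ := ZMod.unitsMap he
  have hφs : Function.Surjective φ := ZMod.unitsMap_surjective he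
  have h1 : ∀ u : (ZMod d)ˣ, f (u : ZMod d).val = f (φ u : ZMod e).val := by
    intro u
    have h2 : ((φ u : (ZMod e)ˣ) : ZMod e) = ((u : ZMod d).cast : ZMod e) := ZMod.unitsMap_val he u
    rw [h2, ← hf (u : ZMod d).val, ZMod.cast_eq_val, ZMod.val_natCast]
  have hfib : ∀ v : (ZMod e)ˣ, (univ.filter fun u => φ u = v).card =
      (univ.filter fun u => φ u = 1).card := by
    intro v
    obtain ⟨w, rfl⟩ := hφs v
    refine card_bij' (fun u _ => u * w⁻¹) (fun u _ => u * w) ?_ ?_ ?_ ?_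
    · intro u hu
      rw [mem_filter] at hu ⊢
      exact ⟨mem_univ _, by rw [map_mul, map_inv, hu.2, mul_inv_cancel]⟩
    · intro u hu
      rw [mem_filter] at hu ⊢
      exact ⟨mem_univ _, by rw [map_mul, hu.2, one_mul]⟩
    · intro u _
      simp
    · intro u _
      simp
  have h3 : ∀ g : (ZMod e)ˣ → ℂ, ∑ u : (ZMod d)ˣ, g (φ u) =
      ((univ.filter fun u : (ZMod d)ˣ => φ u = 1).card : ℂ) * ∑ v : (ZMod e)ˣ, g v := by
    intro g
    rw [← sum_fiberwise univ φ (fun u => g (φ u)), mul_sum]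
    refine sum_congr rfl fun v _ => ?_
    rw [sum_congr rfl (g := fun _ => g v) fun u hu => by rw [(mem_filter.1 hu).2], sum_const,
      nsmul_eq_mul, hfib v]
  have h4 := h3 fun _ => 1
  simp only [sum_const, card_univ, nsmul_eq_mul, mul_one, ZMod.card_units_eq_totient] at h4
  rw [sum_congr rfl fun u _ => h1 u, h3 fun v => f (v : ZMod e).val, h4]
  ring

theorem AA_eq_sum (d n : ℕ) (hd : 1 ≤ d) :
    AA d n = (((1 / (d : ℝ)) * ∑ e ∈ d.divisors,
      (ArithmeticFunction.moebius (d / e) : ℝ) * (R e n : ℝ) / (e.totient : ℝ) : ℝ) : ℂ) := by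
  classical
  let ind : ℕ → ℕ → ℕ → ℂ := fun e r k => if (e : ℤ) ∣ (n : ℤ) + (k : ℤ) ^ 2 - (r : ℤ) ^ 2 then 1 else 0
  let NN : ℕ → ℂ := fun e => ∑ r ∈ (range d).filter (Nat.Coprime d), ∑ k ∈ range d, ind e r k
  have hperk : ∀ e r x, ind e r (x % e) = ind e r x := by
    intro e r x
    have h1 : (e : ℤ) ∣ (n : ℤ) + ((x % e : ℕ) : ℤ) ^ 2 - (r : ℤ) ^ 2 ↔
        (e : ℤ) ∣ (n : ℤ) + (x : ℤ) ^ 2 - (r : ℤ) ^ 2 := by
      have h2 : ((x % e : ℕ) : ℤ) ≡ (x : ℤ) [ZMOD (e : ℤ)] := by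
        push_cast
        exact Int.mod_modEq _ _
      have h3 : (n : ℤ) + ((x % e : ℕ) : ℤ) ^ 2 - (r : ℤ) ^ 2 ≡
          (n : ℤ) + (x : ℤ) ^ 2 - (r : ℤ) ^ 2 [ZMOD (e : ℤ)] :=
        ((Int.ModEq.refl _).add (h2.pow 2)).sub (Int.ModEq.refl _)
      exact ⟨fun h => Int.modEq_zero_iff_dvd.1
        (h3.symm.trans (Int.modEq_zero_iff_dvd.2 h)), fun h =>
        Int.modEq_zero_iff_dvd.1 (h3.trans (Int.modEq_zero_iff_dvd.2 h))⟩
    simp only [ind, h1]
  have hperr : ∀ e r x, ind e (x % e) r = ind e x r := by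
    intro e r x
    have h1 : (e : ℤ) ∣ (n : ℤ) + (r : ℤ) ^ 2 - ((x % e : ℕ) : ℤ) ^ 2 ↔
        (e : ℤ) ∣ (n : ℤ) + (r : ℤ) ^ 2 - (x : ℤ) ^ 2 := by
      have h2 : ((x % e : ℕ) : ℤ) ≡ (x : ℤ) [ZMOD (e : ℤ)] := by
        push_cast
        exact Int.mod_modEq _ _
      have h3 : (n : ℤ) + (r : ℤ) ^ 2 - ((x % e : ℕ) : ℤ) ^ 2 ≡
          (n : ℤ) + (r : ℤ) ^ 2 - (x : ℤ) ^ 2 [ZMOD (e : ℤ)] :=
        (Int.ModEq.refl _).sub (h2.pow 2)
      exact ⟨fun h => Int.modEq_zero_iff_dvd.1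
        (h3.symm.trans (Int.modEq_zero_iff_dvd.2 h)), fun h =>
        Int.modEq_zero_iff_dvd.1 (h3.trans (Int.modEq_zero_iff_dvd.2 h))⟩
    simp only [ind, h1]
  have hR : ∀ e, (R e n : ℂ) = ∑ r ∈ (range e).filter (Nat.Coprime e), ∑ k ∈ range e, ind e r k := by
    intro e
    unfold R
    rw [card_filter, sum_product, sum_filter]
    push_cast
    refine sum_congr rfl fun r _ => ?_
    by_cases hr : Nat.Coprime e r
    · rw [if_pos hr]
      refine sum_congr rfl fun k _ => ?_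
      by_cases hk : (e : ℤ) ∣ (n : ℤ) + (k : ℤ) ^ 2 - (r : ℤ) ^ 2
      · rw [if_pos ⟨hr, hk⟩]
        simp only [ind, if_pos hk]
      · rw [if_neg fun h => hk h.2]
        simp only [ind, if_neg hk]
    · rw [if_neg hr]
      refine sum_eq_zero fun k _ => ?_
      rw [if_neg fun h => hr h.1]
  have hNN : ∀ e ∈ d.divisors, (e.totient : ℂ) * e * NN e = d.totient * d * (R e n : ℂ) := by
    intro e he
    have hed := Nat.dvd_of_mem_divisors he
    have h1 := ssa1_perc hd hed (fun r => ∑ k ∈ range d, ind e r k)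
      (fun x => sum_congr rfl fun k _ => hperr e k x)
    have h2 : (e : ℂ) * ∑ r ∈ (range e).filter (Nat.Coprime e), ∑ k ∈ range d, ind e r k =
        d * ∑ r ∈ (range e).filter (Nat.Coprime e), ∑ k ∈ range e, ind e r k := by
      rw [mul_sum, mul_sum]
      exact sum_congr rfl fun r _ => ssa1_per hed (fun k => ind e r k) fun x => hperk e r x
    rw [hR e]
    calc (e.totient : ℂ) * e * NN e = e * ((e.totient : ℂ) * NN e) := by ring
      _ = e * (d.totient * ∑ r ∈ (range e).filter (Nat.Coprime e), ∑ k ∈ range d, ind e r k) := by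
          rw [h1]
      _ = d.totient * (e * ∑ r ∈ (range e).filter (Nat.Coprime e), ∑ k ∈ range d, ind e r k) := by
          ring
      _ = _ := by
          rw [h2]
          ring
  have hd0 : (d : ℂ) ≠ 0 := by
    have : d ≠ 0 := by omega
    exact_mod_cast this
  have hdt : (d.totient : ℂ) ≠ 0 := by
    have : d.totient ≠ 0 := (Nat.totient_pos.2 (by omega)).ne'
    exact_mod_cast this
  have hmain : ∑ h ∈ (range d).filter (Nat.Coprime d), S d h * GG d h * ee ((n : ℝ) * ((h : ℝ) / d)) =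
      ∑ e ∈ d.divisors, ((ArithmeticFunction.moebius (d / e) : ℤ) : ℂ) * e * NN e := by
    have h1 : ∀ h ∈ (range d).filter (Nat.Coprime d),
        S d h * GG d h * ee ((n : ℝ) * ((h : ℝ) / d)) =
        ∑ r ∈ (range d).filter (Nat.Coprime d), ∑ k ∈ range d,
          ee ((h : ℝ) * (((n : ℤ) + (k : ℤ) ^ 2 - (r : ℤ) ^ 2 : ℤ) : ℝ) / d) := by
      intro h _
      unfold S GG
      rw [sum_mul_sum, sum_mul]
      refine sum_congr rfl fun r _ => ?_
      rw [sum_mul]
      refine sum_congr rfl fun k _ => ?_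
      rw [← Pool.Agent.helper66.VK.ee_add, ← Pool.Agent.helper66.VK.ee_add]
      congr 1
      push_cast
      ring
    have h3 : ∑ e ∈ d.divisors, ((ArithmeticFunction.moebius (d / e) : ℤ) : ℂ) * e * NN e =
        ∑ r ∈ (range d).filter (Nat.Coprime d), ∑ k ∈ range d, ∑ e ∈ d.divisors,
          ((ArithmeticFunction.moebius (d / e) : ℤ) : ℂ) * e * ind e r k := by
      simp only [NN, mul_sum]
      rw [sum_comm]
      exact sum_congr rfl fun r _ => sum_comm
    rw [sum_congr rfl h1, sum_comm, h3]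
    refine sum_congr rfl fun r _ => ?_
    rw [sum_comm]
    refine sum_congr rfl fun k _ => ?_
    rw [ssa1_ram d hd]
    refine sum_congr rfl fun e _ => ?_
    simp only [ind]
    split_ifs <;> ring
  unfold AA
  rw [hmain, sum_div]
  push_cast
  rw [mul_sum]
  refine sum_congr rfl fun e he => ?_
  have he0 : (e : ℂ) ≠ 0 := by
    have : e ≠ 0 := (Nat.pos_of_mem_divisors he).ne'
    exact_mod_cast this
  have het : (e.totient : ℂ) ≠ 0 := by
    have : e.totient ≠ 0 := (Nat.totient_pos.2 (Nat.pos_of_mem_divisors he)).ne'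
    exact_mod_cast this
  have h1 := hNN e he
  have h2 : NN e = d.totient * d * (R e n : ℂ) / ((e.totient : ℂ) * e) := by
    rw [eq_div_iff (mul_ne_zero het he0), ← h1]
    ring
  rw [h2]
  field_simp

end Pool.Agent.HAE
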