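import Pool.Agent.HAE.SWT
import Pool.Agent.helper62.Sieg.SWT

/-!
# HAE-SW: the theorem of Siegel and Walfisz (from `Pool/Agent/helper62/Sieg/SWT.lean`)
-/

set_option autoImplicit false

open Finset Filter Topology
open Pool.Agent.HAV
open Pool.Agent.helper66.VK (ee)

namespace Pool.Agent.HAE

theorem swt : SWStatement := swt_of Pool.Agent.helper62.Sieg.good_all

end Pool.Agent.HAE
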