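import Pool.Agent.helper10.BV.Final
import Pool.Agent.HAE.Defs

/-!
# HAE-SWT: primes in progressions from good scales

`hG` is Siegel's theorem in the form of helper62 (`good_all`).
PROOF.  `SW` (`helper24/BV/SW.lean`): for `x` large `Good` holds and every primitive `χ ≠ 1` of conductor `≤ log^B x` has
`‖psiChi χ y‖ ≤ C x/log^A x`.  For `χ ≠ 1` modulo `d` with primitive character `χ*`: `‖psiChi χ y - psiChi χ* y‖ ≤ 2 log d log y` (as
`BDc_psi` in `Pool/Agent/HAV/BDc.lean`).  Orthogonality: `psiAP d r y - psiCop d y/φ(d) = (1/φ(d)) ∑_{χ ≠ 1} conj χ(r) psiChi χ y`;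
`psiCop` against `y`: `D4.abs_psiCop_sub_psi_le`, `pnt_err`; `psiAP - thetaAP ≤ 2 √x log x`: `D16.psiAP_sub_thetaAP`.
-/

set_option autoImplicit false

open Finset Filter Topology
open Pool.Agent.HAV
open Pool.Agent.helper66.VK (ee)

namespace Pool.Agent.HAE

open Classical in
/-- orthogonality without the principal character (as `D2_orth`) -/
private theorem SWT_orth {q a : ℕ} (hq : q ≠ 0) (ha : a.Coprime q) (n : ℕ) :
    (((if n ≡ a [MOD q] then (1 : ℝ) else 0)
      - (if n.Coprime q then 1 / (q.totient : ℝ) else 0) : ℝ) : ℂ)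
      = (1 / (q.totient : ℂ)) * ∑ χ ∈ BVM.nonPrin q, χ ((a : ZMod q)⁻¹) * χ (n : ZMod q) := by
  have : NeZero q := ⟨hq⟩
  have hu : IsUnit (a : ZMod q) := (ZMod.isUnit_iff_coprime a q).2 ha
  have hset : BVM.nonPrin q = Finset.univ.erase (1 : DirichletCharacter ℂ q) := by
    ext χ
    rw [BVM.mem_nonPrin hq, Finset.mem_erase]
    simp
  have htot : (q.totient : ℂ) ≠ 0 := by
    have : 0 < q.totient := Nat.totient_pos.2 (Nat.pos_of_ne_zero hq)
    exact_mod_cast this.ne'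
  have h1 : (1 : DirichletCharacter ℂ q) ((a : ZMod q)⁻¹) = 1 := by
    have h2 : (1 : DirichletCharacter ℂ q) ((a : ZMod q)⁻¹ * (a : ZMod q)) = 1 := by
      rw [ZMod.inv_mul_of_unit _ hu, map_one]
    rw [map_mul, MulChar.one_apply hu, mul_one] at h2
    exact h2
  rw [hset, Finset.sum_erase_eq_sub (Finset.mem_univ _),
    DirichletCharacter.sum_char_inv_mul_char_eq ℂ hu, h1, one_mul, mul_sub]
  have e1 : ((a : ZMod q) = (n : ZMod q)) ↔ n ≡ a [MOD q] := by
    rw [eq_comm]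
    exact ZMod.natCast_eq_natCast_iff n a q
  by_cases hn : n.Coprime q
  · have h3 : (1 : DirichletCharacter ℂ q) (n : ZMod q) = 1 :=
      MulChar.one_apply ((ZMod.isUnit_iff_coprime n q).2 hn)
    rw [h3]
    by_cases hm : n ≡ a [MOD q]
    · rw [if_pos hm, if_pos hn, if_pos (e1.2 hm)]
      push_cast
      field_simp
    · rw [if_neg hm, if_pos hn, if_neg (fun h => hm (e1.1 h))]
      push_cast
      ring
  · have h3 : (1 : DirichletCharacter ℂ q) (n : ZMod q) = 0 :=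
      MulChar.map_nonunit _ (fun h => hn ((ZMod.isUnit_iff_coprime n q).1 h))
    rw [h3]
    have hm : ¬ n ≡ a [MOD q] := by
      intro hm
      apply hn
      have h4 : Nat.gcd n q = Nat.gcd a q := Nat.ModEq.gcd_eq hm
      rw [Nat.Coprime, h4]
      exact ha
    rw [if_neg hm, if_neg hn, if_neg (fun h => hm (e1.1 h))]
    simp

/-- a character against its primitive character (as `BDc_psi`) -/
private theorem SWT_psi {q : ℕ} (hq : q ≠ 0) (χ : DirichletCharacter ℂ q) (t : ℕ) :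
    ‖BVM.psiChi χ t - BVM.psiChi χ.primitiveCharacter t‖ ≤ 2 * Real.log q * Real.log t := by
  classical
  have hdiff : BVM.psiChi χ t - BVM.psiChi χ.primitiveCharacter t =
      ∑ n ∈ Icc 1 t, ((ArithmeticFunction.vonMangoldt n : ℝ) : ℂ) *
        (χ (n : ZMod q) - χ.primitiveCharacter (n : ZMod χ.conductor)) := by
    unfold BVM.psiChi
    rw [← Finset.sum_sub_distrib]
    refine Finset.sum_congr rfl fun n _ => ?_
    ring
  rw [hdiff]
  have hterm : ∀ n ∈ Icc 1 t, ‖((ArithmeticFunction.vonMangoldt n : ℝ) : ℂ) *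
        (χ (n : ZMod q) - χ.primitiveCharacter (n : ZMod χ.conductor))‖ ≤
        if ¬ n.Coprime q then ArithmeticFunction.vonMangoldt n else 0 := by
    intro n _
    by_cases hn : n.Coprime q
    · have h1 : IsCoprime (n : ℤ) (q : ℤ) := Nat.isCoprime_iff_coprime.mpr hn
      have h2 := DirichletCharacter.primitiveCharacter_apply_of_isCoprime (χ := χ) h1
      have h3 : χ.primitiveCharacter (n : ZMod χ.conductor) = χ (n : ZMod q) := by
        have e1 : (((n : ℤ)) : ZMod χ.conductor) = (n : ZMod χ.conductor) := by push_cast; rfl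
        have e2 : (((n : ℤ)) : ZMod q) = (n : ZMod q) := by push_cast; rfl
        rw [e1, e2] at h2
        exact h2
      rw [h3, sub_self, mul_zero, norm_zero, if_neg (not_not.2 hn)]
    · rw [if_pos hn]
      have h1 : χ (n : ZMod q) = 0 := by
        apply χ.map_nonunit
        rw [ZMod.isUnit_iff_coprime]
        exact hn
      rw [h1, zero_sub, norm_mul, norm_neg]
      have h2 : ‖χ.primitiveCharacter (n : ZMod χ.conductor)‖ ≤ 1 :=
        DirichletCharacter.norm_le_one _ _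
      have hv : 0 ≤ ArithmeticFunction.vonMangoldt n := ArithmeticFunction.vonMangoldt_nonneg
      have h4 : ‖((ArithmeticFunction.vonMangoldt n : ℝ) : ℂ)‖ =
          ArithmeticFunction.vonMangoldt n := by
        rw [Complex.norm_real, Real.norm_of_nonneg hv]
      rw [h4]
      calc ArithmeticFunction.vonMangoldt n *
            ‖χ.primitiveCharacter (n : ZMod χ.conductor)‖ ≤
              ArithmeticFunction.vonMangoldt n * 1 := mul_le_mul_of_nonneg_left h2 hv
        _ = ArithmeticFunction.vonMangoldt n := by ring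
  calc ‖∑ n ∈ Icc 1 t, ((ArithmeticFunction.vonMangoldt n : ℝ) : ℂ) *
        (χ (n : ZMod q) - χ.primitiveCharacter (n : ZMod χ.conductor))‖
      ≤ ∑ n ∈ Icc 1 t, ‖((ArithmeticFunction.vonMangoldt n : ℝ) : ℂ) *
        (χ (n : ZMod q) - χ.primitiveCharacter (n : ZMod χ.conductor))‖ := norm_sum_le _ _
    _ ≤ ∑ n ∈ Icc 1 t, (if ¬ n.Coprime q then ArithmeticFunction.vonMangoldt n else 0) :=
        Finset.sum_le_sum hterm
    _ = ∑ n ∈ (Icc 1 t).filter (fun n => ¬ n.Coprime q), ArithmeticFunction.vonMangoldt n := by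
        rw [Finset.sum_filter]
    _ ≤ 2 * Real.log q * Real.log t := BVM.sum_not_coprime_le hq _

private theorem SWT_card {q : ℕ} (hq : q ≠ 0) : (BVM.nonPrin q).card ≤ q.totient := by
  classical
  have : NeZero q := ⟨hq⟩
  have h : (Set.univ : Set (DirichletCharacter ℂ q)).Finite := Set.toFinite _
  have h1 : (BVM.nonPrin q).card ≤ (Finset.univ : Finset (DirichletCharacter ℂ q)).card :=
    Finset.card_le_card (fun _ _ => Finset.mem_univ _)
  have h2 : (Finset.univ : Finset (DirichletCharacter ℂ q)).card = q.totient := by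
    rw [Finset.card_univ, ← Nat.card_eq_fintype_card]
    exact DirichletCharacter.card_eq_totient_of_hasEnoughRootsOfUnity ℂ q
  omega

/-- the error term of the progression is at most the largest `psiChi` -/
private theorem SWT_EE {q a : ℕ} (hq : q ≠ 0) (ha : a.Coprime q) (t : ℕ) {K : ℝ} (hK : 0 ≤ K)
    (h : ∀ χ : DirichletCharacter ℂ q, χ ≠ 1 → ‖BVM.psiChi χ t‖ ≤ K) : |BVM.EE q a t| ≤ K := by
  classical
  have hφ : (0 : ℝ) < q.totient := by
    exact_mod_cast Nat.totient_pos.2 (Nat.pos_of_ne_zero hq)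
  have hkey : ((BVM.EE q a t : ℝ) : ℂ)
      = (1 / (q.totient : ℂ)) * ∑ χ ∈ BVM.nonPrin q,
        χ ((a : ZMod q)⁻¹) * BVM.psiChi χ t := by
    have h1 : ((BVM.EE q a t : ℝ) : ℂ) = ∑ n ∈ Icc 1 t, ((ArithmeticFunction.vonMangoldt n : ℝ) : ℂ)
        * ((1 / (q.totient : ℂ)) * ∑ χ ∈ BVM.nonPrin q, χ ((a : ZMod q)⁻¹) * χ (n : ZMod q)) := by
      unfold BVM.EE BVM.ee
      rw [Complex.ofReal_sum]
      apply Finset.sum_congr rfl
      intro n _
      rw [← SWT_orth hq ha n]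
      push_cast
      ring
    rw [h1]
    have h2 : ∀ χ ∈ BVM.nonPrin q, χ ((a : ZMod q)⁻¹) * BVM.psiChi χ t
        = ∑ n ∈ Icc 1 t, χ ((a : ZMod q)⁻¹)
          * (((ArithmeticFunction.vonMangoldt n : ℝ) : ℂ) * χ (n : ZMod q)) := by
      intro χ _
      unfold BVM.psiChi
      rw [Finset.mul_sum]
    rw [Finset.sum_congr rfl h2, Finset.sum_comm, Finset.mul_sum]
    apply Finset.sum_congr rfl
    intro n _
    rw [Finset.mul_sum, Finset.mul_sum, Finset.mul_sum]
    apply Finset.sum_congr rfl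
    intro χ _
    ring
  have h3 : |BVM.EE q a t| = ‖((BVM.EE q a t : ℝ) : ℂ)‖ := by
    rw [Complex.norm_real, Real.norm_eq_abs]
  rw [h3, hkey, norm_mul]
  have h4 : ‖(1 / (q.totient : ℂ))‖ = 1 / (q.totient : ℝ) := by
    rw [norm_div, norm_one, Complex.norm_natCast]
  rw [h4]
  have h5 : ‖∑ χ ∈ BVM.nonPrin q, χ ((a : ZMod q)⁻¹) * BVM.psiChi χ t‖ ≤ (q.totient : ℝ) * K := by
    refine le_trans (norm_sum_le _ _) ?_
    have h6 : ∑ χ ∈ BVM.nonPrin q, ‖χ ((a : ZMod q)⁻¹) * BVM.psiChi χ t‖ ≤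
        ∑ _χ ∈ BVM.nonPrin q, K := by
      refine Finset.sum_le_sum fun χ hχ => ?_
      rw [norm_mul]
      have h7 : ‖χ ((a : ZMod q)⁻¹)‖ ≤ 1 := DirichletCharacter.norm_le_one χ _
      have h8 := h χ ((BVM.mem_nonPrin hq χ).1 hχ)
      calc ‖χ ((a : ZMod q)⁻¹)‖ * ‖BVM.psiChi χ t‖ ≤ 1 * ‖BVM.psiChi χ t‖ :=
            mul_le_mul_of_nonneg_right h7 (norm_nonneg _)
        _ = ‖BVM.psiChi χ t‖ := one_mul _
        _ ≤ K := h8
    refine h6.trans ?_
    rw [Finset.sum_const, nsmul_eq_mul]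
    refine mul_le_mul_of_nonneg_right ?_ hK
    exact_mod_cast SWT_card hq
  calc 1 / (q.totient : ℝ) * ‖∑ χ ∈ BVM.nonPrin q, χ ((a : ZMod q)⁻¹) * BVM.psiChi χ t‖
      ≤ 1 / (q.totient : ℝ) * ((q.totient : ℝ) * K) := mul_le_mul_of_nonneg_left h5 (by positivity)
    _ = K := by field_simp

/-- The theorem of Siegel and Walfisz for primes in progressions. -/
def SWStatement : Prop := ∀ A B : ℕ, ∃ C : ℝ, 0 ≤ C ∧ ∃ x₀ : ℕ, ∀ x : ℕ, x₀ ≤ x → ∀ y ≤ x, ∀ d r : ℕ, 1 ≤ d →
    (d : ℝ) ≤ Real.log x ^ B → Nat.Coprime r d →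
    |BVM.thetaAP d r y - (y : ℝ) / d.totient| ≤ C * x / Real.log x ^ A

theorem swt_of (hG : ∀ B : ℕ, ∃ x₀ : ℝ, ∀ x : ℝ, x₀ ≤ x → BVM.Good B x) : SWStatement := by
  intro A B
  obtain ⟨C1, hC1⟩ := BVM.SW A B
  obtain ⟨C2, hC2⟩ := BVM.pnt_err A
  obtain ⟨X1, hX1⟩ := hG B
  have hlog : ∀ᶠ x : ℝ in atTop, Real.log x ^ (2 * (A + 2)) ≤ x := by
    have h := (Real.isLittleO_pow_log_id_atTop (n := 2 * (A + 2))).bound (by norm_num : (0 : ℝ) < 1)
    filter_upwards [h, eventually_ge_atTop 1] with x hx hx1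
    have h1 : ‖Real.log x ^ (2 * (A + 2))‖ = Real.log x ^ (2 * (A + 2)) :=
      Real.norm_of_nonneg (pow_nonneg (Real.log_nonneg hx1) _)
    have h2 : ‖id x‖ = x := Real.norm_of_nonneg (by simpa using le_trans zero_le_one hx1)
    rw [h1, h2, one_mul] at hx
    exact hx
  obtain ⟨X2, hX2⟩ := eventually_atTop.1 hlog
  refine ⟨|C1| + |C2| + 4 * B + 2, by positivity, ⌈max (max X1 X2) 3⌉₊,
    fun x hx y hy d r hd hdB hr => ?_⟩
  have hx' : max (max X1 X2) 3 ≤ (x : ℝ) := (Nat.le_ceil _).trans (by exact_mod_cast hx)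
  have hxX1 : X1 ≤ (x : ℝ) := (le_max_left _ _).trans ((le_max_left _ _).trans hx')
  have hxX2 : X2 ≤ (x : ℝ) := (le_max_right _ _).trans ((le_max_left _ _).trans hx')
  have hx3 : (3 : ℝ) ≤ x := (le_max_right _ _).trans hx'
  have hx0 : (0 : ℝ) < x := by linarith
  have hgood := hX1 x hxX1
  have hl2 := hX2 x hxX2
  have hd0 : d ≠ 0 := by omega
  have hyx : (y : ℝ) ≤ x := by exact_mod_cast hy
  obtain ⟨l, hl⟩ : ∃ l : ℝ, l = Real.log x := ⟨_, rfl⟩
  have hl1 : 1 ≤ l := by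
    rw [hl, Real.le_log_iff_exp_le hx0]
    have := Real.exp_one_lt_d9
    linarith
  have hl0 : 0 < l := by linarith
  have hlA : 0 < l ^ A := pow_pos hl0 A
  obtain ⟨M, hM⟩ : ∃ M : ℝ, M = (x : ℝ) / l ^ A := ⟨_, rfl⟩
  have hM0 : 0 ≤ M := by rw [hM]; positivity
  rw [← hl] at hl2
  -- `l ^ (A + 2) ≤ √x`
  have hs : l ^ (A + 2) ≤ Real.sqrt x := by
    refine Real.le_sqrt_of_sq_le ?_
    rw [← pow_mul]
    have h1 : (A + 2) * 2 = 2 * (A + 2) := by ring
    rw [h1]
    exact hl2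
  have hsq : Real.sqrt x * Real.sqrt x = x := Real.mul_self_sqrt hx0.le
  have hs1 : 1 ≤ Real.sqrt x := (one_le_pow₀ hl1).trans hs
  have hs0 : 0 ≤ Real.sqrt x := Real.sqrt_nonneg _
  have hb1 : Real.sqrt x * l ≤ M := by
    rw [hM, le_div_iff₀ hlA]
    calc Real.sqrt x * l * l ^ A = Real.sqrt x * l ^ (A + 1) := by ring
      _ ≤ Real.sqrt x * l ^ (A + 2) :=
          mul_le_mul_of_nonneg_left (pow_le_pow_right₀ hl1 (by omega)) hs0
      _ ≤ Real.sqrt x * Real.sqrt x := mul_le_mul_of_nonneg_left hs hs0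
      _ = x := hsq
  have hb2 : l ^ 2 ≤ M := by
    rw [hM, le_div_iff₀ hlA]
    calc l ^ 2 * l ^ A = l ^ (A + 2) := by ring
      _ ≤ Real.sqrt x := hs
      _ ≤ Real.sqrt x * Real.sqrt x := le_mul_of_one_le_left hs0 hs1
      _ = x := hsq
  have hlogd0 : 0 ≤ Real.log d := Real.log_natCast_nonneg d
  have hlogd : Real.log d ≤ B * l := by
    have h1 : (0 : ℝ) < d := by exact_mod_cast hd
    have h2 := Real.log_le_log h1 hdB
    rw [← hl, Real.log_pow] at h2
    refine h2.trans ?_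
    have h3 : Real.log l ≤ l := Real.log_le_self hl0.le
    exact mul_le_mul_of_nonneg_left h3 (Nat.cast_nonneg B)
  have hlogy : Real.log (y : ℝ) ≤ l := by
    rw [hl]
    rcases Nat.eq_zero_or_pos y with rfl | hy0
    · simpa using Real.log_natCast_nonneg x
    · exact Real.log_le_log (by exact_mod_cast hy0) hyx
  have hdl : 2 * Real.log d * l ≤ 2 * B * M := by
    calc 2 * Real.log d * l ≤ 2 * (B * l) * l := by gcongr
      _ = 2 * B * l ^ 2 := by ring
      _ ≤ 2 * B * M := by gcongr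
  have hdy : 2 * Real.log d * Real.log y ≤ 2 * B * M :=
    le_trans (mul_le_mul_of_nonneg_left hlogy (by positivity)) hdl
  -- the characters
  have hchi : ∀ χ : DirichletCharacter ℂ d, χ ≠ 1 → ‖BVM.psiChi χ y‖ ≤ (|C1| + 2 * B) * M := by
    intro χ hχ
    have : NeZero d := ⟨hd0⟩
    have hc0 : 1 ≤ χ.conductor := Nat.one_le_iff_ne_zero.2 (χ.conductor_ne_zero)
    have hcd : χ.conductor ≤ d := Nat.le_of_dvd (by omega) χ.conductor_dvd_level
    have hcB : (χ.conductor : ℝ) ≤ Real.log x ^ B := le_trans (by exact_mod_cast hcd) hdB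
    have hne : χ.primitiveCharacter ≠ 1 := by
      intro h
      apply hχ
      rw [← χ.changeLevel_primitiveCharacter, h, DirichletCharacter.changeLevel_one]
    have h1 := hC1 x hx3 hgood χ.conductor hc0 hcB χ.primitiveCharacter
      χ.primitiveCharacter_isPrimitive hne y hyx
    rw [← hl] at h1
    have h2 := SWT_psi hd0 χ y
    have h3 : C1 * x / l ^ A ≤ |C1| * M := by
      rw [hM, mul_div_assoc]
      exact mul_le_mul_of_nonneg_right (le_abs_self _) (by positivity)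
    have h4 : ‖BVM.psiChi χ y‖ ≤ ‖BVM.psiChi χ y - BVM.psiChi χ.primitiveCharacter y‖ +
        ‖BVM.psiChi χ.primitiveCharacter y‖ := by
      have := norm_add_le (BVM.psiChi χ y - BVM.psiChi χ.primitiveCharacter y)
        (BVM.psiChi χ.primitiveCharacter y)
      rwa [sub_add_cancel] at this
    have h5 : (|C1| + 2 * B) * M = |C1| * M + 2 * B * M := by ring
    linarith
  have hEE := SWT_EE hd0 hr y (by positivity) hchi
  obtain ⟨h1, h2⟩ := BVM.psiAP_sub_thetaAP (q := d) (a := r) hy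
  have h4 := BVM.abs_psiCop_sub_psi_le hd0 y
  have h5 := hC2 x hx3 y hyx
  have h6 := BVM.EE_eq d r y
  rw [← hl] at h2 h5
  have hφ : (0 : ℝ) < d.totient := by
    exact_mod_cast Nat.totient_pos.2 (Nat.pos_of_ne_zero hd0)
  have hφ1 : (1 : ℝ) ≤ d.totient := by
    exact_mod_cast Nat.totient_pos.2 (Nat.pos_of_ne_zero hd0)
  have h5' : |Chebyshev.psi (y : ℝ) - y| ≤ |C2| * M := by
    refine h5.trans ?_
    rw [hM, mul_div_assoc]
    exact mul_le_mul_of_nonneg_right (le_abs_self _) (by positivity)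
  have h8 : BVM.thetaAP d r y - y / d.totient = -(BVM.psiAP d r y - BVM.thetaAP d r y) +
      (BVM.EE d r y + (1 / (d.totient : ℝ)) * ((BVM.psiCop d y - Chebyshev.psi y) +
        (Chebyshev.psi y - y))) := by
    rw [h6]
    field_simp
    ring
  have h9 : |(1 / (d.totient : ℝ)) * ((BVM.psiCop d y - Chebyshev.psi y) +
      (Chebyshev.psi y - y))| ≤ 2 * B * M + |C2| * M := by
    rw [abs_mul, abs_of_pos (by positivity : (0 : ℝ) < 1 / (d.totient : ℝ))]
    have h10 : 1 / (d.totient : ℝ) ≤ 1 := by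
      rw [div_le_one hφ]
      exact hφ1
    have h11 : |(BVM.psiCop d y - Chebyshev.psi y) + (Chebyshev.psi y - y)| ≤
        2 * B * M + |C2| * M := (abs_add_le _ _).trans (add_le_add (h4.trans hdy) h5')
    calc 1 / (d.totient : ℝ) * |(BVM.psiCop d y - Chebyshev.psi y) + (Chebyshev.psi y - y)|
        ≤ 1 * |(BVM.psiCop d y - Chebyshev.psi y) + (Chebyshev.psi y - y)| :=
          mul_le_mul_of_nonneg_right h10 (abs_nonneg _)
      _ = |(BVM.psiCop d y - Chebyshev.psi y) + (Chebyshev.psi y - y)| := one_mul _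
      _ ≤ _ := h11
  rw [h8]
  refine (abs_add_le _ _).trans ?_
  rw [abs_neg, abs_of_nonneg h1]
  have h12 := abs_add_le (BVM.EE d r y)
    ((1 / (d.totient : ℝ)) * ((BVM.psiCop d y - Chebyshev.psi y) + (Chebyshev.psi y - y)))
  have h13 : (|C1| + |C2| + 4 * B + 2) * (x : ℝ) / Real.log x ^ A =
      (|C1| + |C2| + 4 * B + 2) * M := by
    rw [hM, mul_div_assoc, hl]
  rw [h13]
  have h14 : 2 * Real.sqrt x * l ≤ 2 * M := by linarith
  nlinarith [h2, hEE, h9, h12, h14]

end Pool.Agent.HAE
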