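import Pool.Agent.HAV.HUR
import Pool.Agent.HAE.Defs

/-!
# HAE-UNA: class numbers and pairs `(a, k)`, pointwise

PROOF.  `Pool/Agent/HAV/HUR.lean` proves (private) `|hurwitz (4 n) - N0 n| ≤ HUR_bd n` = the number of the pairs of `N0 n` with `2|k| = a` or `a² = n + k²` (copy its lemmas).  First kind: `a = 2j`, `k = ± j`, `j ∣ n`; second kind: `a - |k|` divides
`n = (a - |k|)(a + |k|)` and determines `a`, `|k|`.
-/

set_option autoImplicit false

open Finset Filter Topology
open Pool.Agent.HAV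
open Pool.Agent.helper66.VK (ee)

namespace Pool.Agent.HAE

open Classical in
/-- the inner sum of `hurwitz` -/
private noncomputable def UNA_f (n : ℕ) (A B : ℤ) : ℝ :=
  ∑ C ∈ Icc (1 : ℤ) (4 * n : ℕ),
    if B ^ 2 + (4 * n : ℕ) = 4 * A * C ∧ |B| ≤ A ∧ A ≤ C ∧ (|B| = A ∨ A = C → 0 ≤ B) then
      (if A = C ∧ B = 0 then (1 / 2 : ℝ) else if A = C ∧ B = A then 1 / 3 else 1) else 0

private theorem UNA_hur (n : ℕ) : hurwitz (4 * n) =
    ∑ A ∈ Icc (1 : ℤ) (4 * n : ℕ), ∑ B ∈ Icc (-((4 * n : ℕ) : ℤ)) (4 * n : ℕ), UNA_f n A B := rfl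

/-- the condition on `(a, k)` -/
private def UNA_P (n : ℕ) (a k : ℤ) : Prop := a ∣ n + k ^ 2 ∧ a ^ 2 ≤ n + k ^ 2

private theorem UNA_f_zero {n : ℕ} {A B : ℤ} (h : UNA_f n A B ≠ 0) :
    ∃ k, B = 2 * k ∧ 2 * |k| ≤ A ∧ UNA_P n A k := by
  classical
  unfold UNA_f at h
  obtain ⟨C, hC, h1⟩ := Finset.exists_ne_zero_of_sum_ne_zero h
  split_ifs at h1 with h2
  all_goals try exact absurd rfl h1
  all_goals
    obtain ⟨e1, e2, e3, e4⟩ := h2
    have hev : Even B := by
      have : Even (B ^ 2) := by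
        refine ⟨2 * (A * C - n), ?_⟩
        push_cast at e1
        linarith
      exact (Int.even_pow' (by norm_num)).1 this
    obtain ⟨k, hk⟩ := hev
    have hB : B = 2 * k := by rw [hk]; ring
    refine ⟨k, hB, ?_, ?_, ?_⟩
    · rw [hB, abs_mul] at e2
      simpa using e2
    · refine ⟨C, ?_⟩
      rw [hB] at e1
      push_cast at e1
      linarith [mul_comm A C]
    · rw [hB] at e1
      push_cast at e1
      have hA : 0 ≤ A := le_trans (abs_nonneg _) e2
      nlinarith [mul_le_mul_of_nonneg_left e3 hA]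

private theorem UNA_f_nonneg (n : ℕ) (A B : ℤ) : 0 ≤ UNA_f n A B := by
  unfold UNA_f
  refine Finset.sum_nonneg fun C _ => ?_
  split_ifs <;> norm_num

private theorem UNA_f_le (n : ℕ) {A : ℤ} (hA : 0 < A) (B : ℤ) : UNA_f n A B ≤ 1 := by
  classical
  unfold UNA_f
  by_cases h : ∃ C ∈ Icc (1 : ℤ) (4 * n : ℕ), B ^ 2 + (4 * n : ℕ) = 4 * A * C
  · obtain ⟨C0, hC0, h0⟩ := h
    rw [Finset.sum_eq_single_of_mem C0 hC0]
    · split_ifs <;> norm_num
    · intro C hC hne
      rw [if_neg]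
      rintro ⟨e1, -⟩
      apply hne
      have : 4 * A * C = 4 * A * C0 := by rw [← e1, ← h0]
      exact mul_left_cancel₀ (by positivity) this
  · push Not at h
    rw [Finset.sum_eq_zero]
    · norm_num
    · intro C hC
      rw [if_neg]
      rintro ⟨e1, -⟩
      exact h C hC e1

private theorem UNA_bound {n : ℕ} {a k : ℤ} (hk : 2 * |k| ≤ a) (hP : UNA_P n a k) : 3 * a ^ 2 ≤ 4 * n := by
  have h1 : (2 * |k|) ^ 2 ≤ a ^ 2 := by
    apply pow_le_pow_left₀ (by positivity) hk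
  rw [mul_pow, sq_abs] at h1
  have := hP.2
  linarith

private theorem UNA_f_one {n : ℕ} {a k : ℤ} (ha : 0 < a) (hk : 2 * |k| < a) (h1 : a ∣ n + k ^ 2)
    (h2 : a ^ 2 < n + k ^ 2) : UNA_f n a (2 * k) = 1 := by
  classical
  obtain ⟨C0, hC⟩ := h1
  have hb := UNA_bound (n := n) hk.le ⟨⟨C0, hC⟩, h2.le⟩
  have hCa : a < C0 := by
    by_contra hcon
    push Not at hcon
    have : a * C0 ≤ a * a := mul_le_mul_of_nonneg_left hcon ha.le
    nlinarith
  have hk2 : 4 * k ^ 2 ≤ a ^ 2 := by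
    have h1 : (2 * |k|) ^ 2 ≤ a ^ 2 := by
      apply pow_le_pow_left₀ (by positivity) hk.le
    rw [mul_pow, sq_abs] at h1
    linarith
  have hC4 : C0 ≤ 4 * n := by
    have : C0 ≤ a * C0 := by nlinarith
    nlinarith
  unfold UNA_f
  rw [Finset.sum_eq_single_of_mem C0]
  · rw [if_pos, if_neg, if_neg]
    · rintro ⟨h, -⟩; omega
    · rintro ⟨h, -⟩; omega
    · refine ⟨?_, ?_, hCa.le, ?_⟩
      · push_cast
        rw [mul_assoc, ← hC]; ring
      · rw [abs_mul]; simpa using hk.le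
      · rintro (h | h)
        · rw [abs_mul] at h
          simp at h
          omega
        · omega
  · rw [mem_Icc]
    push_cast
    constructor <;> omega
  · intro C hC' hne
    rw [if_neg]
    rintro ⟨e1, -⟩
    apply hne
    push_cast at e1
    have : a * C = a * C0 := by
      rw [← hC]; linarith
    exact mul_left_cancel₀ ha.ne' this

open Classical in
/-- the indicator of the pairs counted by `N0` -/
private noncomputable def UNA_g (n a : ℕ) (k : ℤ) : ℝ := if UNA_P n a k then 1 else 0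

open Classical in
/-- the indicator of the boundary pairs -/
private noncomputable def UNA_b (n a : ℕ) (k : ℤ) : ℝ :=
  if UNA_P n a k ∧ (2 * |k| = a ∨ (a : ℤ) ^ 2 = n + k ^ 2) then 1 else 0

private theorem UNA_N0 (n : ℕ) : N0 n = ∑ a ∈ Icc 1 (2 * n), ∑ k ∈ ks a, UNA_g n a k := by
  classical
  unfold N0 UNA_g UNA_P
  refine Finset.sum_congr rfl fun a _ => ?_
  rw [Finset.card_filter]
  push_cast
  refine Finset.sum_congr rfl fun k _ => ?_
  congr

private theorem UNA_mem_ks {a : ℕ} {k : ℤ} : k ∈ ks a ↔ 2 * |k| ≤ a := by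
  classical
  unfold ks
  rw [mem_filter, mem_Icc]
  constructor
  · exact fun h => h.2
  · intro h
    refine ⟨?_, h⟩
    have := neg_abs_le k
    have := le_abs_self k
    have := abs_nonneg k
    constructor <;> linarith

private theorem UNA_hur2 (n : ℕ) : hurwitz (4 * n) = ∑ a ∈ Icc 1 (2 * n), ∑ k ∈ ks a, UNA_f n a (2 * k) := by
  classical
  rw [UNA_hur]
  have h1 : ∑ A ∈ Icc (1 : ℤ) (4 * n : ℕ), ∑ B ∈ Icc (-((4 * n : ℕ) : ℤ)) (4 * n : ℕ), UNA_f n A B =
      ∑ A ∈ (Icc 1 (2 * n)).image (fun a : ℕ => (a : ℤ)),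
        ∑ B ∈ Icc (-((4 * n : ℕ) : ℤ)) (4 * n : ℕ), UNA_f n A B := by
    symm
    apply Finset.sum_subset
    · intro A hA
      rw [mem_image] at hA
      obtain ⟨a, ha, rfl⟩ := hA
      rw [mem_Icc] at ha ⊢
      push_cast
      constructor <;> omega
    · intro A hA hnot
      apply Finset.sum_eq_zero
      intro B _
      by_contra hne
      obtain ⟨k, hB, hk, hP⟩ := UNA_f_zero hne
      apply hnot
      have hb := UNA_bound hk hP
      rw [mem_Icc] at hA
      rw [mem_image]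
      refine ⟨A.toNat, ?_, ?_⟩
      · rw [mem_Icc]
        have h0 : (A.toNat : ℤ) = A := Int.toNat_of_nonneg (by omega)
        constructor
        · omega
        · by_contra hcon
          push Not at hcon
          have h3 : (2 * n : ℤ) < A := by
            rw [← h0]; exact_mod_cast hcon
          have h4 : (0 : ℤ) ≤ n := by positivity
          nlinarith
      · exact Int.toNat_of_nonneg (by omega)
  rw [h1, Finset.sum_image (fun x _ y _ h => by exact_mod_cast h)]
  refine Finset.sum_congr rfl fun a ha => ?_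
  rw [mem_Icc] at ha
  have h2 : ∑ B ∈ Icc (-((4 * n : ℕ) : ℤ)) (4 * n : ℕ), UNA_f n a B =
      ∑ B ∈ (ks a).image (fun k : ℤ => 2 * k), UNA_f n a B := by
    symm
    apply Finset.sum_subset
    · intro B hB
      rw [mem_image] at hB
      obtain ⟨k, hk, rfl⟩ := hB
      rw [UNA_mem_ks] at hk
      rw [mem_Icc]
      have := neg_abs_le k
      have := le_abs_self k
      have := abs_nonneg k
      push_cast
      constructor <;> omega
    · intro B hB hnot
      by_contra hne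
      obtain ⟨k, hB, hk, hP⟩ := UNA_f_zero hne
      apply hnot
      rw [mem_image]
      exact ⟨k, UNA_mem_ks.2 hk, hB.symm⟩
  rw [h2, Finset.sum_image (fun x _ y _ h => by simpa using h)]

private theorem UNA_diff_term {n a : ℕ} (ha : 1 ≤ a) {k : ℤ} (hk : k ∈ ks a) :
    |UNA_f n a (2 * k) - UNA_g n a k| ≤ UNA_b n a k := by
  classical
  rw [UNA_mem_ks] at hk
  have ha' : (0 : ℤ) < a := by exact_mod_cast ha
  unfold UNA_g UNA_b
  by_cases hP : UNA_P n a k
  · rw [if_pos hP]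
    by_cases hb : 2 * |k| = a ∨ (a : ℤ) ^ 2 = n + k ^ 2
    · rw [if_pos ⟨hP, hb⟩, abs_le]
      have h1 := UNA_f_nonneg n a (2 * k)
      have h2 := UNA_f_le n ha' (2 * k)
      constructor <;> linarith
    · push Not at hb
      rw [if_neg (fun h => by rcases h.2 with h | h; exacts [hb.1 h, hb.2 h]),
        UNA_f_one ha' (lt_of_le_of_ne hk hb.1) hP.1 (lt_of_le_of_ne hP.2 hb.2)]
      simp
  · rw [if_neg hP, if_neg (fun h => hP h.1)]
    have : UNA_f n a (2 * k) = 0 := by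
      by_contra hne
      obtain ⟨k', hB, hk', hP'⟩ := UNA_f_zero hne
      have : k = k' := by linarith
      rw [← this] at hP'
      exact hP hP'
    rw [this]
    simp

/-- the number of boundary pairs -/
private noncomputable def UNA_bd (n : ℕ) : ℝ := ∑ a ∈ Icc 1 (2 * n), ∑ k ∈ ks a, UNA_b n a k

private theorem UNA_diff (n : ℕ) : |hurwitz (4 * n) - N0 n| ≤ UNA_bd n := by
  rw [UNA_hur2, UNA_N0, ← Finset.sum_sub_distrib]
  unfold UNA_bd
  refine (Finset.abs_sum_le_sum_abs _ _).trans (Finset.sum_le_sum fun a ha => ?_)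
  rw [← Finset.sum_sub_distrib]
  refine (Finset.abs_sum_le_sum_abs _ _).trans (Finset.sum_le_sum fun k hk => ?_)
  exact UNA_diff_term (mem_Icc.1 ha).1 hk

private theorem UNA_b_nonneg (n a : ℕ) (k : ℤ) : 0 ≤ UNA_b n a k := by
  unfold UNA_b
  split_ifs <;> norm_num

/-- the first kind of boundary pairs -/
private theorem UNA_one {n : ℕ} (hn : 1 ≤ n) (S : Finset (Σ _ : ℕ, ℤ))
    (hS : ∀ x ∈ S, 1 ≤ x.1 ∧ (x.1 : ℤ) ∣ n + x.2 ^ 2 ∧ 2 * |x.2| = x.1) : S.card ≤ 2 * n.divisors.card := by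
  classical
  have h1 : S.card ≤ (n.divisors ×ˢ (univ : Finset Bool)).card := by
    apply Finset.card_le_card_of_injOn (fun x => (x.2.natAbs, decide (0 ≤ x.2)))
    · intro x hx
      obtain ⟨-, h2, h3⟩ := hS x hx
      simp only [coe_product, Set.mem_prod, mem_coe, Nat.mem_divisors, mem_univ, and_true]
      refine ⟨?_, by omega⟩
      have h4 : |x.2| ∣ (x.1 : ℤ) := ⟨2, by rw [← h3]; ring⟩
      have h5 : |x.2| ∣ x.2 ^ 2 := by
        rw [← sq_abs]
        exact dvd_pow_self _ (by norm_num)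
      have h6 : |x.2| ∣ (n : ℤ) := (dvd_add_left h5).1 (h4.trans h2)
      rw [Int.abs_eq_natAbs] at h6
      exact_mod_cast h6
    · intro x hx y hy hxy
      have hx' := hS x hx
      have hy' := hS y hy
      simp only [Prod.mk.injEq, decide_eq_decide] at hxy
      obtain ⟨e1, e2⟩ := hxy
      have e3 : x.2 = y.2 := by omega
      have e4 : x.1 = y.1 := by
        have h7 := hx'.2.2
        rw [e3, hy'.2.2] at h7
        exact_mod_cast h7.symm
      exact Sigma.ext e4 (heq_of_eq e3)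
  rw [card_product, card_univ, Fintype.card_bool] at h1
  omega

/-- the second kind of boundary pairs -/
private theorem UNA_two {n : ℕ} (hn : 1 ≤ n) (S : Finset (Σ _ : ℕ, ℤ))
    (hS : ∀ x ∈ S, 2 * |x.2| ≤ x.1 ∧ (x.1 : ℤ) ^ 2 = n + x.2 ^ 2) : S.card ≤ 2 * n.divisors.card := by
  classical
  have key : ∀ x ∈ S, x.2.natAbs ≤ x.1 ∧ n = (x.1 - x.2.natAbs) * (x.1 + x.2.natAbs) := by
    intro x hx
    obtain ⟨h1, h2⟩ := hS x hx
    have h3 : x.2.natAbs ≤ x.1 := by
      rw [Int.abs_eq_natAbs] at h1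
      omega
    refine ⟨h3, ?_⟩
    have h4 : (n : ℤ) = ((x.1 : ℤ) - |x.2|) * (x.1 + |x.2|) := by
      have h5 : ((x.1 : ℤ) - |x.2|) * (x.1 + |x.2|) = (x.1 : ℤ) ^ 2 - |x.2| ^ 2 := by ring
      rw [h5, sq_abs, h2]
      ring
    rw [Int.abs_eq_natAbs] at h4
    have h6 : ((x.1 - x.2.natAbs : ℕ) : ℤ) = (x.1 : ℤ) - x.2.natAbs := Nat.cast_sub h3
    rw [← h6] at h4
    exact_mod_cast h4
  have h1 : S.card ≤ (n.divisors ×ˢ (univ : Finset Bool)).card := by
    apply Finset.card_le_card_of_injOn (fun x => (x.1 - x.2.natAbs, decide (0 ≤ x.2)))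
    · intro x hx
      obtain ⟨-, h3⟩ := key x hx
      simp only [coe_product, Set.mem_prod, mem_coe, Nat.mem_divisors, mem_univ, and_true]
      exact ⟨⟨_, h3⟩, by omega⟩
    · intro x hx y hy hxy
      obtain ⟨hx1, hx2⟩ := key x hx
      obtain ⟨hy1, hy2⟩ := key y hy
      simp only [Prod.mk.injEq, decide_eq_decide] at hxy
      obtain ⟨e1, e2⟩ := hxy
      have e0 : 0 < x.1 - x.2.natAbs := by
        rcases Nat.eq_zero_or_pos (x.1 - x.2.natAbs) with h | h
        · rw [h, zero_mul] at hx2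
          omega
        · exact h
      have e3 : x.1 + x.2.natAbs = y.1 + y.2.natAbs := by
        rw [← e1] at hy2
        rw [hy2] at hx2
        exact (Nat.eq_of_mul_eq_mul_left e0 hx2).symm
      have e4 : x.1 = y.1 := by omega
      have e5 : x.2 = y.2 := by omega
      exact Sigma.ext e4 (heq_of_eq e5)
  rw [card_product, card_univ, Fintype.card_bool] at h1
  omega

private theorem UNA_bd_le {n : ℕ} (hn : 1 ≤ n) : UNA_bd n ≤ 4 * (n.divisors.card : ℝ) := by
  classical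
  set U : Finset (Σ _ : ℕ, ℤ) := (Icc 1 (2 * n)).sigma fun a => ks a with hU
  set S1 := U.filter (fun x => UNA_P n x.1 x.2 ∧ 2 * |x.2| = (x.1 : ℤ)) with hS1
  set S2 := U.filter (fun x => UNA_P n x.1 x.2 ∧ (x.1 : ℤ) ^ 2 = n + x.2 ^ 2) with hS2
  have h1 : UNA_bd n ≤ (S1.card : ℝ) + S2.card := by
    unfold UNA_bd
    rw [Finset.sum_sigma', ← hU]
    have h2 : ∀ x ∈ U, UNA_b n x.1 x.2 ≤ (if UNA_P n x.1 x.2 ∧ 2 * |x.2| = (x.1 : ℤ) then (1 : ℝ) else 0) +
        (if UNA_P n x.1 x.2 ∧ (x.1 : ℤ) ^ 2 = n + x.2 ^ 2 then (1 : ℝ) else 0) := by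
      intro x _
      unfold UNA_b
      split_ifs <;> first | (exfalso; tauto) | norm_num
    refine (Finset.sum_le_sum h2).trans ?_
    rw [Finset.sum_add_distrib, ← Finset.sum_filter, ← Finset.sum_filter, Finset.sum_const,
      Finset.sum_const, nsmul_eq_mul, nsmul_eq_mul, mul_one, mul_one]
  have h3 : S1.card ≤ 2 * n.divisors.card := by
    refine UNA_one hn S1 fun x hx => ?_
    rw [hS1, mem_filter, hU, mem_sigma, mem_Icc] at hx
    exact ⟨hx.1.1.1, hx.2.1.1, hx.2.2⟩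
  have h4 : S2.card ≤ 2 * n.divisors.card := by
    refine UNA_two hn S2 fun x hx => ?_
    rw [hS2, mem_filter, hU, mem_sigma] at hx
    exact ⟨UNA_mem_ks.1 hx.1.2, hx.2.2⟩
  have h5 : (S1.card : ℝ) ≤ 2 * n.divisors.card := by exact_mod_cast h3
  have h6 : (S2.card : ℝ) ≤ 2 * n.divisors.card := by exact_mod_cast h4
  linarith

theorem hur_N0 (n : ℕ) (hn : 1 ≤ n) : |hurwitz (4 * n) - N0 n| ≤ 4 * (n.divisors.card : ℝ) :=
  (UNA_diff n).trans (UNA_bd_le hn)

end Pool.Agent.HAE
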