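import Pool.Agent.HAE.BLK

/-!
# HAE-UNI: all blocks

PROOF.  It is enough to treat large `X` (enlarge `C`).  `L = log X`.  Primes `p ≤ X/L^A`: at most `X/L^A`.  The rest of `(0, X]` is covered by blocks `(N, N + K]`, `N ≥ X/L^A - 1`, all with the same `K = ⌊X/L^(5A+7)⌋`, at most
`2 L^(5A+7)` of them (`N = N₀ + i K`).  `block` with `2A` and `ε/2`: `K ≤ N/log^(4A+6) N` because `N ≥ X/(2 L^A)`; each block has at most `C N/log^(6A+8) N ≤ C' X/L^(6A+8)` exceptions; total `≤ C'' X/L^(A+1)`.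
For `p` in the block `|(π²/12) (p - N) SS p| ≤ (π²/12) K C ≤ (ε/2) N` for large `X` (`SS_bound`), so `ε p < |F p - (π²/12) p SS p|` implies `(ε/2) N < |F p - (π²/12) N SS p|`.
-/

set_option autoImplicit false

open Finset Filter Topology
open Pool.Agent.HAV
open Pool.Agent.helper66.VK (ee)

namespace Pool.Agent.HAE

theorem uni_ev (n : ℕ) (c : ℝ) : ∀ᶠ X : ℕ in atTop, c * Real.log X ^ n ≤ X := by
  have h := (Real.isLittleO_pow_log_id_atTop (n := n)).comp_tendsto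
    (tendsto_natCast_atTop_atTop (R := ℝ))
  have hc : (0:ℝ) < 1 / (|c| + 1) := by positivity
  have h2 := h.def hc
  filter_upwards [h2, eventually_ge_atTop 1] with X hX h1
  simp only [Function.comp_apply, id_eq, Real.norm_eq_abs, Nat.abs_cast] at hX
  have hl : 0 ≤ Real.log X ^ n := pow_nonneg (Real.log_natCast_nonneg X) n
  rw [abs_of_nonneg hl, one_div, inv_mul_eq_div, le_div_iff₀ (by positivity)] at hX
  have h3 : c * Real.log X ^ n ≤ (|c| + 1) * Real.log X ^ n :=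
    mul_le_mul_of_nonneg_right (by linarith [le_abs_self c]) hl
  linarith

theorem uni_log (c : ℝ) : ∀ᶠ X : ℕ in atTop, c ≤ Real.log X :=
  (Real.tendsto_log_atTop.comp (tendsto_natCast_atTop_atTop (R := ℝ))).eventually_ge_atTop c

/-- half of the floor -/
theorem uni_floor {x : ℝ} (hx : 2 ≤ x) : x / 2 ≤ (⌊x⌋₊ : ℝ) := by
  have := Nat.lt_floor_add_one x
  linarith

/-- transfer of the deviation from `p` to the left end of the block -/
theorem uni_dev {ε C2 : ℝ} {N K p : ℕ} (hC2 : |SS p| ≤ C2) (hNp : N < p) (hpK : p ≤ N + K)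
    (hK : (K : ℝ) * C2 ≤ ε / 2 * N) (hε : 0 < ε)
    (h : ε * p < |F p - Real.pi ^ 2 / 12 * p * SS p|) :
    ε / 2 * N < |F p - Real.pi ^ 2 / 12 * N * SS p| := by
  have hpi : Real.pi ^ 2 / 12 ≤ 1 := by nlinarith [Real.pi_lt_d2, Real.pi_pos]
  have hpi0 : 0 ≤ Real.pi ^ 2 / 12 := by positivity
  have h1 : F p - Real.pi ^ 2 / 12 * p * SS p = (F p - Real.pi ^ 2 / 12 * N * SS p) -
      Real.pi ^ 2 / 12 * ((p : ℝ) - N) * SS p := by ring
  have hp1 : (N : ℝ) < p := by exact_mod_cast hNp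
  have hp2 : (p : ℝ) ≤ N + K := by exact_mod_cast hpK
  have h2 : |Real.pi ^ 2 / 12 * ((p : ℝ) - N) * SS p| ≤ ε / 2 * N := by
    rw [abs_mul, abs_mul, abs_of_nonneg hpi0, abs_of_nonneg (by linarith : (0:ℝ) ≤ (p : ℝ) - N)]
    have h3 : Real.pi ^ 2 / 12 * ((p : ℝ) - N) * |SS p| ≤ 1 * (K : ℝ) * C2 := by
      have h4 : Real.pi ^ 2 / 12 * ((p : ℝ) - N) ≤ 1 * (K : ℝ) :=
        mul_le_mul hpi (by linarith) (by linarith) zero_le_one
      exact mul_le_mul h4 hC2 (abs_nonneg _) (by positivity)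
    linarith
  have h5 := abs_sub (F p - Real.pi ^ 2 / 12 * N * SS p) (Real.pi ^ 2 / 12 * ((p : ℝ) - N) * SS p)
  rw [← h1] at h5
  have h6 : ε * N < ε * p := mul_lt_mul_of_pos_left hp1 hε
  linarith

open Classical in
theorem almost_all (A : ℕ) (ε : ℝ) (hε : 0 < ε) : ∃ C : ℝ, 0 ≤ C ∧ ∀ X : ℕ, 2 ≤ X →
    (((pr X).filter (fun p => ε * p < |F p - Real.pi ^ 2 / 12 * p * SS p|)).card : ℝ) ≤
      C * X / Real.log X ^ A := by
  obtain ⟨C1, hC1, x0, hB⟩ := block (2 * A) (ε / 2) (by positivity)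
  obtain ⟨C2, hC2, hS⟩ := SS_bound
  have ev : ∀ᶠ X : ℕ in atTop, 2 ≤ Real.log X ∧ 4 * C2 / ε ≤ Real.log X ∧
      2 * Real.log X ^ (5 * A + 7) ≤ X ∧ 2 * ((x0 : ℝ) + 1) * Real.log X ^ A ≤ X ∧
      4 * Real.log X ^ (2 * A) ≤ X :=
    (uni_log 2).and ((uni_log _).and ((uni_ev _ _).and ((uni_ev _ _).and (uni_ev _ _))))
  obtain ⟨X1, hX1⟩ := eventually_atTop.mp ev
  refine ⟨max (Real.log X1 ^ A) (1 + 3 * (C1 * 2 ^ (3 * (2 * A) + 8))), ?_, ?_⟩
  · exact le_max_of_le_left (pow_nonneg (Real.log_natCast_nonneg X1) A)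
  intro X hX
  have hX0 : (0:ℝ) < X := by positivity
  have hXr : (2:ℝ) ≤ X := by exact_mod_cast hX
  have hL0 : 0 < Real.log X := Real.log_pos (by linarith)
  by_cases hXX : X < X1
  · have h1 : (((pr X).filter (fun p => ε * p < |F p - Real.pi ^ 2 / 12 * p * SS p|)).card : ℝ) ≤ X := by
      have h2 : ((pr X).filter (fun p => ε * p < |F p - Real.pi ^ 2 / 12 * p * SS p|)).card ≤
          (Icc 1 X).card := card_le_card ((filter_subset _ _).trans (filter_subset _ _))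
      rw [Nat.card_Icc, Nat.add_sub_cancel] at h2
      exact_mod_cast h2
    refine h1.trans ?_
    rw [le_div_iff₀ (pow_pos hL0 A), mul_comm]
    refine mul_le_mul_of_nonneg_right (le_trans ?_ (le_max_left _ _)) hX0.le
    exact pow_le_pow_left₀ hL0.le (Real.log_le_log hX0 (by exact_mod_cast hXX.le)) A
  obtain ⟨hL2, hLC, hK2, hN2, hX4⟩ := hX1 X (not_lt.mp hXX)
  obtain ⟨L, hLdef⟩ : ∃ L : ℝ, L = Real.log X := ⟨_, rfl⟩
  rw [← hLdef] at hL2 hLC hK2 hN2 hX4 hL0 ⊢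
  have hLA : 0 < L ^ A := pow_pos hL0 A
  have hL57 : 0 < L ^ (5 * A + 7) := pow_pos hL0 _
  have hL1 : 1 ≤ L := by linarith
  -- the parameters
  obtain ⟨N0, hN0⟩ : ∃ N0 : ℕ, N0 = ⌊(X : ℝ) / L ^ A⌋₊ := ⟨_, rfl⟩
  obtain ⟨K, hK⟩ : ∃ K : ℕ, K = ⌊(X : ℝ) / L ^ (5 * A + 7)⌋₊ := ⟨_, rfl⟩
  have hx0 : (0:ℝ) ≤ x0 := Nat.cast_nonneg _
  have hN0u : (N0 : ℝ) ≤ X / L ^ A := by
    rw [hN0]
    exact Nat.floor_le (by positivity)
  have hN0l : (X : ℝ) / L ^ A / 2 ≤ N0 := by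
    rw [hN0]
    refine uni_floor ?_
    rw [le_div_iff₀ hLA]
    nlinarith
  have hKu : (K : ℝ) ≤ X / L ^ (5 * A + 7) := by
    rw [hK]
    exact Nat.floor_le (by positivity)
  have hKl : (X : ℝ) / L ^ (5 * A + 7) / 2 ≤ K := by
    rw [hK]
    refine uni_floor ?_
    rwa [le_div_iff₀ hL57]
  have hN0x : (x0 : ℝ) + 1 ≤ N0 := by
    refine le_trans ?_ hN0l
    rw [le_div_iff₀ two_pos, le_div_iff₀ hLA]
    linarith
  have hK0 : (0:ℝ) < K := lt_of_lt_of_le (by positivity) hKl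
  have hKn : 0 < K := by exact_mod_cast hK0
  obtain ⟨M, hM⟩ : ∃ M : ℕ, M = (X - 1 - N0) / K + 1 := ⟨_, rfl⟩
  obtain ⟨B, hBdef⟩ : ∃ B : ℝ, B = C1 * X / (L / 2) ^ (3 * (2 * A) + 8) := ⟨_, rfl⟩
  have hB0 : 0 ≤ B := by rw [hBdef]; positivity
  -- one block
  have hblk : ∀ i ∈ range M, N0 + i * K < X →
      (((Ioc (N0 + i * K) (N0 + i * K + K)).filter (fun p => p.Prime ∧
        ε / 2 * ((N0 + i * K : ℕ) : ℝ) < |F p - Real.pi ^ 2 / 12 * ((N0 + i * K : ℕ) : ℝ) * SS p|)).card : ℝ) ≤ B ∧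
      (K : ℝ) * C2 ≤ ε / 2 * ((N0 + i * K : ℕ) : ℝ) := by
    intro i _ hiX
    obtain ⟨N, hN⟩ : ∃ N : ℕ, N = N0 + i * K := ⟨_, rfl⟩
    rw [← hN] at hiX ⊢
    have hNN : N0 ≤ N := by rw [hN]; exact Nat.le_add_right _ _
    have hNr : (N0 : ℝ) ≤ N := by exact_mod_cast hNN
    have hNX : (N : ℝ) ≤ X := by exact_mod_cast hiX.le
    have hNl : (X : ℝ) / L ^ A / 2 ≤ N := hN0l.trans hNr
    have hNx : x0 ≤ N := by
      have : (x0 : ℝ) ≤ N := by linarith
      exact_mod_cast this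
    have hNp : (0:ℝ) < N := by linarith
    have hlu : Real.log N ≤ L := by
      rw [hLdef]
      exact Real.log_le_log hNp hNX
    have hll : L / 2 ≤ Real.log N := by
      have h1 : (X : ℝ) ≤ (N : ℝ) ^ 2 := by
        have h2 : ((X : ℝ) / L ^ A / 2) ^ 2 ≤ (N : ℝ) ^ 2 := pow_le_pow_left₀ (by positivity) hNl 2
        refine le_trans ?_ h2
        rw [div_pow, div_pow, ← pow_mul, mul_comm A 2, le_div_iff₀ (by positivity),
          le_div_iff₀ (by positivity)]
        nlinarith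
      have h3 := Real.log_le_log hX0 h1
      rw [Real.log_pow, ← hLdef] at h3
      push_cast at h3
      linarith
    have hlp : 0 < Real.log N := by linarith
    have hcond : (K : ℝ) ≤ N / Real.log N ^ (2 * (2 * A) + 6) := by
      rw [le_div_iff₀ (pow_pos hlp _)]
      have h1 : (K : ℝ) * Real.log N ^ (2 * (2 * A) + 6) ≤
          X / L ^ (5 * A + 7) * L ^ (2 * (2 * A) + 6) :=
        mul_le_mul hKu (pow_le_pow_left₀ hlp.le hlu _) (by positivity) (by positivity)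
      have h2 : (X : ℝ) / L ^ (5 * A + 7) * L ^ (2 * (2 * A) + 6) = X / L ^ A / L := by
        have : L ^ (5 * A + 7) = L ^ A * L * L ^ (2 * (2 * A) + 6) := by ring
        rw [this]
        field_simp
      have h3 : (X : ℝ) / L ^ A / L ≤ X / L ^ A / 2 :=
        div_le_div_of_nonneg_left (by positivity) two_pos hL2
      linarith
    constructor
    · have h1 := hB N hNx K hKn hcond
      refine h1.trans ?_
      rw [hBdef]
      refine div_le_div₀ (by positivity) (mul_le_mul_of_nonneg_left hNX hC1) (by positivity) ?_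
      exact pow_le_pow_left₀ (by positivity) hll _
    · -- `K C2 ≤ (ε/2) N`
      have h1 : (K : ℝ) ≤ 2 * N / L := by
        refine hKu.trans ?_
        have h2 : (X : ℝ) / L ^ (5 * A + 7) ≤ X / L ^ A / L := by
          rw [div_div]
          refine div_le_div_of_nonneg_left hX0.le (by positivity) ?_
          rw [← pow_succ]
          exact pow_le_pow_right₀ hL1 (by omega)
        have h3 : (X : ℝ) / L ^ A / L ≤ 2 * N / L :=
          div_le_div_of_nonneg_right (by linarith) hL0.le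
        exact h2.trans h3
      have h4 : (K : ℝ) * C2 ≤ 2 * N / L * C2 := mul_le_mul_of_nonneg_right h1 hC2
      refine h4.trans ?_
      rw [div_le_iff₀ hε] at hLC
      rw [div_mul_eq_mul_div, div_le_iff₀ hL0]
      nlinarith
  -- the covering
  have hcov : (pr X).filter (fun p => ε * p < |F p - Real.pi ^ 2 / 12 * p * SS p|) ⊆
      Icc 1 N0 ∪ ((range M).filter (fun i => N0 + i * K < X)).biUnion (fun i =>
        (Ioc (N0 + i * K) (N0 + i * K + K)).filter (fun p => p.Prime ∧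
        ε / 2 * ((N0 + i * K : ℕ) : ℝ) < |F p - Real.pi ^ 2 / 12 * ((N0 + i * K : ℕ) : ℝ) * SS p|)) := by
    intro p hp
    rw [mem_filter, pr, mem_filter, mem_Icc] at hp
    obtain ⟨⟨⟨hp1, hpX⟩, hpp⟩, hpe⟩ := hp
    rw [mem_union]
    by_cases hpN : p ≤ N0
    · left
      exact mem_Icc.mpr ⟨hp1, hpN⟩
    · right
      rw [not_le] at hpN
      obtain ⟨i, hi⟩ : ∃ i : ℕ, i = (p - 1 - N0) / K := ⟨_, rfl⟩
      have h1 : i * K ≤ p - 1 - N0 := by
        rw [hi]
        exact Nat.div_mul_le_self _ _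
      have h2 : p - 1 - N0 < i * K + K := by
        have := Nat.lt_div_mul_add (a := p - 1 - N0) hKn
        rw [← hi] at this
        linarith [this]
      have h3 : N0 + i * K < p := by omega
      have h4 : p ≤ N0 + i * K + K := by omega
      have h5 : N0 + i * K < X := by omega
      have h6 : i ∈ range M := by
        rw [mem_range, hM, hi, Nat.lt_succ_iff]
        exact Nat.div_le_div_right (by omega)
      refine mem_biUnion.mpr ⟨i, mem_filter.mpr ⟨h6, h5⟩, mem_filter.mpr ⟨mem_Ioc.mpr ⟨h3, h4⟩, hpp, ?_⟩⟩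
      exact uni_dev (hS p) h3 h4 (hblk i h6 h5).2 hε hpe
  have hcard : (((pr X).filter (fun p => ε * p < |F p - Real.pi ^ 2 / 12 * p * SS p|)).card : ℝ) ≤
      N0 + M * B := by
    have h1 := card_le_card hcov
    have h2 := card_union_le (Icc 1 N0) (((range M).filter (fun i => N0 + i * K < X)).biUnion (fun i =>
        (Ioc (N0 + i * K) (N0 + i * K + K)).filter (fun p => p.Prime ∧
        ε / 2 * ((N0 + i * K : ℕ) : ℝ) < |F p - Real.pi ^ 2 / 12 * ((N0 + i * K : ℕ) : ℝ) * SS p|)))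
    rw [Nat.card_Icc, Nat.add_sub_cancel] at h2
    have h3 := h1.trans (h2.trans (Nat.add_le_add_left (card_biUnion_le) N0))
    have h4 : (((pr X).filter (fun p => ε * p < |F p - Real.pi ^ 2 / 12 * p * SS p|)).card : ℝ) ≤
      (N0 : ℝ) + ∑ i ∈ (range M).filter (fun i => N0 + i * K < X),
        (((Ioc (N0 + i * K) (N0 + i * K + K)).filter (fun p => p.Prime ∧
        ε / 2 * ((N0 + i * K : ℕ) : ℝ) < |F p - Real.pi ^ 2 / 12 * ((N0 + i * K : ℕ) : ℝ) * SS p|)).card : ℝ) := by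
      exact_mod_cast h3
    refine h4.trans (add_le_add_right ?_ _)
    have h5 : ∑ i ∈ (range M).filter (fun i => N0 + i * K < X),
        (((Ioc (N0 + i * K) (N0 + i * K + K)).filter (fun p => p.Prime ∧
        ε / 2 * ((N0 + i * K : ℕ) : ℝ) < |F p - Real.pi ^ 2 / 12 * ((N0 + i * K : ℕ) : ℝ) * SS p|)).card : ℝ) ≤
        ∑ _i ∈ (range M).filter (fun i => N0 + i * K < X), B :=
      sum_le_sum (fun i hi => (hblk i (mem_filter.mp hi).1 (mem_filter.mp hi).2).1)
    refine h5.trans ?_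
    rw [sum_const, nsmul_eq_mul]
    refine mul_le_mul_of_nonneg_right ?_ hB0
    have h6 : ((range M).filter (fun i => N0 + i * K < X)).card ≤ (range M).card :=
      card_le_card (filter_subset _ _)
    rw [card_range] at h6
    exact_mod_cast h6
  -- number of blocks
  have hMb : (M : ℝ) ≤ 3 * L ^ (5 * A + 7) := by
    have h1 : (((X - 1 - N0) / K : ℕ) : ℝ) ≤ ((X - 1 - N0 : ℕ) : ℝ) / K := Nat.cast_div_le
    have h2 : ((X - 1 - N0 : ℕ) : ℝ) / K ≤ X / K :=
      div_le_div_of_nonneg_right (by exact_mod_cast (by omega : X - 1 - N0 ≤ X)) hK0.le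
    have h3 : (X : ℝ) / K ≤ 2 * L ^ (5 * A + 7) := by
      rw [div_le_iff₀ hK0]
      rw [div_div, div_le_iff₀ (by positivity)] at hKl
      linarith
    have h4 : 1 ≤ L ^ (5 * A + 7) := one_le_pow₀ hL1
    rw [hM]
    push_cast
    linarith
  refine hcard.trans ?_
  have hfin : (M : ℝ) * B ≤ 3 * (C1 * 2 ^ (3 * (2 * A) + 8)) * X / L ^ A := by
    have h1 : (M : ℝ) * B ≤ 3 * L ^ (5 * A + 7) * B := mul_le_mul_of_nonneg_right hMb hB0
    refine h1.trans ?_
    have h2 : 3 * L ^ (5 * A + 7) * B = 3 * (C1 * 2 ^ (3 * (2 * A) + 8)) * X / L ^ A / L := by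
      rw [hBdef, div_pow]
      have : L ^ (3 * (2 * A) + 8) = L ^ A * L * L ^ (5 * A + 7) := by ring
      rw [this]
      field_simp
    rw [h2]
    refine div_le_self (by positivity) hL1
  calc (N0 : ℝ) + M * B ≤ X / L ^ A + 3 * (C1 * 2 ^ (3 * (2 * A) + 8)) * X / L ^ A :=
        add_le_add hN0u hfin
    _ = (1 + 3 * (C1 * 2 ^ (3 * (2 * A) + 8))) * X / L ^ A := by ring
    _ ≤ _ := by
        refine div_le_div_of_nonneg_right ?_ hLA.le
        exact mul_le_mul_of_nonneg_right (le_max_right _ _) hX0.le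

end Pool.Agent.HAE
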